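import Pool.Agent.P.MP_7a8567_an.T.Cl0

/-! Independence over a set. -/

set_option autoImplicit false

noncomputable section

namespace Ivrii.T

variable {k : Type*} [Field k] {A : Type*} [CommRing A] [IsDomain A] [Algebra k A]
  {A' : Type*} [CommRing A'] [IsDomain A'] [Algebra k A']

theorem ind_iff_contract {N I : Set A} :
    Ind k N I ↔ ((AlgebraicIndependent.matroid k A).contract N).Indep I := by
  rw [Matroid.indep_iff_forall_notMem_closure_sdiff']
  simp only [Matroid.contract_closure_eq, Matroid.contract_ground, AlgebraicIndependent.matroid_e,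
    ← cl_eq_closure]
  constructor
  · intro h
    exact ⟨fun y hy => ⟨trivial, fun hN => h y hy (mem_cl (Or.inl hN))⟩,
      fun y hy hc => h y hy (by rw [Set.union_comm]; exact hc.1)⟩
  · rintro ⟨h1, h2⟩ y hy hc
    exact h2 y hy ⟨by rw [Set.union_comm]; exact hc, (h1 hy).2⟩

theorem ind_iff {N I : Set A} (R : Subalgebra k A) (h1 : N ⊆ R) (h2 : (R : Set A) ⊆ cl k N) :
    Ind k N I ↔ AlgebraicIndependent R ((↑) : I → A) := by
  have key : ∀ (S : Set A) (a : A),
      a ∈ (AlgebraicIndependent.matroid R A).closure S ↔ a ∈ cl k (N ∪ S) := by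
    intro S a
    have e : cl k (N ∪ S) = cl k ((R : Set A) ∪ S) :=
      (cl_mono (Set.union_subset_union_left _ h1)).antisymm (cl_subset_cl (Set.union_subset
        (h2.trans (cl_mono Set.subset_union_left)) (Set.subset_union_right.trans (subset_cl _))))
    rw [e, AlgebraicIndependent.matroid_closure_eq, SetLike.mem_coe,
      Subalgebra.mem_algebraicClosure, cl, Set.mem_ofPred_eq,
      Algebra.adjoin_union, Algebra.adjoin_eq, ← Subalgebra.range_val R]
    have e2 := Algebra.Subalgebra.restrictScalars_adjoin k (S := R) (s := S)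
    change _ ↔ IsAlgebraic ↥((IsScalarTower.toAlgHom k R A).range ⊔ Algebra.adjoin k S) a
    rw [← e2]
    rw [Subalgebra.range_val R]
    rfl
  change _ ↔ (AlgebraicIndependent.matroid R A).Indep I
  rw [Matroid.indep_iff_forall_notMem_closure_sdiff']
  simp only [key, AlgebraicIndependent.matroid_e, Set.subset_univ, true_and]
  rfl

theorem Ind.mono {N N' I I' : Set A} (h : Ind k N I) (hN : N' ⊆ cl k N) (hI : I' ⊆ I) :
    Ind k N' I' := by
  intro y hy hc
  refine h y (hI hy) (cl_subset_cl ?_ hc)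
  rintro x (hx | hx)
  · exact cl_mono Set.subset_union_left (hN hx)
  · exact mem_cl (Or.inr ⟨hI hx.1, hx.2⟩)

theorem Ind.insert {N I : Set A} (h : Ind k N I) {a : A} (ha : a ∉ cl k (N ∪ I)) :
    Ind k N (insert a I) := by
  intro y hy hc
  by_cases hya : y = a
  · subst hya
    refine ha (cl_mono ?_ hc)
    rintro x (hx | ⟨hx | hx, hx'⟩)
    exacts [Or.inl hx, (hx' hx).elim, Or.inr hx]
  · have hyI : y ∈ I := hy.resolve_left hya
    have h1 : y ∈ cl k (Insert.insert a (N ∪ (I \ {y}))) := by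
      refine cl_mono ?_ hc
      rintro x (hx | ⟨hx | hx, hx'⟩)
      exacts [Or.inr (Or.inl hx), Or.inl hx, Or.inr (Or.inr ⟨hx, hx'⟩)]
    refine ha (cl_mono ?_ (cl_exchange h1 (h y hyI)))
    rintro x (rfl | hx | hx)
    exacts [Or.inr hyI, Or.inl hx, Or.inr hx.1]

theorem ind_of_finite {N I : Set A} (h : ∀ J ⊆ I, J.Finite → Ind k N J) : Ind k N I := by
  intro y hy hc
  obtain ⟨T, hT, hf, hyT⟩ := cl_finite hc
  refine h (insert y (T ∩ I)) (Set.insert_subset hy Set.inter_subset_right)
    ((hf.inter_of_left I).insert y) y (Set.mem_insert _ _) (cl_mono (fun x hx => ?_) hyT)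
  rcases hT hx with h1 | h1
  exacts [Or.inl h1, Or.inr ⟨Or.inr ⟨hx, h1.1⟩, h1.2⟩]

theorem ind_pair {N : Set A} {a b : A} (ha : a ∉ cl k N) (hb : b ∉ cl k (insert a N)) :
    Ind k N {a, b} ∧ a ≠ b := by
  have h0 : Ind k N {a} := by
    rintro y rfl
    simpa using ha
  have h1 := h0.insert (a := b) (by rwa [Set.union_singleton])
  refine ⟨by rwa [Set.pair_comm], ?_⟩
  rintro rfl
  exact hb (mem_cl (Set.mem_insert _ _))

theorem pair_symm {N : Set A} {a b : A} (ha : a ∉ cl k N) (hb : b ∉ cl k (insert a N)) :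
    b ∉ cl k N ∧ a ∉ cl k (insert b N) := by
  exact ⟨fun h => hb (cl_mono (Set.subset_insert _ _) h), fun h => hb (cl_exchange h ha)⟩

theorem algInd_pair {a b : A} :
    AlgebraicIndependent k ![a, b] ↔ a ∉ cl k (∅ : Set A) ∧ b ∉ cl k {a} := by
  constructor
  · intro h
    have h0 := h.transcendental_adjoin (s := ∅) (i := 0) (by simp)
    have h1 := h.transcendental_adjoin (s := {0}) (i := 1) (by simp)
    rw [Set.image_empty] at h0
    rw [Set.image_singleton] at h1
    exact ⟨h0, h1⟩
  · rintro ⟨ha, hb⟩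
    obtain ⟨h1, h2⟩ := ind_pair ha (by rwa [insert_empty_eq])
    rw [ind_iff_contract, Matroid.contract_empty] at h1
    have h3 : AlgebraicIndependent k ((↑) : ({a, b} : Set A) → A) := h1
    have := h3.comp (![⟨a, by simp⟩, ⟨b, by simp⟩] : Fin 2 → ({a, b} : Set A)) (by
      intro i j hij
      fin_cases i <;> fin_cases j <;> simp_all [eq_comm])
    convert this using 1
    ext i
    fin_cases i <;> rfl

theorem exists_basis {N S I₀ : Set A} (h0 : I₀ ⊆ S) (h : Ind k N I₀) :
    ∃ I, I₀ ⊆ I ∧ I ⊆ S ∧ Ind k N I ∧ S ⊆ cl k (N ∪ I) := by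
  rw [ind_iff_contract] at h
  obtain ⟨J, hJ, h1⟩ := h.subset_isBasis_of_subset (X := S \ N)
    (fun y hy => ⟨h0 hy, (h.subset_ground hy).2⟩) fun y hy => ⟨trivial, hy.2⟩
  refine ⟨J, h1, hJ.subset.trans Set.sdiff_subset, ind_iff_contract.2 hJ.indep, fun y hy => ?_⟩
  by_cases hN : y ∈ N
  · exact mem_cl (Or.inl hN)
  · have := hJ.subset_closure ⟨hy, hN⟩
    rw [Matroid.contract_closure_eq, ← cl_eq_closure, Set.union_comm] at this
    exact this.1

/-- Adjoining elements independent over `N` creates no new relation inside `cl N`. -/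
theorem Ind.mem_cl {N I X : Set A} (h : Ind k N I) (hX : X ⊆ cl k N) {y : A} (hy : y ∈ cl k N)
    (h' : y ∈ cl k (X ∪ I)) : y ∈ cl k X := by
  have key : ∀ J : Set A, J.Finite → J ⊆ I → y ∈ cl k (X ∪ J) → y ∈ cl k X := by
    intro J hJ
    induction J, hJ using Set.Finite.induction_on with
    | empty => intro _ h1; rwa [Set.union_empty] at h1
    | @insert j J hj _ ih =>
      intro hJI h1
      refine ih ((Set.subset_insert _ _).trans hJI) (by_contra fun h2 => ?_)
      rw [Set.union_insert] at h1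
      refine h j (hJI (Set.mem_insert _ _)) (cl_subset_cl ?_ (cl_exchange h1 h2))
      rintro x (rfl | hx | hx)
      · exact cl_mono Set.subset_union_left hy
      · exact cl_mono Set.subset_union_left (hX hx)
      · exact Ivrii.T.mem_cl (Or.inr ⟨hJI (Or.inr hx), fun e => hj (by rwa [← show x = j from e])⟩)
  obtain ⟨T, hT, hf, hyT⟩ := cl_finite h'
  refine key (T ∩ I) (hf.inter_of_left I) Set.inter_subset_right (cl_mono (fun x hx => ?_) hyT)
  rcases hT hx with h1 | h1
  exacts [Or.inl h1, Or.inr ⟨hx, h1⟩]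

/-- Symmetry of freeness. -/
theorem Ind.symm {N J F I : Set A} (h : Ind k N J) (hF : F ⊆ cl k N) (hI : I ⊆ cl k N)
    (h' : Ind k F I) : Ind k (F ∪ J) I := by
  intro y hy hc
  refine h' y hy (h.mem_cl (Set.union_subset hF (Set.sdiff_subset.trans hI)) (hI hy) ?_)
  rwa [Set.union_right_comm]

theorem Ind.encard_le {N I J : Set A} (h : Ind k N I) (hJ : J.Finite) (h' : I ⊆ cl k (N ∪ J)) :
    I.encard ≤ J.encard := by
  rw [ind_iff_contract] at h
  have h1 : I ⊆ ((AlgebraicIndependent.matroid k A).contract N).closure J := by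
    intro y hy
    rw [Matroid.contract_closure_eq, ← cl_eq_closure, Set.union_comm]
    exact ⟨h' hy, (h.subset_ground hy).2⟩
  rw [← h.eRk_eq_encard]
  exact ((Matroid.eRk_mono _ h1).trans (Matroid.eRk_closure_eq _ _).le).trans
    (Matroid.eRk_le_encard _ _)

/-- Two independent elements do not lie in the closure of one. -/
theorem not_two {N : Set A} {a b x : A} (ha : a ∉ cl k N) (hb : b ∉ cl k (insert a N))
    (h1 : a ∈ cl k (insert x N)) (h2 : b ∈ cl k (insert x N)) : False :=
  hb (cl_subset_cl (Set.insert_subset (cl_exchange h1 ha)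
    ((Set.subset_insert _ _).trans (subset_cl _))) h2)

theorem Ind.map (φ : A →ₐ[k] A') (hφ : Function.Injective φ) {N I : Set A} :
    Ind k (φ '' N) (φ '' I) ↔ Ind k N I := by
  unfold Ind
  rw [Set.forall_mem_image]
  refine forall_congr' fun y => forall_congr' fun _ => ?_
  rw [← Set.image_singleton, ← Set.image_sdiff hφ, ← Set.image_union, cl_map_iff φ hφ]

end Ivrii.T
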