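import Mathlib

set_option autoImplicit false

/-!
Linear disjointness from the constants (LD) and the Wronskian lemma (WR).
-/

namespace Ivrii.T

open Finset

/-- Algebraic independence is linear independence of the monomials. -/
theorem algInd_iff_mono {R A ι : Type*} [CommRing R] [CommRing A] [Algebra R A] (x : ι → A) :
    AlgebraicIndependent R x ↔
      LinearIndependent R fun α : ι →₀ ℕ => α.prod fun i n => x i ^ n := by
  have he : (fun α : ι →₀ ℕ => α.prod fun i n => x i ^ n) =
      (MvPolynomial.aeval x : MvPolynomial ι R →ₐ[R] A).toLinearMap ∘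
        MvPolynomial.basisMonomials ι R := by
    funext α
    simp [MvPolynomial.coe_basisMonomials, MvPolynomial.aeval_monomial]
  rw [he, algebraicIndependent_iff_injective_aeval]
  constructor
  · intro h
    exact (MvPolynomial.basisMonomials ι R).linearIndependent.map' _
      (LinearMap.ker_eq_bot.2 h)
  · intro h
    exact LinearMap.injective_of_linearIndependent
      (f := (MvPolynomial.aeval x : MvPolynomial ι R →ₐ[R] A).toLinearMap)
      (MvPolynomial.basisMonomials ι R).span_eq h

variable {k Ω ι : Type*} [Field k] [Field Ω] [Algebra k Ω]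

/-- (WR) Shortest relation. `K` is stable under the derivations in `Δ` and has constants `k`;
`T` is a set of vectors stable under `Δ` and containing a `k`-independent vector. -/
theorem wr (Δ : Set (Derivation k Ω Ω)) (K : Subfield Ω)
    (hK : ∀ δ ∈ Δ, ∀ f ∈ K, δ f ∈ K)
    (hk : ∀ f ∈ K, (∀ δ ∈ Δ, δ f = 0) → f ∈ Set.range (algebraMap k Ω))
    (T : Set (ι → Ω)) (hT : ∀ δ ∈ Δ, ∀ g ∈ T, (fun i => δ (g i)) ∈ T)
    {f : ι → Ω} (hfT : f ∈ T) (hf : LinearIndependent k f) (s : Finset ι) :
    ∀ c : ι → Ω, (∀ i ∈ s, c i ∈ K) → (∀ g ∈ T, ∑ i ∈ s, c i * g i = 0) → ∀ i ∈ s, c i = 0 := by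
  classical
  induction s using Finset.induction_on with
  | empty => intro c _ _ i hi; simp at hi
  | insert j s hj ih =>
    intro c hc h
    by_cases h0 : c j = 0
    · have := ih c (fun i hi => hc i (mem_insert_of_mem hi)) fun g hg => by
        have := h g hg
        rwa [sum_insert hj, h0, zero_mul, zero_add] at this
      intro i hi
      rcases mem_insert.1 hi with rfl | hi
      · exact h0
      · exact this i hi
    · exfalso
      have hc' : ∀ i ∈ s, c i / c j ∈ K := fun i hi =>
        K.div_mem (hc i (mem_insert_of_mem hi)) (hc j (mem_insert_self _ _))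
      have h1 : ∀ g ∈ T, g j + ∑ i ∈ s, c i / c j * g i = 0 := fun g hg => by
        have h2 := h g hg
        rw [sum_insert hj] at h2
        have h3 : ∑ i ∈ s, c i / c j * g i = (∑ i ∈ s, c i * g i) / c j := by
          rw [sum_div]; exact sum_congr rfl fun i _ => by ring
        rw [h3, eq_neg_of_add_eq_zero_right h2]
        field_simp
        ring
      have h2 : ∀ δ ∈ Δ, ∀ i ∈ s, δ (c i / c j) = 0 := fun δ hδ =>
        ih (fun i => δ (c i / c j)) (fun i hi => hK δ hδ _ (hc' i hi)) fun g hg => by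
          have a1 := congrArg δ (h1 g hg)
          have a2 := h1 _ (hT δ hδ g hg)
          rw [map_add, map_sum, map_zero] at a1
          simp only [Derivation.leibniz, smul_eq_mul, sum_add_distrib] at a1
          have a3 : ∑ i ∈ s, δ (c i / c j) * g i = ∑ i ∈ s, g i * δ (c i / c j) :=
            sum_congr rfl fun i _ => mul_comm _ _
          rw [a3]
          linear_combination a1 - a2
      have h3 : ∀ i, ∃ a : k, i ∈ s → algebraMap k Ω a = c i / c j := fun i => by
        by_cases hi : i ∈ s
        · obtain ⟨a, ha⟩ := hk _ (hc' i hi) fun δ hδ => h2 δ hδ i hi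
          exact ⟨a, fun _ => ha⟩
        · exact ⟨0, fun h => absurd h hi⟩
      choose a ha using h3
      have h4 := linearIndependent_iff'.1 hf (insert j s) (Function.update a j 1) (by
        rw [sum_insert hj, Function.update_self, one_smul, ← h1 f hfT]
        congr 1
        refine sum_congr rfl fun i hi => ?_
        rw [Function.update_of_ne (ne_of_mem_of_not_mem hi hj), Algebra.smul_def, ha i hi]) j
        (mem_insert_self _ _)
      simp at h4

/-- (LD) Constants that are linearly independent over `k` stay independent over `K`. -/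
theorem ld_lin (Δ : Set (Derivation k Ω Ω)) (K : Subfield Ω)
    (hK : ∀ δ ∈ Δ, ∀ f ∈ K, δ f ∈ K)
    (hk : ∀ f ∈ K, (∀ δ ∈ Δ, δ f = 0) → f ∈ Set.range (algebraMap k Ω))
    {f : ι → Ω} (h0 : ∀ δ ∈ Δ, ∀ i, δ (f i) = 0) (hf : LinearIndependent k f) :
    LinearIndependent K f := by
  rw [linearIndependent_iff']
  intro s c hc i hi
  have := wr Δ K hK hk {f, 0} (by
      rintro δ hδ g (rfl | rfl)
      · exact Or.inr (funext (h0 δ hδ))
      · exact Or.inr (funext fun i => by simp)) (Or.inl rfl) hf s (fun i => c i)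
    (fun i _ => (c i).2) (by
      rintro g (rfl | rfl)
      · exact hc
      · simp) i hi
  exact Subtype.ext this

/-- (LD), symmetric form: elements of `K` that are linearly independent over `k` stay
independent over every field of constants. -/
theorem ld_lin' (Δ : Set (Derivation k Ω Ω)) (K : Subfield Ω)
    (hK : ∀ δ ∈ Δ, ∀ f ∈ K, δ f ∈ K)
    (hk : ∀ f ∈ K, (∀ δ ∈ Δ, δ f = 0) → f ∈ Set.range (algebraMap k Ω))
    (C : Subfield Ω) (hC : ∀ δ ∈ Δ, ∀ c ∈ C, δ c = 0)
    {f : ι → Ω} (hfK : ∀ i, f i ∈ K) (hf : LinearIndependent k f) :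
    LinearIndependent C f := by
  rw [linearIndependent_iff']
  intro s c hc i hi
  have key : ∀ l : Module.Dual K Ω, l (c i : Ω) = 0 := fun l => by
    have := wr Δ K hK hk {g | (∀ i, g i ∈ K) ∧ ∑ i ∈ s, (c i : Ω) * g i = 0} (by
        rintro δ hδ g ⟨hg, hs⟩
        refine ⟨fun i => hK δ hδ _ (hg i), ?_⟩
        have a1 := congrArg δ hs
        rw [map_sum, map_zero] at a1
        rw [← a1]
        refine sum_congr rfl fun i _ => ?_
        rw [Derivation.leibniz, hC δ hδ _ (c i).2]
        simp) ⟨hfK, hc⟩ hf s (fun i => (l (c i : Ω) : Ω)) (fun i _ => (l (c i : Ω)).2) (by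
        rintro g ⟨hg, hs⟩
        have a1 := congrArg l hs
        rw [map_sum, map_zero] at a1
        have a2 := congrArg (fun y : K => (y : Ω)) a1
        simp only [AddSubmonoidClass.coe_finsetSum, ZeroMemClass.coe_zero] at a2
        rw [← a2]
        refine sum_congr rfl fun i _ => ?_
        have : (c i : Ω) * g i = (⟨g i, hg i⟩ : K) • (c i : Ω) := mul_comm _ _
        rw [this, map_smul]
        simp [mul_comm]) i hi
    exact Subtype.ext this
  exact Subtype.ext ((Module.forall_dual_apply_eq_zero_iff K _).1 key)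

theorem der_mono_zero (δ : Derivation k Ω Ω) {f : ι → Ω} (h : ∀ i, δ (f i) = 0) (α : ι →₀ ℕ) :
    δ (α.prod fun i n => f i ^ n) = 0 := by
  unfold Finsupp.prod
  refine Finset.prod_induction _ (fun y => δ y = 0) (fun a b ha hb => ?_) (by simp) ?_
  · rw [Derivation.leibniz, ha, hb]; simp
  · intro i _
    rw [Derivation.leibniz_pow, h i]; simp

/-- (LD) for algebraic independence of constants. -/
theorem ld_alg (Δ : Set (Derivation k Ω Ω)) (K : Subfield Ω)
    (hK : ∀ δ ∈ Δ, ∀ f ∈ K, δ f ∈ K)
    (hk : ∀ f ∈ K, (∀ δ ∈ Δ, δ f = 0) → f ∈ Set.range (algebraMap k Ω))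
    {f : ι → Ω} (h0 : ∀ δ ∈ Δ, ∀ i, δ (f i) = 0) (hf : AlgebraicIndependent k f) :
    AlgebraicIndependent K f := by
  rw [algInd_iff_mono] at hf ⊢
  exact ld_lin Δ K hK hk (fun δ hδ α => der_mono_zero δ (h0 δ hδ) α) hf

/-- (LD), symmetric form, for algebraic independence. -/
theorem ld_alg' (Δ : Set (Derivation k Ω Ω)) (K : Subfield Ω)
    (hK : ∀ δ ∈ Δ, ∀ f ∈ K, δ f ∈ K)
    (hk : ∀ f ∈ K, (∀ δ ∈ Δ, δ f = 0) → f ∈ Set.range (algebraMap k Ω))
    (C : Subfield Ω) (hC : ∀ δ ∈ Δ, ∀ c ∈ C, δ c = 0)
    {f : ι → Ω} (hfK : ∀ i, f i ∈ K) (hf : AlgebraicIndependent k f) :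
    AlgebraicIndependent C f := by
  rw [algInd_iff_mono] at hf ⊢
  exact ld_lin' Δ K hK hk C hC
    (fun α => K.prod_mem fun i _ => K.pow_mem (hfK i) _) hf

end Ivrii.T
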