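import Mathlib
import Pool.Agent.P.MP_7a8567_an.T.LD

set_option autoImplicit false

/-!
First half of (FREE): the exponential of a derivation, and the independence of `X` and its image.
-/

namespace Ivrii.T

open Finset

section Tay

variable {k Ω : Type*} [Field k] [Field Ω] [Algebra k Ω]

theorem fr_iter_mul (d : Derivation k Ω Ω) (a b : Ω) (n : ℕ) :
    d^[n] (a * b) = ∑ ij ∈ antidiagonal n, (n.choose ij.1 : Ω) * (d^[ij.1] a * d^[ij.2] b) := by
  induction n with
  | zero => simp
  | succ n ih =>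
    rw [sum_antidiagonal_choose_succ_mul (fun i j => d^[i] a * d^[j] b) n,
      Function.iterate_succ_apply', ih, map_sum, ← sum_add_distrib]
    refine sum_congr rfl fun ij hij => ?_
    rw [Nat.choose_symm_of_eq_add (mem_antidiagonal.1 hij).symm, Function.iterate_succ_apply',
      Function.iterate_succ_apply', Derivation.leibniz, Derivation.leibniz,
      Derivation.map_natCast]
    simp only [smul_eq_mul]
    ring

theorem fr_iter_add (d : Derivation k Ω Ω) (a b : Ω) (n : ℕ) :
    d^[n] (a + b) = d^[n] a + d^[n] b := by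
  induction n with
  | zero => simp
  | succ n ih => simp only [Function.iterate_succ_apply', ih, map_add]

theorem fr_iter_zero (d : Derivation k Ω Ω) {a : Ω} (h : d a = 0) (n : ℕ) :
    d^[n + 1] a = 0 := by
  induction n with
  | zero => simpa using h
  | succ n ih => rw [Function.iterate_succ_apply', ih, map_zero]

theorem fr_mk_const (d : Derivation k Ω Ω) {a : Ω} (h : d a = 0) :
    (PowerSeries.mk fun n => ((n.factorial : Ω))⁻¹ * d^[n] a) = PowerSeries.C a := by
  ext n
  cases n with
  | zero => simp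
  | succ n => simp [fr_iter_zero d h, -Function.iterate_succ]

/-- The exponential `exp (s d)`. -/
noncomputable def frExp [CharZero Ω] (d : Derivation k Ω Ω) : Ω →ₐ[k] PowerSeries Ω where
  toFun a := PowerSeries.mk fun n => ((n.factorial : Ω))⁻¹ * d^[n] a
  map_one' := by rw [fr_mk_const d (by simp)]; simp
  map_zero' := by rw [fr_mk_const d (by simp)]; simp
  map_add' a b := by
    ext n
    simp only [PowerSeries.coeff_mk, map_add, fr_iter_add, mul_add]
  map_mul' a b := by
    ext n
    rw [PowerSeries.coeff_mul, PowerSeries.coeff_mk, fr_iter_mul, mul_sum]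
    refine sum_congr rfl fun ij hij => ?_
    rw [PowerSeries.coeff_mk, PowerSeries.coeff_mk]
    have h := mem_antidiagonal.1 hij
    have h1 : (n.factorial : Ω) = n.choose ij.1 * ij.1.factorial * ij.2.factorial := by
      rw [← h, ← Nat.add_choose_mul_factorial_mul_factorial, Nat.choose_symm_add]
      push_cast
      ring
    have h2 : (ij.1.factorial : Ω) ≠ 0 := by exact_mod_cast ij.1.factorial_ne_zero
    have h3 : (ij.2.factorial : Ω) ≠ 0 := by exact_mod_cast ij.2.factorial_ne_zero
    have h4 : (n.choose ij.1 : Ω) ≠ 0 := by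
      exact_mod_cast (Nat.choose_pos (by omega)).ne'
    rw [h1]
    field_simp
  commutes' r := by
    rw [fr_mk_const d (by simp), PowerSeries.algebraMap_apply]

theorem frExp_coeff [CharZero Ω] (d : Derivation k Ω Ω) (a : Ω) (n : ℕ) :
    PowerSeries.coeff n (frExp d a) = ((n.factorial : Ω))⁻¹ * d^[n] a :=
  PowerSeries.coeff_mk n fun n => ((n.factorial : Ω))⁻¹ * d^[n] a

theorem frExp_const [CharZero Ω] (d : Derivation k Ω Ω) {a : Ω} (h : d a = 0) :
    frExp d a = PowerSeries.C a := fr_mk_const d h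

end Tay

section Filt

variable {k X Ω ι : Type*} [Field k] [Field X] [Field Ω] [Algebra k X] [Algebra X Ω]
  [Algebra k Ω]

/-- The vector of the mixed derivatives. -/
noncomputable def frV (θ D : Derivation k X X) (Ω : Type*) [Field Ω] [Algebra X Ω] (f : ι → X)
    (a b : ℕ) : ι → Ω := fun i => algebraMap X Ω (θ^[a] (D^[b] (f i)))

/-- The span of the mixed derivatives of order less than `j`. -/
noncomputable def frF (θ D : Derivation k X X) (Ω : Type*) [Field Ω] [Algebra X Ω] (f : ι → X)
    (j : ℕ) : Submodule Ω (ι → Ω) :=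
  Submodule.span Ω {v | ∃ a b, a + b < j ∧ v = frV θ D Ω f a b}

variable {θ D : Derivation k X X} {x : Ω} {d : Derivation k Ω Ω} {f : ι → X}

theorem fr_comm (hc : ∀ g, θ (D g) = D (θ g)) (a : ℕ) (g : X) : D (θ^[a] g) = θ^[a] (D g) := by
  induction a with
  | zero => rfl
  | succ a ih => rw [Function.iterate_succ_apply', Function.iterate_succ_apply', ← hc, ih]

theorem fr_dV (hc : ∀ g, θ (D g) = D (θ g))
    (hd : ∀ g, d (algebraMap X Ω g) = algebraMap X Ω (θ g) + x * algebraMap X Ω (D g))
    (a b : ℕ) (i : ι) :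
    d (frV θ D Ω f a b i) = frV θ D Ω f (a + 1) b i + x * frV θ D Ω f a (b + 1) i := by
  simp only [frV, hd, fr_comm hc, Function.iterate_succ_apply']

omit [Algebra k Ω] in
theorem frF_mono {j : ℕ} : frF θ D Ω f j ≤ frF θ D Ω f (j + 1) :=
  Submodule.span_mono fun _ ⟨a, b, h, e⟩ => ⟨a, b, by omega, e⟩

omit [Algebra k Ω] in
theorem frV_mem {a b j : ℕ} (h : a + b < j) : frV θ D Ω f a b ∈ frF θ D Ω f j :=
  Submodule.subset_span ⟨a, b, h, rfl⟩

theorem fr_dF (hc : ∀ g, θ (D g) = D (θ g))
    (hd : ∀ g, d (algebraMap X Ω g) = algebraMap X Ω (θ g) + x * algebraMap X Ω (D g))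
    {j : ℕ} {v : ι → Ω} (hv : v ∈ frF θ D Ω f j) : (fun i => d (v i)) ∈ frF θ D Ω f (j + 1) := by
  have : v ∈ frF θ D Ω f (j + 1) ∧ (fun i => d (v i)) ∈ frF θ D Ω f (j + 1) := by
    induction hv using Submodule.span_induction with
    | mem v hv =>
      obtain ⟨a, b, h, rfl⟩ := hv
      refine ⟨frV_mem (by omega), ?_⟩
      have e : (fun i => d (frV θ D Ω f a b i)) =
          frV θ D Ω f (a + 1) b + x • frV θ D Ω f a (b + 1) := funext fun i => fr_dV hc hd a b i
      rw [e]
      exact add_mem (frV_mem (by omega)) (Submodule.smul_mem _ _ (frV_mem (by omega)))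
    | zero =>
      refine ⟨zero_mem _, ?_⟩
      have e : (fun i => d ((0 : ι → Ω) i)) = 0 := funext fun i => by simp
      rw [e]; exact zero_mem _
    | add u v _ _ hu hv =>
      refine ⟨add_mem hu.1 hv.1, ?_⟩
      have e : (fun i => d ((u + v) i)) = (fun i => d (u i)) + fun i => d (v i) :=
        funext fun i => by simp
      rw [e]; exact add_mem hu.2 hv.2
    | smul c v _ hv =>
      refine ⟨Submodule.smul_mem _ _ hv.1, ?_⟩
      have e : (fun i => d ((c • v) i)) = c • (fun i => d (v i)) + d c • v :=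
        funext fun i => by simp [mul_comm]
      rw [e]
      exact add_mem (Submodule.smul_mem _ _ hv.2) (Submodule.smul_mem _ _ hv.1)
  exact this.2

theorem fr_top (hc : ∀ g, θ (D g) = D (θ g))
    (hd : ∀ g, d (algebraMap X Ω g) = algebraMap X Ω (θ g) + x * algebraMap X Ω (D g)) (j : ℕ) :
    ((fun i => d^[j] (algebraMap X Ω (f i))) -
      ∑ ab ∈ antidiagonal j, j.choose ab.1 • (x ^ ab.2 • frV θ D Ω f ab.1 ab.2)) ∈
      frF θ D Ω f j := by
  induction j with
  | zero =>
    have e : ((fun i => d^[0] (algebraMap X Ω (f i))) -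
      ∑ ab ∈ antidiagonal 0, Nat.choose 0 ab.1 • (x ^ ab.2 • frV θ D Ω f ab.1 ab.2)) = 0 := by
      funext i; simp [frV]
    rw [e]; exact zero_mem _
  | succ j ih =>
    have h1 := fr_dF hc hd ih
    have h2 : (∑ ab ∈ antidiagonal j, (j.choose ab.1 * d (x ^ ab.2)) • frV θ D Ω f ab.1 ab.2) ∈
        frF θ D Ω f (j + 1) :=
      Submodule.sum_mem _ fun ab hab => Submodule.smul_mem _ _
        (frV_mem (by have := mem_antidiagonal.1 hab; omega))
    convert add_mem h1 h2 using 1
    rw [sum_antidiagonal_choose_succ_nsmul (fun a b => x ^ b • frV θ D Ω f a b) j]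
    funext i
    simp only [Pi.sub_apply, Pi.add_apply, Finset.sum_apply, Pi.smul_apply, smul_eq_mul,
      map_sub, map_sum, Function.iterate_succ_apply']
    simp only [nsmul_eq_mul]
    rw [sub_add, ← sum_add_distrib, ← sum_sub_distrib]
    congr 1
    refine sum_congr rfl fun ab hab => ?_
    rw [← Nat.choose_symm_of_eq_add (mem_antidiagonal.1 hab).symm, Derivation.leibniz,
      Derivation.leibniz, Derivation.map_natCast, fr_dV hc hd]
    simp only [smul_eq_mul]
    ring

theorem fr_all [CharZero X] (hc : ∀ g, θ (D g) = D (θ g)) (hx : Transcendental X x)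
    (hd : ∀ g, d (algebraMap X Ω g) = algebraMap X Ω (θ g) + x * algebraMap X Ω (D g))
    (s : Finset ι) (c : ι → X)
    (h : ∀ j, ∑ i ∈ s, algebraMap X Ω (c i) * d^[j] (algebraMap X Ω (f i)) = 0) (j : ℕ) :
    ∀ a b, a + b = j → ∑ i ∈ s, c i * θ^[a] (D^[b] (f i)) = 0 := by
  induction j using Nat.strong_induction_on with
  | _ j ih =>
    let L : (ι → Ω) →ₗ[Ω] Ω := ∑ i ∈ s, algebraMap X Ω (c i) • LinearMap.proj i
    have hL : ∀ v, L v = ∑ i ∈ s, algebraMap X Ω (c i) * v i := fun v => by
      simp [L, LinearMap.sum_apply, Algebra.smul_def]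
    have hLV : ∀ a b, L (frV θ D Ω f a b) =
        algebraMap X Ω (∑ i ∈ s, c i * θ^[a] (D^[b] (f i))) := fun a b => by
      simp [hL, frV]
    have hF : frF θ D Ω f j ≤ LinearMap.ker L := by
      refine Submodule.span_le.2 ?_
      rintro _ ⟨a, b, hab, rfl⟩
      simp [hLV, ih _ hab a b rfl]
    have h1 := hF (fr_top (f := f) hc hd j)
    rw [LinearMap.mem_ker, map_sub, hL, h j, zero_sub, neg_eq_zero, map_sum] at h1
    let p : Polynomial X := ∑ ab ∈ antidiagonal j, Polynomial.monomial ab.2
      (j.choose ab.1 * ∑ i ∈ s, c i * θ^[ab.1] (D^[ab.2] (f i)))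
    have hp : Polynomial.aeval x p = 0 := by
      rw [← h1, map_sum]
      refine sum_congr rfl fun ab _ => ?_
      rw [map_nsmul, map_smul, hLV, Polynomial.aeval_monomial, map_mul, map_natCast]
      simp only [smul_eq_mul, nsmul_eq_mul]
      ring
    have hp0 : p = 0 := by
      by_contra hne
      exact hx ⟨p, hne, hp⟩
    intro a b hab
    have h2 := congrArg (fun q => Polynomial.coeff q b) hp0
    simp only [p, Polynomial.finsetSum_coeff, Polynomial.coeff_monomial,
      Polynomial.coeff_zero] at h2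
    rw [sum_eq_single (a, b)] at h2
    · have h4 : (j.choose a : X) ≠ 0 := by
        exact_mod_cast (Nat.choose_pos (by omega)).ne'
      simpa [h4] using h2
    · intro ab hm hne
      have := mem_antidiagonal.1 hm
      rw [if_neg]
      intro e
      exact hne (Prod.ext (by simp only; omega) e)
    · intro hm
      exact absurd (mem_antidiagonal.2 hab) hm

/-- If all `d`-derivatives of a `k`-independent family satisfy one relation over `X`, the
relation is trivial. -/
theorem fr_rel [CharZero X] (hc : ∀ g, θ (D g) = D (θ g))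
    (hk : ∀ g, θ g = 0 → D g = 0 → g ∈ Set.range (algebraMap k X)) (hx : Transcendental X x)
    (hd : ∀ g, d (algebraMap X Ω g) = algebraMap X Ω (θ g) + x * algebraMap X Ω (D g))
    (hf : LinearIndependent k f) (s : Finset ι) (c : ι → X)
    (h : ∀ j, ∑ i ∈ s, algebraMap X Ω (c i) * d^[j] (algebraMap X Ω (f i)) = 0) :
    ∀ i ∈ s, c i = 0 := by
  refine wr {θ, D} ⊤ (fun _ _ _ _ => trivial)
    (fun g _ hg => hk g (hg _ (Or.inl rfl)) (hg _ (Or.inr rfl)))
    {v | ∃ a b, v = fun i => θ^[a] (D^[b] (f i))} ?_ ⟨0, 0, rfl⟩ hf s c (fun _ _ => trivial) ?_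
  · rintro δ (rfl | rfl) _ ⟨a, b, rfl⟩
    · exact ⟨a + 1, b, funext fun i => by rw [Function.iterate_succ_apply']⟩
    · exact ⟨a, b + 1, funext fun i => by rw [Function.iterate_succ_apply', fr_comm hc]⟩
  · rintro _ ⟨a, b, rfl⟩
    exact fr_all hc hx hd s c h _ a b rfl

end Filt

end Ivrii.T
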