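import Mathlib
import Pool.Agent.P.MP_7a8567_an.T.FreeA

set_option autoImplicit false

/-!
(FREE): elements killed by `d = θ + x D` lose at most one transcendence degree over `X`.
-/

namespace Ivrii.T

open Finset AlgebraicIndependent

section Der

variable {k Ω : Type*} [Field k] [Field Ω] [Algebra k Ω]

theorem der_aeval (d : Derivation k Ω Ω) (S : Subfield Ω) (y : Ω) (p : Polynomial S) :
    d (Polynomial.aeval y p) = (∑ i ∈ p.support, d (p.coeff i : Ω) * y ^ i) +
      Polynomial.aeval y (Polynomial.derivative p) * d y := by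
  rw [Polynomial.derivative_apply, Polynomial.sum_def, map_sum, Polynomial.aeval_def,
    Polynomial.eval₂_eq_sum, Polynomial.sum_def, map_sum, sum_mul, ← sum_add_distrib]
  refine sum_congr rfl fun i _ => ?_
  rw [Derivation.leibniz, Derivation.leibniz_pow]
  simp only [map_mul, Polynomial.aeval_C, map_natCast, map_pow, Polynomial.aeval_X, smul_eq_mul,
    nsmul_eq_mul, Subfield.algebraMap_ofSubfield, Subfield.coe_subtype]
  ring

/-- If `d S ⊆ Y`, `S ≤ Y` and `y ∈ Y` is algebraic over `S`, then `d y ∈ Y`. -/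
theorem der_acl [CharZero Ω] (d : Derivation k Ω Ω) {S Y : Subfield Ω}
    (hSY : S ≤ Y) (hd : ∀ s ∈ S, d s ∈ Y) {y : Ω} (hy : IsAlgebraic S y) (hyY : y ∈ Y) :
    d y ∈ Y := by
  have hi := hy.isIntegral
  have h1 := der_aeval d S y (minpoly S y)
  rw [minpoly.aeval, map_zero] at h1
  have hsep : (minpoly S y).Separable := (minpoly.irreducible hi).separable
  have h2 : Polynomial.aeval y (Polynomial.derivative (minpoly S y)) ≠ 0 :=
    hsep.aeval_derivative_ne_zero (minpoly.aeval S y)
  have h3 : Polynomial.aeval y (Polynomial.derivative (minpoly S y)) ∈ Y := by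
    rw [Polynomial.aeval_eq_sum_range]
    exact Y.sum_mem fun i _ => Y.mul_mem (hSY (SetLike.coe_mem _)) (Y.pow_mem hyY i)
  have h4 : d y = -(∑ i ∈ (minpoly S y).support, d ((minpoly S y).coeff i : Ω) * y ^ i) /
      Polynomial.aeval y (Polynomial.derivative (minpoly S y)) := by
    rw [eq_div_iff h2]
    linear_combination -h1
  rw [h4]
  exact Y.div_mem (Y.neg_mem (Y.sum_mem fun i _ =>
    Y.mul_mem (hd _ (SetLike.coe_mem _)) (Y.pow_mem hyY i))) h3

/-- The elements of `Y` whose derivative lies in `Y`. -/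
def derPre (d : Derivation k Ω Ω) (Y : Subfield Ω) : Subfield Ω where
  carrier := {f | f ∈ Y ∧ d f ∈ Y}
  mul_mem' := fun {a b} ha hb => ⟨Y.mul_mem ha.1 hb.1, by
    rw [Derivation.leibniz]
    exact Y.add_mem (Y.mul_mem ha.1 hb.2) (Y.mul_mem hb.1 ha.2)⟩
  one_mem' := ⟨Y.one_mem, by simp⟩
  add_mem' := fun {a b} ha hb => ⟨Y.add_mem ha.1 hb.1, by
    rw [map_add]; exact Y.add_mem ha.2 hb.2⟩
  zero_mem' := ⟨Y.zero_mem, by simp⟩
  neg_mem' := fun {a} ha => ⟨Y.neg_mem ha.1, by rw [map_neg]; exact Y.neg_mem ha.2⟩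
  inv_mem' := fun a ha => ⟨Y.inv_mem ha.1, by
    rw [Derivation.leibniz_inv]
    exact Y.mul_mem (Y.neg_mem (Y.pow_mem (Y.inv_mem ha.1) 2)) ha.2⟩

/-- Power series with coefficients in a subfield. -/
def frSer (k : Type*) [Field k] [Algebra k Ω] (Y : Subfield Ω)
    (hk : ∀ a : k, algebraMap k Ω a ∈ Y) : Subalgebra k (PowerSeries Ω) where
  carrier := {g | ∀ n, PowerSeries.coeff n g ∈ Y}
  mul_mem' := fun {a b} ha hb n => by
    rw [PowerSeries.coeff_mul]
    exact Y.sum_mem fun ij _ => Y.mul_mem (ha _) (hb _)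
  add_mem' := fun {a b} ha hb n => by
    rw [map_add]; exact Y.add_mem (ha n) (hb n)
  algebraMap_mem' := fun r n => by
    rw [PowerSeries.algebraMap_apply, PowerSeries.coeff_C]
    split_ifs
    · exact hk r
    · exact Y.zero_mem

theorem fr_ser_ind {ι : Type*} (Y : Subfield Ω) (hk : ∀ a : k, algebraMap k Ω a ∈ Y) {b : ι → Ω}
    (hb : AlgebraicIndependent Y b) :
    AlgebraicIndependent (frSer k Y hk) fun i => (PowerSeries.C (b i) : PowerSeries Ω) := by
  rw [algInd_iff_mono, linearIndependent_iff'] at hb ⊢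
  intro s c hc α hα
  apply Subtype.ext
  ext n
  have h1 := hb s (fun α => ⟨PowerSeries.coeff n (c α).1, (c α).2 n⟩) (by
    have h2 := congrArg (PowerSeries.coeff n) hc
    rw [map_sum, map_zero] at h2
    rw [← h2]
    refine sum_congr rfl fun α _ => ?_
    have h3 : (α.prod fun i n => (PowerSeries.C (b i) : PowerSeries Ω) ^ n) =
        PowerSeries.C (α.prod fun i n => b i ^ n) := by
      simp [Finsupp.prod]
    rw [h3, Subalgebra.smul_def, smul_eq_mul, PowerSeries.coeff_mul_C]
    rfl) α hα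
  simpa using congrArg Subtype.val h1

/-- Algebraic closure is carried along by an embedding. -/
theorem cl_map {A : Type*} [CommRing A] [IsDomain A] [Algebra k A] (ψ : Ω →ₐ[k] A) {s : Set Ω}
    {a : Ω} (h : a ∈ (matroid k Ω).closure s) : ψ a ∈ (matroid k A).closure (ψ '' s) := by
  rw [matroid_closure_eq, SetLike.mem_coe, Subalgebra.mem_algebraicClosure] at h ⊢
  rw [← AlgHom.map_adjoin]
  refine h.ringHom_of_comp_eq (ψ.subalgebraMap (Algebra.adjoin k s)) ψ ?_ rfl
  intro u v huv
  exact Subtype.ext (ψ.injective (congrArg Subtype.val huv))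

end Der

variable {k X Ω : Type*} [Field k] [Field X] [Field Ω] [Algebra k X] [Algebra X Ω]
  [Algebra k Ω] [IsScalarTower k X Ω]

theorem cl_tower {s : Set Ω} {a : Ω} (h : a ∈ (matroid X Ω).closure s) :
    a ∈ (matroid k Ω).closure (Set.range (algebraMap X Ω) ∪ s) := by
  rw [matroid_closure_eq, SetLike.mem_coe, Subalgebra.mem_algebraicClosure] at h ⊢
  have hle : (Algebra.adjoin X s).restrictScalars k ≤
      Algebra.adjoin k (Set.range (algebraMap X Ω) ∪ s) := by
    intro y hy
    replace hy : y ∈ Algebra.adjoin X s := hy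
    induction hy using Algebra.adjoin_induction with
    | mem y hy => exact Algebra.subset_adjoin (Or.inr hy)
    | algebraMap r => exact Algebra.subset_adjoin (Or.inl ⟨r, rfl⟩)
    | add a b _ _ iha ihb => exact add_mem iha ihb
    | mul a b _ _ iha ihb => exact mul_mem iha ihb
  exact IsAlgebraic.tower_top_of_subalgebra_le hle h

variable {θ D : Derivation k X X} {x : Ω} {d : Derivation k Ω Ω}

omit [IsScalarTower k X Ω] in
theorem fr_exp_ind [CharZero X] [CharZero Ω] {ι : Type*} (hc : ∀ g, θ (D g) = D (θ g))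
    (hk : ∀ g, θ g = 0 → D g = 0 → g ∈ Set.range (algebraMap k X)) (hx : Transcendental X x)
    (hd : ∀ g, d (algebraMap X Ω g) = algebraMap X Ω (θ g) + x * algebraMap X Ω (D g))
    {h : ι → X} (hh : AlgebraicIndependent k h) :
    AlgebraicIndependent X fun i => frExp d (algebraMap X Ω (h i)) := by
  rw [algInd_iff_mono] at hh ⊢
  rw [linearIndependent_iff']
  intro s c hs
  refine fr_rel hc hk hx hd hh s c fun j => ?_
  have h2 := congrArg (PowerSeries.coeff j) hs
  rw [map_sum, map_zero] at h2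
  have h3 : (j.factorial : Ω) ≠ 0 := by exact_mod_cast j.factorial_ne_zero
  refine mul_left_cancel₀ (inv_ne_zero h3) ?_
  rw [mul_zero, ← h2, mul_sum]
  refine sum_congr rfl fun α _ => ?_
  have h4 : (α.prod fun i n => frExp d (algebraMap X Ω (h i)) ^ n) =
      frExp d (algebraMap X Ω (α.prod fun i n => h i ^ n)) := by
    simp [Finsupp.prod]
  rw [h4, Algebra.smul_def, PowerSeries.algebraMap_apply, PowerSeries.coeff_C_mul, frExp_coeff]
  ring

/-- The algebraic closure of `X (x)`, as a subfield. -/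
noncomputable def frY (X : Type*) [Field X] [Algebra X Ω] (x : Ω) : Subfield Ω :=
  (algebraicClosure (IntermediateField.adjoin X {x}) Ω).toSubfield

theorem frY_mem {y : Ω} : y ∈ frY X x ↔ IsAlgebraic (IntermediateField.adjoin X {x}) y :=
  mem_algebraicClosure_iff

theorem frY_le : (IntermediateField.adjoin X {x}).toSubfield ≤ frY X x := fun y hy =>
  frY_mem.2 (isAlgebraic_algebraMap (⟨y, hy⟩ : IntermediateField.adjoin X {x}))

theorem frY_alg (g : X) : algebraMap X Ω g ∈ frY X x :=
  frY_le (IntermediateField.algebraMap_mem _ g)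

omit [IsScalarTower k X Ω] in
theorem frY_stable [CharZero Ω]
    (hd : ∀ g, d (algebraMap X Ω g) = algebraMap X Ω (θ g) + x * algebraMap X Ω (D g))
    (hdx : IsAlgebraic (IntermediateField.adjoin X {x}) (d x)) {y : Ω} (hy : y ∈ frY X x) :
    d y ∈ frY X x := by
  have hx : x ∈ frY X x := frY_le (IntermediateField.mem_adjoin_simple_self X x)
  have h1 : (IntermediateField.adjoin X {x}).toSubfield ≤ derPre d (frY X x) := by
    rw [IntermediateField.adjoin_toSubfield, Subfield.closure_le]
    rintro _ (⟨g, rfl⟩ | rfl)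
    · refine ⟨frY_alg g, ?_⟩
      rw [hd]
      exact add_mem (frY_alg _) (mul_mem hx (frY_alg _))
    · exact ⟨hx, frY_mem.2 hdx⟩
  exact der_acl d frY_le (fun s hs => (h1 hs).2) (frY_mem.1 hy) hy

theorem fr_drop (hx : Transcendental X x) {B : Set Ω} (hB : (matroid X Ω).Indep B) :
    ∃ B' ⊆ B, B.encard ≤ B'.encard + 1 ∧ AlgebraicIndependent (frY X x) ((↑) : B' → Ω) := by
  have h1 : (matroid X Ω).Indep {x} := algebraicIndependent_unique_type_iff.2 hx
  obtain ⟨J, hJ, hxJ⟩ := h1.subset_isBasis_of_subset (X := insert x B) (by simp) (by simp)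
  have hxJ' : x ∈ J := hxJ rfl
  refine ⟨J \ {x}, fun y hy => (hJ.subset hy.1).resolve_left hy.2, ?_, ?_⟩
  · rw [Set.encard_sdiff_singleton_add_one hxJ', hJ.encard_eq_eRk]
    exact hB.encard_le_eRk_of_subset (Set.subset_insert _ _)
  · have h2 : AlgebraicIndependent X ((↑) : J → Ω) := hJ.indep
    let e : (↥(J \ {x}) ⊕ Unit) → J := Sum.elim (fun y => ⟨y.1, y.2.1⟩) fun _ => ⟨x, hxJ'⟩
    have he : Function.Injective e := by
      rintro (a | a) (b | b) hab
      · exact congrArg Sum.inl (Subtype.ext (congrArg (fun y : J => (y : Ω)) hab))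
      · exact absurd (congrArg Subtype.val hab) a.2.2
      · exact absurd (congrArg Subtype.val hab).symm b.2.2
      · rfl
    have h3 := h2.comp e he
    have h4 : ((↑) : J → Ω) ∘ e = Sum.elim ((↑) : ↥(J \ {x}) → Ω) fun _ : Unit => x := by
      funext a; rcases a with a | a <;> rfl
    rw [h4, sumElim_iff, Set.range_const] at h3
    exact (IntermediateField.algebraicIndependent_adjoin_iff.2 h3.2).algebraicClosure

theorem fr_count [CharZero k] (hc : ∀ g, θ (D g) = D (θ g))
    (hk : ∀ g, θ g = 0 → D g = 0 → g ∈ Set.range (algebraMap k X)) (hx : Transcendental X x)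
    (hd : ∀ g, d (algebraMap X Ω g) = algebraMap X Ω (θ g) + x * algebraMap X Ω (D g))
    (hdx : IsAlgebraic (IntermediateField.adjoin X {x}) (d x))
    {I : Set Ω} (hfin : I.Finite) (hI : (matroid k Ω).Indep I) (h0 : ∀ s ∈ I, d s = 0) :
    I.encard ≤ (matroid X Ω).eRk I + 1 := by
  have : CharZero X := charZero_of_injective_algebraMap (algebraMap k X).injective
  have : CharZero Ω := charZero_of_injective_algebraMap (algebraMap k Ω).injective
  obtain ⟨B, hB⟩ := (matroid X Ω).exists_isBasis I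
  obtain ⟨J, hJ, hJf, hJi, hIJ⟩ := Matroid.exists_subset_finite_closure_of_subset_closure
    (M := matroid k Ω) hfin (Y := Set.range (algebraMap X Ω) ∪ B)
    fun a ha => cl_tower (hB.subset_closure ha)
  set H := J \ B with hH
  have hHr : ∀ a : H, ∃ g, algebraMap X Ω g = a := fun a => (hJ a.2.1).resolve_right a.2.2
  choose h hh using hHr
  have hHi : AlgebraicIndependent k ((↑) : H → Ω) := hJi.subset Set.sdiff_subset
  have hhi : AlgebraicIndependent k h :=
    .of_comp (IsScalarTower.toAlgHom k X Ω) (by convert hHi using 1; exact funext hh)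
  obtain ⟨I', hI', hII'⟩ := hI.subset_isBasis_of_subset (X := I ∪ H) Set.subset_union_left
    (by simp)
  have e1 : I'.encard ≤ H.encard + B.encard := by
    refine le_trans ?_ (Set.encard_union_le H B)
    refine le_trans ?_ ((matroid k Ω).eRk_le_encard _)
    rw [← Matroid.eRk_closure_eq]
    refine hI'.indep.encard_le_eRk_of_subset (hI'.subset.trans (Set.union_subset ?_ ?_))
    · exact hIJ.trans ((matroid k Ω).closure_mono (by rw [hH]; simp))
    · exact Set.subset_union_left.trans ((matroid k Ω).subset_closure _ (by simp))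
  obtain ⟨B', hB', e2, hBi⟩ := fr_drop hx hB.indep
  have hkY : ∀ a : k, algebraMap k Ω a ∈ frY X x := fun a => by
    rw [IsScalarTower.algebraMap_apply k X Ω]; exact frY_alg _
  have hit : ∀ (n : ℕ) (y : Ω), y ∈ frY X x → d^[n] y ∈ frY X x := fun n y hy => by
    induction n with
    | zero => exact hy
    | succ n ih => rw [Function.iterate_succ_apply']; exact frY_stable hd hdx ih
  have i1 := sumElim_comp hhi (fr_exp_ind hc hk hx hd hhi)
  have i2 := i1.sumElim_of_tower (S := frSer k (frY X x) hkY) (by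
    rintro _ ⟨a | a, rfl⟩
    · refine ⟨⟨frExp d (algebraMap X Ω (h a)), fun n => ?_⟩, rfl⟩
      rw [frExp_coeff]
      exact mul_mem (inv_mem (natCast_mem _ _)) (hit _ _ (frY_alg _))
    · refine ⟨⟨algebraMap X (PowerSeries Ω) (h a), fun n => ?_⟩, rfl⟩
      rw [PowerSeries.algebraMap_apply, PowerSeries.coeff_C]
      split_ifs
      · exact frY_alg _
      · exact zero_mem _) (fr_ser_ind (frY X x) hkY hBi)
  let ι : Ω →ₐ[k] PowerSeries Ω := IsScalarTower.toAlgHom k Ω (PowerSeries Ω)
  have hι : ∀ a, ι a = PowerSeries.C a := fun a => by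
    simp [ι]
  have e3 := i2.injective.encard_range
  have i3 : (matroid k (PowerSeries Ω)).Indep _ := i2.coe_range
  have hsub : ∀ a ∈ I ∪ H, a ∈ (matroid k Ω).closure I' := fun a ha => hI'.subset_closure ha
  have e4 := i3.encard_le_eRk_of_subset
    (X := (matroid k (PowerSeries Ω)).closure (ι '' I' ∪ frExp d '' (I' \ I))) (by
      rintro _ ⟨a | a | a, rfl⟩
      · rw [Sum.elim_inl, ← hι]
        exact Matroid.closure_mono _ Set.subset_union_left
          (cl_map ι (hsub _ (Or.inl (hB.subset (hB' a.2)))))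
      · rw [Sum.elim_inr, Sum.elim_inl, hh]
        refine Matroid.closure_mono _ ?_ (cl_map (frExp d) (hsub _ (Or.inr a.2)))
        rintro _ ⟨y, hy, rfl⟩
        by_cases hyI : y ∈ I
        · exact Or.inl ⟨y, hy, by rw [hι, frExp_const d (h0 y hyI)]⟩
        · exact Or.inr ⟨y, ⟨hy, hyI⟩, rfl⟩
      · rw [Sum.elim_inr, Sum.elim_inr, Function.comp_apply, PowerSeries.algebraMap_apply, hh,
          ← hι]
        exact Matroid.closure_mono _ Set.subset_union_left (cl_map ι (hsub _ (Or.inr a.2))))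
  rw [Matroid.eRk_closure_eq] at e4
  have e5 : B'.encard + (H.encard + H.encard) ≤ I'.encard + (I' \ I).encard := by
    rw [ENat.card_sum, ENat.card_sum] at e3
    refine e3.trans (e4.trans ((Matroid.eRk_le_encard _ _).trans ?_))
    exact (Set.encard_union_le _ _).trans
      (add_le_add (Set.encard_image_le _ _) (Set.encard_image_le _ _))
  have e6 := Set.encard_sdiff_add_encard_of_subset hII'
  rw [← hB.encard_eq_eRk]
  have fH : H.Finite := hJf.subset Set.sdiff_subset
  have fB : B.Finite := hfin.subset hB.subset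
  have fI : I'.Finite := (hfin.union fH).subset hI'.subset
  obtain ⟨n1, h1⟩ := hfin.exists_encard_eq_coe
  obtain ⟨n2, h2⟩ := fH.exists_encard_eq_coe
  obtain ⟨n3, h3⟩ := fB.exists_encard_eq_coe
  obtain ⟨n4, h4⟩ := fI.exists_encard_eq_coe
  obtain ⟨n5, h5⟩ := (fB.subset hB').exists_encard_eq_coe
  obtain ⟨n6, h6⟩ := (fI.subset (Set.sdiff_subset (t := I))).exists_encard_eq_coe
  simp only [h1, h2, h3, h4, h5, h6] at e1 e2 e5 e6 ⊢
  norm_cast at e1 e2 e5 e6 ⊢
  omega

/-- (FREE). -/
theorem free [CharZero k] (hc : ∀ g, θ (D g) = D (θ g))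
    (hk : ∀ g, θ g = 0 → D g = 0 → g ∈ Set.range (algebraMap k X)) (hx : Transcendental X x)
    (hd : ∀ g, d (algebraMap X Ω g) = algebraMap X Ω (θ g) + x * algebraMap X Ω (D g))
    (hdx : IsAlgebraic (IntermediateField.adjoin X {x}) (d x))
    (S : Set Ω) (h0 : ∀ s ∈ S, d s = 0) :
    (matroid k Ω).eRk S ≤ (matroid X Ω).eRk S + 1 := by
  refine ENat.forall_natCast_le_iff_le.1 fun n hn => ?_
  obtain ⟨I, hIS, hI, hn⟩ := Matroid.le_eRk_iff.1 hn
  rw [← hn]
  exact (fr_count hc hk hx hd hdx (Set.finite_of_encard_eq_coe hn) hI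
    fun s hs => h0 s (hIS hs)).trans (add_le_add ((matroid X Ω).eRk_mono hIS) le_rfl)

/-- The restriction of a derivation to a stable intermediate field. -/
def derRes (δ : Derivation k Ω Ω) (X : IntermediateField k Ω) (h : ∀ f ∈ X, δ f ∈ X) :
    Derivation k X X where
  toFun f := ⟨δ f, h f f.2⟩
  map_add' a b := Subtype.ext (by simp)
  map_smul' a b := Subtype.ext (by simp)
  map_one_eq_zero' := Subtype.ext (by simp)
  leibniz' a b := Subtype.ext (by simp)

@[simp] theorem derRes_coe (δ : Derivation k Ω Ω) (X : IntermediateField k Ω)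
    (h : ∀ f ∈ X, δ f ∈ X) (f : X) : (derRes δ X h f : Ω) = δ f := rfl

/-- (FREE) for an intermediate field stable under two derivations of `Ω`. -/
theorem free_sub [CharZero k] (X : IntermediateField k Ω) (θ D d : Derivation k Ω Ω) (x : Ω)
    (hθ : ∀ f ∈ X, θ f ∈ X) (hD : ∀ f ∈ X, D f ∈ X) (hc : ∀ g ∈ X, θ (D g) = D (θ g))
    (hk : ∀ g ∈ X, θ g = 0 → D g = 0 → g ∈ Set.range (algebraMap k Ω))
    (hx : Transcendental X x) (hd : ∀ g ∈ X, d g = θ g + x * D g)
    (hdx : IsAlgebraic (IntermediateField.adjoin X {x}) (d x))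
    (S : Set Ω) (h0 : ∀ s ∈ S, d s = 0) :
    (matroid k Ω).eRk S ≤ (matroid X Ω).eRk S + 1 :=
  free (θ := derRes θ X hθ) (D := derRes D X hD) (fun g => Subtype.ext (hc g g.2))
    (fun g h1 h2 => by
      obtain ⟨a, ha⟩ := hk g g.2 (congrArg Subtype.val h1) (congrArg Subtype.val h2)
      exact ⟨a, Subtype.ext ha⟩) hx (fun g => hd g g.2) hdx S h0

end Ivrii.T
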