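import Mathlib
import Pool.Agent.P.MP_7a8567_an.T.Free

set_option autoImplicit false

/-!
Extension of derivations (EXT), (VD), kernels of twisted derivations (DEXT), (INJ), (LD2).
-/

namespace Ivrii.T

open Finset AlgebraicIndependent

/-- Dual numbers, as a new type. -/
def DualT (K : Type*) [Field K] : Type _ := TrivSqZeroExt K K

noncomputable instance (K : Type*) [Field K] : CommRing (DualT K) :=
  inferInstanceAs (CommRing (TrivSqZeroExt K K))

section Ext

variable {k L K : Type*} [Field k] [Field L] [Field K] [Algebra k L] [Algebra L K] [Algebra k K]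
  [IsScalarTower k L K]

/-- The first order Taylor map of a derivation. -/
noncomputable def dualHom (d : Derivation k L K) : L →+* TrivSqZeroExt K K where
  toFun a := TrivSqZeroExt.inl (algebraMap L K a) + TrivSqZeroExt.inr (d a)
  map_one' := by simp
  map_zero' := by simp
  map_add' a b := by
    apply TrivSqZeroExt.ext <;> simp
  map_mul' a b := by
    apply TrivSqZeroExt.ext
    · simp
    · simp only [TrivSqZeroExt.snd_add, TrivSqZeroExt.snd_inl, TrivSqZeroExt.snd_inr,
        TrivSqZeroExt.snd_mul, TrivSqZeroExt.fst_add, TrivSqZeroExt.fst_inl,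
        TrivSqZeroExt.fst_inr, add_zero, zero_add, Derivation.leibniz, Algebra.smul_def]
      simp [mul_comm]

open scoped IntermediateField.algebraAdjoinAdjoin in
theorem ext_der_set [CharZero k] (d : Derivation k L K) {t : Set K}
    (ht : IsTranscendenceBasis L ((↑) : t → K)) (v : t → K) :
    ∃ D : Derivation k K K, (∀ a, D (algebraMap L K a) = d a) ∧ ∀ i : t, D i = v i := by
  have : CharZero K := charZero_of_injective_algebraMap (algebraMap k K).injective
  have key0 : ∀ a b : TrivSqZeroExt K K, a.fst = 0 → b.fst = 0 → a * b = 0 := by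
    intro a b ha hb
    apply TrivSqZeroExt.ext
    · simp [ha]
    · simp [ha, hb]
  have key1 : ∀ a b : TrivSqZeroExt K K, (a * b).snd = a.fst * b.snd + b.fst * a.snd := by
    intro a b
    simp [mul_comm]
  have hb : AlgebraicIndependent L ((↑) : t → K) := ht.1
  set A0 := Algebra.adjoin L (Set.range ((↑) : t → K))
  set E := IntermediateField.adjoin L (Set.range ((↑) : t → K))
  have halg : Algebra.IsAlgebraic E K := ht.isAlgebraic_field
  have hsep : Algebra.IsSeparable E K := inferInstance
  have s1 : Algebra.FormallySmooth A0 E := .of_isLocalization (nonZeroDivisors _)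
  have s2 : Algebra.FormallyEtale E K := Algebra.FormallyEtale.of_isSeparable _ K
  have s3 : Algebra.FormallySmooth A0 K := .comp _ E _
  let j0 : MvPolynomial t L →+* TrivSqZeroExt K K :=
    MvPolynomial.eval₂Hom (dualHom d) fun s => TrivSqZeroExt.inl (s : K) + TrivSqZeroExt.inr (v s)
  let j1 : A0 →+* DualT K := j0.comp hb.aevalEquiv.symm.toAlgHom.toRingHom
  let _ : Algebra A0 (DualT K) := j1.toAlgebra
  have hfst : ∀ p : MvPolynomial t L,
      (j0 p).fst = MvPolynomial.aeval ((↑) : t → K) p := by
    intro p
    have : (TrivSqZeroExt.fstHom K K K).toRingHom.comp j0 =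
        (MvPolynomial.aeval ((↑) : t → K) : MvPolynomial t L →ₐ[L] K).toRingHom := by
      refine MvPolynomial.ringHom_ext (fun a => ?_) fun s => ?_
      · simp [j0, dualHom]
      · simp [j0]
    exact RingHom.congr_fun this p
  let g : DualT K →ₐ[A0] K :=
    { toRingHom := (TrivSqZeroExt.fstHom K K K).toRingHom
      commutes' := fun a => by
        obtain ⟨p, rfl⟩ := hb.aevalEquiv.surjective a
        change (j0 (hb.aevalEquiv.symm (hb.aevalEquiv p))).fst = _
        rw [AlgEquiv.symm_apply_apply, hfst]
        rfl }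
  have hg : Function.Surjective g := fun x => ⟨TrivSqZeroExt.inl x, rfl⟩
  have hn : IsNilpotent (RingHom.ker (g : DualT K →+* K)) := by
    refine ⟨2, ?_⟩
    rw [pow_two, Ideal.zero_eq_bot, eq_bot_iff, Ideal.mul_le]
    intro a ha b hb'
    have ha' : TrivSqZeroExt.fst (a : TrivSqZeroExt K K) = 0 := ha
    have hb'' : TrivSqZeroExt.fst (b : TrivSqZeroExt K K) = 0 := hb'
    exact key0 a b ha' hb''
  let j := Algebra.FormallySmooth.liftOfSurjective (AlgHom.id A0 K) g hg hn
  have hj : ∀ x, TrivSqZeroExt.fst (j x : TrivSqZeroExt K K) = x := fun x =>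
    Algebra.FormallySmooth.liftOfSurjective_apply (AlgHom.id A0 K) g hg hn x
  have hjA : ∀ p : MvPolynomial t L, j (MvPolynomial.aeval ((↑) : t → K) p) = j0 p := by
    intro p
    have := j.commutes (hb.aevalEquiv p)
    change j (MvPolynomial.aeval ((↑) : t → K) p) =
      j0 (hb.aevalEquiv.symm (hb.aevalEquiv p)) at this
    rwa [AlgEquiv.symm_apply_apply] at this
  have hadd : ∀ a b, TrivSqZeroExt.snd (j (a + b) : TrivSqZeroExt K K) =
      TrivSqZeroExt.snd (j a : TrivSqZeroExt K K) + TrivSqZeroExt.snd (j b : TrivSqZeroExt K K) :=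
    fun a b => by rw [map_add]; rfl
  have hmul : ∀ a b, TrivSqZeroExt.snd (j (a * b) : TrivSqZeroExt K K) =
      a * TrivSqZeroExt.snd (j b : TrivSqZeroExt K K) +
        b * TrivSqZeroExt.snd (j a : TrivSqZeroExt K K) := fun a b => by
    rw [map_mul]
    have := key1 (j a) (j b)
    rw [hj, hj] at this
    exact this
  have hC : ∀ a : L, TrivSqZeroExt.snd (j (algebraMap L K a) : TrivSqZeroExt K K) = d a :=
    fun a => by
      have := hjA (MvPolynomial.C a)
      rw [MvPolynomial.aeval_C] at this
      rw [this]
      simp [j0, dualHom]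
  refine ⟨Derivation.mk'
    { toFun := fun x => TrivSqZeroExt.snd (j x : TrivSqZeroExt K K)
      map_add' := hadd
      map_smul' := fun c x => by
        rw [Algebra.smul_def, hmul, IsScalarTower.algebraMap_apply k L K, hC,
          ← IsScalarTower.algebraMap_apply]
        simp [Algebra.smul_def] } hmul, hC, fun i => ?_⟩
  have := hjA (MvPolynomial.X i)
  rw [MvPolynomial.aeval_X] at this
  change TrivSqZeroExt.snd (j i : TrivSqZeroExt K K) = v i
  rw [this]
  simp [j0]

/-- (EXT), existence: a derivation extends with prescribed values on an independent family. -/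
theorem ext_der [CharZero k] {ι : Type*} (d : Derivation k L K) {b : ι → K}
    (hb : AlgebraicIndependent L b) (v : ι → K) :
    ∃ D : Derivation k K K, (∀ a, D (algebraMap L K a) = d a) ∧ ∀ i, D (b i) = v i := by
  classical
  have h1 : AlgebraicIndepOn L id (Set.range b) := hb.coe_range
  obtain ⟨t, hzt, ht⟩ := exists_isTranscendenceBasis_superset h1
  obtain ⟨D, hD, hv⟩ := ext_der_set d ht
    fun s => if h : ∃ i, b i = s then v h.choose else 0
  refine ⟨D, hD, fun i => ?_⟩
  have h2 : ∃ j, b j = b i := ⟨i, rfl⟩
  have := hv ⟨b i, hzt ⟨i, rfl⟩⟩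
  rw [dif_pos h2, hb.injective h2.choose_spec] at this
  exact this

/-- (EXT) for a derivation of `L` into itself. -/
theorem ext_der' [CharZero k] {ι : Type*} (d : Derivation k L L) {b : ι → K}
    (hb : AlgebraicIndependent L b) (v : ι → K) :
    ∃ D : Derivation k K K, (∀ a, D (algebraMap L K a) = algebraMap L K (d a)) ∧
      ∀ i, D (b i) = v i :=
  ext_der ((Algebra.linearMap L K).compDer d) hb v

/-- (VD) -/
theorem vd [CharZero k] {y : K} (hy : Transcendental L y) :
    ∃ D : Derivation k K K, (∀ a, D (algebraMap L K a) = 0) ∧ D y = 1 := by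
  obtain ⟨D, h1, h2⟩ := ext_der (0 : Derivation k L K)
    (algebraicIndependent_unique_type_iff (x := fun _ : Unit => y).2 hy) fun _ => 1
  exact ⟨D, h1, h2 ()⟩

/-- An element killed by all derivations that kill `L` is algebraic over `L`. -/
theorem isAlg_of_der [CharZero k] {y : K}
    (h : ∀ D : Derivation k K K, (∀ a, D (algebraMap L K a) = 0) → D y = 0) : IsAlgebraic L y := by
  by_contra hy
  obtain ⟨D, h1, h2⟩ := vd (k := k) hy
  simpa [h2] using h D h1

end Ext

section Dext

variable {K K' : Type*} [Field K] [CommRing K']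

/-- The kernel of a `ψ`-derivation. -/
def psiKer (ψ : K →+* K') (E : K →+ K') (hE : ∀ a b, E (a * b) = ψ a * E b + ψ b * E a) :
    Subfield K where
  carrier := {f | E f = 0}
  mul_mem' := fun {a b} ha hb => by
    change E (a * b) = 0
    rw [hE, show E a = 0 from ha, show E b = 0 from hb]; simp
  one_mem' := by
    have := hE 1 1
    simp only [mul_one, map_one, one_mul] at this
    change E 1 = 0
    linear_combination -this
  add_mem' := fun {a b} ha hb => by
    change E (a + b) = 0
    rw [map_add, show E a = 0 from ha, show E b = 0 from hb, add_zero]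
  zero_mem' := map_zero E
  neg_mem' := fun {a} ha => by
    change E (-a) = 0
    rw [map_neg, show E a = 0 from ha, neg_zero]
  inv_mem' := fun a ha => by
    change E a⁻¹ = 0
    by_cases h0 : a = 0
    · simp [h0]
    have h1 := hE 1 1
    simp only [mul_one, map_one, one_mul] at h1
    have h2 := hE a a⁻¹
    rw [mul_inv_cancel₀ h0, show E a = 0 from ha] at h2
    have h3 : ψ a⁻¹ * ψ a = 1 := by rw [← map_mul, inv_mul_cancel₀ h0, map_one]
    linear_combination (-E a⁻¹) * h3 - ψ a⁻¹ * h2 - ψ a⁻¹ * h1

theorem mem_psiKer {ψ : K →+* K'} {E : K →+ K'}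
    {hE : ∀ a b, E (a * b) = ψ a * E b + ψ b * E a} {f : K} : f ∈ psiKer ψ E hE ↔ E f = 0 :=
  Iff.rfl

/-- (DEXT) A `ψ`-derivation that kills `S` kills everything algebraic over `S`. -/
theorem dext [CharZero K] (ψ : K →+* K') (E : K →+ K')
    (hE : ∀ a b, E (a * b) = ψ a * E b + ψ b * E a) {S : Subfield K} (h : ∀ s ∈ S, E s = 0)
    {y : K} (hy : IsAlgebraic S y) : E y = 0 := by
  have h1 : E 1 = 0 := h 1 S.one_mem
  have hp : ∀ n : ℕ, E (y ^ (n + 1)) = ψ ((n + 1 : ℕ) * y ^ n) * E y := fun n => by
    induction n with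
    | zero => simp
    | succ n ih =>
      rw [pow_succ, hE, ih]
      simp only [map_mul, map_pow, map_natCast]
      push_cast
      ring
  have key : ∀ p : Polynomial S, E (Polynomial.aeval y p) =
      ψ (Polynomial.aeval y (Polynomial.derivative p)) * E y := fun p => by
    induction p using Polynomial.induction_on' with
    | add p q hp hq => simp only [map_add, hp, hq, add_mul]
    | monomial n a =>
      rw [Polynomial.derivative_monomial, Polynomial.aeval_monomial, Polynomial.aeval_monomial,
        hE, show E (algebraMap S K a) = 0 from h _ a.2]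
      cases n with
      | zero => simp [h1]
      | succ n =>
        rw [hp]
        simp only [map_mul, map_pow, map_natCast, Nat.add_sub_cancel]
        ring
  have hi := hy.isIntegral
  have h2 : Polynomial.aeval y (Polynomial.derivative (minpoly S y)) ≠ 0 :=
    (minpoly.irreducible hi).separable.aeval_derivative_ne_zero (minpoly.aeval S y)
  have h3 := key (minpoly S y)
  rw [minpoly.aeval, map_zero] at h3
  have h4 : ψ (Polynomial.aeval y (Polynomial.derivative (minpoly S y)))⁻¹ *
      ψ (Polynomial.aeval y (Polynomial.derivative (minpoly S y))) = 1 := by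
    rw [← map_mul, inv_mul_cancel₀ h2, map_one]
  linear_combination (-E y) * h4 -
    ψ (Polynomial.aeval y (Polynomial.derivative (minpoly S y)))⁻¹ * h3

end Dext

section Ker

variable {k Ω : Type*} [Field k] [Field Ω] [Algebra k Ω]

/-- The constants of a derivation. -/
def derKer (d : Derivation k Ω Ω) : IntermediateField k Ω :=
  (psiKer (RingHom.id Ω) d.toLinearMap.toAddMonoidHom fun a b => by simp).toIntermediateField
    fun a => d.map_algebraMap a

@[simp] theorem mem_derKer {d : Derivation k Ω Ω} {f : Ω} : f ∈ derKer d ↔ d f = 0 := Iff.rfl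

theorem der_zero_acl [CharZero Ω] (d : Derivation k Ω Ω) {S : Subfield Ω} (h : ∀ s ∈ S, d s = 0)
    {y : Ω} (hy : IsAlgebraic S y) : d y = 0 :=
  dext (RingHom.id Ω) d.toLinearMap.toAddMonoidHom (fun a b => by simp) h hy

/-- A derivation killing `S` kills the algebraic closure of `k (S)`. -/
theorem der_zero_cl [CharZero Ω] (d : Derivation k Ω Ω) {S : Set Ω} (h : ∀ s ∈ S, d s = 0)
    {y : Ω} (hy : y ∈ (matroid k Ω).closure S) : d y = 0 := by
  rw [matroid_closure_eq, SetLike.mem_coe, Subalgebra.mem_algebraicClosure] at hy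
  have hle : Algebra.adjoin k S ≤ (derKer d).toSubalgebra := Algebra.adjoin_le h
  exact der_zero_acl d (S := (derKer d).toSubfield) (fun _ hs => hs)
    (hy.tower_top_of_subalgebra_le hle)

/-- (EXT), uniqueness. -/
theorem der_eq_cl [CharZero Ω] (d d' : Derivation k Ω Ω) {S : Set Ω} (h : ∀ s ∈ S, d s = d' s)
    {y : Ω} (hy : y ∈ (matroid k Ω).closure S) : d y = d' y :=
  sub_eq_zero.1 (der_zero_cl (d - d') (fun s hs => sub_eq_zero.2 (h s hs)) hy)

end Ker

/-- (INJ) -/
theorem inj_of_alg {R A B : Type*} [CommRing R] [CommRing A] [IsDomain A] [CommRing B]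
    [Algebra R A] [Algebra.IsAlgebraic R A] (f : A →+* B)
    (h : Function.Injective (f.comp (algebraMap R A))) : Function.Injective f := by
  rw [injective_iff_map_eq_zero]
  intro x hx
  by_contra h0
  refine Ideal.comap_ne_bot_of_algebraic_mem (R := R) (I := RingHom.ker f) h0 hx
    (Algebra.IsAlgebraic.isAlgebraic x) ?_
  rw [RingHom.comap_ker]
  exact (RingHom.injective_iff_ker_eq_bot _).1 h

end Ivrii.T
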