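import Pool.Agent.P.MP_7a8567_an.T.Cl
import Pool.Agent.P.MP_7a8567_an.T.Ext

/-! Derivations and algebraic closure. -/

set_option autoImplicit false

noncomputable section

namespace Ivrii.T

variable {k : Type*} [Field k] [CharZero k] {A : Type*} [CommRing A] [IsDomain A] [Algebra k A]
  {A' : Type*} [CommRing A'] [IsDomain A'] [Algebra k A']

omit [CharZero k] [IsDomain A] [IsDomain A'] in
/-- A derivation along `ψ` that vanishes on `S` vanishes on the algebra generated by `S`. -/
theorem psi_der_adjoin (ψ : A →ₐ[k] A') (E : A → A') (hadd : ∀ a b, E (a + b) = E a + E b)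
    (hmul : ∀ a b, E (a * b) = ψ a * E b + ψ b * E a) (hk : ∀ c, E (algebraMap k A c) = 0)
    {S : Set A} (hS : ∀ a ∈ S, E a = 0) : ∀ a ∈ Algebra.adjoin k S, E a = 0 := by
  intro a ha
  induction ha using Algebra.adjoin_induction with
  | mem x hx => exact hS x hx
  | algebraMap r => exact hk r
  | add x y _ _ hx hy => rw [hadd, hx, hy, add_zero]
  | mul x y _ _ hx hy => rw [hmul, hx, hy]; simp

omit [CharZero k] [IsDomain A] [IsDomain A'] in
theorem psi_der_eval (ψ : A →ₐ[k] A') (E : A → A') (hadd : ∀ a b, E (a + b) = E a + E b)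
    (hmul : ∀ a b, E (a * b) = ψ a * E b + ψ b * E a) (a : A) (p : Polynomial A) :
    E (p.eval a) = (∑ i ∈ p.support, E (p.coeff i) * ψ a ^ i) +
      ψ (p.derivative.eval a) * E a := by
  have h1 : E 1 = 0 := by
    have := hmul 1 1
    simp only [mul_one, map_one, one_mul] at this
    linear_combination -this
  have hp : ∀ n : ℕ, E (a ^ n) = n * ψ a ^ (n - 1) * E a := fun n => by
    induction n with
    | zero => simp [h1]
    | succ n ih =>
      rw [pow_succ, hmul, ih, map_pow]
      cases n with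
      | zero => simp
      | succ n => simp only [Nat.add_sub_cancel]; push_cast; ring
  let E' : A →+ A' := AddMonoidHom.mk' E hadd
  have hE : ∀ x, E x = E' x := fun _ => rfl
  rw [Polynomial.derivative_apply, Polynomial.sum_def, Polynomial.eval_finsetSum, map_sum,
    Polynomial.eval_eq_sum, Polynomial.sum_def, hE, map_sum, Finset.sum_mul,
    ← Finset.sum_add_distrib]
  refine Finset.sum_congr rfl fun i _ => ?_
  rw [← hE, hmul, hp]
  simp only [Polynomial.eval_mul, Polynomial.eval_C, Polynomial.eval_pow, Polynomial.eval_X,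
    Polynomial.eval_natCast, map_mul, map_pow, map_natCast]
  ring

omit [CharZero k] [IsDomain A] in
theorem deriv_eval_mem (B : Subalgebra k A) {p : Polynomial A} (hp : ∀ n, p.coeff n ∈ B) {a : A}
    (ha : a ∈ B) : p.derivative.eval a ∈ B := by
  rw [Polynomial.eval_eq_sum_range]
  refine B.sum_mem fun i _ => B.mul_mem ?_ (B.pow_mem ha i)
  rw [Polynomial.coeff_derivative]
  exact B.mul_mem (hp _) (B.add_mem (natCast_mem B i) B.one_mem)

/-- A derivation along `ψ` that vanishes on `S` vanishes on the closure of `S`. -/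
theorem psi_der_zero (ψ : A →ₐ[k] A') (E : A → A') (hadd : ∀ a b, E (a + b) = E a + E b)
    (hmul : ∀ a b, E (a * b) = ψ a * E b + ψ b * E a) (hk : ∀ c, E (algebraMap k A c) = 0)
    {S : Set A} (hψ : ∀ a ∈ cl k S, ψ a = 0 → a = 0) (hS : ∀ a ∈ S, E a = 0) :
    ∀ a ∈ cl k S, E a = 0 := by
  intro a ha
  obtain ⟨p, h1, h2, h3⟩ := exists_min_poly ha
  have h4 := psi_der_eval ψ E hadd hmul a p
  have h0 : E 0 = 0 := by simpa using hk 0
  rw [h2, h0, Finset.sum_eq_zero fun i _ => by
    rw [psi_der_adjoin ψ E hadd hmul hk hS _ (h1 i), zero_mul], zero_add] at h4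
  refine (mul_eq_zero.1 h4.symm).resolve_left fun h => h3 (hψ _ ?_ h)
  exact deriv_eval_mem (clS k S) (fun n => adjoin_subset_cl S (h1 n)) ha

theorem der_cl_zero (d : Derivation k A A) {S : Set A} (hS : ∀ a ∈ S, d a = 0) :
    ∀ a ∈ cl k S, d a = 0 := by
  exact psi_der_zero (AlgHom.id k A) d (map_add d) (fun a b => by simp) d.map_algebraMap
    (fun _ _ h => h) hS

theorem der_cl_eq (d d' : Derivation k A A) {S : Set A} (hS : ∀ a ∈ S, d a = d' a) :
    ∀ a ∈ cl k S, d a = d' a := by
  intro a ha
  exact sub_eq_zero.1 (der_cl_zero (d - d') (fun s hs => sub_eq_zero.2 (hS s hs)) a ha)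

omit [CharZero k] [IsDomain A] in
theorem der_adjoin_mem (d : Derivation k A A) {S : Set A} (B : Subalgebra k A) (hB : S ⊆ B)
    (hS : ∀ a ∈ S, d a ∈ B) : ∀ a ∈ Algebra.adjoin k S, d a ∈ B := by
  intro a ha
  have hle : Algebra.adjoin k S ≤ B := Algebra.adjoin_le hB
  induction ha using Algebra.adjoin_induction with
  | mem x hx => exact hS x hx
  | algebraMap r => simp
  | add x y _ _ hx hy => rw [map_add]; exact B.add_mem hx hy
  | mul x y hx' hy' hx hy =>
    rw [Derivation.leibniz]
    exact B.add_mem (B.mul_mem (hle hx') hy) (B.mul_mem (hle hy') hx)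

theorem der_rel (d : Derivation k A A) {S : Set A} (B : Subalgebra k A) (hB : S ⊆ B)
    (hS : ∀ a ∈ S, d a ∈ B) {a : A} (ha : a ∈ cl k S) (haB : a ∈ B) :
    ∃ u ∈ B, u ≠ 0 ∧ u * d a ∈ B := by
  obtain ⟨p, h1, h2, h3⟩ := exists_min_poly ha
  have h4 := psi_der_eval (AlgHom.id k A) d (map_add d) (fun a b => by simp) a p
  rw [h2, map_zero] at h4
  have hle : Algebra.adjoin k S ≤ B := Algebra.adjoin_le hB
  refine ⟨_, deriv_eval_mem B (fun n => hle (h1 n)) haB, h3, ?_⟩
  have h5 : p.derivative.eval a * d a = -∑ i ∈ p.support, d (p.coeff i) * a ^ i :=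
    eq_neg_of_add_eq_zero_right h4.symm
  rw [h5]
  exact B.neg_mem (B.sum_mem fun i _ =>
    B.mul_mem (der_adjoin_mem d B hB hS _ (h1 i)) (B.pow_mem haB i))

theorem der_cl_mem (d : Derivation k A A) {S T : Set A} (hT : S ⊆ cl k T)
    (hS : ∀ a ∈ S, d a ∈ cl k T) : ∀ a ∈ cl k S, d a ∈ cl k T := by
  intro a ha
  obtain ⟨u, h1, h2, h3⟩ := der_rel d (clS k T) hT hS ha (cl_subset_cl hT ha)
  exact cl_of_mul h1 h2 h3

variable {Ω : Type*} [Field Ω] [Algebra k Ω]

/-- A finite or infinite algebraic extension of a stable field is stable. -/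
theorem der_field_mem (d : Derivation k Ω Ω) {S E : Set Ω} (hE : E ⊆ cl k S)
    (hS : ∀ a ∈ S, d a ∈ IntermediateField.adjoin k (S ∪ E)) :
    ∀ a ∈ IntermediateField.adjoin k (S ∪ E), d a ∈ IntermediateField.adjoin k (S ∪ E) := by
  have hsub : S ∪ E ⊆ IntermediateField.adjoin k (S ∪ E) := IntermediateField.subset_adjoin _ _
  have h1 : (IntermediateField.adjoin k (S ∪ E)).toSubfield ≤
      derPre d (IntermediateField.adjoin k (S ∪ E)).toSubfield := by
    conv_lhs => rw [IntermediateField.adjoin_toSubfield]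
    rw [Subfield.closure_le]
    rintro y (⟨c, rfl⟩ | hy | hy)
    · exact ⟨IntermediateField.algebraMap_mem _ c, by simp⟩
    · exact ⟨hsub (Or.inl hy), hS y hy⟩
    · refine ⟨hsub (Or.inr hy), ?_⟩
      obtain ⟨u, h1, h2, h3⟩ := der_rel d (IntermediateField.adjoin k (S ∪ E)).toSubalgebra
        (Set.subset_union_left.trans hsub) hS (hE hy) (hsub (Or.inr hy))
      have : d y = u * d y / u := by field_simp
      rw [this]
      exact (IntermediateField.adjoin k (S ∪ E)).div_mem h3 h1
  exact fun a ha => (h1 ha).2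

open scoped IntermediateField.algebraAdjoinAdjoin in
/-- Extension of derivations with prescribed values on independent elements. -/
theorem exists_der_ext {L : Type*} [CommRing L] [Algebra k L] (i : L →ₐ[k] Ω)
    (hi : Function.Injective i) (E : L → Ω) (hadd : ∀ a b, E (a + b) = E a + E b)
    (hmul : ∀ a b, E (a * b) = i a * E b + i b * E a) (hk : ∀ c, E (algebraMap k L c) = 0)
    {Z : Set Ω} (hZ : Ind k (Set.range i) Z) (v : Ω → Ω) :
    ∃ D : Derivation k Ω Ω, (∀ a, D (i a) = E a) ∧ ∀ y ∈ Z, D y = v y := by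
  let F := IntermediateField.adjoin k (Set.range i)
  let A0 := Algebra.adjoin k (Set.range i)
  let e : L ≃ₐ[k] A0 := (AlgEquiv.ofInjective i hi).trans
    (Subalgebra.equivOfEq _ _ (Algebra.adjoin_eq i.range).symm)
  have he : ∀ a, (e a : Ω) = i a := fun _ => rfl
  have h1 : E 1 = 0 := by simpa using hk 1
  have h0 : E 0 = 0 := by simpa using hk 0
  let j0 : L →+* TrivSqZeroExt Ω Ω :=
    { toFun := fun a => TrivSqZeroExt.inl (i a) + TrivSqZeroExt.inr (E a)
      map_one' := by simp [h1]
      map_zero' := by simp [h0]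
      map_add' := fun a b => by apply TrivSqZeroExt.ext <;> simp [hadd]
      map_mul' := fun a b => by
        apply TrivSqZeroExt.ext
        · simp
        · simp [hmul, mul_comm] }
  let j1 : A0 →+* TrivSqZeroExt Ω Ω := j0.comp e.symm.toAlgHom.toRingHom
  have hj1 : ∀ a, j1 (e a) = TrivSqZeroExt.inl (i a) + TrivSqZeroExt.inr (E a) := fun a => by
    change j0 (e.symm (e a)) = _
    rw [e.symm_apply_apply]
    rfl
  have hu : ∀ y : nonZeroDivisors A0, IsUnit (j1 y) := fun y => by
    obtain ⟨a, ha⟩ := e.surjective y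
    rw [← ha, hj1, TrivSqZeroExt.isUnit_iff_isUnit_fst]
    simp [← he, ha]
  let j : F →+* TrivSqZeroExt Ω Ω := IsLocalization.lift hu
  have hj : ∀ a, j (algebraMap A0 F (e a)) =
      TrivSqZeroExt.inl (i a) + TrivSqZeroExt.inr (E a) := fun a => by
    rw [IsLocalization.lift_eq, hj1]
  have hfst : ∀ x : F, (j x).fst = x := fun x => by
    have : (TrivSqZeroExt.fstHom Ω Ω Ω).toRingHom.comp j = algebraMap F Ω := by
      refine IsLocalization.ringHom_ext (nonZeroDivisors A0) (RingHom.ext fun a => ?_)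
      obtain ⟨a, rfl⟩ := e.surjective a
      change (j (algebraMap A0 F (e a))).fst = i a
      simp [hj]
    exact RingHom.congr_fun this x
  have hm : ∀ a b : F, (j (a * b)).snd = a • (j b).snd + b • (j a).snd := fun a b => by
    rw [map_mul, TrivSqZeroExt.snd_mul, hfst, hfst]
    simp [mul_comm, IntermediateField.smul_def]
  have hc : ∀ c : k, (j (algebraMap k F c)).snd = 0 := fun c => by
    have : algebraMap k F c = algebraMap A0 F (e (algebraMap k L c)) :=
      Subtype.ext (i.commutes c).symm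
    rw [this, hj]
    simp [hk]
  let d : Derivation k F Ω := Derivation.mk'
    { toFun := fun x => (j x).snd
      map_add' := fun a b => by simp
      map_smul' := fun c x => by
        rw [Algebra.smul_def, hm, hc]
        simp } hm
  have hF : (F.toSubalgebra : Set Ω) ⊆ cl k (Set.range i) :=
    IntermediateField.adjoin_le_iff (T := clF k (Set.range i)).2 (subset_cl _)
  have hZ' : AlgebraicIndependent F ((↑) : Z → Ω) :=
    (ind_iff F.toSubalgebra (IntermediateField.subset_adjoin _ _) hF).1 hZ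
  obtain ⟨D, h2, h3⟩ := ext_der d hZ' fun y => v y
  refine ⟨D, fun a => ?_, fun y hy => h3 ⟨y, hy⟩⟩
  have := h2 (algebraMap A0 F (e a))
  change D (i a) = (j _).snd at this
  simpa [hj] using this

/-- Transcendental elements are detected by derivations. -/
theorem exists_der_one {N : Set Ω} {y : Ω} (h : y ∉ cl k N) :
    ∃ δ : Derivation k Ω Ω, (∀ a ∈ cl k N, δ a = 0) ∧ δ y = 1 := by
  have hy : Transcendental (clF k N) y := fun h' => h (by
    rw [← cl_cl]
    exact IsAlgebraic.tower_top_of_subalgebra_le (A := (clF k N).toSubalgebra)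
      Algebra.subset_adjoin h')
  obtain ⟨D, h1, h2⟩ := vd (k := k) hy
  exact ⟨D, fun a ha => h1 ⟨a, ha⟩, h2⟩

/-- The restriction of a derivation to a stable subalgebra. -/
def resDer (d : Derivation k A A) (B : Subalgebra k A) (h : ∀ a ∈ B, d a ∈ B) :
    Derivation k B B :=
  Derivation.mk'
    { toFun := fun a => ⟨d a, h a a.2⟩
      map_add' := fun a b => Subtype.ext (by simp)
      map_smul' := fun c a => Subtype.ext (by simp) }
    fun a b => Subtype.ext (by simp)

omit [CharZero k] [IsDomain A] in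
@[simp] theorem coe_resDer (d : Derivation k A A) (B : Subalgebra k A) (h : ∀ a ∈ B, d a ∈ B)
    (a : B) : (resDer d B h a : A) = d a := rfl

end Ivrii.T
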