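import Pool.Agent.P.MP_7a8567_an.T.Defs

set_option autoImplicit false

/-!
Ring homomorphisms into power series rings defined by a linear differential equation.
-/

open PowerSeries

noncomputable section

namespace Ivrii.T

section Van

variable {L : Type*} [CommRing L] [Algebra ℚ L]

lemma X_pow_succ_dvd {E : L⟦X⟧} {n : ℕ} (h0 : constantCoeff E = 0)
    (h : (X : L⟦X⟧) ^ n ∣ d⁄dX L E) : (X : L⟦X⟧) ^ (n + 1) ∣ E := by
  rw [X_pow_dvd_iff] at h ⊢
  intro m hm
  rcases m with _ | m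
  · simpa using h0
  · have h1 := h m (by omega)
    rw [coeff_derivative] at h1
    have hu : IsUnit ((m : L) + 1) := by
      have : ((m : L) + 1) = algebraMap ℚ L ((m : ℚ) + 1) := by simp
      rw [this]
      exact (IsUnit.mk0 _ (by positivity)).map _
    exact (hu.mul_left_eq_zero).1 h1

omit [Algebra ℚ L] in
lemma eq_zero_of_dvd {E : L⟦X⟧} (h : ∀ n, (X : L⟦X⟧) ^ n ∣ E) : E = 0 := by
  ext n
  exact X_pow_dvd_iff.1 (h (n + 1)) n (by omega)

/-- A family of series without constant term whose derivatives lie in the ideal generated by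
the family is zero. -/
theorem van {α : Type*} (s : Set α) (E : α → L⟦X⟧) (h0 : ∀ x ∈ s, constantCoeff (E x) = 0)
    (h : ∀ x ∈ s, d⁄dX L (E x) ∈ Ideal.span (E '' s)) : ∀ x ∈ s, E x = 0 := by
  have key : ∀ n, ∀ x ∈ s, (X : L⟦X⟧) ^ n ∣ E x := by
    intro n
    induction n with
    | zero => intro x _; simp
    | succ n ih =>
      intro x hx
      refine X_pow_succ_dvd (h0 x hx) ?_
      rw [← Ideal.mem_span_singleton]
      refine Ideal.span_le.2 ?_ (h x hx)
      rintro _ ⟨y, hy, rfl⟩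
      exact Ideal.mem_span_singleton.2 (ih y hy)
  exact fun x hx => eq_zero_of_dvd fun n => key n x hx

lemma eq_C_of_der {E : L⟦X⟧} (h : d⁄dX L E = 0) : E = C (constantCoeff E) := by
  have := van (α := Unit) Set.univ (fun _ => E - C (constantCoeff E)) (by simp)
    (fun _ _ => by simp [h]) () trivial
  exact sub_eq_zero.1 this

lemma eq_of_der {E F : L⟦X⟧} (h0 : constantCoeff E = constantCoeff F)
    (h : d⁄dX L E = d⁄dX L F) : E = F := by
  have := eq_C_of_der (E := E - F) (by rw [map_sub, h, sub_self])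
  rw [map_sub, h0, sub_self, map_zero] at this
  exact sub_eq_zero.1 this

end Van

section Sol

variable {k B L ι : Type*} [CommRing k] [CommRing B] [Algebra k B] [CommRing L] [Algebra ℚ L]
  [Fintype ι]

/-- The coefficients of the solution. -/
def solc (S0 : B →+* L) (d : ι → Derivation k B B) (a : ι → L⟦X⟧) : ℕ → B → L
  | 0, f => S0 f
  | (n + 1), f => algebraMap ℚ L (1 / ((n : ℚ) + 1)) *
      ∑ i, ∑ p : Fin (n + 1), coeff (n - p) (a i) * solc S0 d a p (d i f)
decreasing_by exact p.2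

/-- The solution as a function. -/
def sol0 (S0 : B →+* L) (d : ι → Derivation k B B) (a : ι → L⟦X⟧) (f : B) : L⟦X⟧ :=
  PowerSeries.mk fun n => solc S0 d a n f

lemma cc_sol0 (S0 : B →+* L) (d : ι → Derivation k B B) (a : ι → L⟦X⟧) (f : B) :
    constantCoeff (sol0 S0 d a f) = S0 f := by
  rw [← coeff_zero_eq_constantCoeff_apply, sol0, coeff_mk, solc]

lemma der_sol0 (S0 : B →+* L) (d : ι → Derivation k B B) (a : ι → L⟦X⟧) (f : B) :
    d⁄dX L (sol0 S0 d a f) = ∑ i, a i * sol0 S0 d a (d i f) := by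
  ext n
  rw [coeff_derivative, sol0, coeff_mk, solc, map_sum, mul_right_comm]
  have : algebraMap ℚ L (1 / ((n : ℚ) + 1)) * ((n : L) + 1) = 1 := by
    have h : ((n : L) + 1) = algebraMap ℚ L ((n : ℚ) + 1) := by simp
    rw [h, ← map_mul, one_div, inv_mul_cancel₀ (by positivity), map_one]
  rw [this, one_mul]
  refine Finset.sum_congr rfl fun i _ => ?_
  rw [mul_comm (a i), coeff_mul, Finset.Nat.sum_antidiagonal_eq_sum_range_succ_mk,
    Finset.sum_range]
  refine Finset.sum_congr rfl fun p _ => ?_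
  simp only [sol0, coeff_mk]
  ring

omit [CommRing B] in
/-- Uniqueness of solutions on a stable set. -/
theorem sol_unique (s : Set B) (d : ι → B → B) (hs : ∀ i, ∀ f ∈ s, d i f ∈ s) (a : ι → L⟦X⟧)
    (ψ φ : B → L⟦X⟧) (h0 : ∀ f ∈ s, constantCoeff (ψ f) = constantCoeff (φ f))
    (hψ : ∀ f ∈ s, d⁄dX L (ψ f) = ∑ i, a i * ψ (d i f))
    (hφ : ∀ f ∈ s, d⁄dX L (φ f) = ∑ i, a i * φ (d i f)) : ∀ f ∈ s, ψ f = φ f := by
  intro f hf
  refine sub_eq_zero.1 (van s (fun f => ψ f - φ f) (fun x hx => by simp [h0 x hx]) ?_ f hf)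
  intro x hx
  rw [map_sub, hψ x hx, hφ x hx, ← Finset.sum_sub_distrib]
  refine Ideal.sum_mem _ fun i _ => ?_
  rw [← mul_sub]
  exact Ideal.mul_mem_left _ _ (Ideal.subset_span ⟨_, hs i x hx, rfl⟩)

lemma sol0_add (S0 : B →+* L) (d : ι → Derivation k B B) (a : ι → L⟦X⟧) (f g : B) :
    sol0 S0 d a (f + g) = sol0 S0 d a f + sol0 S0 d a g := by
  refine sub_eq_zero.1 (van (α := B × B) Set.univ
    (fun x => sol0 S0 d a (x.1 + x.2) - (sol0 S0 d a x.1 + sol0 S0 d a x.2))
    (fun x _ => by simp [cc_sol0]) ?_ (f, g) trivial)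
  intro x _
  rw [map_sub, map_add, der_sol0, der_sol0, der_sol0, ← Finset.sum_add_distrib,
    ← Finset.sum_sub_distrib]
  refine Ideal.sum_mem _ fun i _ => ?_
  rw [← mul_add, ← mul_sub, map_add]
  exact Ideal.mul_mem_left _ _ (Ideal.subset_span ⟨(d i x.1, d i x.2), trivial, rfl⟩)

lemma sol0_zero (S0 : B →+* L) (d : ι → Derivation k B B) (a : ι → L⟦X⟧) :
    sol0 S0 d a 0 = 0 := by
  have := sol0_add S0 d a 0 0
  rw [add_zero] at this
  exact left_eq_add.1 this

lemma sol0_mul (S0 : B →+* L) (d : ι → Derivation k B B) (a : ι → L⟦X⟧) (f g : B) :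
    sol0 S0 d a (f * g) = sol0 S0 d a f * sol0 S0 d a g := by
  refine sub_eq_zero.1 (van (α := B × B) Set.univ
    (fun x => sol0 S0 d a (x.1 * x.2) - (sol0 S0 d a x.1 * sol0 S0 d a x.2))
    (fun x _ => by simp [cc_sol0]) ?_ (f, g) trivial)
  intro x _
  rw [map_sub, Derivation.leibniz, der_sol0, der_sol0, der_sol0, smul_eq_mul, smul_eq_mul,
    Finset.mul_sum, Finset.mul_sum, ← Finset.sum_add_distrib, ← Finset.sum_sub_distrib]
  refine Ideal.sum_mem _ fun i _ => ?_
  have e : a i * sol0 S0 d a (d i (x.1 * x.2)) -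
      (sol0 S0 d a x.1 * (a i * sol0 S0 d a (d i x.2)) +
        sol0 S0 d a x.2 * (a i * sol0 S0 d a (d i x.1))) =
      a i * ((sol0 S0 d a (x.1 * d i x.2) - sol0 S0 d a x.1 * sol0 S0 d a (d i x.2)) +
        (sol0 S0 d a (x.2 * d i x.1) - sol0 S0 d a x.2 * sol0 S0 d a (d i x.1))) := by
    rw [Derivation.leibniz, smul_eq_mul, smul_eq_mul, sol0_add]
    ring
  rw [e]
  exact Ideal.mul_mem_left _ _ (Ideal.add_mem _
    (Ideal.subset_span ⟨(x.1, d i x.2), trivial, rfl⟩)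
    (Ideal.subset_span ⟨(x.2, d i x.1), trivial, rfl⟩))

lemma sol0_const (S0 : B →+* L) (d : ι → Derivation k B B) (a : ι → L⟦X⟧) {f : B}
    (hf : ∀ i, d i f = 0) : sol0 S0 d a f = C (S0 f) := by
  rw [eq_C_of_der (E := sol0 S0 d a f) (by simp [der_sol0, hf, sol0_zero]), cc_sol0]

/-- The unique ring homomorphism `ψ : B → L⟦X⟧` with constant term `S0` and
`ψ' = ∑ a i * ψ ∘ d i`. -/
def sol (S0 : B →+* L) (d : ι → Derivation k B B) (a : ι → L⟦X⟧) : B →+* L⟦X⟧ where
  toFun := sol0 S0 d a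
  map_one' := by rw [sol0_const S0 d a (fun i => by simp), map_one, map_one]
  map_mul' := sol0_mul S0 d a
  map_zero' := sol0_zero S0 d a
  map_add' := sol0_add S0 d a

@[simp] lemma cc_sol (S0 : B →+* L) (d : ι → Derivation k B B) (a : ι → L⟦X⟧) (f : B) :
    constantCoeff (sol S0 d a f) = S0 f := cc_sol0 S0 d a f

lemma der_sol (S0 : B →+* L) (d : ι → Derivation k B B) (a : ι → L⟦X⟧) (f : B) :
    d⁄dX L (sol S0 d a f) = ∑ i, a i * sol S0 d a (d i f) := der_sol0 S0 d a f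

lemma sol_const (S0 : B →+* L) (d : ι → Derivation k B B) (a : ι → L⟦X⟧) {f : B}
    (hf : ∀ i, d i f = 0) : sol S0 d a f = C (S0 f) := sol0_const S0 d a hf

end Sol

section Coef

variable {k L : Type*} [Field k] [CommRing L] [Algebra k L]

@[simp] lemma coeff_pcoef (δ : Derivation k L L) (f : L⟦X⟧) (n : ℕ) :
    coeff n (pcoef δ f) = δ (coeff n f) := coeff_mk n fun n => δ (coeff n f)

@[simp] lemma cc_pcoef (δ : Derivation k L L) (f : L⟦X⟧) :
    constantCoeff (pcoef δ f) = δ (constantCoeff f) := by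
  rw [← coeff_zero_eq_constantCoeff_apply, coeff_pcoef, coeff_zero_eq_constantCoeff_apply]

@[simp] lemma pcoef_C (δ : Derivation k L L) (a : L) : pcoef δ (C a) = C (δ a) := by
  ext n
  simp only [coeff_pcoef, coeff_C]
  split_ifs <;> simp

@[simp] lemma pcoef_X (δ : Derivation k L L) : pcoef δ (X : L⟦X⟧) = 0 := by
  ext n
  simp only [coeff_pcoef, coeff_X]
  split_ifs <;> simp

lemma der_pcoef (δ : Derivation k L L) (f : L⟦X⟧) : d⁄dX L (pcoef δ f) = pcoef δ (d⁄dX L f) := by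
  ext n
  have h : δ ((n : L) + 1) = 0 := by
    rw [← Nat.cast_succ]; exact δ.map_natCast _
  simp only [coeff_derivative, coeff_pcoef, Derivation.leibniz, h, smul_eq_mul]
  ring

lemma pcoef_pcoef {δ ε : Derivation k L L} (h : ∀ f, δ (ε f) = ε (δ f)) (f : L⟦X⟧) :
    pcoef δ (pcoef ε f) = pcoef ε (pcoef δ f) := by
  ext n
  simp [h]

@[simp] lemma dX_apply (f : L⟦X⟧) : dX k L f = d⁄dX L f := rfl

variable [Algebra ℚ L] {B ι : Type*} [Fintype ι]

/-- Chain rule for a coefficientwise derivation. -/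
theorem chain (s : Set B) (d : ι → B → B) (hs : ∀ i, ∀ f ∈ s, d i f ∈ s)
    (hc : ∀ i j, ∀ f ∈ s, d i (d j f) = d j (d i f)) (a : ι → L⟦X⟧) (ψ : B → L⟦X⟧)
    (hψ : ∀ f ∈ s, d⁄dX L (ψ f) = ∑ i, a i * ψ (d i f)) (δ : Derivation k L L)
    (A : ι → L⟦X⟧) (hA : ∀ i, d⁄dX L (A i) = pcoef δ (a i))
    (h0 : ∀ f ∈ s, δ (constantCoeff (ψ f)) =
      ∑ i, constantCoeff (A i) * constantCoeff (ψ (d i f))) :
    ∀ f ∈ s, pcoef δ (ψ f) = ∑ i, A i * ψ (d i f) := by
  intro f hf
  refine sub_eq_zero.1 (van s (fun f => pcoef δ (ψ f) - ∑ i, A i * ψ (d i f))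
    (fun x hx => by simp [h0 x hx]) ?_ f hf)
  intro x hx
  have e : d⁄dX L (pcoef δ (ψ x) - ∑ i, A i * ψ (d i x)) =
      ∑ j, a j * (pcoef δ (ψ (d j x)) - ∑ i, A i * ψ (d i (d j x))) := by
    rw [map_sub, der_pcoef, hψ x hx, map_sum, map_sum]
    simp only [Derivation.leibniz, smul_eq_mul, hA, Finset.sum_add_distrib, mul_sub,
      Finset.sum_sub_distrib]
    have e2 : ∑ i, A i * d⁄dX L (ψ (d i x)) = ∑ j, a j * ∑ i, A i * ψ (d i (d j x)) := by
      simp only [Finset.mul_sum]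
      rw [Finset.sum_comm]
      refine Finset.sum_congr rfl fun i _ => ?_
      rw [hψ _ (hs i x hx), Finset.mul_sum]
      refine Finset.sum_congr rfl fun j _ => ?_
      rw [hc i j x hx]
      ring
    rw [e2]
    ring
  rw [e]
  exact Ideal.sum_mem _ fun j _ =>
    Ideal.mul_mem_left _ _ (Ideal.subset_span ⟨d j x, hs j x hx, rfl⟩)

end Coef

section Sub

variable {L : Type*} [Field L]

/-- Power series with coefficients in a subfield. -/
def psub (K : Subfield L) : Subring L⟦X⟧ where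
  carrier := {f | ∀ n, coeff n f ∈ K}
  mul_mem' := fun {f g} hf hg n => by
    rw [coeff_mul]
    exact K.sum_mem fun p _ => K.mul_mem (hf _) (hg _)
  one_mem' := fun n => by
    rw [coeff_one]
    split_ifs
    · exact K.one_mem
    · exact K.zero_mem
  add_mem' := fun {f g} hf hg n => by
    rw [map_add]
    exact K.add_mem (hf n) (hg n)
  zero_mem' := fun n => by simp
  neg_mem' := fun {f} hf n => by
    rw [map_neg]
    exact K.neg_mem (hf n)

lemma mem_psub {K : Subfield L} {f : L⟦X⟧} : f ∈ psub K ↔ ∀ n, coeff n f ∈ K := Iff.rfl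

lemma psub_mono {K K' : Subfield L} (h : K ≤ K') : psub K ≤ psub K' := fun _ hf n => h (hf n)

lemma C_mem_psub {K : Subfield L} {a : L} (h : a ∈ K) : (C a : L⟦X⟧) ∈ psub K := fun n => by
  rw [coeff_C]
  split_ifs
  · exact h
  · exact K.zero_mem

lemma X_mem_psub (K : Subfield L) : (X : L⟦X⟧) ∈ psub K := fun n => by
  rw [coeff_X]
  split_ifs
  · exact K.one_mem
  · exact K.zero_mem

lemma cc_mem {K : Subfield L} {f : L⟦X⟧} (h : f ∈ psub K) : constantCoeff f ∈ K := by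
  rw [← coeff_zero_eq_constantCoeff_apply]
  exact h 0

lemma der_mem_psub {K : Subfield L} {f : L⟦X⟧} (h : f ∈ psub K) : d⁄dX L f ∈ psub K :=
  fun n => by
    rw [coeff_derivative]
    exact K.mul_mem (h _) (K.add_mem (natCast_mem K n) K.one_mem)

lemma pcoef_mem_psub {k : Type*} [Field k] [Algebra k L] {K : Subfield L}
    {δ : Derivation k L L} (hδ : ∀ f ∈ K, δ f ∈ K) {f : L⟦X⟧} (h : f ∈ psub K) :
    pcoef δ f ∈ psub K := fun n => by
  rw [coeff_pcoef]
  exact hδ _ (h n)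

lemma mem_range_map {K : Subfield L} {f : L⟦X⟧} :
    f ∈ psub K ↔ ∃ g : K⟦X⟧, PowerSeries.map K.subtype g = f := by
  constructor
  · intro h
    exact ⟨PowerSeries.mk fun n => ⟨coeff n f, h n⟩, by ext n; simp⟩
  · rintro ⟨g, rfl⟩ n
    rw [coeff_map]
    exact (coeff n g).2

lemma mem_psub_of_X_mul {K : Subfield L} {f : L⟦X⟧} (h : X * f ∈ psub K) : f ∈ psub K :=
  fun n => by simpa using h (n + 1)

/-- Division by a series with nonzero constant term. -/
lemma mem_psub_of_mul {K : Subfield L} {f g : L⟦X⟧} (hf : f ∈ psub K)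
    (h0 : constantCoeff f ≠ 0) (h : f * g ∈ psub K) : g ∈ psub K := by
  obtain ⟨f', rfl⟩ := mem_range_map.1 hf
  have h0' : constantCoeff f' ≠ 0 := fun h => h0 (by
    rw [← coeff_zero_eq_constantCoeff_apply, coeff_map, coeff_zero_eq_constantCoeff_apply, h,
      map_zero])
  have e : g = PowerSeries.map K.subtype f'⁻¹ * (PowerSeries.map K.subtype f' * g) := by
    rw [← mul_assoc, ← map_mul, PowerSeries.inv_mul_cancel _ h0', map_one, one_mul]
  rw [e]
  exact (psub K).mul_mem (mem_range_map.2 ⟨_, rfl⟩) h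

lemma inv_mem_psub {K : Subfield L} {f : L⟦X⟧} (hf : f ∈ psub K) (h0 : constantCoeff f ≠ 0) :
    f⁻¹ ∈ psub K :=
  mem_psub_of_mul hf h0 (by rw [PowerSeries.mul_inv_cancel _ h0]; exact (psub K).one_mem)

variable [CharZero L]

/-- A solution with data in a subfield has its coefficients in the subfield. -/
theorem mem_psub_of_ode {B ι : Type*} [Fintype ι] {K : Subfield L} (s : Set B) (d : ι → B → B)
    (hs : ∀ i, ∀ f ∈ s, d i f ∈ s) (a : ι → L⟦X⟧) (ha : ∀ i, a i ∈ psub K) (ψ : B → L⟦X⟧)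
    (h0 : ∀ f ∈ s, constantCoeff (ψ f) ∈ K)
    (hψ : ∀ f ∈ s, d⁄dX L (ψ f) = ∑ i, a i * ψ (d i f)) : ∀ f ∈ s, ψ f ∈ psub K := by
  have key : ∀ n, ∀ f ∈ s, coeff n (ψ f) ∈ K := by
    intro n
    induction n using Nat.strong_induction_on with
    | _ n ih =>
      intro f hf
      rcases n with _ | n
      · simpa using h0 f hf
      · have h1 := congrArg (coeff n) (hψ f hf)
        rw [coeff_derivative, map_sum] at h1
        have hn : (n : L) + 1 ≠ 0 := Nat.cast_add_one_ne_zero n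
        rw [eq_div_of_mul_eq hn h1]
        refine K.div_mem (K.sum_mem fun i _ => ?_) (K.add_mem (natCast_mem K n) K.one_mem)
        rw [coeff_mul]
        refine K.sum_mem fun p hp => K.mul_mem (ha i _) (ih _ ?_ _ (hs i f hf))
        have := Finset.HasAntidiagonal.mem_antidiagonal.1 hp
        omega
  exact fun f hf n => key n f hf

end Sub

section Aut

variable {L : Type*} [Field L]

lemma X_pow_dvd_map (R : L⟦X⟧ →+* L⟦X⟧) (hX : (X : L⟦X⟧) ∣ R X) {n : ℕ} {f : L⟦X⟧}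
    (h : (X : L⟦X⟧) ^ n ∣ f) : (X : L⟦X⟧) ^ n ∣ R f := by
  obtain ⟨g, rfl⟩ := h
  rw [map_mul, map_pow]
  exact Dvd.dvd.mul_right (pow_dvd_pow_of_dvd hX n) _

lemma X_dvd_map (R : L⟦X⟧ →+* L⟦X⟧) (h0 : ∀ f, constantCoeff (R f) = constantCoeff f) :
    (X : L⟦X⟧) ∣ R X := X_dvd_iff.2 (by rw [h0, constantCoeff_X])

/-- Leading terms. -/
lemma lead_map (R : L⟦X⟧ →+* L⟦X⟧) (h0 : ∀ f, constantCoeff (R f) = constantCoeff f) {n : ℕ}
    {f : L⟦X⟧} (h : (X : L⟦X⟧) ^ n ∣ f) :
    coeff n (R f) = coeff 1 (R X) ^ n * coeff n f := by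
  obtain ⟨g, rfl⟩ := h
  obtain ⟨e, he⟩ := X_dvd_map R h0
  have h1 : coeff 1 (R X) = constantCoeff e := by
    rw [he]; simp
  have h2 : ∀ g : L⟦X⟧, coeff n (X ^ n * g) = constantCoeff g := fun g => by
    simpa using coeff_X_pow_mul g n 0
  rw [map_mul, map_pow, h1, he, mul_pow, mul_assoc, h2, h2, map_mul, map_pow, h0]

theorem inj_of_lead (R : L⟦X⟧ →+* L⟦X⟧) (h0 : ∀ f, constantCoeff (R f) = constantCoeff f)
    (h1 : coeff 1 (R X) ≠ 0) : Function.Injective R := by
  rw [injective_iff_map_eq_zero]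
  intro f hf
  have key : ∀ n, (X : L⟦X⟧) ^ n ∣ f := by
    intro n
    induction n with
    | zero => simp
    | succ n ih =>
      have h2 := lead_map R h0 ih
      rw [hf, map_zero] at h2
      have h3 : coeff n f = 0 := (mul_eq_zero.1 h2.symm).resolve_left (pow_ne_zero _ h1)
      rw [X_pow_dvd_iff] at ih ⊢
      intro m hm
      rcases Nat.lt_succ_iff_lt_or_eq.1 hm with h | rfl
      · exact ih m h
      · exact h3
  ext n
  exact X_pow_dvd_iff.1 (key (n + 1)) n (by omega)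

theorem surj_of_lead (R : L⟦X⟧ →+* L⟦X⟧) (h0 : ∀ f, constantCoeff (R f) = constantCoeff f)
    (h1 : coeff 1 (R X) ≠ 0) {K : Subfield L} (hK : ∀ f ∈ psub K, R f ∈ psub K) {h : L⟦X⟧}
    (hh : h ∈ psub K) : ∃ f ∈ psub K, R f = h := by
  let c : L⟦X⟧ → ℕ → L := fun g n => coeff n (h - R g) / coeff 1 (R X) ^ n
  let F : ℕ → L⟦X⟧ := fun n => Nat.rec 0 (fun n g => g + X ^ n * C (c g n)) n
  have hF : ∀ n, F (n + 1) = F n + X ^ n * C (c (F n) n) := fun n => rfl
  have hFK : ∀ n, F n ∈ psub K := by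
    intro n
    induction n with
    | zero => exact (psub K).zero_mem
    | succ n ih =>
      rw [hF]
      exact (psub K).add_mem ih ((psub K).mul_mem ((psub K).pow_mem (X_mem_psub K) _)
        (C_mem_psub (K.div_mem ((psub K).sub_mem hh (hK _ ih) n)
          (K.pow_mem (hK _ (X_mem_psub K) 1) _))))
  have hd : ∀ n, (X : L⟦X⟧) ^ n ∣ h - R (F n) := by
    intro n
    induction n with
    | zero => simp
    | succ n ih =>
      have h2 := lead_map R h0 (dvd_mul_right (X ^ n) (C (c (F n) n)))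
      have h3 := X_pow_dvd_map R (X_dvd_map R h0) (dvd_mul_right (X ^ n) (C (c (F n) n)))
      rw [hF, map_add, ← sub_sub]
      have h4 := dvd_sub ih h3
      rw [X_pow_dvd_iff] at h4 ⊢
      intro m hm
      rcases Nat.lt_succ_iff_lt_or_eq.1 hm with h | rfl
      · exact h4 m h
      · have h5 : coeff m (X ^ m * C (c (F m) m)) = c (F m) m := by
          simp
        rw [map_sub, h2, h5]
        simp only [c]
        field_simp
        ring
  have hst : ∀ m n, m < n → coeff m (F n) = coeff m (F (m + 1)) := by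
    intro m n hmn
    induction n, hmn using Nat.le_induction with
    | base => rfl
    | succ n hn ih =>
      rw [hF, map_add, ih, X_pow_dvd_iff.1 (dvd_mul_right (X ^ n) _) m hn, add_zero]
  refine ⟨PowerSeries.mk fun m => coeff m (F (m + 1)), fun m => ?_, ?_⟩
  · rw [coeff_mk]
    exact hFK (m + 1) m
  · ext n
    have h2 : (X : L⟦X⟧) ^ (n + 1) ∣
        (PowerSeries.mk fun m => coeff m (F (m + 1))) - F (n + 1) := by
      rw [X_pow_dvd_iff]
      intro m hm
      rw [map_sub, coeff_mk, hst m _ hm, sub_self]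
    have h3 := X_pow_dvd_map R (X_dvd_map R h0) h2
    rw [map_sub] at h3
    have h4 := dvd_sub h3 (hd (n + 1))
    rw [sub_sub_sub_cancel_right] at h4
    have h5 := X_pow_dvd_iff.1 h4 n (by omega)
    rw [map_sub] at h5
    exact sub_eq_zero.1 h5

end Aut

section Export

variable {k B L : Type*} [Field k] [CharZero k] [CommRing B] [Algebra k B] [CommRing L]
  [Algebra k L]

/-- A `k`-algebra is a `ℚ`-algebra. -/
abbrev ratAlg (k L : Type*) [Field k] [CharZero k] [CommRing L] [Algebra k L] : Algebra ℚ L :=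
  ((algebraMap k L).comp (algebraMap ℚ k)).toAlgebra

theorem ode_zero {ι : Type*} (E : ι → L⟦X⟧) (h0 : ∀ i, constantCoeff (E i) = 0)
    (h : ∀ i, dX k L (E i) ∈ Submodule.span L⟦X⟧ (Set.range E)) : ∀ i, E i = 0 := by
  let := ratAlg k L
  exact fun i => van Set.univ E (fun i _ => h0 i)
    (fun i _ => by rw [Set.image_univ]; exact h i) i trivial

theorem exists_flow' {ι : Type*} [Fintype ι] (ρ : B →ₐ[k] L) (δ : ι → Derivation k B B)
    (a : ι → L⟦X⟧) : ∃ ψ : B →ₐ[k] L⟦X⟧, (∀ f, constantCoeff (ψ f) = ρ f) ∧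
      ∀ f, d⁄dX L (ψ f) = ∑ i, a i * ψ (δ i f) := by
  let := ratAlg k L
  refine ⟨{ sol ρ.toRingHom δ a with commutes' := fun r => ?_ }, cc_sol _ δ a, der_sol _ δ a⟩
  change sol ρ.toRingHom δ a (algebraMap k B r) = _
  rw [sol_const _ _ _ (fun i => (δ i).map_algebraMap r)]
  change C (ρ (algebraMap k B r)) = _
  rw [ρ.commutes, PowerSeries.algebraMap_apply]

theorem exists_flow (ρ : B →ₐ[k] L) (δ1 δ2 δ3 : Derivation k B B) (a1 a2 a3 : L⟦X⟧) :
    ∃ ψ : B →ₐ[k] L⟦X⟧, (∀ f, constantCoeff (ψ f) = ρ f) ∧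
      ∀ f, dX k L (ψ f) = a1 * ψ (δ1 f) + a2 * ψ (δ2 f) + a3 * ψ (δ3 f) := by
  obtain ⟨ψ, h0, h⟩ := exists_flow' ρ ![δ1, δ2, δ3] ![a1, a2, a3]
  exact ⟨ψ, h0, fun f => by simpa [Fin.sum_univ_three] using h f⟩

end Export

end Ivrii.T
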