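import Pool.Agent.P.MP_7a8567_an.LS
import Pool.Agent.P.MP_7a8567_an.A0.Iface

/-! Transcendental half of the billiard theorem: definitions. -/

set_option autoImplicit false

open PowerSeries

noncomputable section

namespace Ivrii.T

section cl

variable (k : Type*) [Field k] {A : Type*} [CommRing A] [Algebra k A]

/-- The elements algebraic over `k` and `S`. -/
def cl (S : Set A) : Set A := {a | IsAlgebraic (Algebra.adjoin k S) a}

/-- `I` is algebraically independent over `k` and `N`. -/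
def Ind (N I : Set A) : Prop := ∀ y ∈ I, y ∉ cl k (N ∪ (I \ {y}))

end cl

section series

variable {k : Type*} [Field k] {O : Type*} [CommRing O] [Algebra k O]

/-- Power series with coefficients in a set. -/
def ser (κ : Set O) : Set O⟦X⟧ := {f | ∀ n, coeff n f ∈ κ}

/-- The constant coefficient as an algebra map. -/
def cc (k : Type*) [Field k] (O : Type*) [CommRing O] [Algebra k O] : O⟦X⟧ →ₐ[k] O :=
  { constantCoeff (R := O) with commutes' := fun _ => rfl }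

/-- The derivative of a power series. -/
def dX (k : Type*) [Field k] (O : Type*) [CommRing O] [Algebra k O] :
    Derivation k O⟦X⟧ O⟦X⟧ :=
  (PowerSeries.derivative O).restrictScalars k

/-- A derivation of the coefficients, acting coefficientwise. -/
def pcoef (δ : Derivation k O O) : Derivation k O⟦X⟧ O⟦X⟧ :=
  Derivation.mk'
    { toFun := fun f => PowerSeries.mk fun n => δ (coeff n f)
      map_add' := fun f g => by ext n; simp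
      map_smul' := fun c f => by ext n; simp }
    fun f g => by
      ext n
      simp only [LinearMap.coe_mk, AddHom.coe_mk, coeff_mk, smul_eq_mul, map_add, coeff_mul,
        map_sum, Derivation.leibniz, mul_comm g, Finset.sum_add_distrib]
      simp only [mul_comm]

end series

/-- A field with two commuting derivations whose common constants are `k`. -/
structure DF (k Ω : Type*) [Field k] [Field Ω] [Algebra k Ω] where
  D₁ : Derivation k Ω Ω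
  D₂ : Derivation k Ω Ω
  comm : ∀ f, D₁ (D₂ f) = D₂ (D₁ f)
  const : ∀ f, D₁ f = 0 → D₂ f = 0 → ∃ a : k, algebraMap k Ω a = f

namespace DF

variable {k Ω : Type*} [Field k] [Field Ω] [Algebra k Ω] (𝔇 : DF k Ω)

/-- The bracket. -/
def br (f g : Ω) : Ω := 𝔇.D₁ f * 𝔇.D₂ g - 𝔇.D₂ f * 𝔇.D₁ g

/-- The derivation `g ↦ br f g`. -/
def ham (f : Ω) : Derivation k Ω Ω := 𝔇.D₁ f • 𝔇.D₂ - 𝔇.D₂ f • 𝔇.D₁

/-- The partial derivative with respect to `f` when `g` is fixed. -/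
def dual (f g : Ω) : Derivation k Ω Ω := (𝔇.br g f)⁻¹ • 𝔇.ham g

/-- Linear combinations of the two derivations. -/
def IsSpan (δ : Derivation k Ω Ω) : Prop := ∃ a b : Ω, ∀ f, δ f = a * 𝔇.D₁ f + b * 𝔇.D₂ f

/-- Algebraically closed subfields closed under the bracket. -/
structure Closed (X : Set Ω) : Prop where
  cl_eq : cl k X = X
  br_mem : ∀ f ∈ X, ∀ g ∈ X, 𝔇.br f g ∈ X

/-- An oriented line. -/
structure Line (t P : Ω) : Prop where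
  t_ne : t ≠ 0
  br : 𝔇.br P t = t

/-- A reflection. -/
structure Link (t P t' P' z w q c : Ω) : Prop where
  l₀ : 𝔇.Line t P
  l₁ : 𝔇.Line t' P'
  on₀ : P = z / t - w * t
  on₁ : P' = z / t' - w * t'
  refl : q = t * t'
  dz₁ : 𝔇.D₁ z = q * 𝔇.D₁ w
  dz₂ : 𝔇.D₂ z = q * 𝔇.D₂ w
  dq₁ : 𝔇.D₁ q = c * 𝔇.D₁ w
  dq₂ : 𝔇.D₂ q = c * 𝔇.D₂ w
  c_ne : c ≠ 0

/-- The field of jets of the mirror at the point `(z, w)`. -/
def jet (z w : Ω) : IntermediateField k Ω :=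
  sInf {K | z ∈ K ∧ w ∈ K ∧
    ∀ f ∈ K, ∀ g, 𝔇.D₁ f = g * 𝔇.D₁ w → 𝔇.D₂ f = g * 𝔇.D₂ w → g ∈ K}

/-- The hypotheses of the core lemma. -/
structure Hyp where
  (t P t' P' z w q c : Ω)
  (LL Mm : Set Ω)
  (t1 P1 z1 w1 : Ω)
  (te Pe tf Pf zC wC qC cC : Ω)
  lk : 𝔇.Link t P t' P' z w q c
  LLc : 𝔇.Closed LL
  Mmc : 𝔇.Closed Mm
  sub : Mm ⊆ LL
  tM : t ∈ Mm
  PM : P ∈ Mm
  wL : w ∉ LL
  l1 : 𝔇.Line t1 P1
  t1M : t1 ∈ Mm
  P1M : P1 ∈ Mm
  z1L : z1 ∈ LL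
  w1L : w1 ∈ LL
  on1 : P1 = z1 / t1 - w1 * t1
  br1 : 𝔇.br z1 w1 = 0
  i1 : w1 ∉ cl k (∅ : Set Ω)
  i2 : z1 ∉ cl k {w1}
  w1M : w1 ∉ Mm
  lkC : 𝔇.Link te Pe tf Pf zC wC qC cC
  teF : te ∈ cl k {t', P'}
  PeF : Pe ∈ cl k {t', P'}
  wCK : wC ∉ cl k (insert t (𝔇.jet z w : Set Ω))
  rel1 : wC ∈ cl k (LL ∪ (𝔇.jet z w : Set Ω))
  rel2 : LL ⊆ cl k (Mm ∪ (𝔇.jet z w : Set Ω) ∪ (𝔇.jet zC wC : Set Ω))

/-- An infinite chain of reflections; link `j` is `(l (j - 1), A j, l j)`. -/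
structure Ch where
  (t P z w q c : ℤ → Ω)
  lk : ∀ j, 𝔇.Link (t (j - 1)) (P (j - 1)) (t j) (P j) (z j) (w j) (q j) (c j)

namespace Ch

variable {𝔇} (γ : 𝔇.Ch)

/-- Link `j` is transcendental. -/
def Tr (j : ℤ) : Prop := γ.z j ∉ cl k {γ.w j}

/-- The lines `a, …, b` and the jets at the points `a + 1, …, b`. -/
def M (a b : ℤ) : Set Ω :=
  cl k ({γ.t a, γ.P a} ∪ ⋃ j ∈ Set.Ioc a b, (𝔇.jet (γ.z j) (γ.w j) : Set Ω))

/-- No run of algebraic links images one transcendental mirror onto another. -/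
def NI : Prop :=
  ∀ a b, a < b → γ.Tr a → γ.Tr b → (∀ j, a < j → j < b → ¬ γ.Tr j) → 𝔇.br (γ.w a) (γ.w b) ≠ 0

end Ch

end DF

/-- The data at a tangent line. -/
structure Stat (k O : Type*) [Field k] [Field O] [Algebra k O] where
  (Dt DP Dd : Derivation k O O)
  (κ M : Set O)
  L : IntermediateField k O
  (s P z w q c : O)
  (t1 P1 z1 w1 : O)
  comm : ∀ f, Dt (DP f) = DP (Dt f)
  κcl : cl k κ = κ
  κDt : ∀ f ∈ κ, Dt f ∈ κ
  κDP : ∀ f ∈ κ, DP f ∈ κ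
  κDd : ∀ f ∈ κ, Dd f ∈ κ
  LDt : ∀ f ∈ L, Dt f ∈ L
  LDP : ∀ f ∈ L, DP f ∈ L
  MDt : ∀ f ∈ M, Dt f ∈ M
  MDP : ∀ f ∈ M, DP f ∈ M
  ML : M ⊆ L
  sκ : s ∈ κ
  zκ : z ∈ κ
  wκ : w ∈ κ
  sM : s ∈ M
  PM : P ∈ M
  s_ne : s ≠ 0
  hs : s ^ 2 = q
  hP : P * s = z - w * s ^ 2
  Ddz : Dd z = q
  Ddw : Dd w = 1
  Ddq : Dd q = c
  c_ne : c ≠ 0
  Dts : Dt s = 1
  DPs : DP s = 0
  DtP : Dt P = 0
  DPP : DP P = 1
  DdL : ∀ f ∈ L, Dd f = Dd s * Dt f + Dd P * DP f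
  constκ : ∀ f ∈ κ, Dd f = 0 → f ∈ cl k (∅ : Set O)
  constL : ∀ f ∈ L, Dt f = 0 → DP f = 0 → f ∈ cl k (∅ : Set O)
  is : s ∉ cl k (∅ : Set O)
  iP : P ∉ cl k {s}
  case : (Dt z = 0 ∧ DP z = 0) ∨ z ∈ cl k {s, P}
  t1M : t1 ∈ M
  P1M : P1 ∈ M
  z1L : z1 ∈ L
  w1L : w1 ∈ L
  t1_ne : t1 ≠ 0
  on1 : P1 * t1 = z1 - w1 * t1 ^ 2
  jac : Dt P1 * DP t1 - DP P1 * Dt t1 ≠ 0
  br1 : Dt z1 * DP w1 = DP z1 * Dt w1
  i1 : w1 ∉ cl k (∅ : Set O)
  i2 : z1 ∉ cl k {w1}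
  w1k : w1 ∉ cl k (κ ∪ M)

namespace Stat

variable {k O : Type*} [Field k] [Field O] [Algebra k O] (σ : Stat k O)

/-- A Taylor shift in the two coordinates. -/
structure Shift (T : O →ₐ[k] O⟦X⟧) : Prop where
  cc : ∀ f, constantCoeff (T f) = f
  ode : ∀ f, dX k O (T f) = dX k O (T σ.s) * T (σ.Dt f) + dX k O (T σ.P) * T (σ.DP f)

/-- The shift to the line of direction `s + X` through the point. -/
structure Base (T : O →ₐ[k] O⟦X⟧) : Prop where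
  shift : σ.Shift T
  Ts : T σ.s = C σ.s + X
  TP : T σ.P * T σ.s = C σ.z - C σ.w * T σ.s ^ 2

/-- The result of steps 1 to 3 of the core lemma. -/
def Dyn : Prop :=
  ∃ (T : O →ₐ[k] O⟦X⟧) (t' P' : O⟦X⟧) (W : Set O⟦X⟧), σ.Base T ∧ t' * T σ.s = C σ.q ∧
    P' * t' = C σ.z - C σ.w * t' ^ 2 ∧
    (∀ (g : O⟦X⟧ →ₐ[k] O⟦X⟧) (α β : O⟦X⟧), (∀ f, constantCoeff (g f) = constantCoeff f) →
      (∀ f, dX k O (g f) = α * g (pcoef σ.Dd f) + β * g (dX k O f)) → g t' = t' → g P' = P' →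
      ∀ f ∈ W, g f = f) ∧
    W ⊆ cl k (T '' σ.L ∪ ser σ.κ) ∧ T '' σ.L ⊆ cl k (T '' σ.M ∪ C '' σ.κ ∪ W)

end Stat

/-- No run of algebraic links of a periodic chain is an isometry of the lines. -/
def NoAlg : Prop :=
  ∀ (k Ω : Type) [Field k] [Field Ω] [Algebra k Ω] [IsAlgClosed k] [IsAlgClosed Ω] [CharZero k]
    (γ : A0.Closed k Ω) (a m : ℕ), 1 ≤ m →
    (∀ j, a < j → j ≤ a + m → ¬ AlgebraicIndependent k ![γ.z j, γ.w j]) →
    IntermediateField.adjoin k {γ.t (a + m), γ.P (a + m)} ≠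
      IntermediateField.adjoin k {γ.t a, γ.P a}

end Ivrii.T
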