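import Pool.Agent.P.MP_7a8567_an.T.Defs

/-! The closure operator `cl` and independence. -/

set_option autoImplicit false

noncomputable section

namespace Ivrii.T

variable {k : Type*} [Field k] {A : Type*} [CommRing A] [IsDomain A] [Algebra k A]
  {A' : Type*} [CommRing A'] [IsDomain A'] [Algebra k A']

theorem cl_eq_closure (S : Set A) : cl k S = (AlgebraicIndependent.matroid k A).closure S := by
  rw [AlgebraicIndependent.matroid_closure_eq]
  rfl

theorem subset_cl (S : Set A) : S ⊆ cl k S := by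
  rw [cl_eq_closure]
  exact Matroid.subset_closure _ _ (Set.subset_univ _)

theorem mem_cl {S : Set A} {a : A} (h : a ∈ S) : a ∈ cl k S := subset_cl S h

theorem cl_mono {S T : Set A} (h : S ⊆ T) : cl k S ⊆ cl k T := by
  rw [cl_eq_closure, cl_eq_closure]
  exact Matroid.closure_subset_closure _ h

theorem cl_cl (S : Set A) : cl k (cl k S) = cl k S := by
  rw [cl_eq_closure, cl_eq_closure]
  exact Matroid.closure_closure _ _

theorem cl_subset_cl {S T : Set A} (h : S ⊆ cl k T) : cl k S ⊆ cl k T :=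
  (cl_mono h).trans (cl_cl T).subset

/-- The closure as a subalgebra. -/
def clS (k : Type*) [Field k] [Algebra k A] (S : Set A) : Subalgebra k A :=
  (Subalgebra.algebraicClosure (Algebra.adjoin k S) A).restrictScalars k

theorem mem_clS {S : Set A} {a : A} : a ∈ clS k S ↔ a ∈ cl k S := Iff.rfl

theorem cl_add {S : Set A} {a b : A} (ha : a ∈ cl k S) (hb : b ∈ cl k S) : a + b ∈ cl k S :=
  (clS k S).add_mem ha hb

theorem cl_sub {S : Set A} {a b : A} (ha : a ∈ cl k S) (hb : b ∈ cl k S) : a - b ∈ cl k S :=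
  (clS k S).sub_mem ha hb

theorem cl_neg {S : Set A} {a : A} (ha : a ∈ cl k S) : -a ∈ cl k S := (clS k S).neg_mem ha

theorem cl_mul {S : Set A} {a b : A} (ha : a ∈ cl k S) (hb : b ∈ cl k S) : a * b ∈ cl k S :=
  (clS k S).mul_mem ha hb

theorem cl_pow {S : Set A} {a : A} (ha : a ∈ cl k S) (n : ℕ) : a ^ n ∈ cl k S :=
  (clS k S).pow_mem ha n

theorem cl_algebraMap (S : Set A) (c : k) : algebraMap k A c ∈ cl k S :=
  (clS k S).algebraMap_mem c

theorem cl_zero (S : Set A) : (0 : A) ∈ cl k S := (clS k S).zero_mem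

theorem cl_one (S : Set A) : (1 : A) ∈ cl k S := (clS k S).one_mem

theorem cl_natCast (S : Set A) (n : ℕ) : (n : A) ∈ cl k S := natCast_mem (clS k S) n

theorem adjoin_subset_cl (S : Set A) : (Algebra.adjoin k S : Set A) ⊆ cl k S :=
  Algebra.adjoin_le (S := clS k S) (subset_cl S)

theorem cl_adjoin (S : Set A) : cl k (Algebra.adjoin k S : Set A) = cl k S :=
  (cl_subset_cl (adjoin_subset_cl S)).antisymm (cl_mono Algebra.subset_adjoin)

open Polynomial in
omit [IsDomain A] in
theorem cl0_iff {S : Set A} {a : A} : a ∈ cl k S ↔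
    ∃ p : A[X], p ≠ 0 ∧ (∀ n, p.coeff n ∈ Algebra.adjoin k S) ∧ p.eval a = 0 := by
  constructor
  · rintro ⟨p, h0, h⟩
    refine ⟨p.map (algebraMap _ A), ?_, fun n => ?_, by rwa [eval_map_algebraMap]⟩
    · exact (Polynomial.map_ne_zero_iff Subtype.val_injective).2 h0
    · rw [coeff_map]
      exact (p.coeff n).2
  · rintro ⟨p, h0, h, he⟩
    obtain ⟨q, rfl⟩ := (mem_lifts (f := algebraMap (Algebra.adjoin k S) A) p).1
      ((lifts_iff_coeff_lifts p).2 fun n => ⟨⟨_, h n⟩, rfl⟩)
    exact ⟨q, fun hq => h0 (by rw [hq, Polynomial.map_zero]), by rwa [eval_map_algebraMap] at he⟩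

theorem cl0_root {S : Set A} {a : A} (p : Polynomial A) (h0 : p ≠ 0)
    (hp : ∀ n, p.coeff n ∈ cl k S) (h : p.eval a = 0) : a ∈ cl k S := by
  rw [← cl_cl]
  exact cl0_iff.2 ⟨p, h0, fun n => Algebra.subset_adjoin (hp n), h⟩

omit [IsDomain A] in
theorem cl0_eval (B : Subalgebra k A) {p : Polynomial A} (hp : ∀ n, p.coeff n ∈ B) {a : A}
    (ha : a ∈ B) : p.eval a ∈ B := by
  rw [Polynomial.eval_eq_sum_range]
  exact B.sum_mem fun n _ => B.mul_mem (hp n) (B.pow_mem ha n)

theorem cl_of_mul {S : Set A} {a b : A} (ha : a ∈ cl k S) (h0 : a ≠ 0) (h : a * b ∈ cl k S) :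
    b ∈ cl k S := by
  refine cl0_root (Polynomial.C a * Polynomial.X - Polynomial.C (a * b)) (fun h1 => h0 ?_)
    (fun n => ?_) (by simp)
  · simpa using congrArg (fun p => Polynomial.coeff p 1) h1
  · rw [Polynomial.coeff_sub, Polynomial.coeff_C_mul_X, Polynomial.coeff_C]
    refine cl_sub ?_ ?_ <;> split_ifs <;> first | assumption | exact cl_zero S

theorem cl_of_pow {S : Set A} {a : A} {n : ℕ} (hn : n ≠ 0) (h : a ^ n ∈ cl k S) : a ∈ cl k S := by
  refine cl0_root (Polynomial.X ^ n - Polynomial.C (a ^ n))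
    (Polynomial.X_pow_sub_C_ne_zero (Nat.pos_of_ne_zero hn) _) (fun j => ?_) (by simp)
  rw [Polynomial.coeff_sub, Polynomial.coeff_X_pow, Polynomial.coeff_C]
  refine cl_sub ?_ ?_ <;> split_ifs <;> first | assumption | exact cl_zero S | exact cl_one S

/-- A root of a nonzero polynomial with coefficients in the closure. -/
theorem cl_of_root {S : Set A} {a : A} (p : Polynomial A) (h0 : p ≠ 0)
    (hp : ∀ n, p.coeff n ∈ cl k S) (h : p.eval a = 0) : a ∈ cl k S := by
  exact cl0_root p h0 hp h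

/-- A polynomial relation of least degree. -/
theorem exists_min_poly [CharZero k] {S : Set A} {a : A} (h : a ∈ cl k S) :
    ∃ p : Polynomial A, (∀ n, p.coeff n ∈ Algebra.adjoin k S) ∧ p.eval a = 0 ∧
      p.derivative.eval a ≠ 0 := by
  have : CharZero A := charZero_of_injective_algebraMap (algebraMap k A).injective
  obtain ⟨p, h0, hp, he⟩ := cl0_iff.1 h
  induction hn : p.natDegree using Nat.strong_induction_on generalizing p with
  | _ n ih =>
    by_cases hd : p.derivative.eval a = 0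
    · have h1 : p.natDegree ≠ 0 := fun h1 => h0 (by
        rw [Polynomial.eq_C_of_natDegree_eq_zero h1] at he ⊢
        rw [Polynomial.eval_C] at he
        rw [he, Polynomial.C_0])
      refine ih _ (hn ▸ Polynomial.natDegree_derivative_lt h1) p.derivative
        (fun h2 => h1 (Polynomial.derivative_eq_zero.1 h2)) (fun j => ?_) hd rfl
      rw [Polynomial.coeff_derivative]
      exact Subalgebra.mul_mem _ (hp _)
        (Subalgebra.add_mem _ (Subalgebra.natCast_mem _ _) (Subalgebra.one_mem _))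
    · exact ⟨p, hp, he, hd⟩

theorem cl_finite {S : Set A} {a : A} (h : a ∈ cl k S) : ∃ T ⊆ S, T.Finite ∧ a ∈ cl k T := by
  rw [cl_eq_closure] at h
  obtain ⟨T, h1, h2, -, h3⟩ := Matroid.exists_mem_finite_closure_of_mem_closure h
  exact ⟨T, h1, h2, by rwa [cl_eq_closure]⟩

theorem cl_exchange {S : Set A} {a b : A} (h : a ∈ cl k (insert b S)) (h' : a ∉ cl k S) :
    b ∈ cl k (insert a S) := by
  rw [cl_eq_closure] at h h' ⊢
  exact Matroid.mem_closure_insert h' h

theorem mem_cl_empty [IsAlgClosed k] {a : A} :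
    a ∈ cl k (∅ : Set A) ↔ a ∈ Set.range (algebraMap k A) := by
  refine ⟨fun h => ?_, ?_⟩
  · obtain ⟨p, h0, hp, he⟩ := cl0_iff.1 h
    rw [Algebra.adjoin_empty] at hp
    obtain ⟨q, rfl⟩ := (Polynomial.mem_lifts (f := algebraMap k A) p).1
      ((Polynomial.lifts_iff_coeff_lifts p).2 fun n => Algebra.mem_bot.1 (hp n))
    have hi : IsIntegral k a := IsAlgebraic.isIntegral ⟨q, fun hq => h0 (by
      rw [hq, Polynomial.map_zero]), by rwa [Polynomial.eval_map_algebraMap] at he⟩
    exact minpoly.mem_range_of_degree_eq_one k a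
      (IsAlgClosed.degree_eq_one_of_irreducible k (minpoly.irreducible hi))
  · rintro ⟨c, rfl⟩
    exact cl_algebraMap _ c

/-- Maps that are injective on a closed set preserve and reflect the closure there. -/
theorem cl_map_iff_on (φ : A →ₐ[k] A') {U : Set A} (hφ : ∀ a ∈ cl k U, φ a = 0 → a = 0)
    {S : Set A} (hS : S ⊆ cl k U) {a : A} (ha : a ∈ cl k U) :
    φ a ∈ cl k (φ '' S) ↔ a ∈ cl k S := by
  have hB : ∀ b ∈ Algebra.adjoin k S, b ∈ clS k U := fun b hb =>
    cl_subset_cl hS (adjoin_subset_cl S hb)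
  have ev : ∀ p : Polynomial A, (p.map (φ : A →+* A')).eval (φ a) = φ (p.eval a) := fun p => by
    rw [Polynomial.eval_map]
    exact Polynomial.eval₂_at_apply (φ : A →+* A') a
  rw [cl0_iff, cl0_iff, Algebra.adjoin_image]
  constructor
  · rintro ⟨q, h0, hq, he⟩
    obtain ⟨p, rfl⟩ := (Polynomial.mem_lifts
      (f := (φ : A →+* A').comp (algebraMap (Algebra.adjoin k S) A)) q).1
      ((Polynomial.lifts_iff_coeff_lifts q).2 fun n => by
        obtain ⟨b, hb, hb'⟩ := hq n
        exact ⟨⟨b, hb⟩, hb'⟩)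
    rw [← Polynomial.map_map] at h0 he
    have hc : ∀ n, (p.map (algebraMap (Algebra.adjoin k S) A)).coeff n ∈ Algebra.adjoin k S :=
      fun n => by
        rw [Polynomial.coeff_map]
        exact (p.coeff n).2
    refine ⟨_, fun h1 => h0 (by rw [h1, Polynomial.map_zero]), hc, ?_⟩
    rw [ev] at he
    exact hφ _ (cl0_eval (clS k U) (fun n => hB _ (hc n)) ha) he
  · rintro ⟨p, h0, hp, he⟩
    refine ⟨p.map (φ : A →+* A'), fun h1 => h0 ?_, fun n => ?_, by rw [ev, he, map_zero]⟩
    · ext n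
      refine hφ _ (hB _ (hp n)) ?_
      simpa using congrArg (fun q => Polynomial.coeff q n) h1
    · rw [Polynomial.coeff_map]
      exact ⟨_, hp n, rfl⟩

theorem cl_map_iff (φ : A →ₐ[k] A') (hφ : Function.Injective φ) (S : Set A) (a : A) :
    φ a ∈ cl k (φ '' S) ↔ a ∈ cl k S := by
  have hu : ∀ b : A, b ∈ cl k (Set.univ : Set A) := fun b => mem_cl (Set.mem_univ b)
  exact cl_map_iff_on φ (U := Set.univ) (fun b _ hb => hφ (by rw [hb, map_zero]))
    (fun b _ => hu b) (hu a)

omit [IsDomain A'] in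
theorem cl0_inj (φ : A →ₐ[k] A') {T : Set A}
    (hT : ∀ a ∈ Algebra.adjoin k T, φ a = 0 → a = 0) : ∀ a ∈ cl k T, φ a = 0 → a = 0 := by
  intro a ha h
  by_contra h0
  obtain ⟨p, hp0, hp, he⟩ := cl0_iff.1 ha
  have z : ∀ p : Polynomial A, (∀ n, p.coeff n ∈ Algebra.adjoin k T) → p.eval a = 0 →
      p.coeff 0 = 0 ∧ p.divX.eval a = 0 := fun p hp he => by
    have h1 := congrArg (Polynomial.eval a) p.X_mul_divX_add
    rw [he, Polynomial.eval_add, Polynomial.eval_mul, Polynomial.eval_X, Polynomial.eval_C] at h1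
    have h2 : p.coeff 0 = 0 := hT _ (hp 0) (by simpa [h] using congrArg φ h1)
    rw [h2, add_zero] at h1
    exact ⟨h2, (mul_eq_zero.1 h1).resolve_left h0⟩
  refine hp0 (Polynomial.ext fun n => ?_)
  clear hp0
  induction n generalizing p with
  | zero => exact (z p hp he).1
  | succ n ih =>
    rw [← Polynomial.coeff_divX]
    exact ih _ (fun j => by rw [Polynomial.coeff_divX]; exact hp _) (z p hp he).2

omit [IsDomain A'] in
theorem cl0_step (φ : A →ₐ[k] A') {T : Set A} {y : A} (hT : ∀ a ∈ cl k T, φ a = 0 → a = 0)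
    (hy : φ y ∉ cl k (φ '' T)) : ∀ a ∈ cl k (insert y T), φ a = 0 → a = 0 := by
  refine cl0_inj φ fun a ha h => ?_
  have hp : ∃ p : Polynomial (Algebra.adjoin k T), Polynomial.aeval y p = a := by
    clear h
    induction ha using Algebra.adjoin_induction with
    | mem x hx =>
      rcases hx with rfl | hx
      · exact ⟨Polynomial.X, Polynomial.aeval_X _⟩
      · exact ⟨Polynomial.C ⟨x, Algebra.subset_adjoin hx⟩, Polynomial.aeval_C _ _⟩
    | algebraMap c => exact ⟨Polynomial.C (algebraMap k _ c), Polynomial.aeval_C _ _⟩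
    | add _ _ _ _ h1 h2 =>
      obtain ⟨p, rfl⟩ := h1
      obtain ⟨q, rfl⟩ := h2
      exact ⟨p + q, map_add _ _ _⟩
    | mul _ _ _ _ h1 h2 =>
      obtain ⟨p, rfl⟩ := h1
      obtain ⟨q, rfl⟩ := h2
      exact ⟨p * q, map_mul _ _ _⟩
  obtain ⟨p, rfl⟩ := hp
  have h1 : (p.map (algebraMap _ A)).map (φ : A →+* A') = 0 := by
    by_contra h0
    refine hy (cl0_iff.2 ⟨_, h0, fun n => ?_, ?_⟩)
    · rw [Polynomial.coeff_map, Polynomial.coeff_map, Algebra.adjoin_image]
      exact ⟨_, (p.coeff n).2, rfl⟩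
    · rw [Polynomial.eval_map, ← h, ← Polynomial.eval_map_algebraMap]
      exact Polynomial.eval₂_at_apply (φ : A →+* A') y
  have h2 : p = 0 := Polynomial.ext fun n => Subtype.ext
    (hT _ (adjoin_subset_cl T (p.coeff n).2) (by
      simpa using congrArg (fun q => Polynomial.coeff q n) h1))
  rw [h2, map_zero]

/-- A criterion for injectivity. -/
theorem inj_of_ind (φ : A →ₐ[k] A') {N I : Set A}
    (hN : ∀ a ∈ Algebra.adjoin k N, φ a = 0 → a = 0)
    (hI : ∀ y ∈ I, φ y ∉ cl k (φ '' (N ∪ (I \ {y})))) :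
    ∀ a ∈ cl k (N ∪ I), φ a = 0 → a = 0 := by
  have key : ∀ J : Set A, J.Finite → J ⊆ I → ∀ a ∈ cl k (N ∪ J), φ a = 0 → a = 0 := by
    intro J hJ
    induction J, hJ using Set.Finite.induction_on with
    | empty =>
      rw [Set.union_empty]
      exact fun _ => cl0_inj φ hN
    | @insert y J hy _ ih =>
      intro hs
      rw [Set.union_insert]
      have hsub : J ⊆ I \ {y} := fun x hx => ⟨hs (Set.mem_insert_of_mem _ hx), fun h1 =>
        hy (by rwa [Set.mem_singleton_iff.1 h1] at hx)⟩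
      exact cl0_step φ (ih ((Set.subset_insert _ _).trans hs)) fun h =>
        hI y (hs (Set.mem_insert _ _))
          (cl_mono (Set.image_mono (Set.union_subset_union_right _ hsub)) h)
  intro a ha
  obtain ⟨T, h1, h2, h3⟩ := cl_finite ha
  refine key (T ∩ I) (h2.inter_of_left _) Set.inter_subset_right a (cl_mono (fun x hx => ?_) h3)
  exact (h1 hx).imp id fun h4 => ⟨hx, h4⟩

/-- The criterion for two elements. -/
theorem inj_of_pair (φ : A →ₐ[k] A') {a b : A} (ha : φ a ∉ cl k (∅ : Set A'))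
    (hb : φ b ∉ cl k {φ a}) : ∀ y ∈ cl k {a, b}, φ y = 0 → y = 0 := by
  have h0 : ∀ y ∈ cl k (∅ : Set A), φ y = 0 → y = 0 := cl0_inj φ fun y hy h => by
    rw [Algebra.adjoin_empty] at hy
    obtain ⟨c, rfl⟩ := Algebra.mem_bot.1 hy
    rw [φ.commutes, map_eq_zero] at h
    rw [h, map_zero]
  have h1 := cl0_step φ (y := a) h0 (by rwa [Set.image_empty])
  have h2 := cl0_step φ (y := b) h1 (by simpa using hb)
  rw [Set.pair_comm]
  simpa using h2

section field

variable {Ω : Type*} [Field Ω] [Algebra k Ω]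

theorem cl_inv {S : Set Ω} {a : Ω} (ha : a ∈ cl k S) : a⁻¹ ∈ cl k S := by
  rcases eq_or_ne a 0 with rfl | h
  · simpa using cl_zero S
  · exact cl_of_mul ha h (by simpa [h] using cl_one S)

theorem cl_div {S : Set Ω} {a b : Ω} (ha : a ∈ cl k S) (hb : b ∈ cl k S) : a / b ∈ cl k S := by
  rw [div_eq_mul_inv]
  exact cl_mul ha (cl_inv hb)

/-- The closure as an intermediate field. -/
def clF (k : Type*) [Field k] [Algebra k Ω] (S : Set Ω) : IntermediateField k Ω :=
  (clS k S).toIntermediateField fun _ h => cl_inv h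

theorem mem_clF {S : Set Ω} {a : Ω} : a ∈ clF k S ↔ a ∈ cl k S := Iff.rfl

theorem coe_clF (S : Set Ω) : (clF k S : Set Ω) = cl k S := rfl

end field

end Ivrii.T
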