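import Mathlib
import Pool.Agent.P.MP_7a8567_an.T.Ext

set_option autoImplicit false

/-!
(BER): the field of a line through a transcendental point is algebraically closed in `κ (t)`.
-/

namespace Ivrii.T

open Finset AlgebraicIndependent Polynomial

section Coef

variable {k A Ω : Type*} [Field k] [Field A] [Field Ω] [Algebra k A] [Algebra A Ω] [Algebra k Ω]

/-- A derivation applied to the coefficients of a polynomial. -/
noncomputable def berC (δ : Derivation k A A) (g : A[X]) : A[X] :=
  ∑ i ∈ g.support, monomial i (δ (g.coeff i))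

theorem berC_coeff (δ : Derivation k A A) (g : A[X]) (i : ℕ) :
    (berC δ g).coeff i = δ (g.coeff i) := by
  simp only [berC, finsetSum_coeff, coeff_monomial, sum_ite_eq']
  split_ifs with h
  · rfl
  · rw [notMem_support_iff.1 h, map_zero]

omit [Algebra k Ω] in
theorem berC_aeval (δ : Derivation k A A) (g : A[X]) (t : Ω) :
    aeval t (berC δ g) = ∑ i ∈ g.support, algebraMap A Ω (δ (g.coeff i)) * t ^ i := by
  simp [berC, aeval_monomial]

omit [Algebra k A] in
theorem ber_der (Δ : Derivation k Ω Ω) {t : Ω} (ht : Δ t = 0) (g : A[X]) :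
    Δ (aeval t g) = ∑ i ∈ g.support, Δ (algebraMap A Ω (g.coeff i)) * t ^ i := by
  rw [aeval_def, eval₂_eq_sum, sum_def, map_sum]
  refine sum_congr rfl fun i _ => ?_
  rw [Derivation.leibniz, Derivation.leibniz_pow, ht]
  simp [mul_comm]

theorem ber_iter_pow (δ : Derivation k A A) {z : A} (h : δ z = 1) (n j : ℕ) :
    δ^[j] (z ^ n) = n.descFactorial j * z ^ (n - j) := by
  induction j with
  | zero => simp
  | succ j ih =>
    rw [Function.iterate_succ_apply', ih, Derivation.leibniz, Derivation.map_natCast,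
      Derivation.leibniz_pow, h, Nat.descFactorial_succ, Nat.sub_add_eq]
    simp only [smul_eq_mul, nsmul_eq_mul, Nat.cast_mul]
    ring

theorem ber_iter_smul (δ : Derivation k A A) (a : k) (y : A) (j : ℕ) :
    δ^[j] (a • y) = a • δ^[j] y := by
  induction j with
  | zero => rfl
  | succ j ih => simp only [Function.iterate_succ_apply', ih, Derivation.map_smul]

theorem ber_iter_neg (δ : Derivation k A A) (y : A) (j : ℕ) : δ^[j] (-y) = -δ^[j] y := by
  induction j with
  | zero => rfl
  | succ j ih => simp only [Function.iterate_succ_apply', ih, map_neg]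

variable [IsScalarTower k A Ω] {dz dw : Derivation k A A} {z w : A}

theorem ber_poly [CharZero k] (hc : ∀ f, dz (dw f) = dw (dz f))
    (hk : ∀ f, dz f = 0 → dw f = 0 → f ∈ Set.range (algebraMap k A))
    (zz : dz z = 1) (wz : dw z = 0) (t : Ω) (n : ℕ) :
    ∀ y : A, dw y = 0 → dz^[n] y = 0 → ∃ q : A[X], q.coeff 0 = y ∧
      (∀ i, 2 * n ≤ i + 1 → q.coeff i = 0) ∧
      aeval t q ∈ Algebra.adjoin k {t, algebraMap A Ω z - algebraMap A Ω w * t ^ 2} := by
  induction n with
  | zero =>
    intro y _ h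
    exact ⟨0, by simpa using h.symm, fun _ _ => rfl, by simp⟩
  | succ n ih =>
    intro y h1 h2
    obtain ⟨a, ha⟩ := hk (dz^[n] y) (by rwa [Function.iterate_succ_apply'] at h2)
      (by rw [fr_comm hc, h1, Function.iterate_fixed (map_zero dz)])
    have hn : (n.factorial : k) ≠ 0 := by exact_mod_cast n.factorial_ne_zero
    obtain ⟨q, q0, q1, q2⟩ := ih (y + (-(a / n.factorial)) • z ^ n)
      (by simp [h1, Derivation.leibniz_pow, wz])
      (by
        rw [fr_iter_add, ber_iter_smul, ber_iter_pow dz zz, ← ha, Nat.descFactorial_self,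
          Nat.sub_self, pow_zero, mul_one, Algebra.smul_def, ← map_natCast (algebraMap k A),
          ← map_mul, ← map_add]
        field_simp
        simp)
    refine ⟨q + (a / n.factorial) • (C z - C w * X ^ 2) ^ n, ?_, fun i hi => ?_, ?_⟩
    · simp [coeff_zero_eq_eval_zero]
      simp [← coeff_zero_eq_eval_zero, q0]
    · have hd : ((C z - C w * X ^ 2 : A[X]) ^ n).natDegree < i := by
        refine lt_of_le_of_lt (natDegree_pow_le_of_le (m := 2) n (by compute_degree)) (by omega)
      rw [coeff_add, q1 i (by omega), coeff_smul, coeff_eq_zero_of_natDegree_lt hd]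
      simp
    · rw [map_add, ← algebraMap_smul A, map_smul, algebraMap_smul]
      refine add_mem q2 (Subalgebra.smul_mem _ ?_ _)
      simp only [map_pow, map_sub, map_mul, aeval_C, aeval_X]
      exact pow_mem (Algebra.subset_adjoin (by simp)) _

theorem ber_core [CharZero k] (hc : ∀ f, dz (dw f) = dw (dz f))
    (hk : ∀ f, dz f = 0 → dw f = 0 → f ∈ Set.range (algebraMap k A))
    (zz : dz z = 1) (wz : dw z = 0) (zw : dz w = 0) (ww : dw w = 1) {t : Ω}
    (ht : Transcendental A t) (Δ : Derivation k Ω Ω) (Δt : Δ t = 0)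
    (hΔ : ∀ a, Δ (algebraMap A Ω a) = t ^ 2 * algebraMap A Ω (dz a) + algebraMap A Ω (dw a))
    (m : ℕ) : ∀ g : A[X], (∀ i, m ≤ i → g.coeff i = 0) → Δ (aeval t g) = 0 →
      aeval t g ∈ Algebra.adjoin k {t, algebraMap A Ω z - algebraMap A Ω w * t ^ 2} := by
  have ht0 : t ≠ 0 := fun h => ht (h ▸ isAlgebraic_zero)
  have hker : Algebra.adjoin k {t, algebraMap A Ω z - algebraMap A Ω w * t ^ 2} ≤
      (derKer Δ).toSubalgebra := by
    refine Algebra.adjoin_le ?_
    rintro _ (rfl | rfl)
    · exact Δt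
    · change Δ _ = 0
      rw [map_sub, Derivation.leibniz, Derivation.leibniz_pow, hΔ, hΔ, Δt, zz, wz, zw, ww]
      simp
  induction m with
  | zero =>
    intro g hg _
    have : g = 0 := Polynomial.ext fun i => hg i (Nat.zero_le _)
    simp [this]
  | succ m ih =>
    intro g hg h0
    have h1 : X ^ 2 * berC dz g + berC dw g = 0 := by
      by_contra hne
      refine ht ⟨_, hne, ?_⟩
      rw [← h0, ber_der Δ Δt, map_add, map_mul, berC_aeval, berC_aeval, mul_sum,
        ← sum_add_distrib]
      refine sum_congr rfl fun i _ => ?_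
      rw [hΔ, map_pow, aeval_X]
      ring
    have h2 : dw (g.coeff 0) = 0 := by
      have := congrArg (fun p => coeff p 0) h1
      simpa [berC_coeff, coeff_X_pow_mul'] using this
    have h3 : ∀ i, dz (g.coeff i) = -dw (g.coeff (i + 2)) := fun i => by
      have := congrArg (fun p => coeff p (i + 2)) h1
      simp only [coeff_add, coeff_X_pow_mul, berC_coeff, coeff_zero] at this
      linear_combination this
    have h4 : ∀ j i, g.coeff (i + 2 * j) = 0 → dz^[j] (g.coeff i) = 0 := by
      have : ∀ j i, dz^[j] (g.coeff i) = dw^[j] (g.coeff (i + 2 * j)) ∨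
          dz^[j] (g.coeff i) = -dw^[j] (g.coeff (i + 2 * j)) := by
        intro j
        induction j with
        | zero => intro i; simp
        | succ j ihj =>
          intro i
          rw [Function.iterate_succ_apply, h3, ber_iter_neg, ← fr_comm hc,
            Function.iterate_succ_apply', show i + 2 * (j + 1) = i + 2 + 2 * j by ring]
          rcases ihj (i + 2) with h | h <;> simp [h]
      intro j i h
      rcases this j i with h' | h' <;> simp [h', h, Function.iterate_fixed (map_zero dw)]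
    obtain ⟨q, q0, q1, q2⟩ := ber_poly (w := w) hc hk zz wz t ((m + 2) / 2) _ h2
      (h4 _ 0 (hg _ (by omega)))
    have h5 : g - q = X * divX (g - q) := by
      conv_lhs => rw [← X_mul_divX_add (g - q)]
      simp [q0]
    have h6 : aeval t g = t * aeval t (divX (g - q)) + aeval t q := by
      have := congrArg (aeval t) h5
      rw [map_sub, map_mul, aeval_X] at this
      linear_combination this
    have h7 := ih (divX (g - q)) (fun i hi => by
      rw [coeff_divX, coeff_sub, hg _ (by omega), q1 _ (by omega), sub_zero]) (by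
      have hq : Δ (aeval t q) = 0 := hker q2
      rw [h6, map_add, hq, Derivation.leibniz, Δt] at h0
      simpa [ht0] using h0)
    rw [h6]
    exact add_mem (mul_mem (Algebra.subset_adjoin (by simp)) h7) q2

end Coef

variable {k Ω : Type*} [Field k] [Field Ω] [Algebra k Ω]

theorem cl_comap {A : Type*} [CommRing A] [IsDomain A] [Algebra k A] (ψ : Ω →ₐ[k] A) {s : Set Ω}
    {a : Ω} (h : ψ a ∈ (matroid k A).closure (ψ '' s)) : a ∈ (matroid k Ω).closure s := by
  rw [matroid_closure_eq, SetLike.mem_coe, Subalgebra.mem_algebraicClosure] at h ⊢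
  rw [← AlgHom.map_adjoin] at h
  exact h.of_ringHom_of_comp_eq (ψ.subalgebraMap (Algebra.adjoin k s)) ψ
    (ψ.subalgebraMap_surjective _) ψ.injective rfl

theorem mem_range_of_alg [IsAlgClosed k] {y : Ω} (h : IsAlgebraic k y) :
    y ∈ Set.range (algebraMap k Ω) :=
  minpoly.mem_range_of_degree_eq_one k y
    (IsAlgClosed.degree_eq_one_of_irreducible k (minpoly.irreducible h.isIntegral))

/-- Partial derivatives on a field of transcendence degree two. -/
theorem ber_pd [IsAlgClosed k] [CharZero k] {z w : Ω} (h : AlgebraicIndependent k ![z, w])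
    (hcl : ∀ y, y ∈ (matroid k Ω).closure {z, w}) :
    ∃ dz dw : Derivation k Ω Ω, (∀ f, dz (dw f) = dw (dz f)) ∧
      (∀ f, dz f = 0 → dw f = 0 → f ∈ Set.range (algebraMap k Ω)) ∧
      dz z = 1 ∧ dw z = 0 ∧ dz w = 0 ∧ dw w = 1 := by
  have : CharZero Ω := charZero_of_injective_algebraMap (algebraMap k Ω).injective
  obtain ⟨dz, -, hz⟩ := ext_der (0 : Derivation k k Ω) h ![1, 0]
  obtain ⟨dw, -, hw⟩ := ext_der (0 : Derivation k k Ω) h ![0, 1]
  have zz : dz z = 1 := hz 0
  have zw : dz w = 0 := hz 1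
  have wz : dw z = 0 := hw 0
  have ww : dw w = 1 := hw 1
  refine ⟨dz, dw, fun f => ?_, fun f h1 h2 => mem_range_of_alg ?_, zz, wz, zw, ww⟩
  · have := der_zero_cl ⁅dz, dw⁆ (S := {z, w}) (by
      rintro _ (rfl | rfl) <;> simp [Derivation.commutator_apply, zz, zw, wz, ww]) (hcl f)
    rwa [Derivation.commutator_apply, sub_eq_zero] at this
  · refine isAlg_of_der (k := k) fun D _ => ?_
    have := der_eq_cl D (D z • dz + D w • dw) (S := {z, w}) (by
      rintro _ (rfl | rfl) <;> simp [zz, zw, wz, ww]) (hcl f)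
    simpa [h1, h2] using this

variable {κ : Type*} [Field κ] [Algebra k κ] [Algebra κ Ω] [IsScalarTower k κ Ω]

open scoped IntermediateField.algebraAdjoinAdjoin in
theorem ber_int {t : Ω} (ht : Transcendental κ t) {f : Ω}
    (hf : f ∈ IntermediateField.adjoin κ {t}) (hi : IsIntegral (Algebra.adjoin κ {t}) f) :
    ∃ g : κ[X], aeval t g = f := by
  have : IsIntegrallyClosed (Algebra.adjoin κ {t}) :=
    IsIntegrallyClosed.of_equiv (Polynomial.algEquivOfTranscendental κ t ht).toRingEquiv
  have h1 : IsIntegral (Algebra.adjoin κ {t}) (⟨f, hf⟩ : IntermediateField.adjoin κ {t}) :=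
    (isIntegral_algebraMap_iff (B := Ω) Subtype.val_injective).1 hi
  obtain ⟨y, hy⟩ := IsIntegrallyClosed.algebraMap_eq_of_integral h1
  obtain ⟨g, hg⟩ := (Algebra.adjoin_singleton_eq_range_aeval κ t).le y.2
  exact ⟨g, hg.trans (congrArg Subtype.val hy)⟩

theorem ber_pol [IsAlgClosed k] [CharZero k] {z w : κ} (h : AlgebraicIndependent k ![z, w]) {t : Ω}
    (ht : Transcendental κ t) (g : κ[X])
    (ha : aeval t g ∈ (matroid k Ω).closure {t, algebraMap κ Ω z - algebraMap κ Ω w * t ^ 2}) :
    aeval t g ∈ Algebra.adjoin k {t, algebraMap κ Ω z - algebraMap κ Ω w * t ^ 2} := by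
  have : CharZero Ω := charZero_of_injective_algebraMap (algebraMap k Ω).injective
  have hti : AlgebraicIndependent κ fun _ : Unit => t := algebraicIndependent_unique_type_iff.2 ht
  let F := IntermediateField.adjoin k {z, w}
  let A := (algebraicClosure F κ).restrictScalars k
  have zF : z ∈ F := IntermediateField.subset_adjoin _ _ (by simp)
  have wF : w ∈ F := IntermediateField.subset_adjoin _ _ (by simp)
  have hA : ∀ y, y ∈ A ↔ IsAlgebraic F y := fun y => mem_algebraicClosure_iff
  have hg : ∀ i, g.coeff i ∈ A := fun i => by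
    rw [hA]
    refine isAlg_of_der (k := k) fun δ hδ => ?_
    obtain ⟨Δ, h1, h2⟩ := ext_der' δ hti fun _ => 0
    have Δt : Δ t = 0 := h2 ()
    have h3 := der_zero_cl Δ (by
      rintro _ (rfl | rfl)
      · exact Δt
      · rw [map_sub, Derivation.leibniz, Derivation.leibniz_pow, h1, h1, Δt,
          show δ z = 0 from hδ ⟨z, zF⟩, show δ w = 0 from hδ ⟨w, wF⟩]
        simp) ha
    rw [ber_der Δ Δt] at h3
    simp only [h1] at h3
    rw [← berC_aeval] at h3
    have h4 : berC δ g = 0 := by
      by_contra hne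
      exact ht ⟨_, hne, h3⟩
    rw [← berC_coeff, h4, coeff_zero]
  let z' : A := ⟨z, (hA _).2 (isAlgebraic_algebraMap (⟨z, zF⟩ : F))⟩
  let w' : A := ⟨w, (hA _).2 (isAlgebraic_algebraMap (⟨w, wF⟩ : F))⟩
  have h' : AlgebraicIndependent k ![z', w'] :=
    .of_comp A.val (by convert h using 1; ext i; fin_cases i <;> rfl)
  obtain ⟨dz, dw, hc, hk, zz, wz, zw, ww⟩ := ber_pd h' fun y => cl_comap A.val (by
    rw [Set.image_pair, matroid_closure_eq, SetLike.mem_coe, Subalgebra.mem_algebraicClosure]
    exact IntermediateField.isAlgebraic_adjoin_iff.1 ((hA _).1 y.2))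
  have ht' : Transcendental A t := ht.of_tower_top A
  obtain ⟨Δ, h1, h2⟩ := ext_der
    (t ^ 2 • (Algebra.linearMap A Ω).compDer dz + (Algebra.linearMap A Ω).compDer dw)
    (algebraicIndependent_unique_type_iff (x := fun _ : Unit => t).2 ht') fun _ => 0
  have Δt : Δ t = 0 := h2 ()
  have hΔ : ∀ a, Δ (algebraMap A Ω a) = t ^ 2 * algebraMap A Ω (dz a) + algebraMap A Ω (dw a) :=
    h1
  obtain ⟨g', rfl⟩ := (mem_lifts (f := algebraMap A κ) g).1
    ((lifts_iff_coeff_lifts g).2 fun i => ⟨⟨_, hg i⟩, rfl⟩)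
  rw [aeval_map_algebraMap] at ha ⊢
  refine ber_core hc hk zz wz zw ww ht' Δ Δt hΔ (g'.natDegree + 1) g'
    (fun i hi => coeff_eq_zero_of_natDegree_lt hi) (der_zero_cl Δ ?_ ha)
  rintro _ (rfl | rfl)
  · exact Δt
  · change Δ (algebraMap A Ω z' - algebraMap A Ω w' * t ^ 2) = 0
    rw [map_sub, Derivation.leibniz, Derivation.leibniz_pow, hΔ, hΔ, Δt, zz, wz, zw, ww]
    simp

/-- (BER), with `t P = z - w t ^ 2` in place of `P`. -/
theorem ber [IsAlgClosed k] [CharZero k] {z w : κ} (h : AlgebraicIndependent k ![z, w]) {t : Ω}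
    (ht : Transcendental κ t) {f : Ω} (hf : f ∈ IntermediateField.adjoin κ {t})
    (ha : IsAlgebraic (Algebra.adjoin k {t, algebraMap κ Ω z - algebraMap κ Ω w * t ^ 2}) f) :
    f ∈ IntermediateField.adjoin k {t, algebraMap κ Ω z - algebraMap κ Ω w * t ^ 2} := by
  obtain ⟨r, hr, hi⟩ := ha.exists_integral_multiple
  have hle : Algebra.adjoin k {t, algebraMap κ Ω z - algebraMap κ Ω w * t ^ 2} ≤
      (Algebra.adjoin κ {t}).restrictScalars k := by
    have h1 : t ∈ Algebra.adjoin κ {t} := Algebra.subset_adjoin rfl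
    refine Algebra.adjoin_le ?_
    rintro _ (rfl | rfl)
    · exact h1
    · exact (Algebra.adjoin κ {t}).sub_mem (Subalgebra.algebraMap_mem _ _)
        (mul_mem (Subalgebra.algebraMap_mem _ _) (pow_mem h1 2))
  have hi' : IsIntegral (Algebra.adjoin κ {t}) (r • f) :=
    hi.map_of_comp_eq (Subalgebra.inclusion hle).toRingHom (RingHom.id Ω) rfl
  obtain ⟨g, hg⟩ := ber_int ht
    (mul_mem (IntermediateField.algebra_adjoin_le_adjoin _ _ (hle r.2)) hf) hi'
  have h1 := ber_pol h ht g (by
    rw [hg, matroid_closure_eq, SetLike.mem_coe, Subalgebra.mem_algebraicClosure]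
    exact hi.isAlgebraic)
  have hr' : (r : Ω) ≠ 0 := fun e => hr (Subtype.ext e)
  have h2 : f = (r : Ω) * f / r := by field_simp
  rw [h2, ← hg]
  exact div_mem (IntermediateField.algebra_adjoin_le_adjoin _ _ h1)
    (IntermediateField.algebra_adjoin_le_adjoin _ _ r.2)

end Ivrii.T
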