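import Pool.Agent.P.MP_7a8567_an.T.Defs
import Pool.Agent.P.MP_7a8567_an.T.Free
import Pool.Agent.P.MP_7a8567_an.T.Ext

set_option autoImplicit false

/-!
Algebraic closures of sets, and the form of the freeness lemma used in the core lemma.
-/

open AlgebraicIndependent

noncomputable section

namespace Ivrii.T.C4

section Ring

variable {k A A' : Type*} [Field k] [CommRing A] [IsDomain A] [Algebra k A] [CommRing A']
  [IsDomain A'] [Algebra k A']

lemma cl_eq (S : Set A) : cl k S = (matroid k A).closure S := by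
  rw [matroid_closure_eq]
  rfl

lemma subset_cl (S : Set A) : S ⊆ cl k S := by
  rw [cl_eq]
  exact (matroid k A).subset_closure S (by simp)

lemma cl_subset {S T : Set A} (h : S ⊆ cl k T) : cl k S ⊆ cl k T := by
  rw [cl_eq] at h
  rw [cl_eq, cl_eq]
  exact Matroid.closure_subset_closure_of_subset_closure h

lemma cl_mono {S T : Set A} (h : S ⊆ T) : cl k S ⊆ cl k T := cl_subset (h.trans (subset_cl T))

omit [IsDomain A] [IsDomain A'] in
lemma cl_map (ψ : A →ₐ[k] A') (hψ : Function.Injective ψ) {S : Set A} {a : A}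
    (h : a ∈ cl k S) : ψ a ∈ cl k (ψ '' S) := by
  change IsAlgebraic _ _
  rw [← AlgHom.map_adjoin]
  refine IsAlgebraic.ringHom_of_comp_eq (ψ.subalgebraMap (Algebra.adjoin k S)) ψ h ?_ rfl
  intro u v huv
  exact Subtype.ext (hψ (congrArg Subtype.val huv))

omit [IsDomain A] [IsDomain A'] in
lemma cl_comap (ψ : A →ₐ[k] A') (hψ : Function.Injective ψ) {S : Set A} {a : A}
    (h : ψ a ∈ cl k (ψ '' S)) : a ∈ cl k S := by
  change IsAlgebraic _ _ at h
  rw [← AlgHom.map_adjoin] at h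
  exact IsAlgebraic.of_ringHom_of_comp_eq (ψ.subalgebraMap (Algebra.adjoin k S)) ψ h
    (ψ.subalgebraMap_surjective _) hψ rfl

omit [IsDomain A] in
lemma cl_map_sub (ψ : A →ₐ[k] A') (hψ : Function.Injective ψ) {S : Set A} {T : Set A'}
    (hS : ∀ s ∈ S, ψ s ∈ cl k T) {a : A} (h : a ∈ cl k S) : ψ a ∈ cl k T :=
  cl_subset (by rintro _ ⟨s, hs, rfl⟩; exact hS s hs) (cl_map ψ hψ h)

omit [IsDomain A] in
lemma isAlg_of_subset {σ τ : Type*} [SetLike σ A] [SubringClass σ A] [SetLike τ A]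
    [SubringClass τ A] {R₁ : σ} {R₂ : τ} (h : ∀ x ∈ R₁, x ∈ R₂) {y : A}
    (hy : IsAlgebraic (Subring.ofClass R₁) y) : IsAlgebraic (Subring.ofClass R₂) y :=
  IsAlgebraic.ringHom_of_comp_eq
    (Subring.inclusion (S := Subring.ofClass R₁) (T := Subring.ofClass R₂) h) (RingHom.id A) hy
    (Subring.inclusion_injective _) rfl

end Ring

section Fld

variable {k Ω : Type*} [Field k] [Field Ω] [Algebra k Ω]

variable (k) in
/-- The algebraic closure of a set as a subfield. -/
def clF (S : Set Ω) : Subfield Ω :=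
  { (Subalgebra.algebraicClosure (Algebra.adjoin k S) Ω).toSubring with
    inv_mem' := fun _ h => IsAlgebraic.inv h }

lemma mem_clF {S : Set Ω} {y : Ω} : y ∈ clF k S ↔ y ∈ cl k S := Iff.rfl

lemma alg_mem_cl (S : Set Ω) (a : k) : algebraMap k Ω a ∈ cl k S :=
  isAlgebraic_algebraMap (⟨_, (Algebra.adjoin k S).algebraMap_mem a⟩ : Algebra.adjoin k S)

lemma adjoin_sub {Z : Subfield Ω} (hk : ∀ a, algebraMap k Ω a ∈ Z) {S : Set Ω} (hS : S ⊆ Z) :
    ∀ x ∈ Algebra.adjoin k S, x ∈ Z := fun _ hx =>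
  Algebra.adjoin_le (S := (Z.toIntermediateField hk).toSubalgebra) hS hx

lemma isAlg_of_cl {Z : Subfield Ω} (hk : ∀ a, algebraMap k Ω a ∈ Z) {S : Set Ω} (hS : S ⊆ Z)
    {y : Ω} (hy : y ∈ cl k S) : IsAlgebraic Z y :=
  isAlg_of_subset (R₁ := Algebra.adjoin k S) (R₂ := Z) (adjoin_sub hk hS) hy

lemma cl_of_isAlg {Z : Subfield Ω} {y : Ω} (hy : IsAlgebraic Z y) : y ∈ cl k (Z : Set Ω) :=
  isAlg_of_subset (R₁ := Z) (R₂ := Algebra.adjoin k (Z : Set Ω))
    (fun _ hx => Algebra.subset_adjoin hx) hy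

lemma cl_base {Z : Subfield Ω} (hk : ∀ a, algebraMap k Ω a ∈ Z) (S : Set Ω) :
    cl Z S = cl k ((Z : Set Ω) ∪ S) := by
  ext y
  constructor
  · refine isAlg_of_subset (R₁ := Algebra.adjoin Z S) (R₂ := Algebra.adjoin k ((Z : Set Ω) ∪ S))
      fun x hx => ?_
    induction hx using Algebra.adjoin_induction with
    | mem x hx => exact Algebra.subset_adjoin (Or.inr hx)
    | algebraMap r => exact Algebra.subset_adjoin (Or.inl r.2)
    | add x y _ _ hx hy => exact add_mem hx hy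
    | mul x y _ _ hx hy => exact mul_mem hx hy
  · refine isAlg_of_subset (R₂ := Algebra.adjoin Z S) (R₁ := Algebra.adjoin k ((Z : Set Ω) ∪ S))
      fun x hx => ?_
    induction hx using Algebra.adjoin_induction with
    | mem x hx =>
      rcases hx with hx | hx
      · exact (Algebra.adjoin Z S).algebraMap_mem ⟨x, hx⟩
      · exact Algebra.subset_adjoin hx
    | algebraMap r => exact (Algebra.adjoin Z S).algebraMap_mem ⟨_, hk r⟩
    | add x y _ _ hx hy => exact add_mem hx hy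
    | mul x y _ _ hx hy => exact mul_mem hx hy

lemma der_cl [CharZero Ω] (d : Derivation k Ω Ω) {S T : Set Ω} (hS : S ⊆ cl k T)
    (hd : ∀ s ∈ S, d s ∈ cl k T) {y : Ω} (hy : y ∈ cl k S) : d y ∈ cl k T :=
  der_acl d (S := derPre d (clF k T)) (Y := clF k T) (fun _ h => h.1) (fun _ h => h.2)
    (isAlg_of_cl (Z := derPre d (clF k T)) (fun a => ⟨alg_mem_cl T a, by
      rw [d.map_algebraMap]; exact (clF k T).zero_mem⟩) (fun s hs => ⟨hS hs, hd s hs⟩) hy)
    (cl_subset hS hy)

lemma der_zero [CharZero Ω] (d : Derivation k Ω Ω) {S : Set Ω} (h : ∀ s ∈ S, d s = 0) {y : Ω}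
    (hy : y ∈ cl k S) : d y = 0 := der_zero_cl d h (cl_eq (k := k) S ▸ hy)

lemma der_eq [CharZero Ω] (d d' : Derivation k Ω Ω) {S : Set Ω} (h : ∀ s ∈ S, d s = d' s)
    {y : Ω} (hy : y ∈ cl k S) : d y = d' y := der_eq_cl d d' h (cl_eq (k := k) S ▸ hy)

lemma range_of_cl [IsAlgClosed k] {y : Ω} (hy : y ∈ cl k (∅ : Set Ω)) :
    y ∈ Set.range (algebraMap k Ω) := by
  change IsAlgebraic _ _ at hy
  rw [Algebra.adjoin_empty] at hy
  have h2 : IsAlgebraic k y :=
    IsAlgebraic.of_ringHom_of_comp_eq (algebraMap k (⊥ : Subalgebra k Ω)) (RingHom.id Ω) hy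
      (fun ⟨x, a, ha⟩ => ⟨a, Subtype.ext ha⟩) Function.injective_id rfl
  exact (minpoly.mem_range_of_degree_eq_one k y
    (IsAlgClosed.degree_eq_one_of_irreducible k (minpoly.irreducible h2.isIntegral)))

lemma exists_der [CharZero k] {S : Set Ω} {y : Ω} (hy : y ∉ cl k S) :
    ∃ D : Derivation k Ω Ω, (∀ a ∈ cl k S, D a = 0) ∧ D y = 1 := by
  obtain ⟨Z, hZ⟩ : ∃ Z : IntermediateField k Ω, (Z : Set Ω) = cl k S :=
    ⟨(clF k S).toIntermediateField (alg_mem_cl S), rfl⟩
  obtain ⟨D, h1, h2⟩ := vd (k := k) (L := Z) (y := y) fun h =>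
    hy (cl_subset (S := (Z : Set Ω)) hZ.subset (cl_of_isAlg (Z := Z.toSubfield) h))
  exact ⟨D, fun a ha => h1 ⟨a, hZ.symm.subset ha⟩, h2⟩

lemma ind_pair {a b : Ω} (ha : a ∉ cl k (∅ : Set Ω)) (hb : b ∉ cl k {a}) :
    AlgebraicIndependent k ![a, b] := by
  have hab : b ≠ a := fun h => hb (h ▸ subset_cl _ rfl)
  have h1 : (matroid k Ω).Indep (insert a ∅) :=
    ((matroid k Ω).empty_indep.notMem_closure_iff_of_notMem (Set.notMem_empty a)
      (by simp)).1 (cl_eq (k := k) (∅ : Set Ω) ▸ ha)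
  rw [insert_empty_eq] at h1
  have h2 : (matroid k Ω).Indep (insert b {a}) :=
    (h1.notMem_closure_iff_of_notMem hab (by simp)).1 (cl_eq (k := k) ({a} : Set Ω) ▸ hb)
  have h3 : AlgebraicIndependent k ((↑) : (insert b {a} : Set Ω) → Ω) := h2
  have := h3.comp (![⟨a, Or.inr rfl⟩, ⟨b, Or.inl rfl⟩] : Fin 2 → (insert b {a} : Set Ω)) (by
    intro i j hij
    fin_cases i <;> fin_cases j
    · rfl
    · exact absurd (congrArg Subtype.val hij).symm hab
    · exact absurd (congrArg Subtype.val hij) hab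
    · rfl)
  convert this using 1
  ext i
  fin_cases i <;> rfl

lemma pair_not_cl {a b : Ω} (h : AlgebraicIndependent k ![a, b]) :
    a ∉ cl k (∅ : Set Ω) ∧ b ∉ cl k {a} := by
  have h1 := (h.transcendental_adjoin (s := ∅) (i := 0) (by simp))
  have h2 := (h.transcendental_adjoin (s := {0}) (i := 1) (by simp))
  rw [Set.image_empty] at h1
  rw [Set.image_singleton] at h2
  exact ⟨h1, h2⟩

/-- Adjoining two elements that are independent over a larger field. -/
lemma indep_two {Z : Subfield Ω} (hk : ∀ a, algebraMap k Ω a ∈ Z) {I : Set Ω} (hIZ : I ⊆ Z)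
    (hI : (matroid k Ω).Indep I) {a b : Ω} (h : AlgebraicIndependent Z ![a, b]) :
    (matroid k Ω).Indep (insert b (insert a I)) ∧
      (insert b (insert a I)).encard = I.encard + 2 := by
  obtain ⟨h1, h2⟩ := pair_not_cl h
  rw [cl_base hk] at h1 h2
  have h1' : a ∉ cl k I := fun h => h1 (cl_mono (by simpa using hIZ) h)
  have h2' : b ∉ cl k (insert a I) := fun h => h2 (cl_mono (by
    rintro x (rfl | hx)
    · exact Or.inr rfl
    · exact Or.inl (hIZ hx)) h)
  have ha : a ∉ I := fun h => h1' (subset_cl _ h)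
  have hb : b ∉ insert a I := fun h => h2' (subset_cl _ h)
  rw [cl_eq] at h1' h2'
  have i1 := (hI.notMem_closure_iff_of_notMem ha (by simp)).1 h1'
  refine ⟨(i1.notMem_closure_iff_of_notMem hb (by simp)).1 h2', ?_⟩
  rw [Set.encard_insert_of_notMem hb, Set.encard_insert_of_notMem ha, add_assoc]
  rfl

/-- A derivation that kills a subfield is linear over it. -/
def derOver (d : Derivation k Ω Ω) (K : Subfield Ω) (h : ∀ a ∈ K, d a = 0) :
    Derivation K Ω Ω :=
  Derivation.mk'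
    { toFun := d
      map_add' := map_add d
      map_smul' := fun a f => by
        change d ((a : Ω) * f) = (a : Ω) * d f
        rw [Derivation.leibniz, h a a.2]
        simp }
    d.leibniz

@[simp] lemma derOver_apply (d : Derivation k Ω Ω) (K : Subfield Ω) (h : ∀ a ∈ K, d a = 0)
    (f : Ω) : derOver d K h f = d f := rfl

theorem free_star [CharZero Ω] (D₁ D₂ : Derivation k Ω Ω) (hc : ∀ f, D₁ (D₂ f) = D₂ (D₁ f))
    (XX K Cst : Subfield Ω) (hk : ∀ a, algebraMap k Ω a ∈ K) (hKX : K ≤ XX) (hKC : K ≤ Cst)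
    (h₁ : ∀ f ∈ XX, D₁ f ∈ XX) (h₂ : ∀ f ∈ XX, D₂ f ∈ XX)
    (hconst : ∀ f ∈ XX, D₁ f = 0 → D₂ f = 0 → f ∈ K)
    (c₁ : ∀ f ∈ Cst, D₁ f = 0) (c₂ : ∀ f ∈ Cst, D₂ f = 0) {x z w : Ω}
    (hx : x ∉ cl k (XX : Set Ω)) (hz : D₁ z + x * D₂ z = 0) (hw : D₁ w + x * D₂ w = 0)
    (hdx : D₁ x + x * D₂ x ∈ cl k ((XX : Set Ω) ∪ {x}))
    (hi : AlgebraicIndependent Cst ![w, z]) (hzc : z ∈ cl k ((XX : Set Ω) ∪ Cst))
    (hwc : w ∈ cl k ((XX : Set Ω) ∪ Cst)) : False := by
  have hkX : ∀ a, algebraMap k Ω a ∈ XX := fun a => hKX (hk a)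
  let X' : IntermediateField K Ω := XX.toIntermediateField fun a => hKX a.2
  let θ := derOver D₁ K fun a ha => c₁ a (hKC ha)
  let D := derOver D₂ K fun a ha => c₂ a (hKC ha)
  rw [← cl_base hkX, cl_eq] at hzc hwc
  obtain ⟨c1, hc1, hf1, -, hz1⟩ := Matroid.exists_mem_finite_closure_of_mem_closure hzc
  obtain ⟨c2, hc2, hf2, -, hw2⟩ := Matroid.exists_mem_finite_closure_of_mem_closure hwc
  obtain ⟨I, hI⟩ := (matroid K Ω).exists_isBasis (c1 ∪ c2) (by simp)
  have hIf : I.Finite := (hf1.union hf2).subset hI.subset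
  have hIC : I ⊆ Cst := hI.subset.trans (Set.union_subset hc1 hc2)
  obtain ⟨i1, i2⟩ := indep_two (k := K) (fun a => hKC a.2) hIC hI.indep hi
  have hsub : c1 ∪ c2 ⊆ (matroid XX Ω).closure I := by
    intro y hy
    have := hI.subset_closure hy
    rw [← cl_eq, cl_base hk] at this
    rw [← cl_eq, cl_base hkX]
    exact cl_mono (Set.union_subset_union_left _ hKX) this
  have hS : insert z (insert w I) ⊆ (matroid XX Ω).closure I := by
    rintro y (rfl | rfl | hy)
    · exact Matroid.closure_subset_closure_of_subset_closure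
        (Set.subset_union_left.trans hsub) hz1
    · exact Matroid.closure_subset_closure_of_subset_closure
        (Set.subset_union_right.trans hsub) hw2
    · exact (matroid XX Ω).subset_closure I (by simp) hy
  have key := free_sub X' θ D (θ + x • D) x h₁ h₂ (fun g _ => hc g)
    (fun g hg a b => ⟨⟨g, hconst g hg a b⟩, rfl⟩) (fun h => hx (cl_of_isAlg (Z := XX) h))
    (fun g _ => by simp) (by
      refine isAlg_of_cl (k := k) (Z := (IntermediateField.adjoin X' {x}).toSubfield)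
        (fun a => (IntermediateField.adjoin X' {x}).algebraMap_mem ⟨_, hkX a⟩) ?_ hdx
      rintro y (hy | rfl)
      · exact (IntermediateField.adjoin X' {x}).algebraMap_mem ⟨_, hy⟩
      · exact IntermediateField.mem_adjoin_simple_self _ _)
    (insert z (insert w I)) (by
      rintro y (rfl | rfl | hy)
      · exact hz
      · exact hw
      · change D₁ y + x * D₂ y = 0
        rw [c₁ y (hIC hy), c₂ y (hIC hy), mul_zero, add_zero])
  rw [i1.eRk_eq_encard, i2] at key
  have h3 : (matroid X' Ω).eRk (insert z (insert w I)) ≤ I.encard := by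
    refine le_trans ((matroid XX Ω).eRk_mono hS) ?_
    rw [Matroid.eRk_closure_eq]
    exact Matroid.eRk_le_encard _ _
  have h4 : I.encard + 2 ≤ I.encard + 1 := key.trans (by gcongr)
  rw [ENat.add_le_add_iff_left hIf.encard_lt_top.ne] at h4
  norm_num at h4

end Fld

end Ivrii.T.C4
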