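import Pool.Agent.P.MP_7a8567_an.T.C4Shift

set_option autoImplicit false

/-!
Step 5 of the core lemma: the holonomy shift is a flow.
-/

open PowerSeries

noncomputable section

namespace Ivrii.T.C4

section Abs

variable {k O Ω : Type*} [Field k] [IsAlgClosed k] [Field O] [Algebra k O] [Field Ω]
  [CharZero Ω] [Algebra k Ω]

theorem step5_abs (σ : Stat k O) (S : O →ₐ[k] Ω) (D₁ D₂ : Derivation k Ω Ω)
    (hc : ∀ f, D₁ (D₂ f) = D₂ (D₁ f))
    (XX K Cst : Subfield Ω) (hk : ∀ a, algebraMap k Ω a ∈ K) (hKX : K ≤ XX) (hKC : K ≤ Cst)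
    (h₁ : ∀ f ∈ XX, D₁ f ∈ XX) (h₂ : ∀ f ∈ XX, D₂ f ∈ XX)
    (hconst : ∀ f ∈ XX, D₁ f = 0 → D₂ f = 0 → f ∈ K)
    (c₁ : ∀ f ∈ Cst, D₁ f = 0) (c₂ : ∀ f ∈ Cst, D₂ f = 0)
    (e₁ : ∀ f, D₁ (S f) = D₁ (S σ.s) * S (σ.Dt f) + D₁ (S σ.P) * S (σ.DP f))
    (e₂ : ∀ f, D₂ (S f) = D₂ (S σ.s) * S (σ.Dt f) + D₂ (S σ.P) * S (σ.DP f))
    (hJ : D₁ (S σ.s) * D₂ (S σ.P) - D₁ (S σ.P) * D₂ (S σ.s) ≠ 0)
    (ht : S σ.t1 ∈ XX) (hP : S σ.P1 ∈ XX) (hw : S σ.w1 ∉ cl k (XX : Set Ω))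
    (hzc : S σ.z1 ∈ cl k ((XX : Set Ω) ∪ Cst)) (hwc : S σ.w1 ∈ cl k ((XX : Set Ω) ∪ Cst)) :
    False := by
  set J := D₁ (S σ.s) * D₂ (S σ.P) - D₁ (S σ.P) * D₂ (S σ.s) with hJdef
  have hbr : ∀ f g, D₁ (S f) * D₂ (S g) - D₂ (S f) * D₁ (S g) =
      J * S (σ.Dt f * σ.DP g - σ.DP f * σ.Dt g) := fun f g => by
    rw [e₁ f, e₁ g, e₂ f, e₂ g, map_sub, map_mul, map_mul]
    ring
  have brz : D₁ (S σ.z1) * D₂ (S σ.w1) - D₂ (S σ.z1) * D₁ (S σ.w1) = 0 := by
    rw [hbr, σ.br1, sub_self, map_zero, mul_zero]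
  have jac : D₁ (S σ.P1) * D₂ (S σ.t1) - D₂ (S σ.P1) * D₁ (S σ.t1) ≠ 0 := by
    rw [hbr]
    exact mul_ne_zero hJ ((map_ne_zero S).2 σ.jac)
  have hind : AlgebraicIndependent Cst ![S σ.w1, S σ.z1] := by
    let δ₁ : Derivation k Ω Ω := (J⁻¹ * D₂ (S σ.P)) • D₁ - (J⁻¹ * D₁ (S σ.P)) • D₂
    let δ₂ : Derivation k Ω Ω := (J⁻¹ * D₁ (S σ.s)) • D₂ - (J⁻¹ * D₂ (S σ.s)) • D₁
    have hi : J⁻¹ * J = 1 := inv_mul_cancel₀ hJ
    have a₁ : ∀ f, δ₁ (S f) = S (σ.Dt f) := fun f => by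
      simp only [δ₁, Derivation.sub_apply, Derivation.smul_apply, smul_eq_mul]
      rw [e₁ f, e₂ f]
      linear_combination S (σ.Dt f) * hi
    have a₂ : ∀ f, δ₂ (S f) = S (σ.DP f) := fun f => by
      simp only [δ₂, Derivation.sub_apply, Derivation.smul_apply, smul_eq_mul]
      rw [e₁ f, e₂ f]
      linear_combination S (σ.DP f) * hi
    refine ld_alg' {δ₁, δ₂} (σ.L.toSubfield.map S.toRingHom) ?_ ?_ Cst ?_ ?_ ?_
    · rintro δ (rfl | rfl) _ ⟨f, hf, rfl⟩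
      · exact ⟨_, σ.LDt f hf, (a₁ f).symm⟩
      · exact ⟨_, σ.LDP f hf, (a₂ f).symm⟩
    · rintro _ ⟨f, hf, rfl⟩ h
      have b₁ : σ.Dt f = 0 := (map_eq_zero S).1 ((a₁ f).symm.trans (h δ₁ (Or.inl rfl)))
      have b₂ : σ.DP f = 0 := (map_eq_zero S).1 ((a₂ f).symm.trans (h δ₂ (Or.inr rfl)))
      obtain ⟨a, rfl⟩ := range_of_cl (σ.constL f hf b₁ b₂)
      exact ⟨a, (S.commutes a).symm⟩
    · rintro δ (rfl | rfl) c hc
      · simp [δ₁, c₁ c hc, c₂ c hc]
      · simp [δ₂, c₁ c hc, c₂ c hc]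
    · intro i
      fin_cases i
      · exact ⟨_, σ.w1L, rfl⟩
      · exact ⟨_, σ.z1L, rfl⟩
    · have := (ind_pair σ.i1 σ.i2).map' (f := S) S.injective
      convert this using 1
      ext i
      fin_cases i <;> rfl
  have hw0 : ¬ (D₁ (S σ.w1) = 0 ∧ D₂ (S σ.w1) = 0) := by
    rintro ⟨b₁, b₂⟩
    have g₁ := hbr σ.w1 σ.P
    have g₂ := hbr σ.w1 σ.s
    rw [b₁, b₂, σ.DPP, σ.DtP] at g₁
    rw [b₁, b₂, σ.DPs, σ.Dts] at g₂
    simp only [zero_mul, sub_self, mul_one, mul_zero, sub_zero, zero_sub, map_neg, mul_neg,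
      zero_eq_neg, zero_eq_mul, hJ, false_or, _root_.map_eq_zero, mul_eq_zero] at g₁ g₂
    exact σ.i1 (σ.constL _ σ.w1L g₁ g₂)
  have on := congrArg S σ.on1
  rw [map_mul, map_sub, map_mul, map_pow] at on
  have t0 : S σ.t1 ≠ 0 := (map_ne_zero S).2 σ.t1_ne
  generalize S σ.t1 = t, S σ.P1 = P, S σ.z1 = z, S σ.w1 = w at *
  have don : ∀ d : Derivation k Ω Ω, d z = 0 → d w = 0 →
      d P * t + (P + 2 * w * t) * d t = 0 := fun d hz hw => by
    have := congrArg d on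
    simp only [sq, map_sub, Derivation.leibniz, smul_eq_mul, hz, hw] at this
    linear_combination this
  have solve : ∀ (Y : Subfield Ω) (a b : Ω), XX ≤ Y → a ∈ Y → b ∈ Y → b ≠ 0 →
      a * t + (P + 2 * w * t) * b = 0 → w ∈ Y := fun Y a b hY ha hb hb0 h => by
    have : w = -(a * t + P * b) / (2 * t * b) := by
      field_simp
      linear_combination h
    rw [this]
    exact Y.div_mem (Y.neg_mem (Y.add_mem (Y.mul_mem ha (hY ht)) (Y.mul_mem (hY hP) hb)))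
      (Y.mul_mem (Y.mul_mem (natCast_mem Y 2) (hY ht)) hb)
  have hXc : XX ≤ clF k (XX : Set Ω) := subset_cl _
  have key : ∀ a b : Ω, a ∈ clF k (XX : Set Ω) → b ∈ clF k (XX : Set Ω) →
      a * D₁ z + b * D₂ z = 0 → a * D₁ w + b * D₂ w = 0 → a = 0 ∧ b = 0 := by
    intro a b ha hb hz' hw'
    have h := don (a • D₁ + b • D₂) hz' hw'
    change (a * D₁ P + b * D₂ P) * t + (P + 2 * w * t) * (a * D₁ t + b * D₂ t) = 0 at h
    have m : ∀ f ∈ XX, a * D₁ f + b * D₂ f ∈ clF k (XX : Set Ω) := fun f hf =>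
      add_mem (mul_mem ha (hXc (h₁ f hf))) (mul_mem hb (hXc (h₂ f hf)))
    have g₁ : a * D₁ t + b * D₂ t = 0 := by
      by_contra g
      exact hw (solve _ _ _ hXc (m P hP) (m t ht) g h)
    rw [g₁, mul_zero, add_zero] at h
    have g₂ := (mul_eq_zero.1 h).resolve_right t0
    exact ⟨(mul_eq_zero.1 (by linear_combination D₂ t * g₂ - D₂ P * g₁)).resolve_right jac,
      (mul_eq_zero.1 (by linear_combination D₁ P * g₁ - D₁ t * g₂)).resolve_right jac⟩
  have w2 : D₂ w ≠ 0 := fun h => by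
    have g : D₁ w ≠ 0 := fun g => hw0 ⟨g, h⟩
    have g' : D₂ z = 0 := (mul_eq_zero.1 (by linear_combination D₁ z * h - brz)).resolve_right g
    exact one_ne_zero (key 0 1 (zero_mem _) (one_mem _) (by simp [g']) (by simp [h])).2
  obtain ⟨x, xw⟩ : ∃ x, D₁ w + x * D₂ w = 0 := ⟨-D₁ w / D₂ w, by field_simp; ring⟩
  have xz : D₁ z + x * D₂ z = 0 :=
    (mul_eq_zero.1 (by linear_combination brz + D₂ z * xw)).resolve_right w2
  have hx : x ∉ cl k (XX : Set Ω) := fun h =>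
    one_ne_zero (key 1 x (one_mem _) h (by rwa [one_mul]) (by rwa [one_mul])).1
  refine free_star D₁ D₂ hc XX K Cst hk hKX hKC h₁ h₂ hconst c₁ c₂ hx xz xw ?_ hind hzc hwc
  let d : Derivation k Ω Ω := D₁ + x • D₂
  have hd : ∀ f, d f = D₁ f + x * D₂ f := fun f => rfl
  let Y := clF k ((XX : Set Ω) ∪ {x})
  have hXY : XX ≤ Y := fun f hf => subset_cl _ (Or.inl hf)
  have hxY : x ∈ Y := subset_cl _ (Or.inr rfl)
  have m : ∀ f ∈ XX, d f ∈ Y := fun f hf =>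
    add_mem (hXY (h₁ f hf)) (mul_mem hxY (hXY (h₂ f hf)))
  have h := don d xz xw
  have dt : d t ≠ 0 := fun g => by
    rw [g, mul_zero, add_zero] at h
    have g₂ := (mul_eq_zero.1 h).resolve_right t0
    rw [hd] at g g₂
    exact jac (by linear_combination D₂ t * g₂ - D₂ P * g)
  have wY : w ∈ Y := solve Y _ _ hXY (m P hP) (m t ht) dt h
  have dn : D₂ P * t + (P + 2 * w * t) * D₂ t ≠ 0 := fun g => by
    have g₁ : D₂ t = 0 := by
      by_contra g₁
      exact hw (solve _ _ _ hXc (hXc (h₂ P hP)) (hXc (h₂ t ht)) g₁ g)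
    rw [g₁, mul_zero, add_zero] at g
    have g₂ := (mul_eq_zero.1 g).resolve_right t0
    exact jac (by rw [g₁, g₂]; ring)
  let Z := derPre d Y
  have hXZ : ∀ f ∈ XX, f ∈ Z := fun f hf => ⟨hXY hf, m f hf⟩
  have wZ : w ∈ Z := ⟨wY, by rw [show d w = 0 from xw]; exact Y.zero_mem⟩
  have nZ : ∀ a ∈ XX, ∀ b ∈ XX, a * t + (P + 2 * w * t) * b ∈ Z := fun a ha b hb =>
    add_mem (mul_mem (hXZ a ha) (hXZ t ht)) (mul_mem (add_mem (hXZ P hP)
      (mul_mem (mul_mem (natCast_mem Z 2) wZ) (hXZ t ht))) (hXZ b hb))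
  have xZ : x ∈ Z := by
    have : x = -(D₁ P * t + (P + 2 * w * t) * D₁ t) / (D₂ P * t + (P + 2 * w * t) * D₂ t) := by
      rw [eq_div_iff dn]
      rw [hd, hd] at h
      linear_combination h
    rw [this]
    exact div_mem (neg_mem (nZ _ (h₁ P hP) _ (h₁ t ht))) (nZ _ (h₂ P hP) _ (h₂ t ht))
  exact xZ.2

end Abs

section Laurent

variable {k L : Type*} [Field k] [Field L] [Algebra k L]

/-- Laurent series with coefficients in a subfield. -/
def lsub (K : Subfield L) : Subfield (LaurentSeries L) := (PX.cmap K.subtype).fieldRange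

lemma mem_lsub {K : Subfield L} {f : LaurentSeries L} : f ∈ lsub K ↔ ∀ i, f.coeff i ∈ K := by
  constructor
  · rintro ⟨g, rfl⟩ i
    rw [PX.coeff_cmap]
    exact (g.coeff i).2
  · intro h
    refine ⟨⟨fun i => ⟨f.coeff i, h i⟩, f.isPWO_support.mono fun i hi h0 => hi ?_⟩, ?_⟩
    · exact Subtype.ext h0
    · ext i
      rw [PX.coeff_cmap]
      rfl

variable (k L) in
/-- Power series as Laurent series. -/
def toL : L⟦X⟧ →ₐ[k] LaurentSeries L :=
  { HahnSeries.ofPowerSeries ℤ L with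
    commutes' := fun a => by
      rw [PowerSeries.algebraMap_apply, PX.algebraMap_ls]
      exact HahnSeries.ofPowerSeries_C _ }

lemma toL_apply (f : L⟦X⟧) : toL k L f = HahnSeries.ofPowerSeries ℤ L f := rfl

lemma toL_inj : Function.Injective (toL k L) := HahnSeries.ofPowerSeries_injective

lemma toL_C (a : L) : toL k L (C a) = HahnSeries.C a := HahnSeries.ofPowerSeries_C _

lemma coeff_toL (f : L⟦X⟧) (i : ℤ) :
    (toL k L f).coeff i = if i < 0 then 0 else coeff i.natAbs f := PowerSeries.coeff_coe f i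

lemma dU_toL (f : L⟦X⟧) : PX.dU L k (toL k L f) = toL k L (d⁄dX L f) := PX.dU_ofPowerSeries k f

lemma dcoef_toL (δ : Derivation k L L) (f : L⟦X⟧) :
    PX.dcoef δ (toL k L f) = toL k L (pcoef δ f) := by
  ext i
  rw [PX.coeff_dcoef, coeff_toL, coeff_toL]
  split_ifs <;> simp

lemma toL_mem {K : Subfield L} {f : L⟦X⟧} (h : f ∈ psub K) : toL k L f ∈ lsub K :=
  mem_lsub.2 fun i => by
    rw [coeff_toL]
    split_ifs
    · exact K.zero_mem
    · exact h _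

lemma dU_mem {K : Subfield L} {f : LaurentSeries L} (h : f ∈ lsub K) : PX.dU L k f ∈ lsub K :=
  mem_lsub.2 fun i => by
    rw [PX.coeff_dU]
    exact K.mul_mem (intCast_mem K _) (mem_lsub.1 h _)

lemma dcoef_mem {K : Subfield L} {δ : Derivation k L L} (hδ : ∀ f ∈ K, δ f ∈ K)
    {f : LaurentSeries L} (h : f ∈ lsub K) : PX.dcoef δ f ∈ lsub K :=
  mem_lsub.2 fun i => hδ _ (mem_lsub.1 h i)

lemma dcoef_zero {K : Subfield L} {δ : Derivation k L L} (hδ : ∀ f ∈ K, δ f = 0)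
    {f : LaurentSeries L} (h : f ∈ lsub K) : PX.dcoef δ f = 0 := by
  ext i
  exact hδ _ (mem_lsub.1 h i)

lemma C_mem_lsub {K : Subfield L} {a : L} (h : a ∈ K) :
    (HahnSeries.C a : LaurentSeries L) ∈ lsub K := ⟨HahnSeries.C ⟨a, h⟩, PX.cmap_C _ _⟩

lemma dcoef_dU (δ : Derivation k L L) (f : LaurentSeries L) :
    PX.dcoef δ (PX.dU L k f) = PX.dU L k (PX.dcoef δ f) := by
  ext i
  rw [PX.coeff_dcoef, PX.coeff_dU, PX.coeff_dU, PX.coeff_dcoef, Derivation.leibniz,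
    δ.map_intCast]
  simp

lemma eq_C_of_dU [CharZero L] {f : LaurentSeries L} (h : PX.dU L k f = 0) :
    f = HahnSeries.C (f.coeff 0) :=
  PX.eq_C_of_euler (k := k) (by rw [PX.euler_eq, h, mul_zero])

end Laurent

section Map

variable {k A B : Type*} [Field k] [CommRing A] [Algebra k A] [CommRing B] [Algebra k B]

lemma coeff_mapA (φ : A →ₐ[k] B) (f : A⟦X⟧) (n : ℕ) :
    coeff n (PowerSeries.mapAlgHom φ f) = φ (coeff n f) := rfl

lemma mapA_inj (φ : A →ₐ[k] B) (h : Function.Injective φ) :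
    Function.Injective (PowerSeries.mapAlgHom φ) := fun f g hfg => by
  ext n
  exact h (congrArg (coeff n) hfg)

lemma mapA_C (φ : A →ₐ[k] B) (a : A) : PowerSeries.mapAlgHom φ (C a) = C (φ a) := by
  ext n
  rw [coeff_mapA, coeff_C, coeff_C]
  split_ifs <;> simp

lemma der_mapA (φ : A →ₐ[k] B) (f : A⟦X⟧) :
    d⁄dX B (PowerSeries.mapAlgHom φ f) = PowerSeries.mapAlgHom φ (d⁄dX A f) := by
  ext n
  simp [coeff_mapA, coeff_derivative]

variable (k A) in
/-- Constants as an algebra map. -/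
def CA : A →ₐ[k] A⟦X⟧ :=
  { (C : A →+* A⟦X⟧) with commutes' := fun a => (PowerSeries.algebraMap_apply (r := a)).symm }

lemma CA_apply (a : A) : CA k A a = C a := rfl

end Map

section Two

variable {k O : Type*} [Field k] [Field O] [Algebra k O]

variable (k O) in
/-- Power series in two variables as iterated Laurent series. -/
def toL2 : O⟦X⟧⟦X⟧ →ₐ[k] LaurentSeries (LaurentSeries O) :=
  (toL k (LaurentSeries O)).comp (PowerSeries.mapAlgHom (toL k O))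

lemma toL2_apply (F : O⟦X⟧⟦X⟧) :
    toL2 k O F = toL k (LaurentSeries O) (PowerSeries.mapAlgHom (toL k O) F) := rfl

lemma toL2_inj : Function.Injective (toL2 k O) := fun f g h => by
  rw [toL2_apply, toL2_apply] at h
  exact mapA_inj (toL k O) toL_inj (toL_inj h)

lemma toL2_D₂ (F : O⟦X⟧⟦X⟧) :
    PX.dU (LaurentSeries O) k (toL2 k O F) = toL2 k O (d⁄dX O⟦X⟧ F) := by
  rw [toL2_apply, toL2_apply, dU_toL, der_mapA]

lemma toL2_D₁ (F : O⟦X⟧⟦X⟧) :
    PX.dcoef (PX.dU O k) (toL2 k O F) = toL2 k O (pcoef (dX k O) F) := by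
  rw [toL2_apply, toL2_apply, dcoef_toL]
  congr 1
  ext1 n
  rw [coeff_pcoef, coeff_mapA, coeff_mapA, coeff_pcoef, dU_toL, dX_apply]

lemma toL2_C (a : O) : toL2 k O (C (C a)) = HahnSeries.C (HahnSeries.C a) := by
  rw [toL2_apply, mapA_C, toL_C, toL_C]

lemma toL2_mem {K : Subfield O} (F : O⟦X⟧⟦X⟧) (hF : ∀ n, coeff n F ∈ psub K) :
    toL2 k O F ∈ lsub (lsub K) := by
  rw [toL2_apply]
  refine toL_mem fun n => ?_
  rw [coeff_mapA]
  exact toL_mem (hF n)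

lemma toL2_zero (F : O⟦X⟧⟦X⟧) :
    ((toL2 k O F).coeff 0).coeff 0 = constantCoeff (constantCoeff F) := by
  rw [toL2_apply, coeff_toL, if_neg (lt_irrefl _), Int.natAbs_zero, coeff_mapA, coeff_toL,
    if_neg (lt_irrefl _), Int.natAbs_zero, coeff_zero_eq_constantCoeff_apply,
    coeff_zero_eq_constantCoeff_apply]

end Two

variable {k O : Type*} [Field k] [CharZero k] [IsAlgClosed k] [Field O] [Algebra k O]
  [CharZero O] {σ : Stat k O}

theorem step5 (δ : Dat σ) : d⁄dX O (δ.S σ.P) = d⁄dX O (δ.S σ.s) * δ.S (ee σ) := by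
  have hS := δ.shift
  have hSs := δ.Ss
  have hSP := δ.SP
  have hs1 := δ.s1
  have hP1 := δ.P1
  have hhol := δ.hol
  generalize δ.S = S at *
  obtain ⟨mS, hmS⟩ : ∃ mS, mS = PowerSeries.mapAlgHom S := ⟨_, rfl⟩
  have cmS : ∀ g n, coeff n (mS g) = S (coeff n g) := fun g n => by rw [hmS, coeff_mapA]
  have c0 : ∀ g : O⟦X⟧, constantCoeff (mS g) = S (constantCoeff g) := fun g => by
    rw [← coeff_zero_eq_constantCoeff_apply, cmS, coeff_zero_eq_constantCoeff_apply]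
  have dmS : ∀ g, d⁄dX O⟦X⟧ (mS g) = mS (d⁄dX O g) := fun g => by rw [hmS, der_mapA]
  have einj := toL2_inj (k := k) (O := O)
  have eD₁ := toL2_D₁ (k := k) (O := O)
  have eD₂ := toL2_D₂ (k := k) (O := O)
  have eC := toL2_C (k := k) (O := O)
  have eX := toL2_mem (k := k) (K := kOne σ)
  have e0 := toL2_zero (k := k) (O := O)
  generalize toL2 k O = e at *
  have m₁ : ∀ g, pcoef (dX k O) (mS g) =
      C (d⁄dX O (S σ.s)) * mS (pcoef σ.Dt g) + C (d⁄dX O (S σ.P)) * mS (pcoef σ.DP g) := by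
    intro g
    ext1 n
    rw [coeff_pcoef, map_add, coeff_C_mul, coeff_C_mul, cmS, cmS, cmS,
      coeff_pcoef, coeff_pcoef, dX_apply, shift_ode hS]
  have ct := fun f => shift_chain hS Set.univ (fun _ _ => trivial) (fun _ _ => trivial) σ.Dt
    (fun f _ => by simp [σ.Dts, σ.DtP]) f trivial
  have cP := fun f => shift_chain hS Set.univ (fun _ _ => trivial) (fun _ _ => trivial) σ.DP
    (fun f _ => by simp [σ.DPs, σ.DPP]) f trivial
  obtain ⟨S3, hS3⟩ : ∃ S3 : O →ₐ[k] LaurentSeries (LaurentSeries O), ∀ f, S3 f = e (mS (S f)) :=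
    ⟨e.comp (mS.comp S), fun f => rfl⟩
  obtain ⟨CC, hCC⟩ : ∃ CC : O →+* LaurentSeries (LaurentSeries O),
      ∀ a, CC a = HahnSeries.C (HahnSeries.C a) := ⟨HahnSeries.C.comp HahnSeries.C, fun _ => rfl⟩
  have Sk : ∀ f ∈ kOne σ, S f ∈ psub (kOne σ) :=
    shift_psub hS (kOne_Dt σ) (kOne_DP σ) (psub_mono (kap_le σ) hSs) (psub_mono (kap_le σ) hSP)
  have mk : ∀ g ∈ psub (kOne σ), e (mS g) ∈ lsub (lsub (kOne σ)) := fun g hg =>
    eX _ fun n => by rw [cmS]; exact Sk _ (hg n)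
  have S3k : ∀ f ∈ kOne σ, S3 f ∈ lsub (lsub (kOne σ)) := fun f hf => by
    rw [hS3]; exact mk _ (Sk f hf)
  have minj : Function.Injective mS := hmS ▸ mapA_inj S S.injective
  have hol : ∀ f ∈ σ.L, S3 f ∈ cl k ((lsub (lsub (kOne σ)) : Set _) ∪
      (CC.fieldRange : Set (LaurentSeries (LaurentSeries O)))) := by
    intro f hf
    rw [hS3]
    refine cl_map_sub (e.comp mS) (fun a b h => minj (einj h)) ?_ (hhol f hf)
    rintro _ (hy | ⟨a, ha, rfl⟩)
    · exact subset_cl _ (Or.inl (mk _ hy))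
    · rw [AlgHom.comp_apply, hmS, mapA_C]
      refine cl_map_sub (e.comp (CA k O⟦X⟧)) (fun a b h => C_injective (einj h)) ?_ (hhol a ha)
      rintro _ (hy | ⟨b, -, rfl⟩)
      · refine subset_cl _ (Or.inl (eX _ fun n => ?_))
        change coeff n (C _) ∈ _
        rw [coeff_C]
        split_ifs
        · exact hy
        · exact zero_mem _
      · exact subset_cl _ (Or.inr ⟨b, (hCC b).trans (eC b).symm⟩)
  by_contra hne
  refine step5_abs σ S3 (PX.dcoef (PX.dU O k)) (PX.dU (LaurentSeries O) k) (dcoef_dU _)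
    (lsub (lsub (kOne σ))) ((kOne σ).map CC) CC.fieldRange
    (fun a => ⟨_, alg_mem_cl _ a, hCC _⟩) ?_ ?_
    (fun f hf => dcoef_mem (fun g hg => dU_mem hg) hf)
    (fun f hf => dU_mem hf) ?_ ?_ ?_ (fun f => ?_) (fun f => ?_) ?_
    (S3k _ (subset_cl _ (Or.inr σ.t1M))) (S3k _ (subset_cl _ (Or.inr σ.P1M))) ?_
    (hol _ σ.z1L) (hol _ σ.w1L)
  · rintro _ ⟨a, ha, rfl⟩
    rw [hCC]
    exact C_mem_lsub (C_mem_lsub ha)
  · rintro _ ⟨a, -, rfl⟩
    exact ⟨a, rfl⟩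
  · intro f hf h1 h2
    have g2 := eq_C_of_dU h2
    have g1 := eq_C_of_dU (k := k) (f := f.coeff 0) (congrArg (fun F => F.coeff 0) h1)
    refine ⟨(f.coeff 0).coeff 0, mem_lsub.1 (mem_lsub.1 hf 0) 0, ?_⟩
    rw [hCC, ← g1, ← g2]
  · rintro _ ⟨a, rfl⟩
    rw [hCC, PX.dcoef_C, PX.dU_C, map_zero]
  · rintro _ ⟨a, rfl⟩
    rw [hCC, PX.dU_C]
  · simp only [hS3, eD₁]
    rw [← map_mul, ← map_mul, ← map_add, m₁, m₁, m₁, ct f, cP f]
    congr 1
    simp only [map_add, map_mul]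
    ring
  · simp only [hS3, eD₂, dmS]
    rw [shift_ode hS f]
    simp only [map_add, map_mul]
  · simp only [hS3, eD₁, eD₂]
    rw [← map_mul, ← map_mul, ← map_sub]
    intro h
    have h1 := congrArg constantCoeff (einj (h.trans (map_zero e).symm))
    simp only [map_sub, map_mul, cc_pcoef, dmS, c0, hS.cc, dX_apply, map_zero,
      ← coeff_one_eq] at h1
    rw [hs1, hP1] at h1
    simp only [map_mul, map_neg, map_ofNat] at h1
    have h4 : (4 : O⟦X⟧) ≠ 0 := fun h => by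
      have := congrArg constantCoeff h
      rw [map_ofNat, map_zero] at this
      norm_num at this
    exact hne (mul_left_cancel₀ h4 (by linear_combination h1))
  · intro h
    obtain ⟨D, hD, hD1⟩ := exists_der σ.w1k
    have h0 := der_zero (PX.dcoef (PX.dcoef D))
      (fun f hf => dcoef_zero (fun g hg => dcoef_zero hD hg) hf) h
    have h1 := congrArg (fun F => (F.coeff 0).coeff 0) h0
    simp only [PX.coeff_dcoef, hS3, e0, c0, hS.cc, hD1] at h1
    simp at h1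

end Ivrii.T.C4
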