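import Pool.Agent.P.MP_7a8567_an.T.Inv
import Pool.Agent.P.MP_7a8567_an.T.C4Cl

set_option autoImplicit false

/-!
Steps 3 and 4 of the core lemma: the holonomy shift.
-/

open PowerSeries

noncomputable section

namespace Ivrii.T.C4

variable {k O : Type*} [Field k] [CharZero k] [Field O] [Algebra k O] (σ : Stat k O)

lemma exists_shift {a b : O⟦X⟧} (ha : constantCoeff a = σ.s) (hb : constantCoeff b = σ.P) :
    ∃ S : O →ₐ[k] O⟦X⟧, σ.Shift S ∧ S σ.s = a ∧ S σ.P = b := by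
  have : CharZero O := charZero_of_injective_algebraMap (algebraMap k O).injective
  obtain ⟨S, h0, h1⟩ := exists_flow2 (AlgHom.id k O) σ.Dt σ.DP (d⁄dX O a) (d⁄dX O b)
  have hs : S σ.s = a := eq_of_der (by simp [h0, ha]) (by simp [h1, σ.Dts, σ.DPs])
  have hP : S σ.P = b := eq_of_der (by simp [h0, hb]) (by simp [h1, σ.DtP, σ.DPP])
  exact ⟨S, ⟨h0, fun f => by rw [hs, hP]; exact h1 f⟩, hs, hP⟩

variable {σ} [CharZero O]

omit [CharZero k] [CharZero O] in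
lemma shift_ode {T : O →ₐ[k] O⟦X⟧} (hT : σ.Shift T) (f : O) :
    d⁄dX O (T f) = d⁄dX O (T σ.s) * T (σ.Dt f) + d⁄dX O (T σ.P) * T (σ.DP f) := hT.ode f

omit [CharZero k] in
lemma shift_psub {T : O →ₐ[k] O⟦X⟧} (hT : σ.Shift T) {K : Subfield O}
    (h1 : ∀ f ∈ K, σ.Dt f ∈ K) (h2 : ∀ f ∈ K, σ.DP f ∈ K) (hs : T σ.s ∈ psub K)
    (hP : T σ.P ∈ psub K) : ∀ f ∈ K, T f ∈ psub K :=
  psub2 (K : Set O) σ.Dt σ.DP h1 h2 (der_mem_psub hs) (der_mem_psub hP) T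
    (fun f hf => by rwa [hT.cc]) fun f _ => shift_ode hT f

omit [CharZero k] in
lemma shift_chain {T : O →ₐ[k] O⟦X⟧} (hT : σ.Shift T) (s0 : Set O)
    (h1 : ∀ f ∈ s0, σ.Dt f ∈ s0) (h2 : ∀ f ∈ s0, σ.DP f ∈ s0) (δ : Derivation k O O)
    (hδ : ∀ f ∈ s0, δ f = δ σ.s * σ.Dt f + δ σ.P * σ.DP f) :
    ∀ f ∈ s0, pcoef δ (T f) = pcoef δ (T σ.s) * T (σ.Dt f) + pcoef δ (T σ.P) * T (σ.DP f) := by
  have := chain s0 ![σ.Dt, σ.DP] (by simpa [Fin.forall_fin_two] using ⟨h1, h2⟩)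
    (by simp [Fin.forall_fin_two, σ.comm]) ![d⁄dX O (T σ.s), d⁄dX O (T σ.P)] T
    (fun f _ => by simpa using shift_ode hT f) δ ![pcoef δ (T σ.s), pcoef δ (T σ.P)]
    (by simp [Fin.forall_fin_two, der_pcoef]) (by simpa [hT.cc] using hδ)
  simpa using this

omit [CharZero k] in
lemma shift_comp {T T' : O →ₐ[k] O⟦X⟧} (hT : σ.Shift T) (hT' : σ.Shift T') (s0 : Set O)
    (h1 : ∀ f ∈ s0, σ.Dt f ∈ s0) (h2 : ∀ f ∈ s0, σ.DP f ∈ s0) (δ ε : Derivation k O O)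
    (hδ : ∀ f ∈ s0, δ f = δ σ.s * σ.Dt f + δ σ.P * σ.DP f)
    (hε : ∀ f ∈ s0, ε f = ε σ.s * σ.Dt f + ε σ.P * σ.DP f)
    (R : O⟦X⟧ →ₐ[k] O⟦X⟧) (R0 : ∀ f, constantCoeff (R f) = constantCoeff f) (α β γ : O⟦X⟧)
    (R1 : ∀ f, d⁄dX O (R f) = α * R (pcoef δ f) + β * R (pcoef ε f) + γ * R (d⁄dX O f))
    (hs : T' σ.s = R (T σ.s)) (hP : T' σ.P = R (T σ.P)) : ∀ f ∈ s0, R (T f) = T' f := by
  refine uniq2 s0 σ.Dt σ.DP h1 h2 (d⁄dX O (T' σ.s)) (d⁄dX O (T' σ.P)) (fun f => R (T f)) T'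
    (fun f _ => by rw [R0, hT.cc, hT'.cc]) (fun f hf => ?_) fun f _ => shift_ode hT' f
  rw [hs, hP, R1, R1, R1, shift_chain hT s0 h1 h2 δ hδ f hf, shift_chain hT s0 h1 h2 ε hε f hf,
    shift_ode hT f]
  simp only [map_add, map_mul]
  ring

variable (σ)

/-- The field of jets. -/
def kap : Subfield O := clF k σ.κ

/-- The field of jets and intermediate data. -/
def kOne : Subfield O := clF k (σ.κ ∪ σ.M)

/-- The slope of the tangent direction. -/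
def ee : O := -(σ.z / σ.s ^ 2 + σ.w)

omit [CharZero k] [CharZero O] in
lemma mem_kap {f : O} : f ∈ kap σ ↔ f ∈ σ.κ := by
  rw [kap, mem_clF, σ.κcl]

omit [CharZero k] [CharZero O] in
lemma kap_le : kap σ ≤ kOne σ := fun _ hf => cl_mono Set.subset_union_left hf

omit [CharZero k] in
lemma kOne_Dt : ∀ f ∈ kOne σ, σ.Dt f ∈ kOne σ := fun _ hf =>
  der_cl σ.Dt (subset_cl _) (fun s hs => subset_cl _ (hs.imp (σ.κDt s) (σ.MDt s))) hf

omit [CharZero k] in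
lemma kOne_DP : ∀ f ∈ kOne σ, σ.DP f ∈ kOne σ := fun _ hf =>
  der_cl σ.DP (subset_cl _) (fun s hs => subset_cl _ (hs.imp (σ.κDP s) (σ.MDP s))) hf

omit [CharZero k] [CharZero O] in
lemma der_P (δ : Derivation k O O) :
    δ σ.P * σ.s = δ σ.z - δ σ.w * σ.s ^ 2 + ee σ * δ σ.s * σ.s := by
  have h := congrArg δ σ.hP
  have hP := σ.hP
  have hs := σ.s_ne
  simp only [sq, map_sub, Derivation.leibniz, smul_eq_mul] at h hP
  have he : ee σ * σ.s = -(σ.P + 2 * σ.w * σ.s) := by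
    refine mul_right_cancel₀ hs ?_
    rw [ee]
    field_simp
    linear_combination hP
  linear_combination h - δ σ.s * he

/-- The data after step 4. -/
structure Dat where
  (T S : O →ₐ[k] O⟦X⟧)
  (T1 g : O⟦X⟧ →ₐ[k] O⟦X⟧)
  (t' P' u : O⟦X⟧)
  base : σ.Base T
  shift : σ.Shift S
  ht' : t' * (C σ.s + X) = C σ.q
  hP' : P' * t' = C σ.z - C σ.w * t' ^ 2
  Ss : S σ.s ∈ psub (kap σ)
  SP : S σ.P ∈ psub (kap σ)
  s1 : coeff 1 (S σ.s) = -4
  P1 : coeff 1 (S σ.P) = -4 * ee σ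
  hol : ∀ f ∈ σ.L, S f ∈ cl k ((psub (kOne σ) : Set O⟦X⟧) ∪ C '' (σ.L : Set O))
  T10 : ∀ f, constantCoeff (T1 f) = constantCoeff f
  T1C : ∀ f, T1 (C f) = T f
  T1X : T1 X = X
  T1s : T1 (S σ.s) = g (T σ.s)
  T1P : T1 (S σ.P) = g (T σ.P)
  g0 : ∀ f, constantCoeff (g f) = constantCoeff f
  gt' : g t' = t'
  gP' : g P' = P'
  gX : coeff 1 (g X) = -1
  gt : coeff 1 (g (T σ.s)) = -3
  u_ne : u ≠ 0
  gw : g (C σ.w) = C σ.w + u
  gz : g (C σ.z) = C σ.z + u * t' ^ 2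
  ds : σ.Dd σ.s ≠ 0

omit [CharZero O] in
lemma coeff_one_map (R : O⟦X⟧ →+* O⟦X⟧) (h0 : ∀ f, constantCoeff (R f) = constantCoeff f)
    (f : O⟦X⟧) :
    coeff 1 (R f) = coeff 1 (R (C (constantCoeff f))) + coeff 1 (R X) * coeff 1 f := by
  have h : (X : O⟦X⟧) ^ 1 ∣ f - C (constantCoeff f) := by
    rw [pow_one, X_dvd_iff]; simp
  have := lead_map R h0 h
  rw [map_sub, map_sub, map_sub, pow_one, coeff_succ_C] at this
  linear_combination this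

theorem step4 (h : σ.Dyn) : Nonempty (Dat σ) := by
  obtain ⟨T, t', P', W, hT, ht', hP', hW, hW1, hW2⟩ := h
  have hs0 := σ.s_ne
  have sK := (mem_kap σ).2 σ.sκ
  have zK := (mem_kap σ).2 σ.zκ
  have wK := (mem_kap σ).2 σ.wκ
  have kDt : ∀ f ∈ kap σ, σ.Dt f ∈ kap σ := fun f hf =>
    (mem_kap σ).2 (σ.κDt f ((mem_kap σ).1 hf))
  have kDP : ∀ f ∈ kap σ, σ.DP f ∈ kap σ := fun f hf =>
    (mem_kap σ).2 (σ.κDP f ((mem_kap σ).1 hf))
  rw [hT.Ts] at ht'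
  obtain ⟨g, u, p, g0, g1, gt', gP', gK, gX, gC, ds, u_ne, gw, gz⟩ := exists_inv σ.Dd (kap σ)
    (fun f hf => (mem_kap σ).2 (σ.κDd f ((mem_kap σ).1 hf))) sK zK hs0 σ.hs σ.Ddz σ.Ddw σ.Ddq
    σ.c_ne ht' hP'
  have gW := hW g _ _ g0 g1 gt' gP'
  have ginj : Function.Injective g := inj_of_lead g.toRingHom g0 (by
    change coeff 1 (g X) ≠ 0
    rw [gX]; norm_num)
  have tK : T σ.s ∈ psub (kap σ) :=
    hT.Ts ▸ (psub _).add_mem (C_mem_psub sK) (X_mem_psub _)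
  have PK : T σ.P ∈ psub (kap σ) := mem_psub_of_mul tK (by rwa [hT.shift.cc]) (by
    rw [mul_comm, hT.TP]
    exact (psub _).sub_mem (C_mem_psub zK)
      ((psub _).mul_mem (C_mem_psub wK) ((psub _).pow_mem tK 2)))
  obtain ⟨T2, hT2, T2s, T2P⟩ := exists_shift σ (a := g (T σ.s)) (b := g (T σ.P))
    (by rw [g0, hT.shift.cc]) (by rw [g0, hT.shift.cc])
  have gT : ∀ f ∈ σ.L, g (T f) = T2 f :=
    shift_comp hT.shift hT2 σ.L σ.LDt σ.LDP σ.Dd σ.Dd σ.DdL σ.DdL g g0 (d⁄dX O u) 0 (d⁄dX O p)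
      (fun f => by rw [g1, zero_mul, add_zero]) T2s T2P
  have T2k : ∀ f ∈ kOne σ, T2 f ∈ psub (kOne σ) :=
    shift_psub hT2 (kOne_Dt σ) (kOne_DP σ) (psub_mono (kap_le σ) (T2s ▸ gK _ tK))
      (psub_mono (kap_le σ) (T2P ▸ gK _ PK))
  have hol2 : ∀ f ∈ σ.L, T2 f ∈ cl k ((psub (kOne σ) : Set O⟦X⟧) ∪ T '' (σ.L : Set O)) := by
    intro f hf
    rw [← gT f hf]
    refine cl_map_sub g ginj ?_ (hW2 ⟨f, hf, rfl⟩)
    rintro _ ((⟨m, hm, rfl⟩ | ⟨a, ha, rfl⟩) | hw)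
    · rw [gT m (σ.ML hm)]
      exact subset_cl _ (Or.inl (T2k m (subset_cl _ (Or.inr hm))))
    · exact subset_cl _ (Or.inl (psub_mono (kap_le σ) (gK _ (C_mem_psub ((mem_kap σ).2 ha)))))
    · rw [gW _ hw]
      refine cl_mono ?_ (hW1 hw)
      rintro y (hy | hy)
      · exact Or.inr hy
      · exact Or.inl fun n => kap_le σ ((mem_kap σ).2 (hy n))
  obtain ⟨T1, T10, T11⟩ := exists_flow (cc k O) (pcoef σ.Dt) (pcoef σ.DP) (dX k O)
    (d⁄dX O (T σ.s)) (d⁄dX O (T σ.P)) 1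
  replace T10 : ∀ f, constantCoeff (T1 f) = constantCoeff f := T10
  simp only [dX_apply] at T11
  have T1C : ∀ f, T1 (C f) = T f := fun f =>
    uniq2 Set.univ σ.Dt σ.DP (fun _ _ => trivial) (fun _ _ => trivial) _ _
      (fun f => T1 (C f)) T (fun f _ => by simp [T10, hT.shift.cc])
      (fun f _ => by simp [T11]) (fun f _ => shift_ode hT.shift f) f trivial
  have T1X : T1 X = X := eq_of_der (by simp [T10]) (by simp [T11])
  have T1l : coeff 1 (T1.toRingHom X) ≠ 0 := by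
    change coeff 1 (T1 X) ≠ 0
    simp [T1X]
  have T1K : ∀ K : Subfield O, kap σ ≤ K → (∀ f ∈ K, σ.Dt f ∈ K) → (∀ f ∈ K, σ.DP f ∈ K) →
      ∀ f ∈ psub K, T1 f ∈ psub K := fun K hK h1 h2 =>
    mem_psub_of_ode (psub K : Set O⟦X⟧) ![pcoef σ.Dt, pcoef σ.DP, d⁄dX O]
      (by
        intro i f hf
        fin_cases i
        · exact pcoef_mem_psub h1 hf
        · exact pcoef_mem_psub h2 hf
        · exact der_mem_psub hf)
      ![d⁄dX O (T σ.s), d⁄dX O (T σ.P), 1]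
      (by
        intro i
        fin_cases i
        · exact der_mem_psub (psub_mono hK tK)
        · exact der_mem_psub (psub_mono hK PK)
        · exact (psub K).one_mem) T1
      (fun f hf => by rw [T10]; exact cc_mem hf)
      (fun f _ => by simpa [Fin.sum_univ_three] using T11 f)
  obtain ⟨sa, saK, hsa⟩ := surj_of_lead T1.toRingHom T10 T1l (T1K _ le_rfl kDt kDP) (gK _ tK)
  obtain ⟨sb, sbK, hsb⟩ := surj_of_lead T1.toRingHom T10 T1l (T1K _ le_rfl kDt kDP) (gK _ PK)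
  replace hsa : T1 sa = g (T σ.s) := hsa
  replace hsb : T1 sb = g (T σ.P) := hsb
  have sa0 : constantCoeff sa = σ.s := by rw [← T10, hsa, g0, hT.shift.cc]
  have sb0 : constantCoeff sb = σ.P := by rw [← T10, hsb, g0, hT.shift.cc]
  obtain ⟨S, hS, Ss, SP⟩ := exists_shift σ sa0 sb0
  have T1S : ∀ f, T1 (S f) = T2 f := fun f =>
    shift_comp hS hT2 Set.univ (fun _ _ => trivial) (fun _ _ => trivial) σ.Dt σ.DP
      (fun f _ => by simp [σ.Dts, σ.DtP]) (fun f _ => by simp [σ.DPs, σ.DPP]) T1 T10 _ _ _ T11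
      (by rw [T2s, Ss, hsa]) (by rw [T2P, SP, hsb]) f trivial
  have t1 : coeff 1 (T σ.s) = 1 := by simp [hT.Ts]
  have p1 : coeff 1 (T σ.P) = ee σ := by
    have h1 := congrArg (coeff 1) hT.TP
    have hP := σ.hP
    rw [sq, map_sub] at h1
    simp only [coeff_one_mul, map_mul, hT.shift.cc, t1, coeff_succ_C, constantCoeff_C] at h1
    refine mul_right_cancel₀ (pow_ne_zero 2 hs0) ?_
    rw [ee]
    field_simp
    linear_combination σ.s * h1 - hP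
  have gt : coeff 1 (g (T σ.s)) = -3 := by
    have h1 := coeff_one_map g.toRingHom g0 (T σ.s)
    have h2 := mul_right_cancel₀ ds (gC σ.s)
    change coeff 1 (g _) = coeff 1 (g _) + coeff 1 (g X) * _ at h1
    rw [h1, hT.shift.cc, h2, gX, t1]
    norm_num
  have gp : coeff 1 (g (T σ.P)) = -3 * ee σ := by
    have h1 := coeff_one_map g.toRingHom g0 (T σ.P)
    have h3 := der_P σ σ.Dd
    rw [σ.Ddz, σ.Ddw, ← σ.hs] at h3
    have h4 : σ.Dd σ.P = ee σ * σ.Dd σ.s := mul_right_cancel₀ hs0 (by linear_combination h3)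
    have h2 : coeff 1 (g (C σ.P)) = -2 * ee σ :=
      mul_right_cancel₀ ds (by rw [gC, h4]; ring)
    change coeff 1 (g _) = coeff 1 (g _) + coeff 1 (g X) * _ at h1
    rw [h1, hT.shift.cc, h2, gX, p1]
    ring
  have c1 : ∀ f, coeff 1 (T1 f) = coeff 1 (T (constantCoeff f)) + coeff 1 f := fun f => by
    have h1 := coeff_one_map T1.toRingHom T10 f
    change coeff 1 (T1 _) = coeff 1 (T1 _) + coeff 1 (T1 X) * _ at h1
    rw [h1, T1C, T1X, coeff_one_X, one_mul]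
  refine ⟨⟨T, S, T1, g, t', P', u, hT, hS, ht', hP', Ss ▸ saK, SP ▸ sbK, ?_, ?_, fun f hf => ?_,
    T10, T1C, T1X, by rw [Ss, hsa], by rw [SP, hsb], g0, gt', gP', gX, gt, u_ne, gw, gz, ds⟩⟩
  · have := c1 sa
    rw [hsa, gt, sa0, t1] at this
    rw [Ss]
    linear_combination -this
  · have := c1 sb
    rw [hsb, gp, sb0, p1] at this
    rw [SP]
    linear_combination -this
  · refine cl_comap T1 (inj_of_lead T1.toRingHom T10 T1l) ?_
    rw [T1S]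
    refine cl_mono ?_ (hol2 f hf)
    rintro y (hy | ⟨a, ha, rfl⟩)
    · obtain ⟨x, hx, rfl⟩ := surj_of_lead T1.toRingHom T10 T1l
        (T1K _ (kap_le σ) (kOne_Dt σ) (kOne_DP σ)) hy
      exact ⟨x, Or.inl hx, rfl⟩
    · exact ⟨C a, Or.inr ⟨a, ha, rfl⟩, T1C a⟩

end Ivrii.T.C4
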