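import Pool.Agent.P.MP_7a8567_an.T.C4Five

set_option autoImplicit false

/-!
Step 6 of the core lemma and the conclusion.
-/

open PowerSeries

noncomputable section

namespace Ivrii.T.C4

section Count

variable {k Ω Ω' : Type*} [Field k] [Field Ω] [Algebra k Ω] [Field Ω'] [Algebra k Ω']

lemma pair_map (E : Ω →ₐ[k] Ω') {a b : Ω} (h : AlgebraicIndependent k ![a, b]) :
    AlgebraicIndependent k ![E a, E b] := by
  have := h.map' (f := E) E.injective
  convert this using 1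
  ext i
  fin_cases i <;> rfl

lemma four_three {Z : Subfield Ω} (hk : ∀ a, algebraMap k Ω a ∈ Z) {a b c d : Ω} (ha : a ∈ Z)
    (hb : b ∈ Z) (hab : AlgebraicIndependent k ![a, b]) (hcd : AlgebraicIndependent Z ![c, d])
    {N : Set Ω} (hN : N.encard ≤ 3) (a' : a ∈ cl k N) (b' : b ∈ cl k N) (c' : c ∈ cl k N)
    (d' : d ∈ cl k N) : False := by
  obtain ⟨h1, h2⟩ := pair_not_cl hab
  have hba : b ≠ a := fun h => h2 (h ▸ subset_cl _ rfl)
  rw [cl_eq] at h1 h2
  have i1 := ((AlgebraicIndependent.matroid k Ω).empty_indep.notMem_closure_iff_of_notMem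
    (Set.notMem_empty a) (by simp)).1 h1
  rw [insert_empty_eq] at i1
  have i2 := (i1.notMem_closure_iff_of_notMem hba (by simp)).1 h2
  obtain ⟨i3, i4⟩ := indep_two hk (by rintro _ (rfl | rfl) <;> assumption) i2 hcd
  have h3 := i3.encard_le_eRk_of_subset (X := cl k N) (by
    rintro _ (rfl | rfl | rfl | rfl) <;> assumption)
  rw [i4, Set.encard_pair hba, cl_eq, Matroid.eRk_closure_eq] at h3
  have h4 := h3.trans ((Matroid.eRk_le_encard _ _).trans hN)
  norm_num at h4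

end Count

variable {k O : Type*} [Field k] [Field O] [Algebra k O] [CharZero O]

omit [CharZero O] in
lemma dvd_succ {f : O⟦X⟧} {m : ℕ} (h : (X : O⟦X⟧) ^ m ∣ f) (h0 : coeff m f = 0) :
    (X : O⟦X⟧) ^ (m + 1) ∣ f := by
  rw [X_pow_dvd_iff] at h ⊢
  intro i hi
  rcases Nat.lt_succ_iff_lt_or_eq.1 hi with h' | rfl
  · exact h i h'
  · exact h0

omit [CharZero O] in
lemma coeff_mul_dvd (a : O⟦X⟧) {f : O⟦X⟧} {m : ℕ} (h : (X : O⟦X⟧) ^ m ∣ f) :
    coeff m (a * f) = constantCoeff a * coeff m f := by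
  obtain ⟨g, rfl⟩ := h
  have h2 : ∀ g : O⟦X⟧, coeff m (X ^ m * g) = constantCoeff g := fun g => by
    simpa using coeff_X_pow_mul g m 0
  rw [mul_left_comm, h2, h2, map_mul]

/-- Two lifts of the identity that are congruent on a set are congruent on its closure. -/
theorem lift_mod (ψ φ : O →ₐ[k] O⟦X⟧) (hψ : ∀ f, constantCoeff (ψ f) = f)
    (hφ : ∀ f, constantCoeff (φ f) = f) (S : Set O) (m : ℕ)
    (h : ∀ f ∈ S, (X : O⟦X⟧) ^ m ∣ ψ f - φ f) : ∀ f ∈ cl k S, (X : O⟦X⟧) ^ m ∣ ψ f - φ f := by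
  induction m with
  | zero => intro f _; simp
  | succ m ih =>
    replace ih := ih fun f hf => (pow_dvd_pow _ m.le_succ).trans (h f hf)
    obtain ⟨Y, hY⟩ : ∃ Y : IntermediateField k O, (Y : Set O) = cl k S :=
      ⟨(clF k S).toIntermediateField (alg_mem_cl S), rfl⟩
    have : CharZero Y := Y.val.toRingHom.charZero
    let E : Y →+ O :=
      { toFun := fun f => coeff m (ψ f - φ f)
        map_zero' := by simp
        map_add' := fun f g => by
          rw [← map_add]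
          congr 1
          simp only [IntermediateField.coe_add, map_add]
          ring }
    have hE : ∀ a b : Y, E (a * b) = Y.val.toRingHom a * E b + Y.val.toRingHom b * E a := by
      intro a b
      change coeff m (ψ (a * b : O) - φ (a * b : O)) =
        (a : O) * coeff m (ψ b - φ b) + (b : O) * coeff m (ψ a - φ a)
      have e : ψ (a * b : O) - φ (a * b : O) = ψ a * (ψ b - φ b) + φ b * (ψ a - φ a) := by
        rw [map_mul, map_mul]
        ring
      rw [e, map_add, coeff_mul_dvd _ (ih _ (hY.subset b.2)),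
        coeff_mul_dvd _ (ih _ (hY.subset a.2)), hψ, hφ]
    intro f hf
    refine dvd_succ (ih f hf) ?_
    have h1 : (⟨f, hY.symm.subset hf⟩ : Y) ∈ cl k (Y.val ⁻¹' S) := by
      refine cl_comap Y.val Y.val.injective (cl_mono ?_ hf)
      intro s hs
      exact ⟨⟨s, hY.symm.subset (subset_cl S hs)⟩, hs, rfl⟩
    refine dext Y.val.toRingHom E hE (S := psiKer Y.val.toRingHom E hE) (fun _ hs => hs)
      (isAlg_of_cl (fun a => ?_) (fun s hs => ?_) h1)
    · change coeff m (ψ (algebraMap k O a) - φ (algebraMap k O a)) = 0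
      rw [ψ.commutes, φ.commutes, sub_self, map_zero]
    · exact X_pow_dvd_iff.1 (h _ hs) m m.lt_succ_self

/-- Taylor's formula for a flow. -/
theorem taylor (D : O → O) (ψ : O → O⟦X⟧) (ϑ : O⟦X⟧) (h0 : ∀ f, constantCoeff (ψ f) = f)
    (hϑ : constantCoeff ϑ = 0) (h1 : ∀ f, d⁄dX O (ψ f) = d⁄dX O ϑ * ψ (D f)) (n : ℕ) :
    ∀ f, (X : O⟦X⟧) ^ n ∣
      ψ f - ∑ i ∈ Finset.range n, C (D^[i] f / (i.factorial : O)) * ϑ ^ i := by
  induction n with
  | zero => intro f; simp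
  | succ n ih =>
    intro f
    refine X_pow_succ_dvd ?_ ?_
    · rw [Finset.sum_range_succ', map_sub, map_add, map_sum, Finset.sum_eq_zero, h0]
      · simp
      · intro i _
        simp [hϑ]
    · have e : d⁄dX O (ψ f - ∑ i ∈ Finset.range (n + 1),
          C (D^[i] f / (i.factorial : O)) * ϑ ^ i) = d⁄dX O ϑ * (ψ (D f) -
            ∑ i ∈ Finset.range n, C (D^[i] (D f) / (i.factorial : O)) * ϑ ^ i) := by
        rw [Finset.sum_range_succ', map_sub, map_add, map_sum, h1, mul_sub, Finset.mul_sum,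
          pow_zero, mul_one, derivative_C, add_zero]
        congr 1
        refine Finset.sum_congr rfl fun i _ => ?_
        have hc : C (D^[i] (D f) / (i.factorial : O)) =
            C (D^[i + 1] f / ((i + 1).factorial : O)) * ((i + 1 : ℕ) : O⟦X⟧) := by
          rw [← map_natCast (C : O →+* O⟦X⟧), ← map_mul, Function.iterate_succ_apply,
            Nat.factorial_succ, Nat.cast_mul]
          congr 1
          have h1 : ((i + 1 : ℕ) : O) ≠ 0 := Nat.cast_ne_zero.2 i.succ_ne_zero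
          have h2 : (i.factorial : O) ≠ 0 := Nat.cast_ne_zero.2 i.factorial_ne_zero
          field_simp
        rw [Derivation.leibniz, Derivation.leibniz_pow, derivative_C, hc]
        simp only [smul_eq_mul, nsmul_eq_mul, Nat.add_sub_cancel]
        ring
      rw [e]
      exact Dvd.dvd.mul_left (ih _) _

theorem taylor_map (D : O → O) (ψ : O → O⟦X⟧) (ϑ : O⟦X⟧) (h0 : ∀ f, constantCoeff (ψ f) = f)
    (hϑ : constantCoeff ϑ = 0) (h1 : ∀ f, d⁄dX O (ψ f) = d⁄dX O ϑ * ψ (D f))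
    (R : O⟦X⟧ →ₐ[k] O⟦X⟧) (R0 : ∀ f, constantCoeff (R f) = constantCoeff f) (n : ℕ) (f : O) :
    (X : O⟦X⟧) ^ n ∣
      R (ψ f) - ∑ i ∈ Finset.range n, R (C (D^[i] f / (i.factorial : O))) * R ϑ ^ i := by
  have := X_pow_dvd_map R.toRingHom (X_dvd_map _ R0) (taylor D ψ ϑ h0 hϑ h1 n f)
  change _ ∣ R _ at this
  simpa only [map_sub, map_sum, map_mul, map_pow] using this

variable [CharZero k] {σ : Stat k O}

/-- The derivation along the tangent direction. -/
def DD (σ : Stat k O) : Derivation k O O := σ.Dt + ee σ • σ.DP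

omit [CharZero O] [CharZero k] in
lemma DD_apply (f : O) : DD σ f = σ.Dt f + ee σ * σ.DP f := rfl

omit [CharZero O] [CharZero k] in
lemma DD_s : DD σ σ.s = 1 := by rw [DD_apply, σ.Dts, σ.DPs, mul_zero, add_zero]

omit [CharZero O] [CharZero k] in
lemma DD_P : DD σ σ.P = ee σ := by rw [DD_apply, σ.DtP, σ.DPP, mul_one, zero_add]

omit [CharZero O] [CharZero k] in
lemma t'_zero (δ : Dat σ) : constantCoeff δ.t' = σ.s := by
  have := congrArg constantCoeff δ.ht'
  simp only [map_mul, map_add, constantCoeff_C, constantCoeff_X, add_zero] at this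
  exact mul_right_cancel₀ σ.s_ne (by rw [this, ← σ.hs, sq])

omit [CharZero O] [CharZero k] in
lemma t'_one (δ : Dat σ) : coeff 1 δ.t' = -1 := by
  have := congrArg (coeff 1) δ.ht'
  rw [coeff_one_mul, t'_zero] at this
  simp only [map_add, coeff_succ_C, coeff_one_X, constantCoeff_C, constantCoeff_X] at this
  exact mul_right_cancel₀ σ.s_ne (by linear_combination this)

omit [CharZero k] in
theorem step6a (δ : Dat σ) (hS : ∀ f, d⁄dX O (δ.S f) = d⁄dX O (δ.S σ.s) * δ.S (DD σ f))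
    (h1 : σ.Dt σ.z = 0) (h2 : σ.DP σ.z = 0) : False := by
  have hs0 := σ.s_ne
  have z0 : DD σ σ.z = 0 := by rw [DD_apply, h1, h2, mul_zero, add_zero]
  have w0 : DD σ σ.w = 0 := by
    have := der_P σ (DD σ)
    rw [DD_P, DD_s, z0] at this
    exact mul_right_cancel₀ (pow_ne_zero 2 hs0) (by linear_combination this)
  have Sz : δ.S σ.z = C σ.z := eq_of_der (by simp [δ.shift.cc]) (by rw [hS, z0]; simp)
  have Sw : δ.S σ.w = C σ.w := eq_of_der (by simp [δ.shift.cc]) (by rw [hS, w0]; simp)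
  have Tz : δ.T σ.z = C σ.z :=
    eq_of_der (by simp [δ.base.shift.cc]) (by simp [shift_ode δ.base.shift σ.z, h1, h2])
  have t0 : δ.T σ.s ≠ 0 := (map_ne_zero δ.T).2 hs0
  have Tw : δ.T σ.w = C σ.w := by
    have a := congrArg δ.T σ.hP
    rw [map_mul, map_sub, map_mul, map_pow, Tz, δ.base.TP] at a
    exact mul_right_cancel₀ (pow_ne_zero 2 t0) (by linear_combination a)
  have a := congrArg (fun f => δ.T1 (δ.S f)) σ.hP
  simp only [map_mul, map_sub, map_pow, Sz, Sw, δ.T1C, Tz, Tw, δ.T1s, δ.T1P] at a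
  have b := congrArg δ.g δ.base.TP
  rw [map_mul, map_sub, map_mul, map_pow, δ.gz, δ.gw, a] at b
  have c : δ.t' ^ 2 = δ.g (δ.T σ.s) ^ 2 :=
    mul_left_cancel₀ δ.u_ne (by linear_combination -b)
  have d := congrArg (coeff 1) c
  rw [sq, sq, coeff_one_mul, coeff_one_mul, t'_zero, t'_one, δ.g0, δ.gt, δ.base.shift.cc] at d
  exact mul_ne_zero (show (4 : O) ≠ 0 by norm_num) hs0 (by linear_combination d)

omit [CharZero k] [CharZero O] in
lemma surj_top (R : O⟦X⟧ →ₐ[k] O⟦X⟧) (h0 : ∀ f, constantCoeff (R f) = constantCoeff f)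
    (hX : R X = X) (h : O⟦X⟧) : ∃ f, R f = h := by
  obtain ⟨f, -, hf⟩ := surj_of_lead R.toRingHom h0 (by
    change coeff 1 (R X) ≠ 0
    simp [hX]) (K := ⊤) (fun _ _ _ => trivial) (h := h) (fun _ => trivial)
  exact ⟨f, hf⟩

/-- The reflected line lies on the leaf through the given line. -/
theorem leaf (δ : Dat σ) (hS : ∀ f, d⁄dX O (δ.S f) = d⁄dX O (δ.S σ.s) * δ.S (DD σ f))
    (hY : ∀ f ∈ cl k {σ.s, σ.P}, DD σ f ∈ cl k {σ.s, σ.P}) {ϑ : O⟦X⟧}
    (hϑ : δ.T1 ϑ = δ.t' - δ.T σ.s) (F : O →ₐ[k] O⟦X⟧) (F0 : ∀ f, constantCoeff (F f) = f)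
    (F1 : ∀ f, d⁄dX O (F f) = d⁄dX O ϑ * F (DD σ f)) :
    δ.T1 (F σ.s) = δ.t' ∧ δ.T1 (F σ.P) = δ.P' := by
  have hs0 := σ.s_ne
  have t0 := t'_zero δ
  have t1 := t'_one δ
  obtain ⟨T, S, T1, g, t', P', u, hT, hSh, ht', hP', _, _, _, _, _, T10, T1C, T1X, T1s, T1P,
    g0, gt', gP', gX, gt, _, _, _, ds⟩ := δ
  dsimp only at hS hϑ t0 t1 ⊢
  rw [← hT.Ts] at ht'
  have tne : t' ≠ 0 := fun h => hs0 (by rw [← t0, h, map_zero])
  have Tne : T σ.s ≠ 0 := (map_ne_zero T).2 hs0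
  have ϑ0 : constantCoeff ϑ = 0 := by rw [← T10, hϑ, map_sub, t0, hT.shift.cc, sub_self]
  obtain ⟨r, r0, r1⟩ := exists_flow1 (cc k O) (dX k O) (d⁄dX O (t' - C σ.s))
  replace r0 : ∀ f, constantCoeff (r f) = constantCoeff f := r0
  simp only [dX_apply] at r1
  have rC : ∀ a, r (C a) = C a := fun a => eq_of_der (by rw [r0]) (by rw [r1]; simp)
  have rX : r X = t' - C σ.s := eq_of_der (by simp [r0, t0]) (by rw [r1]; simp)
  have rt : r (T σ.s) = t' := by rw [hT.Ts, map_add, rC, rX]; ring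
  have rt' : r t' = T σ.s := by
    have := congrArg r ht'
    rw [map_mul, rt, rC, ← ht'] at this
    exact mul_right_cancel₀ tne (by rw [this, mul_comm])
  have rP : r (T σ.P) = P' := by
    have := congrArg r hT.TP
    rw [map_mul, map_sub, map_mul, map_pow, rt, rC, rC, ← hP'] at this
    exact mul_right_cancel₀ tne this
  have rP' : r P' = T σ.P := by
    have := congrArg r hP'
    rw [map_mul, map_sub, map_mul, map_pow, rt', rC, rC, ← hT.TP] at this
    exact mul_right_cancel₀ Tne this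
  obtain ⟨rh, hrh⟩ : ∃ rh : O⟦X⟧ →ₐ[k] O⟦X⟧, ∀ f, rh f = g (r f) := ⟨g.comp r, fun _ => rfl⟩
  have rh0 : ∀ f, constantCoeff (rh f) = constantCoeff f := fun f => by rw [hrh, g0, r0]
  have rhX : coeff 1 (rh X) = 1 := by
    have h1 := coeff_one_map g.toRingHom g0 (r X)
    change coeff 1 (g _) = coeff 1 (g _) + coeff 1 (g X) * _ at h1
    rw [hrh, h1, r0, gX, rX, map_sub, t1]
    simp
  obtain ⟨T', hT', T's, T'P⟩ := exists_shift σ (a := t') (b := P') t0 (by
    have := congrArg constantCoeff hP'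
    simp only [map_mul, map_sub, map_pow, constantCoeff_C, t0] at this
    exact mul_right_cancel₀ hs0 (by rw [this, σ.hP]))
  have rhT : ∀ f ∈ cl k {σ.s, σ.P}, rh (T f) = T' f := fun f hf =>
    sub_eq_zero.1 (eq_zero_of_dvd fun m => lift_mod (rh.comp T) T'
      (fun f => by rw [AlgHom.comp_apply, rh0, hT.shift.cc]) hT'.cc _ m (by
        rintro _ (rfl | rfl)
        · rw [AlgHom.comp_apply, hrh, rt, gt', T's, sub_self]; exact dvd_zero _
        · rw [AlgHom.comp_apply, hrh, rP, gP', T'P, sub_self]; exact dvd_zero _) f hf)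
  have Fs : F σ.s = C σ.s + ϑ := eq_of_der (by simp [F0, ϑ0]) (by rw [F1, DD_s]; simp)
  have TFs : T1 (F σ.s) = t' := by rw [Fs, map_add, T1C, hϑ]; ring
  obtain ⟨Fh, Fh0, Fh1⟩ := exists_flow2 (cc k O) (pcoef (DD σ)) (dX k O) (d⁄dX O ϑ) 1
  replace Fh0 : ∀ f, constantCoeff (Fh f) = constantCoeff f := Fh0
  simp only [dX_apply, one_mul] at Fh1
  have FhC : ∀ f, Fh (C f) = F f := fun f =>
    uniq1 Set.univ (DD σ) (fun _ _ => trivial) _ (fun f => Fh (C f)) F
      (fun f _ => by simp [Fh0, F0]) (fun f _ => by rw [Fh1]; simp) (fun f _ => F1 f) f trivial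
  have FhX : Fh X = X := eq_of_der (by simp [Fh0]) (by rw [Fh1]; simp)
  obtain ⟨β, hβ⟩ := surj_top Fh Fh0 FhX (S σ.s - C σ.s - ϑ)
  have β0 : constantCoeff β = 0 := by simp [← Fh0 β, hβ, hSh.cc, ϑ0]
  obtain ⟨G, G0, G1⟩ := exists_flow1 (AlgHom.id k O) (DD σ) (d⁄dX O β)
  replace G0 : ∀ f, constantCoeff (G f) = f := G0
  have Gc : ∀ f, pcoef (DD σ) (G f) = (1 + pcoef (DD σ) β) * G (DD σ f) := fun f => by
    simpa using chain Set.univ (fun _ : Unit => DD σ) (fun _ _ _ => trivial)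
      (fun _ _ _ _ => rfl) (fun _ => d⁄dX O β) G (fun f _ => by simpa using G1 f) (DD σ)
      (fun _ => 1 + pcoef (DD σ) β) (fun _ => by simp [der_pcoef])
      (fun f _ => by simp [G0, β0]) f trivial
  have FG : ∀ f, Fh (G f) = S f := fun f =>
    uniq1 Set.univ (DD σ) (fun _ _ => trivial) (d⁄dX O (S σ.s)) (fun f => Fh (G f)) S
      (fun f _ => by rw [Fh0, G0, hSh.cc]) (fun f _ => by
        have h1 := Fh1 β
        rw [hβ, map_sub, map_sub, derivative_C] at h1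
        rw [Fh1, Gc, G1]
        simp only [map_add, map_mul, map_one]
        linear_combination (-Fh (G (DD σ f))) * h1) (fun f _ => hS f) f trivial
  have hit : ∀ i, (DD σ)^[i] σ.P / (i.factorial : O) ∈ cl k {σ.s, σ.P} := fun i => by
    refine (clF k {σ.s, σ.P}).div_mem ?_ (natCast_mem _ _)
    induction i with
    | zero => exact subset_cl _ (Or.inr rfl)
    | succ i ih => rw [Function.iterate_succ_apply']; exact hY _ ih
  have p0 : (X : O⟦X⟧) ∣ g (T σ.s) - t' := X_dvd_iff.2 (by simp [g0, hT.shift.cc, t0])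
  refine ⟨TFs, (sub_eq_zero.1 (eq_zero_of_dvd fun m => ?_)).symm⟩
  induction m with
  | zero => simp
  | succ m ih =>
    have hl := lift_mod (T1.comp F) T' (fun f => by rw [AlgHom.comp_apply, T10, F0]) hT'.cc
      {σ.s, σ.P} m (by
        rintro _ (rfl | rfl)
        · rw [AlgHom.comp_apply, TFs, T's, sub_self]; exact dvd_zero _
        · rw [AlgHom.comp_apply, T'P]; exact dvd_sub_comm.1 ih)
    have A1 := taylor_map (DD σ) F ϑ F0 ϑ0 F1 (rh.comp T1)
      (fun f => by rw [AlgHom.comp_apply, rh0, T10]) (m + 1) σ.P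
    have A2 := taylor_map (DD σ) G β G0 β0 G1 (T1.comp Fh)
      (fun f => by rw [AlgHom.comp_apply, T10, Fh0]) (m + 1) σ.P
    have e1 : rh (T1 ϑ) = g (T σ.s) - t' := by rw [hϑ, map_sub, hrh, hrh, rt', rt, gt']
    have e2 : T1 (Fh β) = g (T σ.s) - t' := by
      rw [hβ, map_sub, map_sub, T1s, T1C, hϑ]
      ring
    simp only [AlgHom.comp_apply, T1C, e1, rhT _ (hit _)] at A1
    simp only [AlgHom.comp_apply, FhC, e2, FG, T1P] at A2
    have A3 : (X : O⟦X⟧) ^ (m + 1) ∣ ∑ i ∈ Finset.range m,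
        (T1 (F ((DD σ)^[i + 1] σ.P / ((i + 1).factorial : O))) -
          T' ((DD σ)^[i + 1] σ.P / ((i + 1).factorial : O))) * (g (T σ.s) - t') ^ (i + 1) :=
      Finset.dvd_sum fun i _ => by
        rw [pow_succ]
        exact mul_dvd_mul (hl _ (hit _)) (p0.trans (dvd_pow_self _ i.succ_ne_zero))
    rw [Finset.sum_range_succ'] at A1 A2
    simp only [Function.iterate_zero_apply, Nat.factorial_zero, Nat.cast_one, div_one, pow_zero,
      mul_one, T'P] at A1 A2
    simp only [sub_mul, Finset.sum_sub_distrib] at A3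
    have A4 : (X : O⟦X⟧) ^ (m + 1) ∣ rh (P' - T1 (F σ.P)) + (P' - T1 (F σ.P)) := by
      have := dvd_add (dvd_sub A2 A1) A3
      rw [map_sub, hrh P', rP']
      convert this using 1
      ring
    have A5 := X_pow_dvd_iff.1 A4 m m.lt_succ_self
    have A6 := lead_map rh.toRingHom rh0 ih
    change coeff m (rh _) = coeff 1 (rh X) ^ m * _ at A6
    rw [map_add, A6, rhX, one_pow, one_mul] at A5
    exact dvd_succ ih (add_self_eq_zero.1 A5)

theorem step6b [IsAlgClosed k] (δ : Dat σ)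
    (hS : ∀ f, d⁄dX O (δ.S f) = d⁄dX O (δ.S σ.s) * δ.S (DD σ f))
    (hz : σ.z ∈ cl k {σ.s, σ.P}) : False := by
  have hs0 := σ.s_ne
  let Y := clF k {σ.s, σ.P}
  have sY : σ.s ∈ Y := subset_cl _ (Or.inl rfl)
  have PY : σ.P ∈ Y := subset_cl _ (Or.inr rfl)
  have wY : σ.w ∈ Y := by
    have : σ.w = (σ.z - σ.P * σ.s) / σ.s ^ 2 := by
      rw [σ.hP]
      field_simp
      ring
    rw [this]
    exact div_mem (sub_mem hz (mul_mem PY sY)) (pow_mem sY 2)
  have eY : ee σ ∈ Y := neg_mem (add_mem (div_mem hz (pow_mem sY 2)) wY)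
  have hY : ∀ f ∈ cl k {σ.s, σ.P}, DD σ f ∈ cl k {σ.s, σ.P} := fun f hf =>
    der_cl (DD σ) (subset_cl _) (by
      rintro _ (rfl | rfl)
      · rw [DD_s]; exact Y.one_mem
      · rw [DD_P]; exact eY) hf
  have hκ : ∀ f ∈ Y, f ∈ σ.κ := fun f hf => (mem_kap σ).1 (cl_subset (by
    rintro _ (rfl | rfl)
    · exact subset_cl _ σ.sκ
    · have : σ.P = (σ.z - σ.w * σ.s ^ 2) / σ.s := by rw [← σ.hP]; field_simp
      rw [this]
      exact (kap σ).div_mem (sub_mem (subset_cl _ σ.zκ)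
        (mul_mem (subset_cl _ σ.wκ) (pow_mem (subset_cl _ σ.sκ) 2))) (subset_cl _ σ.sκ)) hf)
  have hc : ∀ f ∈ Y, DD σ f = 0 → f ∈ Set.range (algebraMap k O) := fun f hf h0 => by
    refine range_of_cl (σ.constκ f (hκ f hf) ?_)
    rw [der_eq σ.Dd (σ.Dd σ.s • DD σ) ?_ hf, Derivation.smul_apply, h0, smul_zero]
    rintro _ (rfl | rfl)
    · rw [Derivation.smul_apply, DD_s, smul_eq_mul, mul_one]
    · have h3 := der_P σ σ.Dd
      rw [σ.Ddz, σ.Ddw, ← σ.hs] at h3
      rw [Derivation.smul_apply, DD_P, smul_eq_mul]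
      exact mul_right_cancel₀ hs0 (by linear_combination h3)
  obtain ⟨ϑ, hϑ⟩ := surj_top δ.T1 δ.T10 δ.T1X (δ.t' - δ.T σ.s)
  obtain ⟨F, F0, F1⟩ := exists_flow1 (AlgHom.id k O) (DD σ) (d⁄dX O ϑ)
  replace F0 : ∀ f, constantCoeff (F f) = f := F0
  obtain ⟨Fs, FP⟩ := leaf δ hS hY hϑ F F0 F1
  have ϑ0 : toL k O (d⁄dX O ϑ) ≠ 0 := fun h => by
    have h0 : d⁄dX O ϑ = 0 := toL_inj (h.trans (map_zero _).symm)
    have h1 : constantCoeff ϑ = 0 := by
      rw [← δ.T10, hϑ, map_sub, t'_zero, δ.base.shift.cc, sub_self]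
    have h2 := congrArg (coeff 1) hϑ
    rw [eq_C_of_der h0, h1, map_zero, map_zero, map_zero, map_sub, t'_one, δ.base.Ts] at h2
    simp only [map_add, coeff_succ_C, coeff_one_X] at h2
    exact two_ne_zero (α := O) (by linear_combination h2)
  obtain ⟨E, hE⟩ : ∃ E : O →ₐ[k] LaurentSeries O, ∀ f, E f = toL k O (F f) :=
    ⟨(toL k O).comp F, fun _ => rfl⟩
  obtain ⟨CC, hCC⟩ : ∃ CC : O →ₐ[k] LaurentSeries O, ∀ f, CC f = toL k O (C f) :=
    ⟨(toL k O).comp (CA k O), fun _ => rfl⟩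
  have hsP := ind_pair σ.is σ.iP
  have hind : AlgebraicIndependent CC.toRingHom.fieldRange ![E σ.s, E σ.P] := by
    have a : ∀ f, ((toL k O (d⁄dX O ϑ))⁻¹ • PX.dU O k) (E f) = E (DD σ f) := fun f => by
      rw [Derivation.smul_apply, hE, hE, dU_toL, F1, map_mul, smul_eq_mul,
        inv_mul_cancel_left₀ ϑ0]
    refine ld_alg' {(toL k O (d⁄dX O ϑ))⁻¹ • PX.dU O k} (Y.map E.toRingHom) ?_ ?_ _ ?_ ?_ ?_
    · rintro _ rfl _ ⟨f, hf, rfl⟩
      exact ⟨_, hY f hf, (a f).symm⟩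
    · rintro _ ⟨f, hf, rfl⟩ h
      obtain ⟨b, rfl⟩ := hc f hf ((_root_.map_eq_zero E).1 ((a f).symm.trans (h _ rfl)))
      exact ⟨b, (E.commutes b).symm⟩
    · rintro _ rfl _ ⟨f, rfl⟩
      change (toL k O (d⁄dX O ϑ))⁻¹ • PX.dU O k (CC f) = 0
      rw [hCC, dU_toL, derivative_C, map_zero, smul_zero]
    · intro i
      fin_cases i
      · exact ⟨_, sY, rfl⟩
      · exact ⟨_, PY, rfl⟩
    · exact pair_map E hsP
  obtain ⟨a, ha⟩ := surj_top δ.T1 δ.T10 δ.T1X (C σ.s)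
  obtain ⟨b, hb⟩ := surj_top δ.T1 δ.T10 δ.T1X (C σ.P)
  have T1inj : Function.Injective δ.T1 := inj_of_lead δ.T1.toRingHom δ.T10 (by
    change coeff 1 (δ.T1 X) ≠ 0
    simp [δ.T1X])
  let Z := clF k {CC σ.s, CC σ.P, toL k O X}
  have CZ : ∀ f ∈ Y, toL k O (C f) ∈ Z := fun f hf => by
    rw [← hCC]
    refine cl_map_sub CC CC.injective ?_ hf
    rintro _ (rfl | rfl)
    · exact subset_cl _ (Or.inl rfl)
    · exact subset_cl _ (Or.inr (Or.inl rfl))
  have back : ∀ y, toL k O (δ.T1 y) ∈ Z → toL k O y ∈ cl k (toL k O '' {a, b, X}) := by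
    intro y hy
    refine cl_map _ toL_inj (cl_comap ((toL k O).comp δ.T1) 
      (fun u v h => T1inj (toL_inj (k := k) h)) ?_)
    refine cl_mono ?_ hy
    rintro _ (rfl | rfl | rfl)
    · exact ⟨a, Or.inl rfl, by rw [AlgHom.comp_apply, ha, hCC]⟩
    · exact ⟨b, Or.inr (Or.inl rfl), by rw [AlgHom.comp_apply, hb, hCC]⟩
    · exact ⟨X, Or.inr (Or.inr rfl), by rw [AlgHom.comp_apply, δ.T1X]⟩
  have dv : ∀ f g h : O⟦X⟧, f * g = h → constantCoeff g ≠ 0 → toL k O g ∈ Z → toL k O h ∈ Z →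
      toL k O f ∈ Z := fun f g h e g0 hg hh => by
    have g1 : toL k O g ≠ 0 := fun h => g0 (by
      rw [toL_inj (h.trans (map_zero _).symm), map_zero])
    rw [← mul_div_cancel_right₀ (toL k O f) g1, ← map_mul, e]
    exact div_mem hh hg
  have tZ : toL k O (δ.T σ.s) ∈ Z := by
    rw [δ.base.Ts, map_add]
    exact add_mem (CZ _ sY) (subset_cl _ (Or.inr (Or.inr rfl)))
  have PZ : toL k O (δ.T σ.P) ∈ Z := dv _ _ _ δ.base.TP (by rwa [δ.base.shift.cc]) tZ (by
    rw [map_sub, map_mul, map_pow]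
    exact sub_mem (CZ _ hz) (mul_mem (CZ _ wY) (pow_mem tZ 2)))
  have t'Z : toL k O δ.t' ∈ Z := dv _ _ _ δ.ht' (by simpa using hs0) (δ.base.Ts ▸ tZ)
    (CZ _ (σ.hs ▸ pow_mem sY 2))
  have P'Z : toL k O δ.P' ∈ Z := dv _ _ _ δ.hP' (by rwa [t'_zero]) t'Z (by
    rw [map_sub, map_mul, map_pow]
    exact sub_mem (CZ _ hz) (mul_mem (CZ _ wY) (pow_mem t'Z 2)))
  refine four_three (Z := CC.toRingHom.fieldRange) (a := CC σ.s) (b := CC σ.P)
    (fun a => ⟨_, CC.commutes a⟩) ⟨_, rfl⟩ ⟨_, rfl⟩ (pair_map CC hsP) hind (N := toL k O '' {a, b, X}) ?_ ?_ ?_ ?_ ?_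
  · refine (Set.encard_image_le _ _).trans ((Set.encard_insert_le _ _).trans ?_)
    have : ({b, X} : Set O⟦X⟧).encard ≤ 2 :=
      (Set.encard_insert_le _ _).trans (by rw [Set.encard_singleton]; norm_num)
    calc ({b, X} : Set O⟦X⟧).encard + 1 ≤ 2 + 1 := by gcongr
      _ = 3 := by norm_num
  · rw [hCC]; exact back _ (by rwa [δ.T1C])
  · rw [hCC]; exact back _ (by rwa [δ.T1C])
  · rw [hE]; exact back _ (by rwa [Fs])
  · rw [hE]; exact back _ (by rwa [FP])

end Ivrii.T.C4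

namespace Ivrii.T

open C4 in
/-- Steps 3 to 6 of the core lemma. -/
theorem stat_false {k O : Type*} [Field k] [Field O] [Algebra k O] [IsAlgClosed k]
    [IsAlgClosed O] [CharZero k] (σ : Stat k O) (h : σ.Dyn) : False := by
  have : CharZero O := charZero_of_injective_algebraMap (algebraMap k O).injective
  obtain ⟨δ⟩ := step4 σ h
  have hS : ∀ f, d⁄dX O (δ.S f) = d⁄dX O (δ.S σ.s) * δ.S (DD σ f) := fun f => by
    rw [shift_ode δ.shift f, step5 δ, DD_apply, map_add, map_mul]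
    ring
  rcases σ.case with h | h
  · exact step6a δ hS h.1 h.2
  · exact step6b δ hS h

end Ivrii.T
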