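import Pool.Agent.P.MP_7a8567_an.T.DynB

/-! Step 3b: the result of steps 1 to 3. -/

set_option autoImplicit false

open PowerSeries Ivrii.PX

noncomputable section

namespace Ivrii.T

open DF DF.Hyp

section aux

variable {k Ω : Type*} [Field k] [Field Ω] [Algebra k Ω]

/-- Ramified power series. -/
def dyncJ (k Ω : Type*) [Field k] [Field Ω] [Algebra k Ω] (n : ℕ+) :
    Ω⟦X⟧ →ₐ[k] LaurentSeries Ω :=
  { (ram n).comp (toL k Ω).toRingHom with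
    commutes' := fun c => by
      change ram n (toL k Ω (algebraMap k _ c)) = _
      rw [AlgHom.commutes, algebraMap_ls, ram_C] }

lemma dyncJ_apply (n : ℕ+) (g : Ω⟦X⟧) : dyncJ k Ω n g = ram n (toL k Ω g) := rfl

lemma dyncJ_inj (n : ℕ+) : Function.Injective (dyncJ k Ω n) :=
  (ram_injective n).comp toL_injective

lemma dyncJ_coeff (n : ℕ+) (g : Ω⟦X⟧) : (dyncJ k Ω n g).coeff 0 = constantCoeff g := by
  have := coeff_ram_mul n (toL k Ω g) 0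
  rw [mul_zero] at this
  rw [dyncJ_apply, this, toL_apply, PowerSeries.coeff_coe]
  simp

lemma dyncJ_euler (n : ℕ+) (g : Ω⟦X⟧) : euler Ω k (dyncJ k Ω n g) =
    HahnSeries.single ((n : ℕ) : ℤ) ((n : ℕ) : Ω) * dyncJ k Ω n (dX k Ω g) := by
  rw [dyncJ_apply, euler_ram, euler_eq, toL_apply, dU_ofPowerSeries, map_mul, ram_single,
    ← mul_assoc]
  congr 1
  rw [← map_natCast (HahnSeries.C (Γ := ℤ) (R := Ω)), HahnSeries.C_apply,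
    HahnSeries.single_mul_single]
  simp

lemma dyncJ_dcoef (n : ℕ+) (d : Derivation k Ω Ω) (g : Ω⟦X⟧) :
    dcoef d (dyncJ k Ω n g) = dyncJ k Ω n (pcoef d g) := by
  rw [dyncJ_apply, dcoef_ram, dyncJ_apply]
  congr 1
  ext i
  rw [coeff_dcoef, toL_apply, toL_apply, PowerSeries.coeff_coe, PowerSeries.coeff_coe]
  split_ifs
  · simp
  · exact (coeff_mk _ (fun n => d (coeff n g))).symm

lemma dync_transfer (n : ℕ+) (Th : IntermediateField k Ω) (Ψ : Th →ₐ[k] LaurentSeries Ω)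
    {R : Set Ω} {S : Set Ω⟦X⟧}
    (h : ∀ x ∈ R, ∃ y : Th, (y : Ω) = x ∧ ∃ s ∈ S, Ψ y = dyncJ k Ω n s)
    {y : Th} {g : Ω⟦X⟧} (hg : Ψ y = dyncJ k Ω n g) (hy : (y : Ω) ∈ cl k R) : g ∈ cl k S := by
  have h1 : y ∈ cl k {x : Th | (x : Ω) ∈ R} := by
    refine (cl_map_iff Th.val Subtype.val_injective _ y).1 (cl_mono (fun x hx => ?_) hy)
    obtain ⟨x', rfl, -⟩ := h x hx
    exact ⟨x', hx, rfl⟩
  have h2 := (cl_map_iff Ψ Ψ.injective _ y).2 h1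
  rw [hg] at h2
  refine (cl_map_iff (dyncJ k Ω n) (dyncJ_inj n) S g).1 (cl_mono ?_ h2)
  rintro _ ⟨x, hx, rfl⟩
  obtain ⟨x', h3, s, hs, h4⟩ := h x hx
  rw [Subtype.ext h3] at h4
  exact ⟨s, hs, h4.symm⟩

end aux

variable {k Ω : Type*} [Field k] [CharZero k] [IsAlgClosed k] [Field Ω] [IsAlgClosed Ω]
  [Algebra k Ω] {𝔇 : DF k Ω}

theorem dynC {H : 𝔇.Hyp} {r : H.Rho} {σ : Stat k Ω} (h : Sta r σ) {e : Emb r σ} (l : Lau e) :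
    σ.Dyn := by
  have : CharZero Ω := charZero_of_injective_algebraMap (algebraMap k Ω).injective
  have hLB : ∀ x ∈ H.LL, x ∈ H.B := fun x hx => Algebra.subset_adjoin (Or.inl hx)
  have hκB : ∀ x ∈ H.κ, x ∈ H.B := fun x hx => Algebra.subset_adjoin (Or.inr hx)
  have htL : H.t ∈ H.LL := H.sub H.tM
  have hqκ : H.q ∈ H.κ := mem_cl H.lk.q_mem_jet
  have hzκ : H.z ∈ H.κ := mem_cl (z_mem_jet _ _)
  have hwκ : H.w ∈ H.κ := mem_cl (w_mem_jet _ _)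
  have ht0 := H.lk.l₀.t_ne
  have ht0' := H.lk.l₁.t_ne
  have ht'B : H.t' ∈ H.B := by
    have h1 : H.t⁻¹ ∈ H.LL := by
      rw [← H.LLc.cl_eq]
      exact cl_inv (mem_cl htL)
    have h2 : H.t' = H.q * H.t⁻¹ := by
      rw [H.lk.refl]
      field_simp
    rw [h2]
    exact H.B.mul_mem (hκB _ hqκ) (hLB _ h1)
  have hP'B : H.P' ∈ H.B := by
    have h2 : H.P' = H.z * H.t * H.q⁻¹ - H.w * H.t' := by
      rw [H.lk.on₁, H.lk.refl]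
      field_simp
    rw [h2]
    exact H.B.sub_mem (H.B.mul_mem (H.B.mul_mem (hκB _ hzκ) (hLB _ htL)) (hκB _ (cl_inv hqκ)))
      (H.B.mul_mem (hκB _ hwκ) ht'B)
  set a := e.Φ ⟨H.t', ht'B⟩ with ha
  set b := e.Φ ⟨H.P', hP'B⟩ with hb
  have e1 : a * e.T σ.s = C σ.q := by
    have h1 : e.T σ.s = e.Φ ⟨H.t, hLB _ htL⟩ := by
      rw [e.ΦL _ htL, r.ρt _ rfl, h.s]
    rw [h1, ha, ← map_mul, h.q, ← e.Φκ ⟨H.q, hκB _ hqκ⟩ hqκ]
    congr 1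
    exact Subtype.ext ((mul_comm _ _).trans H.lk.refl.symm)
  have e2 : b * a = C σ.z - C σ.w * a ^ 2 := by
    rw [h.z, h.w, ← e.Φκ ⟨H.z, hκB _ hzκ⟩ hzκ, ← e.Φκ ⟨H.w, hκB _ hwκ⟩ hwκ, ha, hb, ← map_pow,
      ← map_mul, ← map_mul, ← map_sub]
    congr 1
    refine Subtype.ext ?_
    change H.P' * H.t' = H.z - H.w * H.t' ^ 2
    rw [H.lk.on₁]
    field_simp
  have ca : constantCoeff a = σ.s := by
    have h1 := congrArg constantCoeff e1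
    rw [map_mul, e.base.shift.cc, constantCoeff_C, ← σ.hs, sq] at h1
    exact mul_right_cancel₀ σ.s_ne h1
  have cb : constantCoeff b = σ.P := by
    have h1 := congrArg constantCoeff e2
    simp only [map_mul, map_sub, map_pow, constantCoeff_C, ca, ← σ.hP] at h1
    exact mul_right_cancel₀ σ.s_ne h1
  have hB : ∀ y₀ : H.B, ∃ y : l.Th, (y : Ω) = y₀ ∧ l.Ψ y = dyncJ k Ω l.n (e.Φ y₀) :=
    fun y₀ => ⟨⟨y₀, l.BT y₀.2⟩, rfl, l.ΨB _ y₀ rfl⟩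
  choose ψ hψ using fun f : 𝔇.jet H.zC H.wC => dynB h l ⟨f, l.jetT f.2⟩ (Or.inl f.2)
  simp only [← dyncJ_apply] at hψ
  refine ⟨e.T, a, b, Set.range ψ, e.base, e1, e2, ?_, ?_, ?_⟩
  · intro g α β hg gd ga gb
    obtain ⟨τ, hτ⟩ := dynB h l ⟨H.te, l.teT⟩ (Or.inr H.teF)
    obtain ⟨p, hp⟩ := dynB h l ⟨H.Pe, l.PeT⟩ (Or.inr H.PeF)
    rw [← dyncJ_apply] at hτ hp
    have hab : ∀ x ∈ ({H.t', H.P'} : Set Ω), ∃ y : l.Th, (y : Ω) = x ∧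
        ∃ s ∈ ({a, b} : Set Ω⟦X⟧), l.Ψ y = dyncJ k Ω l.n s := by
      rintro x (rfl | rfl)
      · obtain ⟨y, h1, h2⟩ := hB ⟨H.t', ht'B⟩
        exact ⟨y, h1, a, Or.inl rfl, h2⟩
      · obtain ⟨y, h1, h2⟩ := hB ⟨H.P', hP'B⟩
        exact ⟨y, h1, b, Or.inr rfl, h2⟩
    have hfix := fixA g hg ga gb (ca ▸ σ.is) (by rw [ca, cb]; exact σ.iP)
    have gτ := hfix τ (dync_transfer l.n l.Th l.Ψ hab hτ H.teF)
    have gp := hfix p (dync_transfer l.n l.Th l.Ψ hab hp H.PeF)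
    choose pr hpr hd using fun f : 𝔇.jet H.zC H.wC => H.lkC.jet_deriv f.2
    set w₀ : 𝔇.jet H.zC H.wC := ⟨H.wC, w_mem_jet _ _⟩ with hw₀
    set z₀ : 𝔇.jet H.zC H.wC := ⟨H.zC, z_mem_jet _ _⟩ with hz₀
    have hrot : ∀ f : 𝔇.jet H.zC H.wC, l.Ψ ⟨H.rot f, l.st1 _ (l.jetT f.2)⟩ =
        dyncJ k Ω l.n (dX k Ω (ψ f)) := fun f => by
      have h1 := l.int1 ⟨f, l.jetT f.2⟩ ⟨H.rot f, l.st1 _ (l.jetT f.2)⟩ rfl
      rw [hψ, dyncJ_euler] at h1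
      exact (mul_left_cancel₀ (HahnSeries.single_ne_zero
        (Nat.cast_ne_zero.2 l.n.ne_zero)) h1).symm
    have hdn : ∀ f : 𝔇.jet H.zC H.wC, l.Ψ ⟨H.Dn r.s f, l.st2 _ (l.jetT f.2)⟩ =
        dyncJ k Ω l.n (pcoef σ.Dd (ψ f)) := fun f => by
      have h1 := l.int2 ⟨f, l.jetT f.2⟩ ⟨H.Dn r.s f, l.st2 _ (l.jetT f.2)⟩ rfl
      rw [hψ, dyncJ_dcoef] at h1
      exact h1.symm
    have hq : pr z₀ = H.qC := by
      have h1 := hd z₀ _ (isSpan_dual H.wC H.te)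
      rw [H.lkC.span_z (isSpan_dual H.wC H.te), dual_left H.lkC.br_tw_ne, mul_one, mul_one] at h1
      exact h1.symm
    have key := fixW (pcoef σ.Dd) ψ (fun f => ⟨pr f, hpr f⟩) w₀ z₀ g α β hg gd
      (fun f => dyncJ_inj (k := k) l.n ?_) (fun f => dyncJ_inj (k := k) l.n ?_) gτ gp
      (dyncJ_inj (k := k) l.n ?_) ?_
    · rintro _ ⟨f, rfl⟩
      exact key f
    · rw [map_mul, ← hrot, ← hrot, ← hψ, ← map_mul]
      congr 1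
      exact Subtype.ext (hd f _ (isSpan_dual _ _))
    · rw [map_mul, ← hdn, ← hdn, ← hψ, ← map_mul]
      congr 1
      exact Subtype.ext (hd f _ ((isSpan_dual _ _).add_smul (isSpan_dual _ _) _))
    · rw [map_mul, map_sub, map_mul, map_pow, ← hτ, ← hp, ← hψ, ← hψ, ← map_pow, ← map_mul,
        ← map_mul, ← map_sub]
      congr 1
      refine Subtype.ext ?_
      change H.Pe * H.te = H.zC - H.wC * H.te ^ 2
      have := H.lkC.l₀.t_ne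
      rw [H.lkC.on₀]
      field_simp
    · rw [← dyncJ_coeff (k := k) l.n, ← dyncJ_coeff (k := k) l.n, ← hτ, ← hψ]
      exact (dynA h l).2 _ _ rfl hq
  · rintro _ ⟨f, rfl⟩
    refine dync_transfer (R := H.LL ∪ H.κ) l.n l.Th l.Ψ ?_ (hψ f)
      ((cl_adjoin _).subset (l.Tcl (l.jetT f.2)))
    rintro x (hx | hx)
    · obtain ⟨y, h1, h2⟩ := hB ⟨x, hLB x hx⟩
      exact ⟨y, h1, _, Or.inl ⟨_, (h.L _).2 ⟨_, hx, rfl⟩, (e.ΦL ⟨x, hLB x hx⟩ hx).symm⟩, h2⟩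
    · obtain ⟨y, h1, h2⟩ := hB ⟨x, hκB x hx⟩
      refine ⟨y, h1, _, Or.inr fun n => ?_, h2⟩
      rw [e.Φκ _ hx, coeff_C, h.κ]
      split_ifs
      · exact hx
      · exact cl_zero _
  · rintro _ ⟨f, hf, rfl⟩
    obtain ⟨y₀, hy₀, rfl⟩ := (h.L f).1 hf
    obtain ⟨y, h1, h2⟩ := hB y₀
    rw [e.ΦL _ hy₀] at h2
    refine dync_transfer l.n l.Th l.Ψ ?_ h2 (h1 ▸ H.rel2 hy₀)
    rintro x ((hx | hx) | hx)
    · have hx' := H.sub hx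
      obtain ⟨y, h1, h2⟩ := hB ⟨x, hLB x hx'⟩
      exact ⟨y, h1, _, Or.inl (Or.inl
        ⟨_, (h.M _).2 ⟨_, hx, rfl⟩, (e.ΦL ⟨x, hLB x hx'⟩ hx').symm⟩), h2⟩
    · have hx' : x ∈ H.κ := mem_cl hx
      obtain ⟨y, h1, h2⟩ := hB ⟨x, hκB x hx'⟩
      exact ⟨y, h1, _, Or.inl (Or.inr ⟨x, h.κ ▸ hx', (e.Φκ ⟨x, hκB x hx'⟩ hx').symm⟩), h2⟩
    · exact ⟨⟨x, l.jetT hx⟩, rfl, _, Or.inr ⟨⟨x, hx⟩, rfl⟩, hψ ⟨x, hx⟩⟩

end Ivrii.T
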