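import Pool.Agent.P.MP_7a8567_an.T.Defs2
import Pool.Agent.P.MP_7a8567_an.T.Sol

/-! Step 1c: the embedding in power series. -/

set_option autoImplicit false

open PowerSeries Ivrii.PX

noncomputable section

namespace Ivrii.T

open DF DF.Hyp

section Aux

set_option linter.unusedSectionVars false

variable {k Ω : Type*} [Field k] [CharZero k] [Field Ω] [Algebra k Ω] {𝔇 : DF k Ω}

section Alg

variable (H : 𝔇.Hyp)

lemma emb_LB {y : Ω} (hy : y ∈ H.LL) : y ∈ H.B := Algebra.subset_adjoin (Or.inl hy)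

lemma emb_κB {y : Ω} (hy : y ∈ H.κ) : y ∈ H.B := Algebra.subset_adjoin (Or.inr hy)

lemma emb_tL : H.t ∈ H.LL := H.sub H.tM

lemma emb_PL : H.P ∈ H.LL := H.sub H.PM

lemma emb_zκ : H.z ∈ H.κ := mem_cl (z_mem_jet _ _)

lemma emb_wκ : H.w ∈ H.κ := mem_cl (w_mem_jet _ _)

lemma emb_qκ : H.q ∈ H.κ := mem_cl H.lk.q_mem_jet

lemma emb_κcl : cl k H.κ = H.κ := cl_cl _

lemma emb_tinv : H.t⁻¹ ∈ H.B :=
  emb_LB H (H.LLc.cl_eq ▸ cl_inv (mem_cl (emb_tL H)))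

lemma emb_brPt : 𝔇.br H.P H.t ≠ 0 := by rw [H.lk.l₀.br]; exact H.lk.l₀.t_ne

lemma emb_on : H.P * H.t = H.z - H.w * H.t ^ 2 := by
  have := H.lk.l₀.t_ne
  rw [H.lk.on₀]; field_simp

lemma emb_rot_span : 𝔇.IsSpan H.rot := isSpan_dual _ _

lemma emb_rot_t : H.rot H.t = 1 := dual_left H.lk.br_wt_ne

lemma emb_rot_w : H.rot H.w = 0 := dual_right _ _

lemma emb_rot_κ {f : Ω} (hf : f ∈ H.κ) : H.rot f = 0 := by
  obtain ⟨g, -, hg⟩ := H.lk.cl_jet_deriv hf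
  rw [hg _ (emb_rot_span H), emb_rot_w, mul_zero]

lemma emb_Dw_κ {f : Ω} (hf : f ∈ H.κ) : 𝔇.dual H.w H.t f ∈ H.κ := by
  obtain ⟨g, h1, hg⟩ := H.lk.cl_jet_deriv hf
  rw [hg _ (isSpan_dual _ _), dual_left H.lk.br_tw_ne, mul_one]
  exact h1

lemma emb_Dn_span (s : Ω) : 𝔇.IsSpan (H.Dn s) := (isSpan_dual _ _).add_smul (isSpan_dual _ _) _

lemma emb_Dn_apply (s f : Ω) :
    H.Dn s f = 𝔇.dual H.w H.t f + 𝔇.dual H.w H.t s * H.rot f := rfl

lemma emb_Dn_κ (s : Ω) {f : Ω} (hf : f ∈ H.κ) : H.Dn s f = 𝔇.dual H.w H.t f := by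
  rw [emb_Dn_apply, emb_rot_κ H hf, mul_zero, add_zero]

lemma emb_Dn_t (s : Ω) : H.Dn s H.t = 𝔇.dual H.w H.t s := by
  rw [emb_Dn_apply, emb_rot_t, dual_right, mul_one, zero_add]

lemma emb_Dn_w (s : Ω) : H.Dn s H.w = 1 := by
  rw [emb_Dn_κ H s (emb_wκ H), dual_left H.lk.br_tw_ne]

/-- The derivative of the incidence relation. -/
lemma emb_dP {δ : Derivation k Ω Ω} (hδ : 𝔇.IsSpan δ) :
    δ H.P * H.t + H.P * δ H.t = H.q * δ H.w - (δ H.w * H.t ^ 2 + 2 * H.w * H.t * δ H.t) := by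
  have := congrArg δ (emb_on H)
  rw [map_sub, H.lk.span_z hδ] at this
  simp only [Derivation.leibniz, Derivation.leibniz_pow, smul_eq_mul, nsmul_eq_mul] at this
  push_cast at this
  linear_combination this

/-- A span derivation with values in `B` on `t` and on `κ` preserves `B`. -/
lemma emb_stable {δ : Derivation k Ω Ω} (hδ : 𝔇.IsSpan δ) (ht : δ H.t ∈ H.B)
    (hκ : ∀ f ∈ H.κ, δ f ∈ H.B) : ∀ y ∈ H.B, δ y ∈ H.B := by
  have t0 := H.lk.l₀.t_ne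
  have tB := emb_LB H (emb_tL H)
  have hP : δ H.P ∈ H.B := by
    have : δ H.P = (H.q * δ H.w - (δ H.w * H.t ^ 2 + 2 * H.w * H.t * δ H.t) - H.P * δ H.t) *
        H.t⁻¹ := by
      rw [← emb_dP H hδ]; field_simp; ring
    rw [this]
    have hw := hκ _ (emb_wκ H)
    exact mul_mem (sub_mem (sub_mem (mul_mem (emb_κB H (emb_qκ H)) hw)
      (add_mem (mul_mem hw (pow_mem tB 2))
        (mul_mem (mul_mem (mul_mem (ofNat_mem _ 2) (emb_κB H (emb_wκ H))) tB) ht)))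
      (mul_mem (emb_LB H (emb_PL H)) ht)) (emb_tinv H)
  refine der_adjoin_mem δ H.B Algebra.subset_adjoin ?_
  rintro y (hy | hy)
  · rw [hδ.chain (emb_brPt H) y]
    exact add_mem (mul_mem ht (emb_LB H (H.LLc.dual_mem (emb_tL H) (emb_PL H) hy)))
      (mul_mem hP (emb_LB H (H.LLc.dual_mem (emb_PL H) (emb_tL H) hy)))
  · exact hκ y hy

lemma emb_st1 : ∀ y ∈ H.B, H.rot y ∈ H.B :=
  emb_stable H (emb_rot_span H) (by rw [emb_rot_t]; exact one_mem _)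
    fun f hf => by rw [emb_rot_κ H hf]; exact zero_mem _

lemma emb_st2 {s : Ω} (hs : s ∈ H.κ) : ∀ y ∈ H.B, H.Dn s y ∈ H.B :=
  emb_stable H (emb_Dn_span H s) (by rw [emb_Dn_t]; exact emb_κB H (emb_Dw_κ H hs))
    fun f hf => by rw [emb_Dn_κ H s hf]; exact emb_κB H (emb_Dw_κ H hf)

lemma emb_comm {s : Ω} (hs : s ∈ H.κ) (y : Ω) : H.rot (H.Dn s y) = H.Dn s (H.rot y) := by
  refine (emb_rot_span H).comm (emb_Dn_span H s) H.lk.br_wt_ne ?_ ?_ y
  · rw [emb_Dn_t, emb_rot_κ H (emb_Dw_κ H hs), emb_rot_t, Derivation.map_one_eq_zero]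
  · rw [emb_Dn_w, emb_rot_w, Derivation.map_one_eq_zero, map_zero]

/-- The elements `t`, `P`, `z`, `w`, `q` in `B`. -/
def embT : H.B := ⟨H.t, emb_LB H (emb_tL H)⟩

/-- The element `P` in `B`. -/
def embP : H.B := ⟨H.P, emb_LB H (emb_PL H)⟩

/-- An element of `κ` in `B`. -/
def embK {f : Ω} (hf : f ∈ H.κ) : H.B := ⟨f, emb_κB H hf⟩

/-- The partial derivative in `t` of an element of `LL`. -/
def embDt {y : Ω} (hy : y ∈ H.LL) : H.B :=
  ⟨𝔇.dual H.t H.P y, emb_LB H (H.LLc.dual_mem (emb_tL H) (emb_PL H) hy)⟩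

/-- The partial derivative in `P` of an element of `LL`. -/
def embDP {y : Ω} (hy : y ∈ H.LL) : H.B :=
  ⟨𝔇.dual H.P H.t y, emb_LB H (H.LLc.dual_mem (emb_PL H) (emb_tL H) hy)⟩

lemma emb_onB : embP H * embT H = embK H (emb_zκ H) - embK H (emb_wκ H) * embT H ^ 2 :=
  Subtype.ext (emb_on H)

lemma emb_chainB {δ : Derivation k Ω Ω} (hδ : 𝔇.IsSpan δ) (st : ∀ y ∈ H.B, δ y ∈ H.B)
    (y : H.B) (hy : (y : Ω) ∈ H.LL) : resDer δ H.B st y =
      resDer δ H.B st (embT H) * embDt H hy + resDer δ H.B st (embP H) * embDP H hy :=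
  Subtype.ext (hδ.chain (emb_brPt H) y)

end Alg

section Spec

variable {H : 𝔇.Hyp} {r : H.Rho} {σ : Stat k Ω}

lemma emb_ρK {f : Ω} (hf : f ∈ H.κ) : r.ρ (embK H hf) = f := r.ρκ _ hf

lemma emb_ρT : r.ρ (embT H) = r.s := r.ρt _ rfl

lemma emb_ρP (h : Sta r σ) : r.ρ (embP H) = σ.P := by
  have h1 := congrArg r.ρ (emb_onB H)
  rw [map_mul, map_sub, map_mul, map_pow, emb_ρK, emb_ρK, emb_ρT] at h1
  have h2 := σ.hP
  have h3 := σ.s_ne
  rw [h.s, h.z, h.w] at h2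
  rw [h.s] at h3
  exact mul_right_cancel₀ h3 (h1.trans h2.symm)

lemma emb_ρDn (h : Sta r σ) (y : H.B) :
    r.ρ (resDer (H.Dn r.s) H.B (emb_st2 H r.sκ) y) = σ.Dd (r.ρ y) := by
  set D := resDer (H.Dn r.s) H.B (emb_st2 H r.sκ) with hD
  have hκ : ∀ y : H.B, (y : Ω) ∈ H.κ → r.ρ (D y) = σ.Dd (r.ρ y) := fun y hy => by
    have e : (D y : Ω) = 𝔇.dual H.w H.t y := emb_Dn_κ H _ hy
    rw [r.ρκ _ (e ▸ emb_Dw_κ H hy), e, r.ρκ _ hy, h.Dd _ hy]
  have ht : r.ρ (D (embT H)) = σ.Dd σ.s := by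
    have e : (D (embT H) : Ω) = 𝔇.dual H.w H.t r.s := emb_Dn_t H _
    rw [r.ρκ _ (e ▸ emb_Dw_κ H r.sκ), e, h.s, h.Dd _ r.sκ]
  have hP : r.ρ (D (embP H)) = σ.Dd σ.P := by
    have e : D (embP H) * embT H + embP H * D (embT H) = embK H (emb_qκ H) -
        (embT H ^ 2 + 2 * embK H (emb_wκ H) * embT H * D (embT H)) := by
      have := emb_dP H (emb_Dn_span H r.s)
      rw [emb_Dn_w, mul_one, one_mul] at this
      exact Subtype.ext this
    have h1 := congrArg r.ρ e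
    simp only [map_add, map_mul, map_sub, map_pow, map_ofNat, emb_ρK, emb_ρT, emb_ρP h, ht] at h1
    have h2 := congrArg σ.Dd σ.hP
    rw [map_sub, σ.Ddz] at h2
    simp only [Derivation.leibniz, Derivation.leibniz_pow, smul_eq_mul, nsmul_eq_mul,
      σ.Ddw] at h2
    push_cast at h2
    rw [← h.s, ← h.q, ← h.w] at h1
    refine mul_right_cancel₀ σ.s_ne ?_
    linear_combination h1 - h2
  have hS : ∀ y ∈ ((↑) : H.B → Ω) ⁻¹' (H.LL ∪ H.κ), r.ρ (D y) - σ.Dd (r.ρ y) = 0 := by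
    rintro y (hy | hy)
    · rw [hD, emb_chainB H (emb_Dn_span H r.s) _ y hy, ← hD, map_add, map_mul, map_mul, ht, hP,
        h.Dt y (embDt H hy) hy rfl, h.DP y (embDP H hy) hy rfl,
        σ.DdL _ ((h.L _).2 ⟨y, hy, rfl⟩), sub_self]
    · rw [hκ y hy, sub_self]
  have := psi_der_adjoin r.ρ (fun y => r.ρ (D y) - σ.Dd (r.ρ y))
    (fun a b => by simp only [map_add]; ring)
    (fun a b => by simp only [Derivation.leibniz, smul_eq_mul, map_add, map_mul]; ring)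
    (fun c => by simp) hS y (by
      have : Algebra.adjoin k (((↑) : H.B → Ω) ⁻¹' (H.LL ∪ H.κ)) = ⊤ :=
        Algebra.adjoin_adjoin_coe_preimage
      rw [this]; trivial)
  exact sub_eq_zero.1 this

lemma emb_inj (r : H.Rho) (Φ : H.B →ₐ[k] Ω⟦X⟧) (hc : ∀ y, constantCoeff (Φ y) = r.ρ y)
    (hκ : ∀ y : H.B, (y : Ω) ∈ H.κ → Φ y = C (y : Ω)) (ht : Φ (embT H) = C r.s + X) :
    Function.Injective Φ := by
  classical
  have κcl := emb_κcl H
  let β : Ω → Ω⟦X⟧ := fun y => if h : y ∈ H.B then Φ ⟨y, h⟩ else 0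
  have hβ : ∀ y : H.B, β y = Φ y := fun y => dif_pos y.2
  have hβc : ∀ y ∈ r.b, constantCoeff (β y) = y := fun y hy => by
    rw [hβ ⟨y, emb_LB H (r.bL hy)⟩, hc, r.ρb _ hy]
  have hind : Ind k (ser H.κ) (β '' r.b) :=
    ind_ser κcl (r.bind.mono (fun x hx => mem_cl (Or.inr hx)) subset_rfl) β hβc
  have hC : ∀ f ∈ H.κ, (C f : Ω⟦X⟧) ∈ ser H.κ := fun f hf n => by
    rw [coeff_C]
    split_ifs
    · exact hf
    · exact cl_zero _
  have hτ : (C r.s + X : Ω⟦X⟧) ∈ ser H.κ := fun n => by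
    rw [map_add, coeff_X]
    refine cl_add (hC _ r.sκ n) ?_
    split_ifs
    · exact cl_one _
    · exact cl_zero _
  let N : Set H.B := {y | (y : Ω) ∈ H.κ}
  let I : Set H.B := {y | (y : Ω) ∈ insert H.t r.b}
  have hN : ∀ a ∈ Algebra.adjoin k N, Φ a = 0 → a = 0 := fun a ha e => by
    have : (a : Ω) ∈ H.κ := by
      have h1 : Algebra.adjoin k N ≤ (clS k H.κ).comap H.B.val :=
        Algebra.adjoin_le fun x hx => mem_cl hx
      exact κcl ▸ h1 ha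
    rw [hκ a this] at e
    exact Subtype.ext (C_injective (e.trans (map_zero _).symm))
  have hI : ∀ y ∈ I, Φ y ∉ cl k (Φ '' (N ∪ (I \ {y}))) := by
    intro y hy hm
    by_cases hyt : (y : Ω) = H.t
    · have ey : y = embT H := Subtype.ext hyt
      rw [ey, ht] at hm
      refine X_notMem_cl (k := k) r.s (cl_mono (Set.image_subset_range _ H.κ)
        (hind.mem_cl (X := C '' H.κ) ?_ (mem_cl hτ) (cl_mono ?_ hm)))
      · rintro _ ⟨f, hf, rfl⟩
        exact mem_cl (hC f hf)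
      · rintro _ ⟨x, hx | ⟨hx | hx, hne⟩, rfl⟩
        · exact Or.inl ⟨x, hx, (hκ x hx).symm⟩
        · exact absurd (Subtype.ext hx) hne
        · exact Or.inr ⟨x, hx, hβ x⟩
    · have hyb : (y : Ω) ∈ r.b := hy.resolve_left hyt
      refine hind (Φ y) ⟨y, hyb, hβ y⟩ (cl_mono ?_ hm)
      rintro _ ⟨x, hx | ⟨hx | hx, hne⟩, rfl⟩
      · exact Or.inl (hκ x hx ▸ hC _ hx)
      · have ex : x = embT H := Subtype.ext hx
        exact Or.inl (by rw [ex, ht]; exact hτ)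
      · refine Or.inr ⟨⟨x, hx, hβ x⟩, fun e => hne (Subtype.ext ?_)⟩
        have e' : Φ x = Φ y := e
        rw [← r.ρb x hx, ← r.ρb y hyb, ← hc, ← hc, e']
  refine (injective_iff_map_eq_zero Φ).2 fun a => inj_of_ind Φ hN hI a ?_
  refine (cl_map_iff H.B.val Subtype.val_injective _ a).1 ?_
  have hsub : H.κ ∪ insert H.t r.b ⊆ H.B.val '' (N ∪ I) := by
    rintro x (hx | hx)
    · exact ⟨⟨x, emb_κB H hx⟩, Or.inl hx, rfl⟩
    · refine ⟨⟨x, emb_LB H ?_⟩, Or.inr hx, rfl⟩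
      rcases hx with rfl | hx
      · exact emb_tL H
      · exact r.bL hx
  refine cl_mono hsub (cl_subset_cl ?_ (adjoin_subset_cl _ a.2))
  rintro x (hx | hx)
  · refine cl_subset_cl ?_ (r.span hx)
    rintro u ((rfl | rfl) | hu)
    · exact mem_cl (Or.inr (Or.inl rfl))
    · refine cl_mono ?_ H.lk.line_mem.1
      rintro v (rfl | hv)
      · exact Or.inr (Or.inl rfl)
      · exact Or.inl (mem_cl hv)
    · exact mem_cl (Or.inr (Or.inr hu))
  · exact mem_cl (Or.inl hx)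

end Spec

end Aux

variable {k Ω : Type*} [Field k] [CharZero k] [IsAlgClosed k] [Field Ω] [IsAlgClosed Ω]
  [Algebra k Ω] {𝔇 : DF k Ω}

theorem exists_emb {H : 𝔇.Hyp} {r : H.Rho} {σ : Stat k Ω} (h : Sta r σ) :
    Nonempty (Emb r σ) := by
  letI := ratAlg k Ω
  set R := resDer H.rot H.B (emb_st1 H) with hR
  set D := resDer (H.Dn r.s) H.B (emb_st2 H r.sκ) with hD
  obtain ⟨Φ, hc, hΦ⟩ := exists_flow r.ρ R 0 0 1 0 0
  simp only [one_mul, zero_mul, add_zero] at hΦ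
  obtain ⟨T, Tc, hT⟩ := exists_flow (AlgHom.id k Ω) σ.Dt σ.DP 0 1 (dX k Ω (Φ (embP H))) 0
  simp only [one_mul, zero_mul, add_zero] at hT
  have hκ : ∀ y : H.B, (y : Ω) ∈ H.κ → Φ y = C (y : Ω) := fun y hy => by
    have e : R y = 0 := Subtype.ext (emb_rot_κ H hy)
    have := hΦ y
    rw [e, map_zero] at this
    rw [eq_C_of_der this, hc, r.ρκ y hy]
  have RT : R (embT H) = 1 := Subtype.ext (emb_rot_t H)
  have ht : Φ (embT H) = C r.s + X := by
    refine eq_of_der (by rw [hc, emb_ρT]; simp) ?_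
    rw [← dX_apply (k := k), hΦ, RT]; simp
  have Ts : T σ.s = C σ.s + X := by
    refine eq_of_der (by rw [Tc]; simp) ?_
    rw [← dX_apply (k := k), hT, σ.Dts, σ.DPs]; simp
  have TP : T σ.P = Φ (embP H) := by
    refine eq_of_der (by rw [Tc, hc, emb_ρP h]; rfl) ?_
    rw [← dX_apply (k := k), hT, σ.DtP, σ.DPP]; simp
  refine ⟨⟨Φ, T, ⟨⟨Tc, fun f => ?_⟩, Ts, ?_⟩, emb_inj r Φ hc hκ ht, hc, hκ, ?_, emb_st1 H,
    emb_st2 H r.sκ, fun y y' e => ?_, fun y y' e => ?_⟩⟩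
  · rw [hT, TP, Ts]; simp
  · have := congrArg Φ (emb_onB H)
    rw [map_mul, map_sub, map_mul, map_pow, hκ (embK H (emb_zκ H)) (emb_zκ H),
      hκ (embK H (emb_wκ H)) (emb_wκ H), ht] at this
    rw [TP, Ts, h.s, h.z, h.w]
    exact this
  · refine fun y hy => sub_eq_zero.1 ?_
    refine van {y : H.B | (y : Ω) ∈ H.LL} (fun y => Φ y - T (r.ρ y))
      (fun x _ => by rw [map_sub, hc, Tc]; simp) (fun x hx => ?_) y hy
    have e : d⁄dX Ω (Φ x - T (r.ρ x)) = (Φ (embDt H hx) - T (r.ρ (embDt H hx))) +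
        dX k Ω (Φ (embP H)) * (Φ (embDP H hx) - T (r.ρ (embDP H hx))) := by
      rw [map_sub, ← dX_apply (k := k), ← dX_apply (k := k), hΦ x, hT, hR,
        emb_chainB H (emb_rot_span H) _ x hx, ← hR, RT, map_add, map_mul, map_mul, map_one,
        ← hΦ, h.Dt x (embDt H hx) hx rfl, h.DP x (embDP H hx) hx rfl]
      ring
    rw [e]
    exact add_mem
      (Ideal.subset_span ⟨_, H.LLc.dual_mem (emb_tL H) (emb_PL H) hx, rfl⟩)
      (Ideal.mul_mem_left _ _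
        (Ideal.subset_span ⟨_, H.LLc.dual_mem (emb_PL H) (emb_tL H) hx, rfl⟩))
  · rw [hΦ, show y' = R y from Subtype.ext e]
  · rw [show y' = D y from Subtype.ext e]
    refine sub_eq_zero.1 (van Set.univ (fun y => Φ (D y) - pcoef σ.Dd (Φ y))
      (fun x _ => by rw [map_sub, hc, cc_pcoef, hc, emb_ρDn h, sub_self]) (fun x _ => ?_) y trivial)
    refine Ideal.subset_span ⟨R x, trivial, ?_⟩
    have e : R (D x) = D (R x) := Subtype.ext (emb_comm H r.sκ x)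
    rw [map_sub, der_pcoef, ← dX_apply (k := k), ← dX_apply (k := k), hΦ, hΦ, e]

end Ivrii.T
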