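import Pool.Agent.P.MP_7a8567_an.T.Defs2

/-! Step 1d: extension to Puiseux series. -/

set_option autoImplicit false

open PowerSeries Ivrii.PX

noncomputable section

namespace Ivrii.T

open DF DF.Hyp

variable {k Ω : Type*} [Field k] [CharZero k] [IsAlgClosed k] [Field Ω] [IsAlgClosed Ω]
  [Algebra k Ω] {𝔇 : DF k Ω}

open scoped IntermediateField.algebraAdjoinAdjoin in
omit [IsAlgClosed k] in
/-- Extension of an embedding to a finite extension of the field of fractions. -/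
theorem lau_ext {S E : Set Ω} (hf : E.Finite) (hE : E ⊆ cl k S)
    (φ : Algebra.adjoin k S →ₐ[k] LaurentSeries Ω) (hφ : Function.Injective φ) :
    ∃ (n : ℕ+) (Ψ : IntermediateField.adjoin k (S ∪ E) →ₐ[k] LaurentSeries Ω),
      ∀ (y : IntermediateField.adjoin k (S ∪ E)) (y₀ : Algebra.adjoin k S), (y : Ω) = y₀ →
        Ψ y = ram n (φ y₀) := by
  have : CharZero Ω := charZero_of_injective_algebraMap (algebraMap k Ω).injective
  have : Finite E := hf
  have : FiniteDimensional (IntermediateField.adjoin k S)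
      (IntermediateField.adjoin (IntermediateField.adjoin k S) E) :=
    IntermediateField.finiteDimensional_adjoin fun x hx =>
      (IsAlgebraic.extendScalars (R := Algebra.adjoin k S)
        (IsFractionRing.injective _ _) (hE hx)).isIntegral
  obtain ⟨n, ψ, hψ⟩ := embed
    (K := IntermediateField.adjoin (IntermediateField.adjoin k S) E)
    (IsFractionRing.lift (K := IntermediateField.adjoin k S) (g := φ.toRingHom) hφ)
  have key : ∀ (y : IntermediateField.adjoin (IntermediateField.adjoin k S) E)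
      (y₀ : Algebra.adjoin k S), (y : Ω) = y₀ → ψ y = ram n (φ y₀) := by
    intro y y₀ h
    have h1 : y = algebraMap (IntermediateField.adjoin k S) _
        (algebraMap (Algebra.adjoin k S) (IntermediateField.adjoin k S) y₀) := Subtype.ext h
    have h2 := RingHom.congr_fun hψ
      (algebraMap (Algebra.adjoin k S) (IntermediateField.adjoin k S) y₀)
    rw [RingHom.comp_apply, RingHom.comp_apply, IsFractionRing.lift_algebraMap] at h2
    rw [h1, h2]
    rfl
  have hm : ∀ y : IntermediateField.adjoin k (S ∪ E),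
      (y : Ω) ∈ IntermediateField.adjoin (IntermediateField.adjoin k S) E := by
    exact fun y => (IntermediateField.adjoin_adjoin_left k S E).ge y.2
  let j : IntermediateField.adjoin k (S ∪ E) →+*
      IntermediateField.adjoin (IntermediateField.adjoin k S) E :=
    { toFun := fun y => ⟨y, hm y⟩
      map_one' := rfl
      map_mul' := fun _ _ => rfl
      map_zero' := rfl
      map_add' := fun _ _ => rfl }
  refine ⟨n, { ψ.comp j with commutes' := fun c => ?_ }, fun y y₀ h => key (j y) y₀ h⟩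
  have h := key (j (algebraMap k _ c)) (algebraMap k _ c) rfl
  rw [AlgHom.commutes, algebraMap_ls, ram_C] at h
  exact h

omit [CharZero k] [IsAlgClosed k] [IsAlgClosed Ω] in
theorem lau_dcoef (d : Derivation k Ω Ω) (f : Ω⟦X⟧) :
    dcoef d (toL k Ω f) = toL k Ω (pcoef d f) := by
  ext j
  rw [coeff_dcoef, toL_apply, toL_apply, PowerSeries.coeff_coe, PowerSeries.coeff_coe]
  split_ifs
  · exact map_zero d
  · exact (coeff_pcoef d f _).symm

omit [CharZero k] [IsAlgClosed k] [IsAlgClosed Ω] in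
theorem lau_euler (n : ℕ+) (f : Ω⟦X⟧) :
    euler Ω k (ram n (toL k Ω f)) =
      HahnSeries.single ((n : ℕ) : ℤ) ((n : ℕ) : Ω) * ram n (toL k Ω (dX k Ω f)) := by
  rw [euler_ram, euler_eq, map_mul, ram_single, toL_apply, dU_ofPowerSeries, ← mul_assoc,
    ← map_natCast (HahnSeries.C : Ω →+* LaurentSeries Ω), HahnSeries.C_apply,
    HahnSeries.single_mul_single, zero_add, mul_one, mul_one]
  rfl

omit [IsAlgClosed k] [IsAlgClosed Ω] in
/-- Intertwining of derivations extends to an algebraic extension. -/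
theorem lau_int {B : Set Ω} {Th : IntermediateField k Ω} (hB : B ⊆ Th)
    (hT : (Th : Set Ω) ⊆ cl k B) (Ψ : Th →ₐ[k] LaurentSeries Ω) (d : Derivation k Ω Ω)
    (hd : ∀ y ∈ Th, d y ∈ Th) (D : Derivation k (LaurentSeries Ω) (LaurentSeries Ω))
    (u : LaurentSeries Ω)
    (h : ∀ y y' : Th, (y : Ω) ∈ B → (y' : Ω) = d y → D (Ψ y) = u * Ψ y') (y y' : Th)
    (hy : (y' : Ω) = d y) : D (Ψ y) = u * Ψ y' := by
  let δ : Derivation k Th Th := resDer d Th.toSubalgebra hd
  have hδ : ∀ a : Th, (δ a : Ω) = d a := fun _ => rfl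
  have h1 : y ∈ cl k {a : Th | (a : Ω) ∈ B} := by
    refine (cl_map_iff Th.val Subtype.val_injective _ y).1 (cl_mono ?_ (hT y.2))
    exact fun a ha => ⟨⟨a, hB ha⟩, ha, rfl⟩
  have h2 := psi_der_zero Ψ (fun a => D (Ψ a) - u * Ψ (δ a))
    (fun a b => by simp only [map_add]; ring)
    (fun a b => by simp only [map_mul, map_add, Derivation.leibniz, smul_eq_mul]; ring)
    (fun c => by simp only [AlgHom.commutes, Derivation.map_algebraMap, map_zero]; ring)
    (S := {a : Th | (a : Ω) ∈ B})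
    (fun a _ ha => Ψ.toRingHom.injective (ha.trans (map_zero _).symm))
    (fun a ha => sub_eq_zero.2 (h a (δ a) ha (hδ a))) y h1
  rw [show y' = δ y from Subtype.ext hy]
  exact sub_eq_zero.1 h2

theorem exists_lau {H : 𝔇.Hyp} {r : H.Rho} {σ : Stat k Ω} (e : Emb r σ) : Nonempty (Lau e) := by
  have hj : (𝔇.jet H.z H.w : Set Ω) ⊆ cl k (H.LL ∪ H.κ) :=
    fun a ha => mem_cl (Or.inr (mem_cl ha))
  have hL : H.LL ⊆ cl k (H.LL ∪ H.κ) := fun a ha => mem_cl (Or.inl ha)
  have h1 : cl k (insert H.t (𝔇.jet H.z H.w : Set Ω)) ⊆ cl k (H.LL ∪ H.κ) :=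
    cl_subset_cl (Set.insert_subset (hL (H.sub H.tM)) hj)
  have h2 : cl k {H.t', H.P'} ⊆ cl k (H.LL ∪ H.κ) :=
    cl_subset_cl (Set.pair_subset (h1 H.lk.line_mem.2.1) (h1 H.lk.line_mem.2.2))
  have hE : ({H.te, H.Pe, H.wC} : Set Ω) ⊆ cl k (H.LL ∪ H.κ) :=
    Set.insert_subset (h2 H.teF) (Set.pair_subset (h2 H.PeF)
      (cl_subset_cl (Set.union_subset hL hj) H.rel1))
  let Th := IntermediateField.adjoin k (H.LL ∪ H.κ ∪ {H.te, H.Pe, H.wC})
  obtain ⟨n, Ψ, hΨ⟩ : ∃ (n : ℕ+) (Ψ : Th →ₐ[k] LaurentSeries Ω),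
      ∀ (y : Th) (y₀ : H.B), (y : Ω) = y₀ → Ψ y = ram n (toL k Ω (e.Φ y₀)) :=
    lau_ext (Set.toFinite _) hE ((toL k Ω).comp e.Φ) ((toL_injective (k := k)).comp e.inj)
  have BT : (H.B : Set Ω) ⊆ Th :=
    Algebra.adjoin_le (S := Th.toSubalgebra) fun a ha =>
      IntermediateField.subset_adjoin k _ (Or.inl ha)
  have teT : H.te ∈ Th := IntermediateField.subset_adjoin k _ (Or.inr (by simp))
  have PeT : H.Pe ∈ Th := IntermediateField.subset_adjoin k _ (Or.inr (by simp))
  have wT : H.wC ∈ Th := IntermediateField.subset_adjoin k _ (Or.inr (by simp))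
  have zT : H.zC ∈ Th := by
    have h : H.zC = (H.Pe + H.wC * H.te) * H.te := by
      rw [H.lkC.on₀]
      have := H.lkC.l₀.t_ne
      field_simp
      ring
    rw [h]
    exact mul_mem (add_mem PeT (mul_mem wT teT)) teT
  have st1 : ∀ y ∈ Th, H.rot y ∈ Th :=
    der_field_mem _ hE fun a ha => BT (e.st1 a (Algebra.subset_adjoin ha))
  have st2 : ∀ y ∈ Th, H.Dn r.s y ∈ Th :=
    der_field_mem _ hE fun a ha => BT (e.st2 a (Algebra.subset_adjoin ha))
  have Tcl : (Th : Set Ω) ⊆ cl k (H.B : Set Ω) := by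
    rw [Hyp.B, cl_adjoin]
    exact (IntermediateField.adjoin_le_iff (T := clF k (H.LL ∪ H.κ))).2
      (Set.union_subset (subset_cl _) hE)
  have jetT : 𝔇.jet H.zC H.wC ≤ Th := by
    by_cases c1 : H.rot H.wC = 0
    · refine jet_le Th zT wT ((isSpan_dual _ _).add_smul (isSpan_dual _ _) _) (fun c2 => ?_) st2
      refine H.lkC.w_notMem (const_of_dual H.lk.br_wt_ne c1 ?_)
      rw [Derivation.add_apply, Derivation.smul_apply] at c2
      rw [Hyp.rot] at c1
      rw [c1, smul_zero, add_zero] at c2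
      exact c2
    · exact jet_le Th zT wT (isSpan_dual _ _) c1 st1
  refine ⟨⟨n, Th, Ψ, BT, teT, PeT, jetT, Tcl, st1, st2, hΨ, ?_, fun y y' hy => ?_⟩⟩
  · refine lau_int BT Tcl Ψ _ st1 _ _ fun y y' hy hy' => ?_
    rw [hΨ y ⟨y, hy⟩ rfl, hΨ y' ⟨_, e.st1 y hy⟩ hy',
      e.int1 ⟨y, hy⟩ ⟨_, e.st1 y hy⟩ rfl, lau_euler]
  · rw [← one_mul (Ψ y')]
    refine lau_int BT Tcl Ψ _ st2 _ _ (fun y y' hy hy' => ?_) y y' hy
    rw [hΨ y ⟨y, hy⟩ rfl, hΨ y' ⟨_, e.st2 y hy⟩ hy',
      e.int2 ⟨y, hy⟩ ⟨_, e.st2 y hy⟩ rfl, dcoef_ram, lau_dcoef, one_mul]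

end Ivrii.T
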