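import Pool.Agent.P.MP_7a8567_an.T.Defs2

/-! Step 1b: the derivations at the tangent line. -/

set_option autoImplicit false

open PowerSeries Ivrii.PX

noncomputable section

namespace Ivrii.T

open DF DF.Hyp

variable {k Ω : Type*} [Field k] [CharZero k] [IsAlgClosed k] [Field Ω] [IsAlgClosed Ω]
  [Algebra k Ω] {𝔇 : DF k Ω}

omit [CharZero k] [IsAlgClosed k] [IsAlgClosed Ω] in
/-- Transfer of the closure along an embedding of a subfield. -/
theorem sta_transfer (F : IntermediateField k Ω) (i : F →ₐ[k] Ω) {S : Set Ω} (hS : S ⊆ F)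
    (y : F) : i y ∈ cl k (i '' ((↑) ⁻¹' S : Set F)) ↔ (y : Ω) ∈ cl k S := by
  have h1 := cl_map_iff i i.injective ((↑) ⁻¹' S : Set F) y
  have h2 := cl_map_iff F.val F.val.injective ((↑) ⁻¹' S : Set F) y
  have h3 : F.val '' ((↑) ⁻¹' S : Set F) = S := by
    ext x
    constructor
    · rintro ⟨a, ha, rfl⟩
      exact ha
    · intro hx
      exact ⟨⟨x, hS hx⟩, hx, rfl⟩
  rw [h3] at h2
  exact h1.trans h2.symm

omit [IsAlgClosed k] [IsAlgClosed Ω] in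
/-- Extension of a combination of two derivations of a subfield along an embedding. -/
theorem sta_ext (F : IntermediateField k Ω) (i : F →ₐ[k] Ω) (d d' : Derivation k Ω Ω)
    (hd : ∀ a : F, d a ∈ F) (hd' : ∀ a : F, d' a ∈ F) (α β : Ω) {Z : Set Ω}
    (hZ : Ind k (Set.range i) Z) (v : Ω → Ω) :
    ∃ D : Derivation k Ω Ω,
      (∀ a : F, D (i a) = α * i ⟨d a, hd a⟩ + β * i ⟨d' a, hd' a⟩) ∧ ∀ y ∈ Z, D y = v y := by
  have hadd : ∀ (e : Derivation k Ω Ω) (he : ∀ a : F, e a ∈ F) (a b : F),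
      (⟨e ((a + b : F) : Ω), he _⟩ : F) = ⟨e a, he a⟩ + ⟨e b, he b⟩ := by
    intro e he a b
    apply Subtype.ext
    simp
  have hmul : ∀ (e : Derivation k Ω Ω) (he : ∀ a : F, e a ∈ F) (a b : F),
      (⟨e ((a * b : F) : Ω), he _⟩ : F) = a * ⟨e b, he b⟩ + b * ⟨e a, he a⟩ := by
    intro e he a b
    apply Subtype.ext
    simp
  have hk : ∀ (e : Derivation k Ω Ω) (he : ∀ a : F, e a ∈ F) (c : k),
      (⟨e ((algebraMap k F c : F) : Ω), he _⟩ : F) = 0 := by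
    intro e he c
    apply Subtype.ext
    change e (algebraMap k Ω c) = 0
    simp
  refine exists_der_ext i i.injective
    (fun a => α * i ⟨d a, hd a⟩ + β * i ⟨d' a, hd' a⟩) ?_ ?_ ?_ hZ v
  · intro a b
    simp only [hadd d hd, hadd d' hd', map_add]
    ring
  · intro a b
    simp only [hmul d hd, hmul d' hd', map_add, map_mul]
    ring
  · intro c
    simp only [hk d hd, hk d' hd', map_zero, mul_zero, add_zero]

theorem exists_sta {H : 𝔇.Hyp} (r : H.Rho) : ∃ σ : Stat k Ω, Sta r σ := by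
  classical
  set F : IntermediateField k Ω := clF k H.LL with hF
  have memF : ∀ {y : Ω}, y ∈ F ↔ y ∈ H.LL := fun {y} => by
    rw [hF, mem_clF, H.LLc.cl_eq]
  have LB : ∀ {y : Ω}, y ∈ H.LL → y ∈ H.B := fun hy => Algebra.subset_adjoin (Or.inl hy)
  have κB : ∀ {y : Ω}, y ∈ H.κ → y ∈ H.B := fun hy => Algebra.subset_adjoin (Or.inr hy)
  have hFB : F.toSubalgebra ≤ H.B := fun y hy => LB (memF.1 hy)
  let i : F →ₐ[k] Ω := r.ρ.comp (Subalgebra.inclusion hFB)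
  have hi : ∀ (y : H.B) (hy : (y : Ω) ∈ H.LL), r.ρ y = i ⟨y, memF.2 hy⟩ := fun y hy => rfl
  have hi' : ∀ a : F, i a = r.ρ ⟨a, hFB a.2⟩ := fun a => rfl
  have iinj : Function.Injective i := i.injective
  have tL : H.t ∈ H.LL := H.sub H.tM
  have PL : H.P ∈ H.LL := H.sub H.PM
  have t0 : H.t ≠ 0 := H.lk.l₀.t_ne
  have bPt : 𝔇.br H.P H.t ≠ 0 := by rw [H.lk.l₀.br]; exact t0
  have btP : 𝔇.br H.t H.P ≠ 0 := by rw [br_swap]; exact neg_ne_zero.2 bPt
  have btw : 𝔇.br H.t H.w ≠ 0 := H.lk.br_tw_ne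
  have κcl : cl k H.κ = H.κ := cl_cl _
  have jκ : ∀ {y : Ω}, y ∈ 𝔇.jet H.z H.w → y ∈ H.κ := fun hy => mem_cl hy
  have zκ : H.z ∈ H.κ := jκ (z_mem_jet _ _)
  have wκ : H.w ∈ H.κ := jκ (w_mem_jet _ _)
  have qκ : H.q ∈ H.κ := jκ H.lk.q_mem_jet
  have s0 : r.s ≠ 0 := fun h => r.is (h ▸ cl_zero _)
  set Ps : Ω := H.z / r.s - H.w * r.s with hPs
  have Pκ : Ps ∈ H.κ := cl_sub (cl_div zκ r.sκ) (cl_mul wκ r.sκ)
  have hPs' : Ps * r.s = H.z - H.w * r.s ^ 2 := by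
    rw [hPs]
    field_simp
  let tF : F := ⟨H.t, memF.2 tL⟩
  let PF : F := ⟨H.P, memF.2 PL⟩
  have it : i tF = r.s := r.ρt _ rfl
  have iP : i PF = Ps := by
    have e : (⟨H.P, LB PL⟩ : H.B) * ⟨H.t, LB tL⟩ =
        ⟨H.z, κB zκ⟩ - ⟨H.w, κB wκ⟩ * ⟨H.t, LB tL⟩ ^ 2 := by
      apply Subtype.ext
      change H.P * H.t = H.z - H.w * H.t ^ 2
      rw [H.lk.on₀]
      field_simp
    have e2 := congrArg r.ρ e
    rw [map_mul, map_sub, map_mul, map_pow, r.ρt ⟨H.t, LB tL⟩ rfl, r.ρκ ⟨H.z, κB zκ⟩ zκ,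
      r.ρκ ⟨H.w, κB wκ⟩ wκ] at e2
    exact mul_right_cancel₀ s0 (e2.trans hPs'.symm)
  -- the range of the embedding
  have rng : Set.range i ⊆ cl k ({r.s, Ps} ∪ r.b) := by
    rintro _ ⟨y, rfl⟩
    have hS : ({H.t, H.P} ∪ r.b : Set Ω) ⊆ F := by
      rintro x ((rfl | rfl) | hx)
      · exact memF.2 tL
      · exact memF.2 PL
      · exact memF.2 (r.bL hx)
    refine cl_mono ?_ ((sta_transfer F i hS y).2 (r.span (memF.1 y.2)))
    rintro _ ⟨x, ((hx | hx) | hx), rfl⟩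
    · have : x = tF := Subtype.ext hx
      exact Or.inl (Or.inl (this ▸ it))
    · have : x = PF := Subtype.ext hx
      exact Or.inl (Or.inr (this ▸ iP))
    · right
      rw [hi', r.ρb _ hx]
      exact hx
  -- a basis of the jets over the tangent line
  obtain ⟨zz, zzκ, zzI, zzs, zzz⟩ : ∃ zz : Set Ω, zz ⊆ H.κ ∧ Ind k {r.s, Ps} zz ∧
      H.κ ⊆ cl k ({r.s, Ps} ∪ zz) ∧ (H.z ∈ zz ∨ H.z ∈ cl k {r.s, Ps}) := by
    by_cases hz : H.z ∈ cl k {r.s, Ps}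
    · obtain ⟨I, -, h2, h3, h4⟩ := exists_basis (k := k) (N := {r.s, Ps}) (S := H.κ) (I₀ := ∅)
        (Set.empty_subset _) (fun y hy => absurd hy (Set.notMem_empty y))
      exact ⟨I, h2, h3, h4, Or.inr hz⟩
    · obtain ⟨I, h1, h2, h3, h4⟩ := exists_basis (k := k) (N := {r.s, Ps}) (S := H.κ)
        (I₀ := {H.z}) (Set.singleton_subset_iff.2 zκ) (fun y hy => by
          rw [Set.mem_singleton_iff.1 hy]
          simpa using hz)
      exact ⟨I, h2, h3, h4, Or.inl (h1 rfl)⟩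
  have sPκ : ({r.s, Ps} : Set Ω) ⊆ H.κ := by
    rintro x (rfl | rfl)
    · exact r.sκ
    · exact Pκ
  have κt : H.κ ⊆ cl k (insert H.t H.κ) := (Set.subset_insert _ _).trans (subset_cl _)
  have zzR : Ind k (Set.range i) zz :=
    (r.bind.symm (sPκ.trans κt) (zzκ.trans κt) zzI).mono rng subset_rfl
  obtain ⟨Z, zZ, -, ZI, Zs⟩ := exists_basis (k := k) (N := Set.range i) (S := Set.univ) (I₀ := zz)
    (Set.subset_univ _) zzR
  -- the derivations
  have hdt : ∀ a : F, 𝔇.dual H.t H.P a ∈ F := fun a =>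
    memF.2 (H.LLc.dual_mem tL PL (memF.1 a.2))
  have hdP : ∀ a : F, 𝔇.dual H.P H.t a ∈ F := fun a =>
    memF.2 (H.LLc.dual_mem PL tL (memF.1 a.2))
  let δt : F → F := fun a => ⟨𝔇.dual H.t H.P a, hdt a⟩
  let δP : F → F := fun a => ⟨𝔇.dual H.P H.t a, hdP a⟩
  obtain ⟨Dt, hDt0, DtZ⟩ := sta_ext F i _ _ hdt hdP 1 0 ZI (fun _ => 0)
  obtain ⟨DP, hDP0, DPZ⟩ := sta_ext F i _ _ hdt hdP 0 1 ZI (fun _ => 0)
  obtain ⟨Dd, hDd, DdZ⟩ := sta_ext F i _ _ hdt hdP (𝔇.dual H.w H.t r.s) (𝔇.dual H.w H.t Ps) zzR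
    (𝔇.dual H.w H.t)
  have hDt : ∀ a : F, Dt (i a) = i (δt a) := fun a => by rw [hDt0]; simp [δt]
  have hDP : ∀ a : F, DP (i a) = i (δP a) := fun a => by rw [hDP0]; simp [δP]
  have hDd' : ∀ a : F, Dd (i a) =
      𝔇.dual H.w H.t r.s * i (δt a) + 𝔇.dual H.w H.t Ps * i (δP a) := hDd
  have δtt : δt tF = 1 := Subtype.ext (dual_left bPt)
  have δtP : δt PF = 0 := Subtype.ext (dual_right _ _)
  have δPt : δP tF = 0 := Subtype.ext (dual_right _ _)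
  have δPP : δP PF = 1 := Subtype.ext (dual_left btP)
  have Dts : Dt r.s = 1 := by rw [← it, hDt, δtt, map_one]
  have DtP : Dt Ps = 0 := by rw [← iP, hDt, δtP, map_zero]
  have DPs : DP r.s = 0 := by rw [← it, hDP, δPt, map_zero]
  have DPP : DP Ps = 1 := by rw [← iP, hDP, δPP, map_one]
  have Dds : Dd r.s = 𝔇.dual H.w H.t r.s := by
    have := hDd' tF
    rw [it, δtt, δPt] at this
    simpa using this
  have DdP : Dd Ps = 𝔇.dual H.w H.t Ps := by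
    have := hDd' PF
    rw [iP, δtP, δPP] at this
    simpa using this
  have Ddκ : ∀ f ∈ H.κ, Dd f = 𝔇.dual H.w H.t f := fun f hf => by
    refine der_cl_eq Dd (𝔇.dual H.w H.t) (S := {r.s, Ps} ∪ zz) ?_ f (zzs hf)
    rintro a ((rfl | rfl) | ha)
    · exact Dds
    · exact DdP
    · exact DdZ a ha
  have Dww : 𝔇.dual H.w H.t H.w = 1 := dual_left btw
  have stab : ∀ D : Derivation k Ω Ω, D r.s ∈ H.κ → D Ps ∈ H.κ → (∀ y ∈ Z, D y = 0) →
      ∀ f ∈ H.κ, D f ∈ H.κ := by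
    intro D h1 h2 h3 f hf
    refine der_cl_mem D (S := {r.s, Ps} ∪ zz) (T := (𝔇.jet H.z H.w : Set Ω))
      (Set.union_subset sPκ zzκ) ?_ f (zzs hf)
    rintro a ((rfl | rfl) | ha)
    · exact h1
    · exact h2
    · rw [h3 a (zZ ha)]
      exact cl_zero _
  let M : Set Ω := {f | ∃ y : H.B, (y : Ω) ∈ H.Mm ∧ r.ρ y = f}
  have memM : ∀ a : F, (a : Ω) ∈ H.Mm → i a ∈ M := fun a ha => ⟨⟨a, hFB a.2⟩, ha, rfl⟩
  have Mi : M = i '' ((↑) ⁻¹' H.Mm : Set F) := by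
    ext f
    constructor
    · rintro ⟨y, hy, rfl⟩
      exact ⟨⟨y, memF.2 (H.sub hy)⟩, hy, rfl⟩
    · rintro ⟨a, ha, rfl⟩
      exact memM a ha
  have sM : r.s ∈ M := it ▸ memM tF H.tM
  have PM : Ps ∈ M := iP ▸ memM PF H.PM
  let t1 : F := ⟨H.t1, memF.2 (H.sub H.t1M)⟩
  let P1 : F := ⟨H.P1, memF.2 (H.sub H.P1M)⟩
  let z1 : F := ⟨H.z1, memF.2 H.z1L⟩
  let w1 : F := ⟨H.w1, memF.2 H.w1L⟩
  have t10 : H.t1 ≠ 0 := H.l1.t_ne
  have tr0 : ∀ y : F, i y ∈ cl k (∅ : Set Ω) ↔ (y : Ω) ∈ cl k (∅ : Set Ω) := fun y => by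
    have := sta_transfer F i (S := ∅) (Set.empty_subset _) y
    rwa [Set.preimage_empty, Set.image_empty] at this
  refine ⟨
    { Dt := Dt, DP := DP, Dd := Dd, κ := H.κ, M := M, L := i.fieldRange
      s := r.s, P := Ps, z := H.z, w := H.w, q := H.q, c := H.c
      t1 := i t1, P1 := i P1, z1 := i z1, w1 := i w1
      comm := ?_, κcl := κcl
      κDt := stab Dt (Dts ▸ cl_one _) (DtP ▸ cl_zero _) DtZ
      κDP := stab DP (DPs ▸ cl_zero _) (DPP ▸ cl_one _) DPZ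
      κDd := ?_, LDt := ?_, LDP := ?_, MDt := ?_, MDP := ?_, ML := ?_
      sκ := r.sκ, zκ := zκ, wκ := wκ, sM := sM, PM := PM, s_ne := s0, hs := r.hs, hP := hPs'
      Ddz := ?_, Ddw := ?_, Ddq := ?_, c_ne := H.lk.c_ne
      Dts := Dts, DPs := DPs, DtP := DtP, DPP := DPP
      DdL := ?_, constκ := ?_, constL := ?_, is := r.is, iP := r.iP, case := ?_
      t1M := memM t1 H.t1M, P1M := memM P1 H.P1M, z1L := ⟨z1, rfl⟩, w1L := ⟨w1, rfl⟩
      t1_ne := ?_, on1 := ?_, jac := ?_, br1 := ?_, i1 := ?_, i2 := ?_, w1k := ?_ },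
    { κ := rfl, s := rfl, z := rfl, w := rfl, q := rfl, L := ?_, M := fun _ => Iff.rfl
      Dt := ?_, DP := ?_, Dd := Ddκ }⟩
  · intro f
    have h := der_cl_zero ⁅Dt, DP⁆ (S := Set.range i ∪ Z) ?_ f (Zs (Set.mem_univ f))
    · rw [Derivation.commutator_apply] at h
      exact sub_eq_zero.1 h
    · rintro a (⟨y, rfl⟩ | ha)
      · have e : δt (δP y) = δP (δt y) := Subtype.ext (dual_comm bPt _)
        rw [Derivation.commutator_apply, hDP, hDt, hDt, hDP, e, sub_self]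
      · rw [Derivation.commutator_apply, DtZ a ha, DPZ a ha, map_zero, map_zero, sub_self]
  · intro f hf
    obtain ⟨g, hg, hg'⟩ := H.lk.cl_jet_deriv hf
    rw [Ddκ f hf, hg' _ (isSpan_dual _ _), Dww, mul_one]
    exact hg
  · rintro _ ⟨y, rfl⟩
    exact ⟨δt y, (hDt y).symm⟩
  · rintro _ ⟨y, rfl⟩
    exact ⟨δP y, (hDP y).symm⟩
  · rintro _ ⟨y, hy, rfl⟩
    rw [hi y (H.sub hy), hDt]
    exact memM _ (H.Mmc.dual_mem H.tM H.PM hy)
  · rintro _ ⟨y, hy, rfl⟩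
    rw [hi y (H.sub hy), hDP]
    exact memM _ (H.Mmc.dual_mem H.PM H.tM hy)
  · rintro _ ⟨y, hy, rfl⟩
    exact ⟨⟨y, memF.2 (H.sub hy)⟩, rfl⟩
  · rw [Ddκ _ zκ, H.lk.span_z (isSpan_dual _ _), Dww, mul_one]
  · rw [Ddκ _ wκ, Dww]
  · rw [Ddκ _ qκ, H.lk.span_q (isSpan_dual _ _), Dww, mul_one]
  · rintro _ ⟨y, rfl⟩
    change Dd (i y) = Dd r.s * Dt (i y) + Dd Ps * DP (i y)
    rw [hDd', hDt, hDP, Dds, DdP]
  · intro f hf h0
    obtain ⟨g, -, hg'⟩ := H.lk.cl_jet_deriv hf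
    refine const_of_dual btw ((Ddκ f hf).symm.trans h0) ?_
    rw [hg' _ (isSpan_dual _ _), dual_right, mul_zero]
  · rintro _ ⟨y, rfl⟩ h1 h2
    change Dt (i y) = 0 at h1
    change DP (i y) = 0 at h2
    rw [hDt, map_eq_zero_iff i iinj] at h1
    rw [hDP, map_eq_zero_iff i iinj] at h2
    exact (tr0 y).2 (const_of_dual bPt (congrArg Subtype.val h1) (congrArg Subtype.val h2))
  · exact zzz.imp (fun h => ⟨DtZ _ (zZ h), DPZ _ (zZ h)⟩) id
  · rw [Ne, map_eq_zero_iff i iinj]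
    exact fun h => t10 (congrArg Subtype.val h)
  · have e : P1 * t1 = z1 - w1 * t1 ^ 2 := by
      apply Subtype.ext
      change H.P1 * H.t1 = H.z1 - H.w1 * H.t1 ^ 2
      rw [H.on1]
      field_simp
    rw [← map_mul, e, map_sub, map_mul, map_pow]
  · rw [hDt, hDP, hDP, hDt, ← map_mul, ← map_mul, ← map_sub, Ne, map_eq_zero_iff i iinj]
    intro h
    have h' : 𝔇.dual H.t H.P H.P1 * 𝔇.dual H.P H.t H.t1 -
        𝔇.dual H.P H.t H.P1 * 𝔇.dual H.t H.P H.t1 = 0 := congrArg Subtype.val h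
    have e := br_eq_dual bPt H.P1 H.t1
    rw [h', mul_zero, H.l1.br] at e
    exact t10 e
  · rw [hDt, hDP, hDP, hDt, ← map_mul, ← map_mul]
    congr 1
    apply Subtype.ext
    have e := br_eq_dual bPt H.z1 H.w1
    rw [H.br1] at e
    exact sub_eq_zero.1 ((mul_eq_zero.1 e.symm).resolve_left btP)
  · exact fun h => H.i1 ((tr0 w1).1 h)
  · intro h
    refine H.i2 ((sta_transfer F i (S := {H.w1}) (Set.singleton_subset_iff.2 w1.2) z1).1
      (cl_mono ?_ h))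
    rintro _ rfl
    exact ⟨w1, rfl, rfl⟩
  · intro h
    have hM : M ⊆ cl k (Set.range i) := by
      rw [Mi]
      exact (Set.image_subset_range _ _).trans (subset_cl _)
    have h1 : H.κ ∪ M ⊆ cl k (M ∪ zz) := by
      refine Set.union_subset (zzs.trans (cl_mono (Set.union_subset_union_left _ ?_)))
        (Set.subset_union_left.trans (subset_cl _))
      rintro x (rfl | rfl)
      · exact sM
      · exact PM
    have h2 := zzR.mem_cl hM (mem_cl ⟨w1, rfl⟩) (cl_subset_cl h1 h)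
    rw [Mi, sta_transfer F i (fun y hy => memF.2 (H.sub hy)), H.Mmc.cl_eq] at h2
    exact H.w1M h2
  · intro f
    constructor
    · rintro ⟨y, rfl⟩
      exact ⟨⟨y, hFB y.2⟩, memF.1 y.2, rfl⟩
    · rintro ⟨y, hy, rfl⟩
      exact ⟨⟨y, memF.2 hy⟩, rfl⟩
  · intro y y' hy hy'
    change r.ρ y' = Dt (r.ρ y)
    rw [hi y hy, hDt, hi']
    congr 1
    exact Subtype.ext hy'
  · intro y y' hy hy'
    change r.ρ y' = DP (r.ρ y)
    rw [hi y hy, hDP, hi']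
    congr 1
    exact Subtype.ext hy'

end Ivrii.T
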