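import Pool.Agent.P.MP_7a8567_an.T.Rho
import Pool.Agent.P.MP_7a8567_an.T.Sta
import Pool.Agent.P.MP_7a8567_an.T.Emb
import Pool.Agent.P.MP_7a8567_an.T.Lau
import Pool.Agent.P.MP_7a8567_an.T.DynC
import Pool.Agent.P.MP_7a8567_an.T.Core456

/-! The core lemma. -/

set_option autoImplicit false

open PowerSeries Ivrii.PX

noncomputable section

namespace Ivrii.T

open DF DF.Hyp

variable {k Ω : Type*} [Field k] [CharZero k] [IsAlgClosed k] [Field Ω] [IsAlgClosed Ω]
  [Algebra k Ω] {𝔇 : DF k Ω}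

theorem core (H : 𝔇.Hyp) : False := by
  obtain ⟨r⟩ := exists_rho H
  obtain ⟨σ, h⟩ := exists_sta r
  obtain ⟨e⟩ := exists_emb h
  obtain ⟨l⟩ := exists_lau e
  exact stat_false σ (dynC h l)

end Ivrii.T
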