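import Pool.Agent.P.MP_7a8567_an.T.Fix0

/-! Power series: independence, uniqueness of lifts, fixed elements. -/

set_option autoImplicit false

open PowerSeries

noncomputable section

namespace Ivrii.T

variable {k : Type*} [Field k] {O : Type*} [Field O] [Algebra k O] [CharZero k]

/-- Uniqueness of lifts modulo a power of `X`. -/
theorem uniq_mod {A : Type*} [CommRing A] [IsDomain A] [Algebra k A] (ψ₁ ψ₂ : A →ₐ[k] O⟦X⟧)
    {S : Set A} (hcc : ∀ f ∈ cl k S, constantCoeff (ψ₁ f) = constantCoeff (ψ₂ f))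
    (hinj : ∀ f ∈ cl k S, constantCoeff (ψ₁ f) = 0 → f = 0) (m : ℕ)
    (h : ∀ f ∈ S, X ^ m ∣ ψ₁ f - ψ₂ f) : ∀ f ∈ cl k S, X ^ m ∣ ψ₁ f - ψ₂ f := by
  have hadj : ∀ f ∈ Algebra.adjoin k S, X ^ m ∣ ψ₁ f - ψ₂ f := by
    intro f hf
    induction hf using Algebra.adjoin_induction with
    | mem x hx => exact h x hx
    | algebraMap r => simp
    | add x y _ _ hx hy =>
      have e : ψ₁ (x + y) - ψ₂ (x + y) = (ψ₁ x - ψ₂ x) + (ψ₁ y - ψ₂ y) := by
        rw [map_add, map_add]; ring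
      rw [e]
      exact dvd_add hx hy
    | mul x y _ _ hx hy =>
      have e : ψ₁ (x * y) - ψ₂ (x * y) = (ψ₁ x - ψ₂ x) * ψ₁ y + ψ₂ x * (ψ₁ y - ψ₂ y) := by
        rw [map_mul, map_mul]; ring
      rw [e]
      exact dvd_add (hx.mul_right _) (hy.mul_left _)
  intro f hf
  obtain ⟨p, hp, h0, h1⟩ := exists_min_poly hf
  have ev : ∀ (ψ : A →ₐ[k] O⟦X⟧) (r : Polynomial A),
      (r.map (ψ : A →+* O⟦X⟧)).eval (ψ f) = ψ (r.eval f) := fun ψ r =>
    Polynomial.eval_map_apply (f := (ψ : A →+* O⟦X⟧)) f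
  have e1 : (p.map (ψ₁ : A →+* O⟦X⟧)).eval (ψ₁ f) = 0 := by rw [ev, h0, map_zero]
  have e2 : (p.map (ψ₂ : A →+* O⟦X⟧)).eval (ψ₂ f) = 0 := by rw [ev, h0, map_zero]
  have e3 : X ^ m ∣ (p.map (ψ₁ : A →+* O⟦X⟧)).eval (ψ₂ f) := by
    rw [← sub_zero (Polynomial.eval _ _), ← e2, Polynomial.eval_map, Polynomial.eval_map,
      Polynomial.eval₂_eq_sum_range, Polynomial.eval₂_eq_sum_range, ← Finset.sum_sub_distrib]
    refine Finset.dvd_sum fun i _ => ?_
    rw [← sub_mul]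
    exact (hadj _ (hp i)).mul_right _
  obtain ⟨c, hc⟩ := (p.map (ψ₁ : A →+* O⟦X⟧)).binomExpansion (ψ₁ f) (ψ₂ f - ψ₁ f)
  rw [add_sub_cancel, e1, zero_add, Polynomial.derivative_map, ev] at hc
  have hd : p.derivative.eval f ∈ cl k S := by
    rw [Polynomial.eval_eq_sum_range]
    refine (clS k S).sum_mem fun i _ => cl_mul ?_ (cl_pow hf i)
    rw [Polynomial.coeff_derivative]
    exact cl_mul (adjoin_subset_cl S (hp _)) (cl_add (cl_natCast S i) (cl_one S))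
  have hu : IsUnit (-(ψ₁ (p.derivative.eval f) + c * (ψ₂ f - ψ₁ f))) := by
    rw [IsUnit.neg_iff, isUnit_iff_constantCoeff, map_add, map_mul, map_sub, hcc f hf, sub_self,
      mul_zero, add_zero]
    exact IsUnit.mk0 _ fun h2 => h1 (hinj _ hd h2)
  rw [← hu.dvd_mul_right]
  convert e3 using 1
  rw [hc]
  ring

theorem fixA (g : O⟦X⟧ →ₐ[k] O⟦X⟧) (hg : ∀ f, constantCoeff (g f) = constantCoeff f)
    {a b : O⟦X⟧} (ha : g a = a) (hb : g b = b) (i1 : constantCoeff a ∉ cl k (∅ : Set O))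
    (i2 : constantCoeff b ∉ cl k {constantCoeff a}) : ∀ y ∈ cl k {a, b}, g y = y := by
  intro y hy
  refine (sub_eq_zero.1 (eq_zero_of_dvd fun m => ?_)).symm
  refine uniq_mod (AlgHom.id k O⟦X⟧) g (fun f _ => (hg f).symm)
    (inj_of_pair (cc k O) i1 i2) m ?_ y hy
  rintro f (rfl | rfl)
  · simp [ha]
  · simp [hb]

/-- A map that fixes a line transversal to the mirror fixes the jets. -/
theorem fixW {ι : Type*} (D : Derivation k O⟦X⟧ O⟦X⟧) (ψ : ι → O⟦X⟧) (pr : ι → ι) (w z : ι)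
    (g : O⟦X⟧ →ₐ[k] O⟦X⟧) (α β : O⟦X⟧) (hg : ∀ f, constantCoeff (g f) = constantCoeff f)
    (gd : ∀ f, dX k O (g f) = α * g (D f) + β * g (dX k O f))
    (h1 : ∀ f, dX k O (ψ f) = ψ (pr f) * dX k O (ψ w)) (h2 : ∀ f, D (ψ f) = ψ (pr f) * D (ψ w))
    {τ p : O⟦X⟧} (gτ : g τ = τ) (gp : g p = p) (hon : p * τ = ψ z - ψ w * τ ^ 2)
    (hne : constantCoeff (ψ (pr z)) ≠ constantCoeff τ ^ 2) : ∀ f, g (ψ f) = ψ f := by
  have : CharZero O := charZero_of_injective_algebraMap (algebraMap k O).injective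
  have hG : ∀ f, dX k O (g (ψ f)) = g (ψ (pr f)) * dX k O (g (ψ w)) := fun f => by
    rw [gd, gd, h1 f, h2 f, map_mul, map_mul]
    ring
  have hz : g (ψ z) - ψ z = (g (ψ w) - ψ w) * τ ^ 2 := by
    have e := congrArg g hon
    rw [map_mul, map_sub, map_mul, map_pow, gτ, gp, hon] at e
    linear_combination -e
  have hu : IsUnit (τ ^ 2 - ψ (pr z)) := by
    rw [isUnit_iff_constantCoeff, map_sub, map_pow]
    exact IsUnit.mk0 _ (sub_ne_zero.2 hne.symm)
  set F : ι → O⟦X⟧ := fun f => g (ψ f) - ψ f - ψ (pr f) * (g (ψ w) - ψ w) with hF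
  have hw : g (ψ w) - ψ w ∈ Ideal.span (F '' Set.univ) := by
    rw [← Ideal.mul_unit_mem_iff_mem _ hu]
    refine Ideal.subset_span ⟨z, trivial, ?_⟩
    simp only [hF, hz]
    ring
  have hE : ∀ f, g (ψ f) - ψ f ∈ Ideal.span (F '' Set.univ) := fun f => by
    have e : g (ψ f) - ψ f = F f + ψ (pr f) * (g (ψ w) - ψ w) := by
      simp only [hF]
      ring
    rw [e]
    exact Ideal.add_mem _ (Ideal.subset_span ⟨f, trivial, rfl⟩) (Ideal.mul_mem_left _ _ hw)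
  have h0 := van Set.univ F (fun f _ => by simp [hF, hg]) fun f _ => by
    have e : dX k O (F f) = dX k O (g (ψ w)) * (g (ψ (pr f)) - ψ (pr f)) -
        dX k O (ψ (pr f)) * (g (ψ w) - ψ w) := by
      simp only [hF]
      rw [map_sub, map_sub, Derivation.leibniz, map_sub, hG f, h1 f, smul_eq_mul, smul_eq_mul]
      ring
    rw [← dX_apply (k := k), e]
    exact Ideal.sub_mem _ (Ideal.mul_mem_left _ _ (hE _)) (Ideal.mul_mem_left _ _ hw)
  intro f
  have e : Ideal.span (F '' Set.univ) = ⊥ := by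
    rw [Ideal.span_eq_bot]
    rintro _ ⟨x, hx, rfl⟩
    exact h0 x hx
  have := hE f
  rw [e, Ideal.mem_bot] at this
  exact sub_eq_zero.1 this

end Ivrii.T
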