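import Pool.Agent.P.MP_7a8567_an.T.Link
import Pool.Agent.P.MP_7a8567_an.T.Fix

/-! Intermediate structures of the core lemma. -/

set_option autoImplicit false

open PowerSeries Ivrii.PX

noncomputable section

namespace Ivrii.T

namespace DF.Hyp

variable {k Ω : Type*} [Field k] [Field Ω] [Algebra k Ω] {𝔇 : DF k Ω} (H : 𝔇.Hyp)

/-- The algebraic closure of the jets. -/
def κ : Set Ω := cl k (𝔇.jet H.z H.w : Set Ω)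

/-- The ring on which the specialisation is defined. -/
def B : Subalgebra k Ω := Algebra.adjoin k (H.LL ∪ H.κ)

/-- The rotation about the point. -/
def rot : Derivation k Ω Ω := 𝔇.dual H.t H.w

/-- The motion along the mirror with constant angle to the direction `s`. -/
def Dn (s : Ω) : Derivation k Ω Ω := 𝔇.dual H.w H.t + 𝔇.dual H.w H.t s • 𝔇.dual H.t H.w

/-- The specialisation to a tangent line. -/
structure Rho where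
  s : Ω
  b : Set Ω
  ρ : H.B →ₐ[k] Ω
  hs : s ^ 2 = H.q
  sκ : s ∈ H.κ
  is : s ∉ cl k (∅ : Set Ω)
  iP : H.z / s - H.w * s ∉ cl k {s}
  bL : b ⊆ H.LL
  bind : Ind k (insert H.t H.κ) b
  span : H.LL ⊆ cl k ({H.t, H.P} ∪ b)
  ρκ : ∀ y : H.B, (y : Ω) ∈ H.κ → ρ y = y
  ρb : ∀ y : H.B, (y : Ω) ∈ b → ρ y = y
  ρt : ∀ y : H.B, (y : Ω) = H.t → ρ y = s

variable {H}

/-- The data at the tangent line are the specialisations of the given data. -/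
structure Sta (r : H.Rho) (σ : Stat k Ω) : Prop where
  κ : σ.κ = H.κ
  s : σ.s = r.s
  z : σ.z = H.z
  w : σ.w = H.w
  q : σ.q = H.q
  L : ∀ f, f ∈ σ.L ↔ ∃ y : H.B, (y : Ω) ∈ H.LL ∧ r.ρ y = f
  M : ∀ f, f ∈ σ.M ↔ ∃ y : H.B, (y : Ω) ∈ H.Mm ∧ r.ρ y = f
  Dt : ∀ y y' : H.B, (y : Ω) ∈ H.LL → (y' : Ω) = 𝔇.dual H.t H.P y → r.ρ y' = σ.Dt (r.ρ y)
  DP : ∀ y y' : H.B, (y : Ω) ∈ H.LL → (y' : Ω) = 𝔇.dual H.P H.t y → r.ρ y' = σ.DP (r.ρ y)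
  Dd : ∀ f ∈ H.κ, σ.Dd f = 𝔇.dual H.w H.t f

/-- The embedding in power series. -/
structure Emb (r : H.Rho) (σ : Stat k Ω) where
  Φ : H.B →ₐ[k] Ω⟦X⟧
  T : Ω →ₐ[k] Ω⟦X⟧
  base : σ.Base T
  inj : Function.Injective Φ
  cc : ∀ y, constantCoeff (Φ y) = r.ρ y
  Φκ : ∀ y : H.B, (y : Ω) ∈ H.κ → Φ y = C (y : Ω)
  ΦL : ∀ y : H.B, (y : Ω) ∈ H.LL → Φ y = T (r.ρ y)
  st1 : ∀ y ∈ H.B, H.rot y ∈ H.B
  st2 : ∀ y ∈ H.B, H.Dn r.s y ∈ H.B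
  int1 : ∀ y y' : H.B, (y' : Ω) = H.rot y → Φ y' = dX k Ω (Φ y)
  int2 : ∀ y y' : H.B, (y' : Ω) = H.Dn r.s y → Φ y' = pcoef σ.Dd (Φ y)

/-- The embedding of a finite extension in Puiseux series. -/
structure Lau {r : H.Rho} {σ : Stat k Ω} (e : Emb r σ) where
  n : ℕ+
  Th : IntermediateField k Ω
  Ψ : Th →ₐ[k] LaurentSeries Ω
  BT : (H.B : Set Ω) ⊆ Th
  teT : H.te ∈ Th
  PeT : H.Pe ∈ Th
  jetT : 𝔇.jet H.zC H.wC ≤ Th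
  Tcl : (Th : Set Ω) ⊆ cl k (H.B : Set Ω)
  st1 : ∀ y ∈ Th, H.rot y ∈ Th
  st2 : ∀ y ∈ Th, H.Dn r.s y ∈ Th
  ΨB : ∀ (y : Th) (y₀ : H.B), (y : Ω) = y₀ → Ψ y = ram n (toL k Ω (e.Φ y₀))
  int1 : ∀ y y' : Th, (y' : Ω) = H.rot y →
    euler Ω k (Ψ y) = HahnSeries.single ((n : ℕ) : ℤ) ((n : ℕ) : Ω) * Ψ y'
  int2 : ∀ y y' : Th, (y' : Ω) = H.Dn r.s y → dcoef σ.Dd (Ψ y) = Ψ y'

/-- The elements that turn out to be power series in the unramified variable. -/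
def Good (H : 𝔇.Hyp) (y : Ω) : Prop := y ∈ 𝔇.jet H.zC H.wC ∨ y ∈ cl k {H.t', H.P'}

end DF.Hyp

end Ivrii.T
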