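import Pool.Agent.P.MP_7a8567_an.T.Fix

/-! Step 2 of the core lemma: the last mirror is met at a finite point and transversally. -/

set_option autoImplicit false

open PowerSeries Ivrii.PX

noncomputable section

namespace Ivrii.T

section Ge

variable {O : Type*} [Field O]

/-- order at least `n` -/
def step2Ge (n : ℤ) (f : LaurentSeries O) : Prop := ∀ i < n, f.coeff i = 0

namespace step2Ge

variable {m n : ℤ} {f g : LaurentSeries O}

lemma mono (h : step2Ge n f) (hm : m ≤ n) : step2Ge m f := fun i hi => h i (by omega)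

lemma add (h : step2Ge n f) (h' : step2Ge n g) : step2Ge n (f + g) := fun i hi => by
  rw [HahnSeries.coeff_add, h i hi, h' i hi, add_zero]

lemma sub (h : step2Ge n f) (h' : step2Ge n g) : step2Ge n (f - g) := fun i hi => by
  rw [HahnSeries.coeff_sub, h i hi, h' i hi, sub_zero]

lemma mul (h : step2Ge m f) (h' : step2Ge n g) : step2Ge (m + n) (f * g) := fun i hi => by
  rw [HahnSeries.coeff_mul]
  refine Finset.sum_eq_zero fun ij hij => ?_
  have h1 := (Finset.mem_antidiagonal.1 hij).2.2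
  by_cases h2 : ij.1 < m
  · rw [h _ h2, zero_mul]
  · rw [h' _ (by omega), mul_zero]

lemma mul0 (h : step2Ge 0 f) (h' : step2Ge 0 g) : step2Ge 0 (f * g) := by
  simpa using h.mul h'

lemma coeff_mul (h : step2Ge m f) (h' : step2Ge n g) :
    (f * g).coeff (m + n) = f.coeff m * g.coeff n := by
  rw [HahnSeries.coeff_mul, Finset.sum_eq_single (m, n)]
  · intro ij hij hne
    have h1 := (Finset.mem_antidiagonal.1 hij).2.2
    by_cases h2 : ij.1 < m
    · rw [h _ h2, zero_mul]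
    · refine mul_eq_zero_of_right _ (h' _ ?_)
      by_contra h3
      exact hne (Prod.ext (by simp only; omega) (by simp only; omega))
  · intro h1
    by_contra h2
    exact h1 (Finset.mem_antidiagonal.2 ⟨left_ne_zero_of_mul h2, right_ne_zero_of_mul h2, rfl⟩)

lemma coeff_mul0 (h : step2Ge 0 f) (h' : step2Ge 0 g) :
    (f * g).coeff 0 = f.coeff 0 * g.coeff 0 := by simpa using h.coeff_mul h'

lemma ex (h : f ≠ 0) : ∃ n, step2Ge n f ∧ f.coeff n ≠ 0 :=
  ⟨f.order, fun _ hi => HahnSeries.coeff_eq_zero_of_lt_order hi,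
    HahnSeries.coeff_order_eq_zero.not.2 h⟩

lemma of_mul (h : step2Ge 0 g) (h0 : g.coeff 0 ≠ 0) (h' : step2Ge 0 (f * g)) : step2Ge 0 f := by
  by_cases hf : f = 0
  · intro i _; simp [hf]
  obtain ⟨n, h1, h2⟩ := ex hf
  refine h1.mono (not_lt.1 fun h3 => mul_ne_zero h2 h0 ?_)
  rw [← h1.coeff_mul h, add_zero, h' n h3]

lemma inv_or (f : LaurentSeries O) : step2Ge 0 f⁻¹ ∨ step2Ge 1 f := by
  by_cases hf : f = 0
  · exact Or.inr fun i _ => by simp [hf]
  obtain ⟨n, h1, h2⟩ := ex hf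
  obtain ⟨m, h3, h4⟩ := ex (inv_ne_zero hf)
  have h5 := h1.coeff_mul h3
  rw [mul_inv_cancel₀ hf, HahnSeries.coeff_one] at h5
  have h6 : n + m = 0 := by
    by_contra h6
    rw [if_neg h6] at h5
    exact mul_ne_zero h2 h4 h5.symm
  by_cases h7 : 0 ≤ m
  · exact Or.inl (h3.mono h7)
  · exact Or.inr (h1.mono (by omega))

variable {k : Type*} [Field k] [Algebra k O]

lemma toL (g : O⟦X⟧) : step2Ge 0 (toL k O g) := fun i hi => by
  rw [toL_apply, PowerSeries.coeff_coe, if_pos hi]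

lemma exists_toL (h : step2Ge 0 f) : ∃ g, f = T.toL k O g := by
  refine ⟨PowerSeries.mk fun n => f.coeff n, ?_⟩
  ext i
  rw [toL_apply, PowerSeries.coeff_coe]
  split_ifs with hi
  · exact h i hi
  · rw [coeff_mk, Int.natAbs_of_nonneg (by omega)]

lemma dcoef (h : step2Ge n f) (δ : Derivation k O O) : step2Ge n (dcoef δ f) := fun i hi => by
  rw [coeff_dcoef, h i hi, map_zero]

lemma euler (h : step2Ge n f) : step2Ge n (euler O k f) := fun i hi => by
  rw [coeff_euler, h i hi, mul_zero]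

end step2Ge

end Ge

variable {k : Type*} [Field k] [CharZero k] {O : Type*} [Field O] [Algebra k O]

omit [CharZero k] in
lemma step2_cc (g : O⟦X⟧) : (toL k O g).coeff 0 = constantCoeff g := by
  rw [toL_apply, PowerSeries.coeff_coe]; simp

omit [CharZero k] in
lemma step2_kill {κ : Set O} {δ : Derivation k O O} (hδ : ∀ x ∈ κ, δ x = 0) {g : O⟦X⟧}
    (hg : g ∈ ser κ) : dcoef δ (toL k O g) = 0 := by
  ext i
  rw [coeff_dcoef, toL_apply, PowerSeries.coeff_coe]
  split_ifs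
  · simp
  · exact hδ _ (hg _)

theorem step2 (Dd : Derivation k O O) {κ : Set O} (hκ : cl k κ = κ) (κD : ∀ f ∈ κ, Dd f ∈ κ)
    (hc : ∀ f ∈ κ, Dd f = 0 → f ∈ cl k (∅ : Set O)) {τ p : O⟦X⟧} (hτ : τ ∈ ser κ)
    (hp : p ∈ ser κ) (i1 : constantCoeff τ ∉ cl k (∅ : Set O))
    (i2 : constantCoeff p ∉ cl k {constantCoeff τ}) {ζ ω χ a b : LaurentSeries O}
    (hon : toL k O p * toL k O τ = ζ - ω * toL k O τ ^ 2)
    (e1 : euler O k ζ = χ * euler O k ω) (e2 : dcoef Dd ζ = χ * dcoef Dd ω)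
    (dω : a * dcoef Dd ω + b * euler O k ω = 0) (dχ : a * dcoef Dd χ + b * euler O k χ = 0)
    (dτ : a * dcoef Dd (toL k O τ) + b * euler O k (toL k O τ) ≠ 0) (hχ : χ ≠ toL k O τ ^ 2)
    (hn : ∃ i, ω.coeff i ∉ κ) :
    (∀ f : LaurentSeries O, a * dcoef Dd f + b * euler O k f = 0 → ∃ g, f = toL k O g) ∧
      χ.coeff 0 ≠ constantCoeff τ ^ 2 := by
  have : CharZero O := charZero_of_injective_algebraMap (algebraMap k O).injective
  have τκ : constantCoeff τ ∈ κ := by simpa using hτ 0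
  have pκ : constantCoeff p ∈ κ := by simpa using hp 0
  have τ0 : constantCoeff τ ≠ 0 := fun h => i1 (h ▸ cl_zero _)
  have Dτ : Dd (constantCoeff τ) ≠ 0 := fun h => i1 (hc _ τκ h)
  have gT := step2Ge.toL (k := k) τ
  have gP := step2Ge.toL (k := k) p
  have cT := step2_cc (k := k) τ
  have cP := step2_cc (k := k) p
  have kT := fun δ h => step2_kill (k := k) (δ := δ) h hτ
  have kP := fun δ h => step2_kill (k := k) (δ := δ) h hp
  generalize toL k O τ = T at *
  generalize toL k O p = Q at *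
  by_cases hA : a ≠ 0 ∧ step2Ge 0 (b / a)
  · exfalso
    obtain ⟨ha, hβ⟩ := hA
    let d : Derivation k (LaurentSeries O) (LaurentSeries O) := dcoef Dd + (b / a) • euler O k
    have hd : ∀ f, d f = dcoef Dd f + b / a * euler O k f := fun f => rfl
    have l1 : ∀ f, step2Ge 0 f → step2Ge 0 (d f) ∧ (d f).coeff 0 = Dd (f.coeff 0) := fun f hf =>
      ⟨(hf.dcoef Dd).add (hβ.mul0 hf.euler), by
        rw [hd, HahnSeries.coeff_add, hβ.coeff_mul0 hf.euler]; simp⟩
    have d1 : d ω = 0 := by rw [hd]; field_simp; linear_combination dω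
    have d2 : d ζ = 0 := by rw [hd, e1, e2]; linear_combination χ * ((hd ω).symm.trans d1)
    have h1 := congrArg d hon
    rw [map_sub, d2, sq] at h1
    simp only [Derivation.leibniz, d1, smul_eq_mul] at h1
    have h2 : ω * (T * d T + T * d T) = 0 - (Q * d T + T * d Q) := by linear_combination h1
    have g1 := gT.mul0 (l1 T gT).1
    have c1 : (T * d T + T * d T).coeff 0 = 2 * constantCoeff τ * Dd (constantCoeff τ) := by
      rw [HahnSeries.coeff_add, gT.coeff_mul0 (l1 T gT).1, (l1 T gT).2, cT]; ring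
    have c2 : 2 * constantCoeff τ * Dd (constantCoeff τ) ≠ 0 := by simp [τ0, Dτ]
    have gω : step2Ge 0 ω := (g1.add g1).of_mul (by rwa [c1]) (by
      rw [h2]
      exact step2Ge.sub (fun _ _ => rfl) ((gP.mul0 (l1 T gT).1).add (gT.mul0 (l1 Q gP).1)))
    have h3 := congrArg (HahnSeries.coeff · 0) h2
    simp only [gω.coeff_mul0 (g1.add g1), c1, HahnSeries.coeff_sub, HahnSeries.coeff_add,
      gP.coeff_mul0 (l1 T gT).1, gT.coeff_mul0 (l1 Q gP).1, (l1 T gT).2, (l1 Q gP).2, cT, cP,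
      HahnSeries.coeff_zero] at h3
    have m1 := mem_cl (k := k) τκ
    have m2 := mem_cl (k := k) pκ
    have m3 := mem_cl (k := k) (κD _ τκ)
    have m4 := mem_cl (k := k) (κD _ pκ)
    have ωκ : ω.coeff 0 ∈ cl k κ :=
      cl_of_mul (cl_mul (cl_mul (by exact_mod_cast cl_natCast κ 2) m1) m3) c2 (by
        rw [mul_comm, h3]
        exact cl_sub (cl_zero _) (cl_add (cl_mul m2 m3) (cl_mul m1 m4)))
    have h4 : ζ = Q * T + ω * (T * T) := by linear_combination -hon
    have gζ : step2Ge 0 ζ := h4 ▸ (gP.mul0 gT).add (gω.mul0 (gT.mul0 gT))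
    have h5 : ζ.coeff 0 = constantCoeff p * constantCoeff τ +
        ω.coeff 0 * (constantCoeff τ * constantCoeff τ) := by
      rw [h4, HahnSeries.coeff_add, gP.coeff_mul0 gT, gω.coeff_mul0 (gT.mul0 gT), gT.coeff_mul0 gT,
        cT, cP]
    have ζκ : ζ.coeff 0 ∈ cl k κ := h5 ▸ cl_add (cl_mul m2 m1) (cl_mul ωκ (cl_mul m1 m1))
    rw [hκ] at ωκ ζκ
    have n1 := cl_mono (Set.empty_subset {constantCoeff τ})
      (hc _ ωκ (by rw [← (l1 ω gω).2, d1]; rfl))
    have n2 := cl_mono (Set.empty_subset {constantCoeff τ})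
      (hc _ ζκ (by rw [← (l1 ζ gζ).2, d2]; rfl))
    have n3 : constantCoeff τ ∈ cl k {constantCoeff τ} := mem_cl rfl
    refine i2 (cl_of_mul n3 τ0 ?_)
    rw [show constantCoeff τ * constantCoeff p =
      ζ.coeff 0 - ω.coeff 0 * (constantCoeff τ * constantCoeff τ) by rw [h5]; ring]
    exact cl_sub n2 (cl_mul n1 (cl_mul n3 n3))
  have hb : b ≠ 0 := by
    rintro rfl
    refine hA ⟨?_, fun _ _ => by simp⟩
    rintro rfl
    simp at dτ
  have hα : step2Ge 1 (a / b) := by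
    by_cases ha : a = 0
    · intro _ _; simp [ha]
    · exact (step2Ge.inv_or (a / b)).resolve_left fun h => hA ⟨ha, by rwa [inv_div] at h⟩
  let d : Derivation k (LaurentSeries O) (LaurentSeries O) := euler O k + (a / b) • dcoef Dd
  have hd : ∀ f, d f = euler O k f + a / b * dcoef Dd f := fun f => rfl
  have l1 : ∀ f n, step2Ge n f → (d f).coeff n = n * f.coeff n := fun f n hf => by
    rw [hd, HahnSeries.coeff_add, hα.mul (hf.dcoef Dd) n (by omega), add_zero, coeff_euler]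
  have l2 : ∀ f, a * dcoef Dd f + b * euler O k f = 0 → d f = 0 := fun f hf => by
    rw [hd]; field_simp; linear_combination hf
  have l3 : ∀ f, d f = 0 → step2Ge 0 f := fun f hf => by
    by_cases h0 : f = 0
    · intro _ _; simp [h0]
    obtain ⟨n, h1, h2⟩ := step2Ge.ex h0
    have h3 := l1 f n h1
    rw [hf, HahnSeries.coeff_zero, eq_comm, mul_eq_zero, Int.cast_eq_zero] at h3
    exact h3.resolve_right h2 ▸ h1
  refine ⟨fun f hf => (l3 f (l2 f hf)).exists_toL, fun h0 => ?_⟩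
  have d1 := l2 _ dω
  have d2 := l2 _ dχ
  have gω := l3 _ d1
  obtain ⟨μ, gU, cU⟩ := step2Ge.ex (sub_ne_zero.2 hχ.symm)
  have hμ : 0 < μ := by
    by_contra h1
    refine cU ?_
    rcases (not_lt.1 h1).eq_or_lt with rfl | h2
    · rw [HahnSeries.coeff_sub, sq, gT.coeff_mul0 gT, cT, h0, sq, sub_self]
    · exact (sq T ▸ gT.mul0 gT).sub (l3 _ d2) μ h2
  have z0 : (0 : O) ∈ κ := hκ ▸ cl_zero κ
  have hlb : ∀ i, ω.coeff i ∉ κ → 0 ≤ i := fun i hi => not_lt.1 fun h => hi (gω i h ▸ z0)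
  obtain ⟨γ, hγ, hγ'⟩ := Int.exists_least_of_bdd ⟨0, hlb⟩ hn
  obtain ⟨δ, hδ, hδ1⟩ := exists_der_one (k := k) (hκ.symm ▸ hγ : ω.coeff γ ∉ cl k κ)
  rw [hκ] at hδ
  have hδ' : ∀ x ∈ κ, ⁅Dd, δ⁆ x = 0 := fun x hx => by
    rw [Derivation.commutator_apply, hδ x hx, hδ _ (κD x hx), map_zero, sub_zero]
  have gh : ∀ ε : Derivation k O O, (∀ x ∈ κ, ε x = 0) →
      step2Ge γ (dcoef ε ω) ∧ dcoef ε ζ = dcoef ε ω * T ^ 2 := fun ε hε => by
    refine ⟨fun i hi => hε _ (not_not.1 fun h => (hγ' i h).not_gt hi), ?_⟩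
    have h1 := congrArg (dcoef ε) hon
    simp only [map_sub, sq, Derivation.leibniz, kT ε hε, kP ε hε, smul_eq_mul] at h1
    linear_combination -h1
  have c1 : ∀ f, dcoef δ (euler O k f) = euler O k (dcoef δ f) := fun f => by
    ext i
    simp [Derivation.leibniz]
  have c2 : ∀ f, dcoef δ (dcoef Dd f) = dcoef Dd (dcoef δ f) - dcoef ⁅Dd, δ⁆ f := fun f => by
    ext i
    simp [Derivation.commutator_apply]
  have f1 := congrArg (dcoef δ) e1
  have f2 := congrArg (dcoef δ) e2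
  rw [Derivation.leibniz, c1, c1, (gh δ hδ).2] at f1
  rw [Derivation.leibniz, c2, c2, (gh δ hδ).2, (gh _ hδ').2] at f2
  have f3 : d (dcoef δ ω * (T ^ 2 - χ)) = a / b * dcoef ⁅Dd, δ⁆ ω * (T ^ 2 - χ) := by
    rw [mul_sub, map_sub, d.leibniz _ χ, d2, hd, hd (dcoef δ ω)]
    simp only [smul_eq_mul] at f1 f2 ⊢
    linear_combination f1 + a / b * f2 + dcoef δ χ * ((hd ω).symm.trans d1)
  have f4 := l1 _ _ ((gh δ hδ).1.mul gU)
  rw [f3, (hα.mul (gh _ hδ').1).mul gU _ (by omega), (gh δ hδ).1.coeff_mul gU, coeff_dcoef, hδ1,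
    one_mul, eq_comm, mul_eq_zero, Int.cast_eq_zero] at f4
  have := hlb γ hγ
  have := f4.resolve_right cU
  omega

end Ivrii.T
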