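import Pool.Agent.P.MP_7a8567_an.T.Defs2
import Pool.Agent.P.MP_7a8567_an.T.Step2

/-! Step 2 applied. -/

set_option autoImplicit false

open PowerSeries Ivrii.PX

noncomputable section

namespace Ivrii.T

open DF DF.Hyp

section aux

variable {k Ω : Type*} [Field k] [Field Ω] [Algebra k Ω]

theorem dyna_coeff (f : Ω⟦X⟧) (i : ℤ) :
    (toL k Ω f).coeff i = if i < 0 then 0 else coeff i.natAbs f := PowerSeries.coeff_coe f i

theorem dyna_coeff0 (f : Ω⟦X⟧) : (toL k Ω f).coeff 0 = constantCoeff f := by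
  rw [dyna_coeff]
  simp

/-- The ramification of a power series is a power series. -/
theorem dyna_ram (n : ℕ+) {κ : Set Ω} (h0 : (0 : Ω) ∈ κ) (f : Ω⟦X⟧) :
    ∃ g, toL k Ω g = ram n (toL k Ω f) ∧ constantCoeff g = constantCoeff f ∧
      (f ∈ ser κ → g ∈ ser κ) := by
  have hn : (0 : ℤ) < ((n : ℕ) : ℤ) := by exact_mod_cast n.pos
  obtain ⟨g, hg⟩ := exists_ofPowerSeries (x := ram n (toL k Ω f)) fun j hj => by
    rw [coeff_ram, dyna_coeff, if_pos (Int.ediv_neg_of_neg_of_pos hj hn), ite_self]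
  have hg' : toL k Ω g = ram n (toL k Ω f) := hg
  refine ⟨g, hg', ?_, fun hf m => ?_⟩
  · rw [← dyna_coeff0 (k := k), ← dyna_coeff0 (k := k), hg', coeff_ram]
    simp
  · have : coeff m g = (toL k Ω g).coeff (m : ℤ) := by
      rw [dyna_coeff]
      simp
    rw [this, hg', coeff_ram, dyna_coeff]
    split_ifs
    exacts [h0, hf _, h0]

theorem dyna_C {κ : Set Ω} (h0 : (0 : Ω) ∈ κ) {a : Ω} (ha : a ∈ κ) : (C a : Ω⟦X⟧) ∈ ser κ :=
  fun n => by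
    rw [coeff_C]
    split_ifs
    exacts [ha, h0]

theorem dyna_X {κ : Set Ω} (h0 : (0 : Ω) ∈ κ) (h1 : (1 : Ω) ∈ κ) : (X : Ω⟦X⟧) ∈ ser κ :=
  fun n => by
    rw [coeff_X]
    split_ifs
    exacts [h1, h0]

variable {𝔇 : DF k Ω} {H : 𝔇.Hyp}

theorem dyna_LB {y : Ω} (h : y ∈ H.LL) : y ∈ H.B := Algebra.subset_adjoin (Or.inl h)

theorem dyna_κB {y : Ω} (h : y ∈ H.κ) : y ∈ H.B := Algebra.subset_adjoin (Or.inr h)

variable {r : H.Rho} {σ : Stat k Ω} {e : Emb r σ}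

theorem dyna_tr (l : Lau e) (S : Set l.Th) (y : l.Th) :
    l.Ψ y ∈ cl k (l.Ψ '' S) ↔ (y : Ω) ∈ cl k (Subtype.val '' S) :=
  (cl_map_iff l.Ψ l.Ψ.toRingHom.injective S y).trans
    (cl_map_iff l.Th.val Subtype.val_injective S y).symm

theorem dyna_t (h : Sta r σ) (e : Emb r σ) (y : H.B) (hy : (y : Ω) = H.t) :
    e.Φ y = C σ.s + X := by
  rw [e.ΦL y (hy ▸ H.sub H.tM), r.ρt y hy, ← h.s, e.base.Ts]

variable [CharZero k]

/-- The reflected line as a pair of power series. -/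
theorem dyna_line (h : Sta r σ) (e : Emb r σ) : ∃ t' P' : H.B, (t' : Ω) = H.t' ∧ (P' : Ω) = H.P' ∧
    e.Φ t' ∈ ser H.κ ∧ e.Φ P' ∈ ser H.κ ∧ constantCoeff (e.Φ t') = σ.s ∧
      constantCoeff (e.Φ P') = σ.P := by
  have hκ : cl k H.κ = H.κ := cl_cl _
  have h0 : (0 : Ω) ∈ H.κ := cl_zero _
  have tL := H.sub H.tM
  have tB := dyna_LB tL
  have tiB : H.t⁻¹ ∈ H.B := dyna_LB (H.LLc.cl_eq ▸ cl_inv (mem_cl tL))
  have qκ : H.q ∈ H.κ := mem_cl H.lk.q_mem_jet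
  have zκ : H.z ∈ H.κ := mem_cl (z_mem_jet _ _)
  have wκ : H.w ∈ H.κ := mem_cl (w_mem_jet _ _)
  have sκ : σ.s ∈ H.κ := h.κ ▸ σ.sκ
  have t0 := H.lk.l₀.t_ne
  have t1 := H.lk.l₁.t_ne
  have t'B : H.t' ∈ H.B := by
    have : H.t' = H.q * H.t⁻¹ := by
      rw [H.lk.refl]
      field_simp
    rw [this]
    exact mul_mem (dyna_κB qκ) tiB
  have P'B : H.P' ∈ H.B := by
    have : H.P' = H.z * H.t * H.q⁻¹ - H.w * H.t' := by
      rw [H.lk.on₁, H.lk.refl]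
      field_simp
    rw [this]
    exact sub_mem (mul_mem (mul_mem (dyna_κB zκ) tB) (dyna_κB (cl_inv qκ)))
      (mul_mem (dyna_κB wκ) t'B)
  have e1 : (C σ.s + X) * e.Φ ⟨_, t'B⟩ = C H.q := by
    rw [← dyna_t h e ⟨_, tB⟩ rfl, ← map_mul, ← e.Φκ ⟨_, dyna_κB qκ⟩ qκ]
    exact congrArg e.Φ (Subtype.ext H.lk.refl.symm)
  have e2 : e.Φ ⟨_, t'B⟩ * e.Φ ⟨_, P'B⟩ = C H.z - C H.w * e.Φ ⟨_, t'B⟩ ^ 2 := by
    rw [← e.Φκ ⟨_, dyna_κB zκ⟩ zκ, ← e.Φκ ⟨_, dyna_κB wκ⟩ wκ, ← map_pow, ← map_mul, ← map_mul,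
      ← map_sub]
    refine congrArg e.Φ (Subtype.ext ?_)
    change H.t' * H.P' = H.z - H.w * H.t' ^ 2
    rw [H.lk.on₁]
    field_simp
  have c1 : constantCoeff (e.Φ ⟨_, t'B⟩) = σ.s := by
    have := congrArg constantCoeff e1
    simp only [map_mul, map_add, constantCoeff_C, constantCoeff_X, add_zero] at this
    refine mul_left_cancel₀ σ.s_ne ?_
    rw [this, ← h.q, ← σ.hs, sq]
  have c2 : constantCoeff (e.Φ ⟨_, P'B⟩) = σ.P := by
    have := congrArg constantCoeff e2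
    simp only [map_mul, map_sub, map_pow, constantCoeff_C, c1] at this
    refine mul_left_cancel₀ σ.s_ne ?_
    rw [this, ← h.z, ← h.w, ← σ.hP, mul_comm]
  have m1 : e.Φ ⟨_, t'B⟩ ∈ cl k (ser H.κ) := by
    refine cl_of_mul (a := C σ.s + X)
      (cl_add (mem_cl (dyna_C h0 sκ)) (mem_cl (dyna_X h0 (cl_one _)))) (fun h' => σ.s_ne ?_)
      (e1 ▸ mem_cl (dyna_C h0 qκ))
    simpa using congrArg constantCoeff h'
  have m2 : e.Φ ⟨_, P'B⟩ ∈ cl k (ser H.κ) := by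
    refine cl_of_mul m1 (fun h' => σ.s_ne ?_) (e2 ▸ cl_sub (mem_cl (dyna_C h0 zκ))
      (cl_mul (mem_cl (dyna_C h0 wκ)) (cl_pow m1 2)))
    rw [← c1, h', map_zero]
  rw [ser_of_cl hκ] at m1 m2
  exact ⟨⟨_, t'B⟩, ⟨_, P'B⟩, rfl, rfl, m1, m2, c1, c2⟩

/-- Elements algebraic over the reflected line are power series. -/
theorem dyna_two (h : Sta r σ) (l : Lau e) : ∃ a b : Ω⟦X⟧, a ∈ ser H.κ ∧ b ∈ ser H.κ ∧
    constantCoeff a = σ.s ∧ constantCoeff b = σ.P ∧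
    ∀ y : l.Th, (y : Ω) ∈ cl k {H.t', H.P'} → ∃ g ∈ cl k {a, b}, l.Ψ y = toL k Ω g := by
  obtain ⟨t', P', h1, h2, m1, m2, c1, c2⟩ := dyna_line h e
  have h0 : (0 : Ω) ∈ H.κ := cl_zero _
  obtain ⟨a, a1, a2, a3⟩ := dyna_ram (k := k) l.n h0 (e.Φ t')
  obtain ⟨b, b1, b2, b3⟩ := dyna_ram (k := k) l.n h0 (e.Φ P')
  refine ⟨a, b, a3 m1, b3 m2, a2.trans c1, b2.trans c2, fun y hy => triv ?_ ?_ ?_⟩
  · rw [a2, c1]
    exact σ.is
  · rw [a2, c1, b2, c2]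
    exact σ.iP
  · have := (dyna_tr l {⟨t', l.BT t'.2⟩, ⟨P', l.BT P'.2⟩} y).2
      (by rwa [Set.image_pair, Subtype.coe_mk, Subtype.coe_mk, h1, h2])
    rwa [Set.image_pair, l.ΨB _ t' rfl, l.ΨB _ P' rfl, ← a1, ← b1] at this

/-- The last point does not have all its coefficients in the field of jets. -/
theorem dyna_hn (h : Sta r σ) (l : Lau e) (y : l.Th) (hy : (y : Ω) = H.wC) :
    ∃ i, (l.Ψ y).coeff i ∉ H.κ := by
  classical
  by_contra hc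
  push Not at hc
  have hκ : cl k H.κ = H.κ := cl_cl _
  have h0 : (0 : Ω) ∈ H.κ := cl_zero _
  choose R R1 R2 R3 using dyna_ram (k := k) l.n h0
  let β : Ω → Ω⟦X⟧ := fun x => if hx : x ∈ H.B then R (e.Φ ⟨x, hx⟩) else 0
  have hβ : ∀ x : l.Th, (x : Ω) ∈ H.B → l.Ψ x = toL k Ω (β x) := fun x hx => by
    simp only [β, dif_pos hx]
    rw [R1, l.ΨB x ⟨x, hx⟩ rfl]
  have i1 : Ind k (ser H.κ) (β '' r.b) :=
    ind_ser hκ (r.bind.mono (fun x hx => mem_cl (Or.inr hx)) le_rfl) β fun x hx => by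
      simp only [β, dif_pos (dyna_LB (r.bL hx))]
      rw [R2, e.cc, r.ρb _ hx]
  have i2 := (Ind.map (toL k Ω) toL_injective).2 i1
  have hB : insert H.t H.κ ∪ r.b ⊆ H.B := by
    rintro x ((rfl | hx) | hx)
    exacts [dyna_LB (H.sub H.tM), dyna_κB hx, dyna_LB (r.bL hx)]
  have hj : (𝔇.jet H.z H.w : Set Ω) ⊆ insert H.t H.κ := fun x hx => Or.inr (mem_cl hx)
  have w1 : H.wC ∈ cl k (insert H.t H.κ ∪ r.b) := by
    refine cl_subset_cl (Set.union_subset (r.span.trans (cl_subset_cl ?_)) fun x hx =>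
      mem_cl (Or.inl (hj hx))) H.rel1
    rintro x ((rfl | rfl) | hx)
    · exact mem_cl (Or.inl (Or.inl rfl))
    · refine cl_mono ?_ H.lk.line_mem.1
      exact (Set.insert_subset (Set.mem_insert _ _) hj).trans Set.subset_union_left
    · exact mem_cl (Or.inr hx)
  have w2 : l.Ψ y ∈ cl k (l.Ψ '' (Subtype.val ⁻¹' (insert H.t H.κ ∪ r.b))) := by
    rw [dyna_tr, Set.image_preimage_eq_of_subset, hy]
    · exact w1
    · exact fun x hx => ⟨⟨x, l.BT (hB hx)⟩, rfl⟩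
  have w3 : l.Ψ y ∈ cl k (l.Ψ '' (Subtype.val ⁻¹' (insert H.t H.κ))) := by
    refine i2.mem_cl ?_ (lser_subset_cl hκ hc) (cl_mono ?_ w2)
    · rintro _ ⟨x, hx, rfl⟩
      have xB : (x : Ω) ∈ H.B := hB (Or.inl hx)
      refine mem_cl ⟨β x, ?_, (hβ x xB).symm⟩
      simp only [β, dif_pos xB]
      refine R3 _ ?_
      rcases hx with hx | hx
      · rw [dyna_t h e _ hx, ← ser_of_cl hκ]
        exact cl_add (mem_cl (dyna_C h0 (h.κ ▸ σ.sκ))) (mem_cl (dyna_X h0 (cl_one _)))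
      · rw [e.Φκ _ hx]
        exact dyna_C h0 hx
    · rintro _ ⟨x, hx | hx, rfl⟩
      · exact Or.inl ⟨x, hx, rfl⟩
      · exact Or.inr ⟨β x, ⟨x, hx, rfl⟩, (hβ x (hB (Or.inr hx))).symm⟩
  rw [dyna_tr, hy] at w3
  refine H.wCK (cl_subset_cl ((Set.image_preimage_subset _ _).trans ?_) w3)
  rintro x (rfl | hx)
  · exact mem_cl (Or.inl rfl)
  · exact cl_mono (Set.subset_insert _ _) hx

end aux

variable {k Ω : Type*} [Field k] [CharZero k] [IsAlgClosed k] [Field Ω] [IsAlgClosed Ω]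
  [Algebra k Ω] {𝔇 : DF k Ω}

theorem dynA {H : 𝔇.Hyp} {r : H.Rho} {σ : Stat k Ω} (h : Sta r σ) {e : Emb r σ} (l : Lau e) :
    (∀ y : l.Th, H.Good y → ∃ g, l.Ψ y = toL k Ω g) ∧
      ∀ y y' : l.Th, (y : Ω) = H.te → (y' : Ω) = H.qC →
        (l.Ψ y').coeff 0 ≠ (l.Ψ y).coeff 0 ^ 2 := by
  have : CharZero Ω := charZero_of_injective_algebraMap (algebraMap k Ω).injective
  obtain ⟨a, b, ma, mb, ca, cb, hab⟩ := dyna_two h l
  have hκ : cl k H.κ = H.κ := cl_cl _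
  have inj : Function.Injective l.Ψ := l.Ψ.toRingHom.injective
  let te : l.Th := ⟨H.te, l.teT⟩
  let Pe : l.Th := ⟨H.Pe, l.PeT⟩
  let z : l.Th := ⟨H.zC, l.jetT (z_mem_jet _ _)⟩
  let w : l.Th := ⟨H.wC, l.jetT (w_mem_jet _ _)⟩
  let q : l.Th := ⟨H.qC, l.jetT H.lkC.q_mem_jet⟩
  let ro : l.Th → l.Th := fun y => ⟨H.rot y, l.st1 y y.2⟩
  let dn : l.Th → l.Th := fun y => ⟨H.Dn r.s y, l.st2 y y.2⟩
  obtain ⟨τ, mτ, hτ⟩ := hab te H.teF
  obtain ⟨p, mp, hp⟩ := hab Pe H.PeF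
  have hs : cl k {a, b} ⊆ ser σ.κ := by
    rw [h.κ, ← ser_of_cl hκ]
    exact cl_mono (Set.insert_subset ma (Set.singleton_subset_iff.2 mb))
  have hi := inj_of_pair (cc k Ω) (a := a) (b := b) (by rw [cc_apply, ca]; exact σ.is)
    (by rw [cc_apply, cc_apply, ca, cb]; exact σ.iP)
  have te0 := H.lkC.l₀.t_ne
  obtain ⟨j1, j2⟩ := indep_of_br (H.lkC.l₀.br.trans_ne te0)
  have i1 : constantCoeff τ ∉ cl k (∅ : Set Ω) := fun h1 => j1 <| by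
    have h2 := (cl_map_iff_on (cc k Ω) hi (Set.empty_subset _) mτ).1
      (by rwa [Set.image_empty])
    have h3 := (cl_map_iff (toL k Ω) toL_injective _ _).2 h2
    have h4 := (dyna_tr l ∅ te).1 (by rwa [Set.image_empty, ← hτ, ← Set.image_empty l.Ψ] at h3)
    rwa [Set.image_empty] at h4
  have i2 : constantCoeff p ∉ cl k {constantCoeff τ} := fun h1 => j2 <| by
    have h2 := (cl_map_iff_on (cc k Ω) hi (Set.singleton_subset_iff.2 mτ) mp).1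
      (by rwa [Set.image_singleton])
    have h3 := (cl_map_iff (toL k Ω) toL_injective _ _).2 h2
    have h4 := (dyna_tr l {te} Pe).1
      (by rwa [Set.image_singleton, ← hτ, ← hp, ← Set.image_singleton] at h3)
    rwa [Set.image_singleton] at h4
  have s1 : 𝔇.IsSpan H.rot := isSpan_dual _ _
  have s2 : 𝔇.IsSpan (H.Dn r.s) := (isSpan_dual _ _).add_smul (isSpan_dual _ _) _
  set N : LaurentSeries Ω := HahnSeries.single ((l.n : ℕ) : ℤ) ((l.n : ℕ) : Ω) with hN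
  have N0 : N ≠ 0 := HahnSeries.single_ne_zero (Nat.cast_ne_zero.2 l.n.ne_zero)
  have E1 : ∀ y, euler Ω k (l.Ψ y) = N * l.Ψ (ro y) := fun y => l.int1 y _ rfl
  have E2 : ∀ y, dcoef σ.Dd (l.Ψ y) = l.Ψ (dn y) := fun y => l.int2 y _ rfl
  have key : ∀ y, l.Ψ (ro w) * dcoef σ.Dd (l.Ψ y) + -(l.Ψ (dn w) / N) * euler Ω k (l.Ψ y) =
      l.Ψ (ro w * dn y - dn w * ro y) := fun y => by
    rw [E1, E2, map_sub, map_mul, map_mul]
    field_simp
    ring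
  have kj : ∀ y : l.Th, (y : Ω) ∈ 𝔇.jet H.zC H.wC →
      l.Ψ (ro w) * dcoef σ.Dd (l.Ψ y) + -(l.Ψ (dn w) / N) * euler Ω k (l.Ψ y) = 0 := by
    intro y hy
    obtain ⟨g, -, hg⟩ := H.lkC.jet_deriv hy
    rw [key, ← map_zero l.Ψ]
    refine congrArg l.Ψ (Subtype.ext ?_)
    change H.rot H.wC * H.Dn r.s y - H.Dn r.s H.wC * H.rot y = 0
    rw [hg _ s1, hg _ s2]
    ring
  have hon : toL k Ω p * toL k Ω τ = l.Ψ z - l.Ψ w * toL k Ω τ ^ 2 := by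
    rw [← hτ, ← hp, ← map_pow, ← map_mul, ← map_mul, ← map_sub]
    refine congrArg l.Ψ (Subtype.ext ?_)
    change H.Pe * H.te = H.zC - H.wC * H.te ^ 2
    rw [H.lkC.on₀]
    field_simp
  have e1 : euler Ω k (l.Ψ z) = l.Ψ q * euler Ω k (l.Ψ w) := by
    have : ro z = q * ro w := Subtype.ext (H.lkC.span_z s1)
    rw [E1, E1, this, map_mul]
    ring
  have e2 : dcoef σ.Dd (l.Ψ z) = l.Ψ q * dcoef σ.Dd (l.Ψ w) := by
    have : dn z = q * dn w := Subtype.ext (H.lkC.span_z s2)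
    rw [E2, E2, this, map_mul]
  have dτ : l.Ψ (ro w) * dcoef σ.Dd (toL k Ω τ) + -(l.Ψ (dn w) / N) * euler Ω k (toL k Ω τ) ≠
      0 := by
    rw [← hτ, key, ← map_zero l.Ψ]
    refine fun h1 => H.lkC.br_tw_ne ?_
    have h2 : H.rot H.wC * H.Dn r.s H.te - H.Dn r.s H.wC * H.rot H.te = 0 :=
      congrArg Subtype.val (inj h1)
    rw [br_eq_dual H.lk.br_tw_ne]
    simp only [Hyp.rot, Hyp.Dn, Derivation.add_apply, Derivation.smul_apply, smul_eq_mul] at h2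
    linear_combination 𝔇.br H.w H.t * h2
  have hχ : l.Ψ q ≠ toL k Ω τ ^ 2 := by
    rw [← hτ, ← map_pow]
    refine fun h1 => H.lkC.t_ne_t' (mul_left_cancel₀ te0 ?_)
    have h2 : H.qC = H.te ^ 2 := congrArg Subtype.val (inj h1)
    rw [← H.lkC.refl, h2, sq]
  obtain ⟨r1, r2⟩ := step2 σ.Dd σ.κcl σ.κDd σ.constκ (hs mτ) (hs mp) i1 i2 hon e1 e2
    (kj w (w_mem_jet _ _)) (kj q H.lkC.q_mem_jet) dτ hχ (h.κ ▸ dyna_hn h l w rfl)
  refine ⟨fun y hy => hy.elim (fun hy => r1 _ (kj y hy)) fun hy => ?_, fun y y' hy hy' => ?_⟩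
  · obtain ⟨g, -, hg⟩ := hab y hy
    exact ⟨g, hg⟩
  · rw [show y = te from Subtype.ext hy, show y' = q from Subtype.ext hy', hτ, dyna_coeff0]
    exact r2

end Ivrii.T
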