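import Pool.Agent.P.MP_7a8567_an.T.DynA

/-! Step 3a: no ramification. -/

set_option autoImplicit false

open PowerSeries Ivrii.PX

noncomputable section

namespace Ivrii.T

open DF DF.Hyp

section aux

variable {k Ω : Type*} [Field k] [Field Ω] [Algebra k Ω]

/-- The substitution `X ↦ ζ X` as an algebra map over `k`. -/
def dynbRes (k : Type*) [Field k] [Algebra k Ω] (ζ : Ω) : Ω⟦X⟧ →ₐ[k] Ω⟦X⟧ :=
  { rescale ζ with
    commutes' := fun c => by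
      ext n
      rw [PowerSeries.algebraMap_apply]
      by_cases h : n = 0 <;> simp [coeff_rescale, coeff_C, h] }

theorem dynb_coeff (ζ : Ω) (f : Ω⟦X⟧) (n : ℕ) :
    coeff n (dynbRes k ζ f) = ζ ^ n * coeff n f := coeff_rescale f ζ n

theorem dynb_cc (ζ : Ω) (f : Ω⟦X⟧) : constantCoeff (dynbRes k ζ f) = constantCoeff f := by
  rw [← coeff_zero_eq_constantCoeff_apply, dynb_coeff, pow_zero, one_mul,
    coeff_zero_eq_constantCoeff_apply]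

theorem dynb_toL (ζ : Ωˣ) (f : Ω⟦X⟧) :
    toL k Ω (dynbRes k (ζ : Ω) f) = PX.rot ζ (toL k Ω f) := by
  ext j
  rw [coeff_rot, toL_apply, toL_apply, PowerSeries.coeff_coe, PowerSeries.coeff_coe]
  split_ifs with hj
  · rw [mul_zero]
  · obtain ⟨m, rfl⟩ := Int.eq_ofNat_of_zero_le (not_lt.1 hj)
    rw [Int.natAbs_natCast, dynb_coeff, zpow_natCast, Units.val_pow_eq_pow_val]

theorem dynb_dX (ζ : Ω) (f : Ω⟦X⟧) :
    dX k Ω (dynbRes k ζ f) = C ζ * dynbRes k ζ (dX k Ω f) := by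
  ext n
  rw [coeff_C_mul, coeff_dX, dynb_coeff, dynb_coeff, coeff_dX]
  ring

theorem dynb_coeff_zero (f : Ω⟦X⟧) : (toL k Ω f).coeff 0 = constantCoeff f := by
  rw [toL_apply, PowerSeries.coeff_coe, if_neg (lt_irrefl _)]
  exact coeff_zero_eq_constantCoeff_apply f

theorem dynb_euler (f : Ω⟦X⟧) :
    euler Ω k (toL k Ω f) = HahnSeries.single 1 1 * toL k Ω (dX k Ω f) := by
  rw [euler_eq, toL_apply, dU_ofPowerSeries]
  rfl

theorem dynb_ram_zero (n : ℕ+) (f : LaurentSeries Ω) : (ram n f).coeff 0 = f.coeff 0 := by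
  simpa using coeff_ram_mul n f 0

/-- A power series that is a ramified Laurent series is a ramified power series. -/
theorem dynb_desc (n : ℕ+) {f : Ω⟦X⟧} {G : LaurentSeries Ω} (h : ram n G = toL k Ω f) :
    ∃ g, G = toL k Ω g := by
  have hn : (0 : ℤ) < (n : ℕ) := by exact_mod_cast n.pos
  obtain ⟨g, hg⟩ := exists_ofPowerSeries (x := G) fun j hj => by
    rw [← coeff_ram_mul n G j, h, toL_apply, PowerSeries.coeff_coe,
      if_pos (mul_neg_of_pos_of_neg hn hj)]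
  exact ⟨g, hg.symm⟩

end aux

variable {k Ω : Type*} [Field k] [CharZero k] [IsAlgClosed k] [Field Ω] [IsAlgClosed Ω]
  [Algebra k Ω] {𝔇 : DF k Ω}

omit [CharZero k] [IsAlgClosed k] [IsAlgClosed Ω] in
theorem dynb_memL (H : 𝔇.Hyp) {y : Ω} (hy : y ∈ H.LL) : y ∈ H.B :=
  Algebra.subset_adjoin (Or.inl hy)

omit [CharZero k] [IsAlgClosed k] [IsAlgClosed Ω] in
theorem dynb_memκ (H : 𝔇.Hyp) {y : Ω} (hy : y ∈ H.κ) : y ∈ H.B :=
  Algebra.subset_adjoin (Or.inr hy)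

omit [CharZero k] [IsAlgClosed k] [IsAlgClosed Ω] in
theorem dynb_jetκ (H : 𝔇.Hyp) {y : Ω} (hy : y ∈ 𝔇.jet H.z H.w) : y ∈ H.κ := mem_cl hy

omit [CharZero k] [IsAlgClosed k] [IsAlgClosed Ω] in
theorem dynb_t'B (H : 𝔇.Hyp) : H.t' ∈ H.B := by
  have h1 : H.t⁻¹ ∈ H.LL := by
    rw [← H.LLc.cl_eq]
    exact cl_inv (mem_cl (H.sub H.tM))
  have h2 : H.t' = H.q * H.t⁻¹ := by
    rw [H.lk.refl, mul_comm H.t, mul_inv_cancel_right₀ H.lk.l₀.t_ne]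
  rw [h2]
  exact H.B.mul_mem (dynb_memκ H (dynb_jetκ H H.lk.q_mem_jet)) (dynb_memL H h1)

omit [CharZero k] [IsAlgClosed k] [IsAlgClosed Ω] in
theorem dynb_P'B (H : 𝔇.Hyp) : H.P' ∈ H.B := by
  have h1 : H.q⁻¹ ∈ H.κ := cl_inv (mem_cl H.lk.q_mem_jet)
  have h2 : H.P' = H.z * (H.t * H.q⁻¹) - H.w * H.t' := by
    have := H.lk.l₀.t_ne
    have := H.lk.l₁.t_ne
    rw [H.lk.on₁, H.lk.refl]
    field_simp
  rw [h2]
  exact H.B.sub_mem (H.B.mul_mem (dynb_memκ H (dynb_jetκ H (z_mem_jet _ _)))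
    (H.B.mul_mem (dynb_memL H (H.sub H.tM)) (dynb_memκ H h1)))
    (H.B.mul_mem (dynb_memκ H (dynb_jetκ H (w_mem_jet _ _))) (dynb_t'B H))

omit [CharZero k] [IsAlgClosed k] [IsAlgClosed Ω] in
theorem dynb_s_ne {H : 𝔇.Hyp} (r : H.Rho) : r.s ≠ 0 := fun h => r.is (h ▸ cl_zero _)

omit [CharZero k] [IsAlgClosed k] [IsAlgClosed Ω] in
theorem dynb_ρt' {H : 𝔇.Hyp} (r : H.Rho) : r.ρ ⟨H.t', dynb_t'B H⟩ = r.s := by
  have hq := dynb_jetκ H H.lk.q_mem_jet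
  have h1 : (⟨H.q, dynb_memκ H hq⟩ : H.B) =
      ⟨H.t, dynb_memL H (H.sub H.tM)⟩ * ⟨H.t', dynb_t'B H⟩ := Subtype.ext H.lk.refl
  have h2 := congrArg r.ρ h1
  rw [map_mul, r.ρκ _ hq, r.ρt _ rfl] at h2
  apply mul_left_cancel₀ (dynb_s_ne r)
  rw [← h2, ← sq, r.hs]

omit [CharZero k] [IsAlgClosed k] [IsAlgClosed Ω] in
theorem dynb_ρP' {H : 𝔇.Hyp} (r : H.Rho) :
    r.ρ ⟨H.P', dynb_P'B H⟩ = H.z / r.s - H.w * r.s := by
  have hz := dynb_jetκ H (z_mem_jet H.z H.w)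
  have hw := dynb_jetκ H (w_mem_jet H.z H.w)
  have h1 : (⟨H.P', dynb_P'B H⟩ * ⟨H.t', dynb_t'B H⟩ : H.B) =
      ⟨H.z, dynb_memκ H hz⟩ - ⟨H.w, dynb_memκ H hw⟩ * ⟨H.t', dynb_t'B H⟩ ^ 2 := by
    apply Subtype.ext
    have := H.lk.l₁.t_ne
    show H.P' * H.t' = H.z - H.w * H.t' ^ 2
    rw [H.lk.on₁]
    field_simp
  have h2 := congrArg r.ρ h1
  rw [map_mul, map_sub, map_mul, map_pow, r.ρκ ⟨H.z, dynb_memκ H hz⟩ hz,
    r.ρκ ⟨H.w, dynb_memκ H hw⟩ hw, dynb_ρt'] at h2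
  have := dynb_s_ne r
  apply mul_right_cancel₀ this
  rw [h2]
  field_simp

/-- The substitution fixes the expansions of elements algebraic over the reflected line. -/
theorem dynb_fixA {H : 𝔇.Hyp} {r : H.Rho} {σ : Stat k Ω} (h : Sta r σ) {e : Emb r σ} (l : Lau e)
    {ζ : Ωˣ} (hζ : ζ ^ (l.n : ℕ) = 1) (y : l.Th) (hy : (y : Ω) ∈ cl k {H.t', H.P'})
    {f : Ω⟦X⟧} (hf : l.Ψ y = toL k Ω f) : dynbRes k (ζ : Ω) f = f := by
  let u : l.Th := ⟨H.t', l.BT (dynb_t'B H)⟩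
  let v : l.Th := ⟨H.P', l.BT (dynb_P'B H)⟩
  obtain ⟨a, ha⟩ := (dynA h l).1 u (Or.inr (mem_cl (Or.inl rfl)))
  obtain ⟨b, hb⟩ := (dynA h l).1 v (Or.inr (mem_cl (Or.inr rfl)))
  have hu := l.ΨB u ⟨H.t', dynb_t'B H⟩ rfl
  have hv := l.ΨB v ⟨H.P', dynb_P'B H⟩ rfl
  have ca : constantCoeff a = r.s := by
    rw [← dynb_coeff_zero (k := k), ← ha, hu, dynb_ram_zero, dynb_coeff_zero, e.cc, dynb_ρt']
  have cb : constantCoeff b = H.z / r.s - H.w * r.s := by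
    rw [← dynb_coeff_zero (k := k), ← hb, hv, dynb_ram_zero, dynb_coeff_zero, e.cc, dynb_ρP']
  refine fixA (dynbRes k (ζ : Ω)) (dynb_cc _) (a := a) (b := b) ?_ ?_ ?_ ?_ f ?_
  · apply toL_injective (k := k)
    rw [dynb_toL, ← ha, hu, rot_ram _ hζ]
  · apply toL_injective (k := k)
    rw [dynb_toL, ← hb, hv, rot_ram _ hζ]
  · rw [ca]
    exact r.is
  · rw [ca, cb]
    exact r.iP
  · have h1 : y ∈ cl k {u, v} := by
      rw [← cl_map_iff l.Th.val Subtype.val_injective, Set.image_pair]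
      exact hy
    rw [← cl_map_iff l.Ψ l.Ψ.toRingHom.injective, Set.image_pair, ha, hb, hf] at h1
    rw [← cl_map_iff (toL k Ω) toL_injective, Set.image_pair]
    exact h1

/-- The substitution fixes the expansions of the jets of the last mirror. -/
theorem dynb_fixW {H : 𝔇.Hyp} {r : H.Rho} {σ : Stat k Ω} (h : Sta r σ) {e : Emb r σ} (l : Lau e)
    {ζ : Ωˣ} (hζ : ζ ^ (l.n : ℕ) = 1) (y : l.Th) (hy : (y : Ω) ∈ 𝔇.jet H.zC H.wC)
    {f : Ω⟦X⟧} (hf : l.Ψ y = toL k Ω f) : dynbRes k (ζ : Ω) f = f := by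
  let i : 𝔇.jet H.zC H.wC → l.Th := fun x => ⟨x, l.jetT x.2⟩
  choose ψ hψ using fun x : 𝔇.jet H.zC H.wC => (dynA h l).1 (i x) (Or.inl x.2)
  choose pr hpr hd using fun x : 𝔇.jet H.zC H.wC => H.lkC.jet_deriv x.2
  let w : 𝔇.jet H.zC H.wC := ⟨H.wC, w_mem_jet _ _⟩
  let z : 𝔇.jet H.zC H.wC := ⟨H.zC, z_mem_jet _ _⟩
  let u : l.Th := ⟨H.te, l.teT⟩
  let v : l.Th := ⟨H.Pe, l.PeT⟩
  obtain ⟨τ, hτ⟩ := (dynA h l).1 u (Or.inr H.teF)
  obtain ⟨p, hp⟩ := (dynA h l).1 v (Or.inr H.PeF)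
  have key := fixW (0 : Derivation k Ω⟦X⟧ Ω⟦X⟧) ψ (fun x => ⟨pr x, hpr x⟩) w z
    (dynbRes k (ζ : Ω)) 0 (C (ζ : Ω)) (dynb_cc _) (fun f => by rw [dynb_dX, zero_mul, zero_add])
    (fun x => ?_) (fun x => by simp) (τ := τ) (p := p) (dynb_fixA h l hζ u H.teF hτ)
    (dynb_fixA h l hζ v H.PeF hp) ?_ ?_ ⟨y, hy⟩
  · have h1 : ψ ⟨y, hy⟩ = f := toL_injective (k := k) ((hψ ⟨y, hy⟩).symm.trans hf)
    rwa [h1] at key
  · have h0 : (HahnSeries.single 1 1 : LaurentSeries Ω) ≠ 0 := by simp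
    have h1 := l.int1 (i x) ⟨H.rot x, l.st1 _ (i x).2⟩ rfl
    have h2 := l.int1 (i w) ⟨H.rot H.wC, l.st1 _ (i w).2⟩ rfl
    have h3 : (⟨H.rot x, l.st1 _ (i x).2⟩ : l.Th) =
        i ⟨pr x, hpr x⟩ * ⟨H.rot H.wC, l.st1 _ (i w).2⟩ :=
      Subtype.ext (hd x _ (isSpan_dual _ _))
    rw [h3, map_mul, mul_left_comm, ← h2, hψ, hψ, hψ, dynb_euler, dynb_euler, mul_left_comm] at h1
    apply toL_injective (k := k)
    rw [map_mul]
    exact mul_left_cancel₀ h0 h1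
  · have h1 : v * u = i z - i w * u ^ 2 := by
      apply Subtype.ext
      have := H.lkC.l₀.t_ne
      show H.Pe * H.te = H.zC - H.wC * H.te ^ 2
      rw [H.lkC.on₀]
      field_simp
    have h2 := congrArg l.Ψ h1
    rw [map_mul, map_sub, map_mul, map_pow, hψ, hψ, hτ, hp] at h2
    apply toL_injective (k := k)
    rw [map_mul, map_sub, map_mul, map_pow]
    exact h2
  · have h1 : pr z = H.qC := by
      have h2 := hd z _ (isSpan_dual H.wC H.te)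
      have h3 := H.lkC.span_z (isSpan_dual H.wC H.te)
      rw [dual_left H.lkC.br_tw_ne, mul_one] at h2 h3
      exact h2.symm.trans h3
    have h2 := (dynA h l).2 u (i ⟨pr z, hpr z⟩) rfl h1
    rwa [hψ, hτ, dynb_coeff_zero, dynb_coeff_zero] at h2

theorem dynB {H : 𝔇.Hyp} {r : H.Rho} {σ : Stat k Ω} (h : Sta r σ) {e : Emb r σ} (l : Lau e)
    (y : l.Th) (hy : H.Good y) : ∃ g, l.Ψ y = ram l.n (toL k Ω g) := by
  have : CharZero Ω := charZero_of_injective_algebraMap (algebraMap k Ω).injective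
  obtain ⟨ζ, hζ⟩ := exists_primitiveRoot (L := Ω) l.n
  obtain ⟨f, hf⟩ := (dynA h l).1 y hy
  have h1 : dynbRes k (ζ : Ω) f = f :=
    hy.elim (fun hy => dynb_fixW h l hζ.pow_eq_one y hy hf)
      fun hy => dynb_fixA h l hζ.pow_eq_one y hy hf
  obtain ⟨G, hG⟩ := mem_range_of_rot l.n hζ (f := toL k Ω f) (by rw [← dynb_toL, h1])
  obtain ⟨g, rfl⟩ := dynb_desc l.n hG
  exact ⟨g, hf.trans hG.symm⟩

end Ivrii.T
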