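import Pool.Agent.P.MP_7a8567_an.T.Der
import Pool.Agent.P.MP_7a8567_an.T.LD

/-! Linear disjointness and the freeness lemma in terms of `cl`. -/

set_option autoImplicit false

noncomputable section

namespace Ivrii.T

variable {k : Type*} [Field k] [CharZero k] [IsAlgClosed k] {Ω : Type*} [Field Ω] [Algebra k Ω]

/-- Independent elements of a stable field with constants `k` are independent over constants. -/
theorem ld_set (Δ : Set (Derivation k Ω Ω)) (K : IntermediateField k Ω)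
    (hK : ∀ δ ∈ Δ, ∀ f ∈ K, δ f ∈ K)
    (hk : ∀ f ∈ K, (∀ δ ∈ Δ, δ f = 0) → f ∈ cl k (∅ : Set Ω))
    {Cs : Set Ω} (hC : ∀ δ ∈ Δ, ∀ c ∈ Cs, δ c = 0) {I : Set Ω} (hI : I ⊆ K)
    (h : Ind k ∅ I) : Ind k Cs I := by
  have h1 : AlgebraicIndependent k ((↑) : I → Ω) :=
    ((ind_iff (⊥ : Subalgebra k Ω) (Set.empty_subset _)
      (bot_le (a := clS k (∅ : Set Ω)))).1 h).restrictScalars (algebraMap k _).injective
  have h2 := ld_alg' Δ K.toSubfield hK (fun f hf h => mem_cl_empty.1 (hk f hf h))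
    (clF k Cs).toSubfield (fun δ hδ => der_cl_zero δ (hC δ hδ)) (fun i : I => hI i.2) h1
  exact (ind_iff (clS k Cs) (subset_cl _) subset_rfl).2 h2

theorem ld_pair (Δ : Set (Derivation k Ω Ω)) (K : IntermediateField k Ω)
    (hK : ∀ δ ∈ Δ, ∀ f ∈ K, δ f ∈ K)
    (hk : ∀ f ∈ K, (∀ δ ∈ Δ, δ f = 0) → f ∈ cl k (∅ : Set Ω))
    {Cs : Set Ω} (hC : ∀ δ ∈ Δ, ∀ c ∈ Cs, δ c = 0) {a b : Ω} (ha : a ∈ K) (hb : b ∈ K)
    (h1 : a ∉ cl k (∅ : Set Ω)) (h2 : b ∉ cl k {a}) :
    a ∉ cl k Cs ∧ b ∉ cl k (insert a Cs) := by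
  obtain ⟨h3, hne⟩ := ind_pair h1 (by simpa using h2)
  have h4 := ld_set Δ K hK hk hC (Set.insert_subset ha (Set.singleton_subset_iff.2 hb)) h3
  refine ⟨fun h => h4 a (by simp) (cl_mono Set.subset_union_left h),
    fun h => h4 b (by simp) (cl_mono ?_ h)⟩
  exact Set.insert_subset (Or.inr ⟨by simp, hne⟩) Set.subset_union_left

omit [CharZero k] [IsAlgClosed k] in
theorem fs_closure {L : Type*} [Field L] [Algebra k L] [Algebra L Ω] [IsScalarTower k L Ω]
    {N c : Set Ω} (hN : N ⊆ Set.range (algebraMap L Ω)) {a : Ω} (h : a ∈ cl k (N ∪ c)) :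
    a ∈ (AlgebraicIndependent.matroid L Ω).closure c := by
  rw [AlgebraicIndependent.matroid_closure_eq, SetLike.mem_coe, Subalgebra.mem_algebraicClosure]
  refine IsAlgebraic.tower_top_of_subalgebra_le (B := (Algebra.adjoin L c).restrictScalars k)
    (Algebra.adjoin_le (Set.union_subset ?_ Algebra.subset_adjoin)) h
  intro y hy
  obtain ⟨l, rfl⟩ := hN hy
  exact (Algebra.adjoin L c).algebraMap_mem l

/-- A derivation as a derivation over a field of constants. -/
def derOver (d : Derivation k Ω Ω) (K : IntermediateField k Ω) (h : ∀ c ∈ K, d c = 0) :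
    Derivation K Ω Ω :=
  Derivation.mk'
    { toFun := d
      map_add' := map_add d
      map_smul' := fun c y => by
        rw [IntermediateField.smul_def, smul_eq_mul, Derivation.leibniz, h c c.2]
        simp [IntermediateField.smul_def] }
    fun a b => d.leibniz a b

omit [IsAlgClosed k] in
/-- The freeness lemma. -/
theorem free_star (d₁ d₂ : Derivation k Ω Ω) {X : Set Ω} (hX : cl k X = X)
    (h₁ : ∀ f ∈ X, d₁ f ∈ X) (h₂ : ∀ f ∈ X, d₂ f ∈ X) (hc : ∀ f ∈ X, d₁ (d₂ f) = d₂ (d₁ f))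
    {x : Ω} (hx : x ∉ X) (hdx : d₁ x + x * d₂ x ∈ cl k (insert x X))
    {c : Set Ω} (hf : c.Finite) (h0 : ∀ y ∈ c, d₁ y + x * d₂ y = 0) {z w : Ω}
    (hz : d₁ z + x * d₂ z = 0) (hw : d₁ w + x * d₂ w = 0) (hz' : z ∈ cl k (X ∪ c))
    (hw' : w ∈ cl k (X ∪ c)) :
    w ∈ cl k ({f ∈ X | d₁ f = 0 ∧ d₂ f = 0} ∪ c) ∨
      z ∈ cl k (insert w ({f ∈ X | d₁ f = 0 ∧ d₂ f = 0} ∪ c)) := by
  have : CharZero Ω := charZero_of_injective_algebraMap (algebraMap k Ω).injective
  by_contra hcon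
  rw [not_or] at hcon
  obtain ⟨nw, nz⟩ := hcon
  have mX : ∀ f, f ∈ clF k X ↔ f ∈ X := fun f => by rw [mem_clF, hX]
  let K : IntermediateField k Ω := clF k X ⊓ (derKer d₁ ⊓ derKer d₂)
  have mK : ∀ f, f ∈ K ↔ f ∈ X ∧ d₁ f = 0 ∧ d₂ f = 0 := fun f => by
    simp only [K, IntermediateField.mem_inf, mX, mem_derKer]
  have rK : Set.range (algebraMap K Ω) = {f ∈ X | d₁ f = 0 ∧ d₂ f = 0} := by
    ext f
    exact ⟨fun ⟨y, hy⟩ => hy ▸ (mK _).1 y.2, fun h => ⟨⟨f, (mK _).2 h⟩, rfl⟩⟩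
  let Y : IntermediateField K Ω := IntermediateField.extendScalars (inf_le_left : K ≤ clF k X)
  have mY : ∀ f, f ∈ Y ↔ f ∈ X := mX
  have rY : X ⊆ Set.range (algebraMap Y Ω) := fun f hf => ⟨⟨f, (mY f).2 hf⟩, rfl⟩
  have : IsScalarTower k Y Ω := .of_algebraMap_eq fun _ => rfl
  let θ := derOver d₁ K fun c hc => ((mK c).1 hc).2.1
  let D := derOver d₂ K fun c hc => ((mK c).1 hc).2.2
  have key := free_sub Y θ D (θ + x • D) x (fun f hf => (mY _).2 (h₁ f ((mY f).1 hf)))
    (fun f hf => (mY _).2 (h₂ f ((mY f).1 hf))) (fun f hf => hc f ((mY f).1 hf))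
    (fun f hf a b => rK ▸ ⟨(mY f).1 hf, a, b⟩)
    (fun h => hx (hX ▸ IsAlgebraic.tower_top_of_subalgebra_le (A := (clF k X).toSubalgebra)
      (fun f hf => Algebra.subset_adjoin ((mX f).1 hf)) h))
    (fun _ _ => rfl)
    (by
      have := fs_closure (k := k) (c := {x}) rY (by rwa [Set.union_singleton])
      rw [AlgebraicIndependent.matroid_closure_eq, SetLike.mem_coe,
        Subalgebra.mem_algebraicClosure] at this
      exact IntermediateField.isAlgebraic_adjoin_iff.2 this)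
    (insert z (insert w c)) (by
      rintro s (rfl | rfl | hs)
      · exact hz
      · exact hw
      · exact h0 s hs)
  have e1 : (AlgebraicIndependent.matroid Y Ω).eRk (insert z (insert w c)) ≤
      (AlgebraicIndependent.matroid K Ω).eRk c := by
    obtain ⟨B, hB⟩ := (AlgebraicIndependent.matroid Y Ω).exists_isBasis c
    have h3 : (AlgebraicIndependent.matroid K Ω).Indep B :=
      AlgebraicIndependent.restrictScalars (algebraMap K Y).injective hB.indep
    refine le_trans ?_ (h3.encard_le_eRk_of_subset hB.subset)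
    rw [hB.encard_eq_eRk, ← Matroid.eRk_closure_eq _ c]
    exact Matroid.eRk_mono _ (Set.insert_subset (fs_closure rY hz')
      (Set.insert_subset (fs_closure rY hw') (Matroid.subset_closure _ _ (by simp))))
  rw [Matroid.eRk_insert_eq_add_one, Matroid.eRk_insert_eq_add_one] at key
  · have e2 := key.trans (add_le_add e1 le_rfl)
    obtain ⟨n, hn⟩ := ENat.ne_top_iff_exists.1
      (((AlgebraicIndependent.matroid K Ω).eRk_le_encard c).trans_lt hf.encard_lt_top).ne
    rw [← hn] at e2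
    norm_cast at e2
    omega
  · refine ⟨trivial, fun h => nw ?_⟩
    rw [cl_eq_closure, ← rK]
    exact cl_tower h
  · refine ⟨trivial, fun h => nz ?_⟩
    rw [cl_eq_closure, ← rK, ← Set.union_insert]
    exact cl_tower h

end Ivrii.T
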