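import Pool.Agent.P.MP_7a8567_an.T.Link
import Pool.Agent.P.MP_7a8567_an.T.FreeS

/-! Freeness of the jets of a mirror. -/

set_option autoImplicit false

noncomputable section

namespace Ivrii.T

variable {k Ω : Type*} [Field k] [CharZero k] [IsAlgClosed k] [Field Ω] [Algebra k Ω]
  {𝔇 : DF k Ω}

omit [CharZero k] [IsAlgClosed k] in
theorem fr_exch {Y : Set Ω} {w : Ω} (hw : w ∉ cl k Y) {J : Set Ω} (hJ : J.Finite) :
    w ∈ cl k (Y ∪ J) → ∃ J₀ ⊆ J, ∃ b ∈ J, b ∉ J₀ ∧ b ∈ cl k (insert w (Y ∪ J₀)) := by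
  induction J, hJ using Set.Finite.induction_on with
  | empty => intro h; rw [Set.union_empty] at h; exact absurd h hw
  | @insert b J hb _ ih =>
    intro h
    by_cases h' : w ∈ cl k (Y ∪ J)
    · obtain ⟨J₀, h1, b', h2, h3⟩ := ih h'
      exact ⟨J₀, h1.trans (Set.subset_insert _ _), b', Set.mem_insert_of_mem _ h2, h3⟩
    · rw [Set.union_insert] at h
      exact ⟨J, Set.subset_insert _ _, b, Set.mem_insert _ _, hb, cl_exchange h h'⟩

omit [CharZero k] [IsAlgClosed k] in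
theorem fr_circuit {Y I : Set Ω} {w : Ω} (hw : w ∉ cl k Y) (hwI : w ∈ I) (h : ¬ Ind k Y I) :
    ∃ c ⊆ I, c.Finite ∧ w ∈ c ∧ ∃ b ∈ I, b ∉ c ∧ b ∈ cl k (Y ∪ c) := by
  simp only [Ind, not_forall, not_not] at h
  obtain ⟨y, hy, h⟩ := h
  obtain ⟨T, hT, hf, hyT⟩ := cl_finite h
  have hJ : (T ∩ (I \ {y})).Finite := hf.subset Set.inter_subset_left
  have h1 : y ∈ cl k (Y ∪ T ∩ (I \ {y})) :=
    cl_mono (fun a ha => (hT ha).imp id fun h => ⟨ha, h⟩) hyT
  rcases eq_or_ne y w with rfl | hyw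
  · obtain ⟨J₀, h2, b, h3, h4, h5⟩ := fr_exch hw hJ h1
    refine ⟨insert y J₀, Set.insert_subset hy fun a ha => (h2 ha).2.1, (hJ.subset h2).insert _,
      Set.mem_insert _ _, b, h3.2.1, ?_, by rwa [Set.union_insert]⟩
    rintro (h6 | h6)
    · exact h3.2.2 h6
    · exact h4 h6
  · refine ⟨insert w (T ∩ (I \ {y})), Set.insert_subset hwI fun a ha => ha.2.1, hJ.insert _,
      Set.mem_insert _ _, y, hy, ?_,
      cl_mono (Set.union_subset_union_right _ (Set.subset_insert _ _)) h1⟩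
    rintro (h6 | h6)
    · exact hyw h6
    · exact h6.2.2 rfl

theorem fr {t P t' P' z w q c : Ω} (h : 𝔇.Link t P t' P' z w q c) {Y : Set Ω} (hY : 𝔇.Closed Y)
    (ht : t ∈ Y) (hP : P ∈ Y) (hw : w ∉ Y) :
    ∃ I ⊆ (𝔇.jet z w : Set Ω), Ind k Y I ∧ (𝔇.jet z w : Set Ω) ⊆ cl k ({t, P} ∪ I) := by
  have : CharZero Ω := charZero_of_injective_algebraMap (algebraMap k Ω).injective
  have hwY : w ∉ cl k Y := by rwa [hY.cl_eq]
  have htP : ({t, P} : Set Ω) ⊆ Y := Set.insert_subset ht (Set.singleton_subset_iff.2 hP)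
  have hw1 : Ind k {t, P} {w} := by
    rintro y rfl hy
    rw [Set.sdiff_self, Set.union_empty] at hy
    exact hwY (cl_mono htP hy)
  obtain ⟨I, hwI, hIj, hI, hcl⟩ :=
    exists_basis (Set.singleton_subset_iff.2 (DF.w_mem_jet (𝔇 := 𝔇) z w)) hw1
  refine ⟨I, hIj, ?_, hcl⟩
  by_contra hn
  obtain ⟨cs, hcI, hcf, hwc, b, hbI, hbc, hb⟩ := fr_circuit hwY (hwI rfl) hn
  have ht0 : t ≠ 0 := h.l₀.t_ne
  have h0 : 𝔇.br P t ≠ 0 := by rw [h.l₀.br]; exact ht0
  have rt : 𝔇.dual t w t = 1 := DF.dual_left h.br_wt_ne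
  have rw' : 𝔇.dual t w w = 0 := DF.dual_right t w
  have rj : ∀ y ∈ 𝔇.jet z w, 𝔇.dual t w y = 0 := fun y hy => by
    obtain ⟨g, -, hg⟩ := h.jet_deriv hy
    rw [hg _ (DF.isSpan_dual t w), rw', mul_zero]
  have rz : 𝔇.dual t w z = 0 := rj z (DF.z_mem_jet z w)
  set x := 𝔇.dual t w P with hx
  have hch : ∀ y, 𝔇.dual t P y + x * 𝔇.dual P t y = 𝔇.dual t w y := fun y => by
    rw [(DF.isSpan_dual t w).chain h0 y, rt, one_mul]
  have e0 : P * t + w * (t * t) = z := by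
    rw [h.on₀]; field_simp; ring
  have e1 : x * t + P + (w * t + w * t) = 0 := by
    have := congrArg (𝔇.dual t w) e0
    simp only [map_add, Derivation.leibniz, smul_eq_mul, rt, rw', rz, ← hx] at this
    linear_combination this
  have e2 : 𝔇.dual t w x * (t * t) = P - x * t := by
    have := congrArg (𝔇.dual t w) e1
    simp only [map_add, map_zero, Derivation.leibniz, smul_eq_mul, rt, rw', ← hx] at this
    linear_combination t * this - e1
  have hxY : x ∉ Y := fun hxY => by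
    refine hwY (cl_of_mul (cl_add (mem_cl ht) (mem_cl ht)) ?_ ?_)
    · rw [← two_mul]; exact mul_ne_zero two_ne_zero ht0
    · have : (t + t) * w = -(x * t + P) := by linear_combination e1
      rw [this]
      exact cl_neg (cl_add (cl_mul (mem_cl hxY) (mem_cl ht)) (mem_cl hP))
  have hdx : 𝔇.dual t P x + x * 𝔇.dual P t x ∈ cl k (insert x Y) := by
    have ht' : t ∈ cl k (insert x Y) := mem_cl (Set.mem_insert_of_mem _ ht)
    rw [hch]
    refine cl_of_mul (cl_mul ht' ht') (mul_ne_zero ht0 ht0) ?_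
    rw [mul_comm, e2]
    exact cl_sub (mem_cl (Set.mem_insert_of_mem _ hP)) (cl_mul (mem_cl (Set.mem_insert _ _)) ht')
  have hzc : z ∈ cl k ({t, P} ∪ cs) := by
    refine cl_mono ?_ h.z_mem_cl
    rintro y (rfl | rfl | rfl)
    · exact Or.inl (Or.inl rfl)
    · exact Or.inl (Or.inr rfl)
    · exact Or.inr hwc
  have hK : {f ∈ Y | 𝔇.dual t P f = 0 ∧ 𝔇.dual P t f = 0} ∪ cs ⊆ cl k cs :=
    Set.union_subset (fun f hf => cl_mono (Set.empty_subset _)
      (DF.const_of_dual h0 hf.2.1 hf.2.2)) (subset_cl _)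
  rcases free_star (𝔇.dual t P) (𝔇.dual P t) hY.cl_eq (fun f hf => hY.dual_mem ht hP hf)
    (fun f hf => hY.dual_mem hP ht hf) (fun f _ => DF.dual_comm h0 f) hxY hdx hcf
    (fun y hy => (hch y).trans (rj y (hIj (hcI hy)))) ((hch b).trans (rj b (hIj hbI)))
    ((hch z).trans rz) hb (cl_mono (Set.union_subset_union_left _ htP) hzc) with h1 | h1
  · have hz1 : z ∈ cl k ({t} ∪ cs) := cl_mono Set.subset_union_right (cl_subset_cl hK h1)
    have ht1 : t ∈ cl k ({t} ∪ cs) := mem_cl (Or.inl rfl)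
    have hP1 : P ∈ cl k ({t} ∪ cs) := by
      rw [h.on₀]
      exact cl_sub (cl_div hz1 ht1) (cl_mul (mem_cl (Or.inr hwc)) ht1)
    exact (DF.indep_of_br h0).2 ((hI.mono (subset_cl _) hcI).mem_cl
      (Set.singleton_subset_iff.2 (mem_cl (Or.inl rfl))) (mem_cl (Or.inr rfl)) hP1)
  · have h2 : b ∈ cl k ({t, P} ∪ cs) :=
      cl_subset_cl (Set.insert_subset hzc (hK.trans (cl_mono Set.subset_union_right))) h1
    have h3 : cs ⊆ I \ {b} := fun y hy => ⟨hcI hy, fun e => hbc (e ▸ hy)⟩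
    exact hI b hbI (cl_mono (Set.union_subset_union_right _ h3) h2)

/-- Two mirrors whose points move independently have independent points. -/
theorem ld_link {t P t' P' z w q c : Ω} (h : 𝔇.Link t P t' P' z w q c) (hT : z ∉ cl k {w})
    {te Pe tf Pf z' w' q' c' : Ω} (h' : 𝔇.Link te Pe tf Pf z' w' q' c') (hb : 𝔇.br w w' ≠ 0)
    {x : Ω} (hz : z ∈ cl k (insert x (𝔇.jet z' w' : Set Ω)))
    (hw : w ∈ cl k (insert x (𝔇.jet z' w' : Set Ω))) : False := by
  have hb' : 𝔇.br w' w ≠ 0 := by rw [DF.br_swap]; exact neg_ne_zero.2 hb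
  have h0 : 𝔇.br P t ≠ 0 := by rw [h.l₀.br]; exact h.l₀.t_ne
  have hs := DF.isSpan_dual (𝔇 := 𝔇) w w'
  have key := ld_pair {𝔇.dual w w'} (𝔇.jet z w) ?_ ?_ (Cs := (𝔇.jet z' w' : Set Ω)) ?_
    (DF.w_mem_jet z w) (DF.z_mem_jet z w) h.w_notMem hT
  · exact not_two key.1 key.2 hw hz
  · rintro δ rfl f hf
    obtain ⟨g, hg, e⟩ := h.jet_deriv hf
    rwa [e _ hs, DF.dual_left hb', mul_one]
  · intro f hf h1
    obtain ⟨g, -, e⟩ := h.jet_deriv hf
    have h2 := h1 _ rfl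
    rw [e _ hs, DF.dual_left hb', mul_one] at h2
    exact DF.const_of_dual h0 (by rw [e _ (DF.isSpan_dual _ _), h2, zero_mul])
      (by rw [e _ (DF.isSpan_dual _ _), h2, zero_mul])
  · rintro δ rfl f hf
    obtain ⟨g, -, e⟩ := h'.jet_deriv hf
    rw [e _ hs, DF.dual_right, mul_zero]

end Ivrii.T
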