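import Mathlib

set_option autoImplicit false

/-!
(PROJ): if the rotation about a point of one line also fixes a point of a second line, then the two
lines differ by an isometry with constant coefficients.
-/

namespace Ivrii.T

variable {k Ω : Type*} [Field k] [Field Ω] [Algebra k Ω]

theorem pj_poly {X : Subfield Ω} {y : Ω} (hy : Transcendental X y) {a b c e : Ω} (ha : a ∈ X)
    (hb : b ∈ X) (hc : c ∈ X) (he : e ∈ X) (h : a + b * y + c * y ^ 2 + e * y ^ 3 = 0) :
    a = 0 ∧ b = 0 ∧ c = 0 ∧ e = 0 := by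
  let p : Polynomial X := Polynomial.monomial 0 ⟨a, ha⟩ + Polynomial.monomial 1 ⟨b, hb⟩ +
    Polynomial.monomial 2 ⟨c, hc⟩ + Polynomial.monomial 3 ⟨e, he⟩
  have hp : p = 0 := by
    by_contra hne
    refine hy ⟨p, hne, ?_⟩
    simp only [p, map_add, Polynomial.aeval_monomial]
    simpa [Subfield.algebraMap_ofSubfield] using h
  have h0 := congrArg (fun q => ((Polynomial.coeff q 0 : X) : Ω)) hp
  have h1 := congrArg (fun q => ((Polynomial.coeff q 1 : X) : Ω)) hp
  have h2 := congrArg (fun q => ((Polynomial.coeff q 2 : X) : Ω)) hp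
  have h3 := congrArg (fun q => ((Polynomial.coeff q 3 : X) : Ω)) hp
  simp [p, Polynomial.coeff_monomial] at h0 h1 h2 h3
  exact ⟨h0, h1, h2, h3⟩

/-- The core of (PROJ); `y = -2 x`. -/
theorem pj_core [CharZero Ω] (θ D : Derivation k Ω Ω) (hc : ∀ f, θ (D f) = D (θ f))
    (hk : ∀ f, θ f = 0 → D f = 0 → ∃ a : k, algebraMap k Ω a = f)
    (X : Subfield Ω) (hθ : ∀ f ∈ X, θ f ∈ X) (hD : ∀ f ∈ X, D f ∈ X)
    {t P u R y z w : Ω} (ht : t ≠ 0) (θt : θ t = t) (θP : θ P = 0) (Dt : D t = 0) (DP : D P = 1)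
    (PX : P ∈ X) (uX : u ∈ X) (RX : R ∈ X) (hu : u ≠ 0) (hJ : D R * θ u - θ R * D u = u)
    (hy : Transcendental X y) (dy : θ y + y * D y = P) (dz : θ z + y * D z = 0)
    (dw : θ w + y * D w = 0) (on : R = z / u - w * u) :
    ∃ κ c₁ c₂ : k, κ ≠ 0 ∧
      ((u = algebraMap k Ω κ * t ∧ R = P + algebraMap k Ω c₁ * t + algebraMap k Ω c₂ / t) ∨
       (u = algebraMap k Ω κ / t ∧ R = -P + algebraMap k Ω c₁ * t + algebraMap k Ω c₂ / t)) := by
  obtain ⟨α, hα⟩ : ∃ α, α = θ u / u := ⟨_, rfl⟩
  obtain ⟨β, hβ⟩ : ∃ β, β = D u / u := ⟨_, rfl⟩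
  have θu : θ u = α * u := by rw [hα]; field_simp
  have Du : D u = β * u := by rw [hβ]; field_simp
  have αX : α ∈ X := hα ▸ X.div_mem (hθ u uX) uX
  have βX : β ∈ X := hβ ▸ X.div_mem (hD u uX) uX
  have J : D R * α - θ R * β = 1 := by
    apply mul_right_cancel₀ hu
    rw [θu, Du] at hJ
    linear_combination hJ
  have hn : θ β = D α := by
    have h1 := hc u
    rw [θu, Du, Derivation.leibniz, Derivation.leibniz, θu, Du] at h1
    apply mul_right_cancel₀ hu
    simp only [smul_eq_mul] at h1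
    linear_combination h1
  let d : Derivation k Ω Ω := θ + y • D
  have hd : ∀ f, d f = θ f + y * D f := fun f => rfl
  obtain ⟨v, hv⟩ : ∃ v, z = v * u := ⟨z / u, by field_simp⟩
  have on' : R = v - w * u := by rw [on, hv]; field_simp
  have du : d u = (α + y * β) * u := by rw [hd, θu, Du]; ring
  have dw' : d w = 0 := dw
  have dv : d v = -(v * (α + y * β)) := by
    have h1 : d z = 0 := dz
    rw [hv, Derivation.leibniz, du] at h1
    apply mul_right_cancel₀ hu
    simp only [smul_eq_mul] at h1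
    linear_combination h1
  have dR : θ R + y * D R = -(v + w * u) * (α + y * β) := by
    rw [← hd, on', map_sub, Derivation.leibniz, dv, du, dw']
    simp only [smul_eq_mul]
    ring
  have d2 := congrArg d dR
  have dy' : d y = P := dy
  simp only [map_add, map_neg, Derivation.leibniz, smul_eq_mul, dv, du, dw', dy', neg_mul] at d2
  simp only [hd, hc, hn] at d2
  have X2 : (2 : Ω) ∈ X := ofNat_mem _ _
  have X3 : (3 : Ω) ∈ X := ofNat_mem _ _
  have E := pj_poly hy (a := α * θ (θ R) - θ R * θ α + P - R * α ^ 3)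
    (b := 2 * D (θ R) * α + θ (θ R) * β - 2 * D α * θ R - D R * θ α - 3 * R * α ^ 2 * β)
    (c := D (D R) * α + 2 * D (θ R) * β - θ R * D β - 2 * D α * D R - 3 * R * α * β ^ 2)
    (e := D (D R) * β - D R * D β - R * β ^ 3)
    (by apply_rules (maxDepth := 99) (transparency := .reducible)
          [hθ, hD, sub_mem, add_mem, mul_mem, pow_mem])
    (by apply_rules (maxDepth := 99) (transparency := .reducible)
          [hθ, hD, sub_mem, add_mem, mul_mem, pow_mem])
    (by apply_rules (maxDepth := 99) (transparency := .reducible)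
          [hθ, hD, sub_mem, add_mem, mul_mem, pow_mem])
    (by apply_rules (maxDepth := 99) (transparency := .reducible)
          [hθ, hD, sub_mem, add_mem, mul_mem, pow_mem])
    (by
      linear_combination (α + y * β) * d2 -
        (θ α + y * D α + (y * (D α + y * D β) + β * P)) * dR - P * J -
        (α + y * β) ^ 3 * on')
  obtain ⟨E0, E1, E2, E3⟩ := E
  have θJ := congrArg θ J
  have DJ := congrArg D J
  simp only [map_sub, Derivation.leibniz, smul_eq_mul, Derivation.map_one_eq_zero, hc, hn]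
    at θJ DJ
  have F1 : D (θ R) * α - D α * θ R = R * α ^ 2 * β := by
    linear_combination (1 / 3 : Ω) * E1 + (1 / 3 : Ω) * θJ
  have F2 : D (θ R) * β - D α * D R = R * α * β ^ 2 := by
    linear_combination (1 / 3 : Ω) * E2 - (1 / 3 : Ω) * DJ
  have Dα : D α = 0 := by linear_combination β * F1 - α * F2 - D α * J
  have hm : D (θ R) = R * α * β := by
    linear_combination D R * F1 - θ R * F2 - (D (θ R) - R * α * β) * J
  have θα : θ α = -(P * β) := by
    rw [Dα, hm] at θJ
    linear_combination α * θJ + β * E0 - θ α * J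
  have θθR : θ (θ R) = R * α ^ 2 - P * D R := by
    rw [Dα, hm] at θJ
    linear_combination θ R * θJ + D R * E0 - (θ (θ R) - R * α ^ 2) * J
  have Dβ : D β = 0 := by
    rw [Dα, hm] at DJ
    linear_combination β * DJ - α * E3 - D β * J
  have β0 : β = 0 := by
    have h1 := hc α
    rw [Dα, θα, map_zero, map_neg, Derivation.leibniz, Dβ, DP] at h1
    simpa using h1
  subst β0
  have θα0 : θ α = 0 := by simpa using θα
  have hm0 : D (θ R) = 0 := by simpa using hm
  have J0 : D R * α = 1 := by simpa using J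
  have DDR : D (D R) = 0 := by
    rw [Dα, Dβ] at DJ
    linear_combination D R * DJ - D (D R) * J0
  have α2 : α ^ 2 = 1 := by
    have h1 := hc (θ R)
    rw [hm0, map_zero, θθR] at h1
    simp only [map_sub, Derivation.leibniz, Derivation.leibniz_pow, smul_eq_mul, Dα, DDR, DP,
      nsmul_eq_mul] at h1
    linear_combination -α * h1 - (α ^ 2 - 1) * J0
  have DR : D R = α := by linear_combination α * J0 - D R * α2
  have Du0 : D u = 0 := by simpa using Du
  have θi : θ t⁻¹ = -t⁻¹ := by rw [Derivation.leibniz_inv, θt, smul_eq_mul]; field_simp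
  have Di : D t⁻¹ = 0 := by rw [Derivation.leibniz_inv, Dt, smul_zero]
  have e2 : (2 : Ω)⁻¹ = algebraMap k Ω 2⁻¹ := by rw [map_inv₀, map_ofNat]
  obtain ⟨c₁, hc₁⟩ := hk ((R - α * P + θ R) * t⁻¹ / 2)
    (by
      rw [div_eq_mul_inv _ (2 : Ω), e2]
      simp only [Derivation.leibniz, map_add, map_sub, smul_eq_mul, θi, θθR, θα0, θP, DR,
        Derivation.map_algebraMap]
      linear_combination (algebraMap k Ω 2⁻¹ * t⁻¹ * R) * α2)
    (by
      rw [div_eq_mul_inv _ (2 : Ω), e2]
      simp only [Derivation.leibniz, map_add, map_sub, smul_eq_mul, Di, hm0, Dα, DP, DR,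
        Derivation.map_algebraMap]
      ring)
  obtain ⟨c₂, hc₂⟩ := hk ((R - α * P - θ R) * t / 2)
    (by
      rw [div_eq_mul_inv _ (2 : Ω), e2]
      simp only [Derivation.leibniz, map_sub, smul_eq_mul, θt, θθR, θα0, θP, DR,
        Derivation.map_algebraMap]
      linear_combination (-algebraMap k Ω 2⁻¹ * t * R) * α2)
    (by
      rw [div_eq_mul_inv _ (2 : Ω), e2]
      simp only [Derivation.leibniz, map_sub, smul_eq_mul, Dt, hm0, Dα, DP, DR,
        Derivation.map_algebraMap]
      ring)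
  have hR : R = α * P + algebraMap k Ω c₁ * t + algebraMap k Ω c₂ / t := by
    rw [hc₁, hc₂]; field_simp; ring
  rcases sq_eq_one_iff.1 α2 with h | h
  · obtain ⟨κ, hκ⟩ := hk (u * t⁻¹)
      (by simp only [Derivation.leibniz, smul_eq_mul, θi, θu, h]; ring)
      (by simp only [Derivation.leibniz, smul_eq_mul, Di, Du0]; ring)
    refine ⟨κ, c₁, c₂, ?_, Or.inl ⟨by rw [hκ]; field_simp, by rw [hR, h, one_mul]⟩⟩
    rintro rfl
    rw [map_zero] at hκ
    exact mul_ne_zero hu (inv_ne_zero ht) hκ.symm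
  · obtain ⟨κ, hκ⟩ := hk (u * t)
      (by simp only [Derivation.leibniz, smul_eq_mul, θt, θu, h]; ring)
      (by simp only [Derivation.leibniz, smul_eq_mul, Dt, Du0]; ring)
    refine ⟨κ, c₁, c₂, ?_, Or.inr ⟨by rw [hκ]; field_simp, by rw [hR, h, neg_one_mul]⟩⟩
    rintro rfl
    rw [map_zero] at hκ
    exact mul_ne_zero hu ht hκ.symm

theorem pj_adjoin {t P u R : Ω} (ht : t ≠ 0) {κ c₁ c₂ : k} (hκ : κ ≠ 0)
    (h : (u = algebraMap k Ω κ * t ∧ R = P + algebraMap k Ω c₁ * t + algebraMap k Ω c₂ / t) ∨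
      (u = algebraMap k Ω κ / t ∧ R = -P + algebraMap k Ω c₁ * t + algebraMap k Ω c₂ / t)) :
    IntermediateField.adjoin k {u, R} = IntermediateField.adjoin k {t, P} := by
  have hκ' : algebraMap k Ω κ ≠ 0 := (map_ne_zero _).2 hκ
  have m : ∀ (S : Set Ω) (a : k), algebraMap k Ω a ∈ IntermediateField.adjoin k S := fun S a =>
    IntermediateField.algebraMap_mem _ a
  have a1 : t ∈ IntermediateField.adjoin k {t, P} := IntermediateField.subset_adjoin _ _ (by simp)
  have a2 : P ∈ IntermediateField.adjoin k {t, P} := IntermediateField.subset_adjoin _ _ (by simp)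
  have b1 : u ∈ IntermediateField.adjoin k {u, R} := IntermediateField.subset_adjoin _ _ (by simp)
  have b2 : R ∈ IntermediateField.adjoin k {u, R} := IntermediateField.subset_adjoin _ _ (by simp)
  apply le_antisymm
  · rw [IntermediateField.adjoin_le_iff, Set.insert_subset_iff, Set.singleton_subset_iff]
    rcases h with ⟨rfl, rfl⟩ | ⟨rfl, rfl⟩
    · exact ⟨mul_mem (m _ _) a1, add_mem (add_mem a2 (mul_mem (m _ _) a1)) (div_mem (m _ _) a1)⟩
    · exact ⟨div_mem (m _ _) a1,
        add_mem (add_mem (neg_mem a2) (mul_mem (m _ _) a1)) (div_mem (m _ _) a1)⟩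
  · rw [IntermediateField.adjoin_le_iff, Set.insert_subset_iff, Set.singleton_subset_iff]
    rcases h with ⟨h1, h2⟩ | ⟨h1, h2⟩
    · have e : t ∈ IntermediateField.adjoin k {u, R} := by
        have : t = u / algebraMap k Ω κ := by rw [h1]; field_simp
        exact this ▸ div_mem b1 (m _ _)
      have : P = R - algebraMap k Ω c₁ * t - algebraMap k Ω c₂ / t := by rw [h2]; ring
      exact ⟨e, this ▸ sub_mem (sub_mem b2 (mul_mem (m _ _) e)) (div_mem (m _ _) e)⟩
    · have e : t ∈ IntermediateField.adjoin k {u, R} := by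
        have : t = algebraMap k Ω κ / u := by rw [h1]; field_simp
        exact this ▸ div_mem (m _ _) b1
      have : P = -(R - algebraMap k Ω c₁ * t - algebraMap k Ω c₂ / t) := by rw [h2]; ring
      exact ⟨e, this ▸ neg_mem (sub_mem (sub_mem b2 (mul_mem (m _ _) e)) (div_mem (m _ _) e))⟩

end Ivrii.T
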