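import Pool.Agent.P.MP_7a8567_an.T.Link
import Pool.Agent.P.MP_7a8567_an.T.Proj

/-! A pencil that is imaged onto a pencil forces an isometry. -/

set_option autoImplicit false

noncomputable section

namespace Ivrii.T

variable {k Ω : Type*} [Field k] [CharZero k] [Field Ω] [Algebra k Ω] {𝔇 : DF k Ω}

theorem proj {t₀ P₀ t P z w q c : Ω} (h : 𝔇.Link t₀ P₀ t P z w q c) (hT : w ∉ cl k {t, P})
    {ta Pa z' w' : Ω} (hl : 𝔇.Line ta Pa) (h1 : ta ∈ cl k {t, P}) (h2 : Pa ∈ cl k {t, P})
    (hon : Pa = z' / ta - w' * ta) (hz : 𝔇.br w z' = 0) (hw : 𝔇.br w w' = 0) :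
    IntermediateField.adjoin k {ta, Pa} = IntermediateField.adjoin k {t, P} := by
  have : CharZero Ω := charZero_of_injective_algebraMap (algebraMap k Ω).injective
  have h' := h.symm
  have ht := h.l₁.t_ne
  have hb : 𝔇.br P t ≠ 0 := by rw [h.l₁.br]; exact ht
  have hb' : 𝔇.br t P ≠ 0 := by rw [DF.br_swap, neg_ne_zero]; exact hb
  have hX := h.l₁.closed
  have tX : t ∈ cl k {t, P} := mem_cl (by simp)
  have PX : P ∈ cl k {t, P} := mem_cl (by simp)
  have eθ : ∀ f, 𝔇.ham P f = t * 𝔇.dual t P f := fun f => by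
    rw [DF.ham_apply, DF.dual_apply, h.l₁.br]; field_simp
  have Dt : 𝔇.dual P t t = 0 := DF.dual_right _ _
  have hrot : ∀ f, 𝔇.ham P f + -(z / t + w * t) * 𝔇.dual P t f = t * 𝔇.dual t w f := fun f => by
    have a1 := (DF.isSpan_dual (𝔇 := 𝔇) t w).chain hb f
    have a2 : 𝔇.dual t w t = 1 := DF.dual_left h'.br_wt_ne
    have a3 : 𝔇.dual t w w = 0 := DF.dual_right _ _
    have a4 : 𝔇.dual t w z = 0 := by rw [h.span_z (DF.isSpan_dual t w), a3, mul_zero]
    have a5 : 𝔇.dual t w P = -(z / t ^ 2 + w) := by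
      conv_lhs => rw [h.on₁]
      rw [map_sub, Derivation.leibniz_div, Derivation.leibniz, a2, a3, a4]
      simp only [smul_eq_mul]
      field_simp
      ring
    rw [a1, a2, a5, eθ]
    field_simp
  obtain ⟨κ, c₁, c₂, hκ, hh⟩ := pj_core (𝔇.ham P) (𝔇.dual P t)
    (fun f => by
      rw [eθ, eθ, Derivation.leibniz, Dt, DF.dual_comm hb]
      simp)
    (fun f a b => by
      have a' : 𝔇.dual t P f = 0 := by simpa [eθ, ht] using a
      refine 𝔇.const f ?_ ?_
      · rw [DF.IsSpan.chain (δ := 𝔇.D₁) ⟨1, 0, fun f => by simp⟩ hb f, a', b]; simp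
      · rw [DF.IsSpan.chain (δ := 𝔇.D₂) ⟨0, 1, fun f => by simp⟩ hb f, a', b]; simp)
    (clF k {t, P}).toSubfield (fun f hf => by
      rw [DF.ham_apply]; exact hX.br_mem P PX f hf)
    (fun f hf => hX.dual_mem PX tX hf) (t := t) (P := P) (u := ta) (R := Pa)
    (y := -(z / t + w * t)) (z := z') (w := w') ht (by rw [DF.ham_apply, h.l₁.br])
    (by rw [DF.ham_apply, DF.br_self]) Dt (DF.dual_left hb') PX h1 h2 hl.t_ne
    (by
      have := DF.br_eq_dual hb' Pa ta
      rw [hl.br, h.l₁.br] at this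
      rw [eθ, eθ]
      linear_combination -this)
    (fun ha => hT (by
      have a1 : -(z / t + w * t) ∈ cl k {t, P} := by
        rw [← cl_cl]
        exact IsAlgebraic.tower_top_of_subalgebra_le (A := (clF k {t, P}).toSubalgebra)
          Algebra.subset_adjoin ha
      have a2 : w = (-(-(z / t + w * t)) - P) / (t + t) := by
        have : t + t ≠ 0 := by rw [← two_mul]; exact mul_ne_zero two_ne_zero ht
        rw [eq_div_iff this, h.on₁]
        ring
      rw [a2]
      exact cl_div (cl_sub (cl_neg a1) PX) (cl_add tX tX)))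
    (by
      have a2 : 𝔇.dual t w t = 1 := DF.dual_left h'.br_wt_ne
      have a3 : 𝔇.dual t w w = 0 := DF.dual_right _ _
      have a4 : 𝔇.dual t w z = 0 := by rw [h.span_z (DF.isSpan_dual t w), a3, mul_zero]
      rw [hrot, map_neg, map_add, Derivation.leibniz_div, Derivation.leibniz, a2, a3, a4, h.on₁]
      simp only [smul_eq_mul]
      field_simp
      ring)
    (by rw [hrot, DF.dual_apply, hz]; simp) (by rw [hrot, DF.dual_apply, hw]; simp) hon
  exact pj_adjoin ht hκ hh

end Ivrii.T
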