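import Pool.Agent.P.MP_7a8567_an.T.PT
import Pool.Agent.P.MP_7a8567_an.T.Proj2

/-! The main theorem from the algebraic case. -/

set_option autoImplicit false

open PowerSeries Ivrii.PX

noncomputable section

namespace Ivrii.T

open DF DF.Hyp

section final

variable {k Ω : Type} [Field k] [Field Ω] [Algebra k Ω] (γ : A0.Closed k Ω)

/-- The index of an integer in a period. -/
def finalR (j : ℤ) : ℕ := (j % (γ.n : ℤ)).toNat

theorem final_add {f : ℕ → Ω} (hf : ∀ j, f (j + γ.n) = f j) (j : ℤ) (m : ℕ) :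
    f (finalR γ (j + m)) = f (finalR γ j + m) := by
  have hn : (γ.n : ℤ) ≠ 0 := by have := γ.n_pos; omega
  have e : finalR γ (j + m) = (finalR γ j + m) % γ.n := by
    have h1 := Int.toNat_of_nonneg (Int.emod_nonneg (j + m) hn)
    have h2 := Int.toNat_of_nonneg (Int.emod_nonneg j hn)
    apply Int.ofNat_inj.1
    rw [Int.natCast_mod, Int.natCast_add, finalR, finalR, h1, h2, Int.emod_add_emod]
  rw [e]
  exact Function.Periodic.map_mod_nat (f := f) (a := γ.n) hf _

theorem final_succ {f : ℕ → Ω} (hf : ∀ j, f (j + γ.n) = f j) (j : ℤ) :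
    f (finalR γ j) = f (finalR γ (j - 1) + 1) := by
  have := final_add γ hf (j - 1) 1
  rwa [Nat.cast_one, sub_add_cancel] at this

/-- The differential field of a periodic chain. -/
def finalD : DF k Ω := ⟨γ.D₁, γ.D₂, γ.comm, γ.const⟩

theorem final_line (j : ℕ) : (finalD γ).Line (γ.t j) (γ.P j) := ⟨γ.t_ne j, γ.br j⟩

/-- The periodic chain indexed by the integers. -/
def finalCh : (finalD γ).Ch where
  t j := γ.t (finalR γ j)
  P j := γ.P (finalR γ j)
  z j := γ.z (finalR γ j)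
  w j := γ.w (finalR γ j)
  q j := γ.q (finalR γ j)
  c j := γ.c (finalR γ j)
  lk j :=
    { l₀ := final_line γ _
      l₁ := final_line γ _
      on₀ := by
        rw [final_succ γ γ.z_per j, final_succ γ γ.w_per j]
        exact γ.on₁ _
      on₁ := γ.on₀ _
      refl := by
        rw [final_succ γ γ.q_per j, final_succ γ γ.t_per j]
        exact γ.refl _
      dz₁ := γ.dz₁ _
      dz₂ := γ.dz₂ _
      dq₁ := γ.dq₁ _
      dq₂ := γ.dq₂ _
      c_ne := γ.c_ne _ }

theorem final_alg (a : ℤ) (m : ℕ) (h : ∀ j, a < j → j ≤ a + m → ¬ (finalCh γ).Tr j) (j : ℕ)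
    (h1 : finalR γ a < j) (h2 : j ≤ finalR γ a + m) :
    ¬ AlgebraicIndependent k ![γ.z j, γ.w j] := by
  obtain ⟨i, rfl⟩ := Nat.exists_eq_add_of_le h1.le
  intro hi
  refine h (a + i) (by omega) (by omega) ?_
  have h3 := algInd_pair.1 hi
  have h4 := (pair_symm (N := ∅) h3.1 (by rw [insert_empty_eq]; exact h3.2)).2
  rw [insert_empty_eq, ← final_add γ γ.z_per, ← final_add γ γ.w_per] at h4
  exact h4

end final

theorem final_same {k Ω : Type*} [Field k] [CharZero k] [Field Ω] [Algebra k Ω] {𝔇 : DF k Ω}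
    {t₀ P₀ t P z w q c t' P' z' w' q' c' : Ω} (h : 𝔇.Link t₀ P₀ t P z w q c)
    (h' : 𝔇.Link t P t' P' z' w' q' c') (hw : 𝔇.br w w' = 0) : z = z' := by
  have : CharZero Ω := charZero_of_injective_algebraMap (algebraMap k Ω).injective
  have ht := h.l₁.t_ne
  have a2 : 𝔇.dual t w t = 1 := DF.dual_left h.symm.br_wt_ne
  have a3 : 𝔇.dual t w w = 0 := DF.dual_right _ _
  have a4 : 𝔇.dual t w z = 0 := by rw [h.span_z (DF.isSpan_dual t w), a3, mul_zero]
  have a5 : 𝔇.dual t w w' = 0 := by rw [DF.dual_apply, hw, mul_zero]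
  have a6 : 𝔇.dual t w z' = 0 := by rw [h'.span_z (DF.isSpan_dual t w), a5, mul_zero]
  have e : z - w * (t * t) = z' - w' * (t * t) := by
    have e0 := h.on₁.symm.trans h'.on₀
    field_simp at e0
    linear_combination e0
  have e1 := congrArg (𝔇.dual t w) e
  simp only [map_sub, Derivation.leibniz, a2, a3, a4, a5, a6, smul_eq_mul] at e1
  have e2 : w = w' := by
    have h2 : (2 : Ω) * t ≠ 0 := mul_ne_zero two_ne_zero ht
    refine mul_left_cancel₀ h2 ?_
    linear_combination -e1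
  rw [e2] at e
  linear_combination e

theorem final_NI (H : NoAlg) {k Ω : Type} [Field k] [Field Ω] [Algebra k Ω] [IsAlgClosed k]
    [IsAlgClosed Ω] [CharZero k] (γ : A0.Closed k Ω) : (finalCh γ).NI := by
  intro a b hab ha hb hj hw
  obtain ⟨m, rfl⟩ : ∃ m : ℕ, b = a + m + 1 := ⟨(b - a - 1).toNat, by omega⟩
  have hl := pt_lk (finalCh γ) (a + m)
  rcases Nat.eq_zero_or_pos m with rfl | hm
  · rw [Nat.cast_zero, add_zero] at hl hw
    have e : γ.z (finalR γ a) = γ.z (finalR γ (a + 1)) := final_same ((finalCh γ).lk a) hl hw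
    rw [final_succ γ γ.z_per (a + 1), add_sub_cancel_right] at e
    exact γ.z_ne _ e
  · have hT : ∀ j, a < j → j ≤ a + m → ¬ (finalCh γ).Tr j := fun j j1 j2 => hj j j1 (by omega)
    have hr := (pt_run (finalCh γ) le_rfl (show a ≤ a + m by omega) hT).2
    have hs : (finalD γ).IsSpan ((finalD γ).ham ((finalCh γ).w a)) :=
      ⟨-(finalD γ).D₂ ((finalCh γ).w a), (finalD γ).D₁ ((finalCh γ).w a), fun f => by
        rw [DF.ham_apply, DF.br]
        ring⟩
    have hz := hl.span_z hs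
    rw [DF.ham_apply, DF.ham_apply, hw, mul_zero] at hz
    have e : IntermediateField.adjoin k
        {γ.t (finalR γ (a + m)), γ.P (finalR γ (a + m))} =
        IntermediateField.adjoin k {γ.t (finalR γ a), γ.P (finalR γ a)} :=
      proj ((finalCh γ).lk a) (fun h => ha (((finalCh γ).lk a).symm.alg_iff.2 h)) hl.l₀
        (hr ▸ mem_cl (Or.inl rfl)) (hr ▸ mem_cl (Or.inr rfl)) hl.on₀ hz hw
    rw [final_add γ γ.t_per, final_add γ γ.P_per] at e
    exact H k Ω γ (finalR γ a) m hm (final_alg γ a m hT) e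

theorem noClosed_of_core (H : NoAlg)
    (hcore : ∀ (k Ω : Type) [Field k] [Field Ω] [Algebra k Ω] [IsAlgClosed k] [IsAlgClosed Ω]
      [CharZero k] (𝔇 : DF k Ω), 𝔇.Hyp → False) : A0.NoClosed := by
  intro k Ω _ _ _ _ _ _ γ
  have hn := γ.n_pos
  by_cases h : ∃ a, (finalCh γ).Tr a
  · obtain ⟨a, ha⟩ := h
    refine pt (hcore k Ω _) γ.n (finalCh γ) (final_NI H γ) a ha ?_
    have e : (finalCh γ).w (a + γ.n) = (finalCh γ).w a :=
      (final_add γ γ.w_per a γ.n).trans (γ.w_per _)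
    rw [← e]
    exact pt_jet (finalCh γ) (show a < a + γ.n by omega) le_rfl (DF.w_mem_jet _ _)
  · refine H k Ω γ (finalR γ 0) γ.n hn
      (final_alg γ 0 γ.n fun j _ _ hj => h ⟨j, hj⟩) ?_
    rw [γ.t_per, γ.P_per]

end Ivrii.T
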