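import Pool.Agent.P.MP_7a8567_an.T.Der
import Pool.Agent.P.MP_7a8567_an.T.Sol
import Pool.Agent.P.MP_7a8567_an.T.LD

/-! Power series: independence, uniqueness of lifts, fixed elements. -/

set_option autoImplicit false

open PowerSeries

noncomputable section

namespace Ivrii.T

variable {k : Type*} [Field k] {O : Type*} [Field O] [Algebra k O]

@[simp] theorem cc_apply (f : O⟦X⟧) : cc k O f = constantCoeff f := rfl

@[simp] theorem coeff_dX (f : O⟦X⟧) (n : ℕ) :
    coeff n (dX k O f) = coeff (n + 1) f * ((n : O) + 1) := PowerSeries.coeff_derivative f n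

/-- The inclusion of power series in Laurent series as an algebra map. -/
def toL (k : Type*) [Field k] (O : Type*) [Field O] [Algebra k O] :
    O⟦X⟧ →ₐ[k] LaurentSeries O :=
  { HahnSeries.ofPowerSeries ℤ O with
    commutes' := fun c => by
      rw [PowerSeries.algebraMap_apply]
      exact HahnSeries.ofPowerSeries_C (Γ := ℤ) (algebraMap k O c) }

theorem toL_apply (f : O⟦X⟧) : toL k O f = HahnSeries.ofPowerSeries ℤ O f := rfl

theorem toL_injective : Function.Injective (toL k O) := HahnSeries.ofPowerSeries_injective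

/-- Power series with coefficients in the closure of a set, as a subalgebra. -/
def fix0S (k : Type*) [Field k] [Algebra k O] (κ : Set O) : Subalgebra k O⟦X⟧ :=
  { psub (clF k κ).toSubfield with
    algebraMap_mem' := fun c => by
      rw [PowerSeries.algebraMap_apply]
      exact C_mem_psub (K := (clF k κ).toSubfield) (cl_algebraMap κ c) }

theorem fix0_mem {κ : Set O} {f : O⟦X⟧} : f ∈ fix0S k κ ↔ ∀ n, coeff n f ∈ cl k κ := Iff.rfl

theorem fix0_li {ι : Type*} {κ : Set O} (m : ι → O⟦X⟧)
    (h : LinearIndependent (clS k κ) fun i => constantCoeff (m i)) :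
    LinearIndependent (fix0S k κ) m := by
  rw [linearIndependent_iff'] at h ⊢
  intro s c hc
  have key : ∀ n, ∀ i ∈ s, coeff n (c i).1 = 0 := by
    intro n
    induction n using Nat.strong_induction_on with
    | _ n ih =>
      intro i hi
      have h1 := h s (fun j => ⟨coeff n (c j).1, (c j).2 n⟩) (by
        have h2 := congrArg (coeff n) hc
        rw [map_sum, map_zero] at h2
        rw [← h2]
        refine Finset.sum_congr rfl fun j hj => ?_
        rw [Subalgebra.smul_def, Subalgebra.smul_def, smul_eq_mul, smul_eq_mul, coeff_mul,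
          Finset.sum_eq_single (n, 0)]
        · simp
        · intro p hp hne
          have h3 := Finset.HasAntidiagonal.mem_antidiagonal.1 hp
          have h4 : p.1 < n := by
            by_contra h5
            exact hne (Prod.ext (by simp only; omega) (by simp only; omega))
          rw [ih _ h4 j hj, zero_mul]
        · simp) i hi
      simpa using congrArg Subtype.val h1
  intro i hi
  exact Subtype.ext (PowerSeries.ext fun n => by simpa using key n i hi)

theorem fix0_ex {y : LaurentSeries O} (h : ∀ i < 0, y.coeff i = 0) :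
    y = toL k O (PowerSeries.mk fun n => y.coeff n) := by
  ext i
  rw [toL_apply, PowerSeries.coeff_coe]
  split_ifs with hi
  · exact h i hi
  · rw [coeff_mk, Int.natAbs_of_nonneg (not_lt.1 hi)]

/-- Series with independent constant terms are independent over series with coefficients in `κ`. -/
theorem ind_ser {κ : Set O} (hκ : cl k κ = κ) {I : Set O} (h : Ind k κ I) (β : O → O⟦X⟧)
    (hβ : ∀ y ∈ I, constantCoeff (β y) = y) : Ind k (ser κ) (β '' I) := by
  have e : (fix0S k κ : Set O⟦X⟧) = ser κ := by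
    ext f
    rw [SetLike.mem_coe, fix0_mem, hκ]
    rfl
  rw [ind_iff (clS k κ) (subset_cl κ) subset_rfl, algInd_iff_mono] at h
  rw [ind_iff (fix0S k κ) e.ge (e.le.trans (subset_cl _))]
  refine AlgebraicIndependent.image (f := β) ?_
  rw [algInd_iff_mono]
  refine fix0_li _ ?_
  convert! h using 2 with α
  simp only [Finsupp.prod, map_prod, map_pow]
  exact Finset.prod_congr rfl fun y _ => by rw [hβ y y.2]

theorem X_notMem_cl (a : O) : (C a + X : O⟦X⟧) ∉ cl k (Set.range (C : O →+* O⟦X⟧)) := by
  intro h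
  have h1 : (X : O⟦X⟧) ∈ cl k (Set.range (C : O →+* O⟦X⟧)) := by
    simpa using cl_sub h (mem_cl ⟨a, rfl⟩)
  obtain ⟨p, h0, hp, he⟩ := cl0_iff.1 h1
  have h2 : Algebra.adjoin k (Set.range (C : O →+* O⟦X⟧)) ≤
      (IsScalarTower.toAlgHom k O O⟦X⟧).range := by
    rw [Algebra.adjoin_le_iff]
    rintro _ ⟨c, rfl⟩
    exact ⟨c, rfl⟩
  choose c hc using fun n => h2 (hp n)
  have hc' : ∀ n, p.coeff n = C (c n) := fun n => (hc n).symm
  have h3 := congrArg (coeff p.natDegree) he
  rw [Polynomial.eval_eq_sum_range, map_sum, map_zero] at h3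
  simp only [hc', coeff_C_mul, coeff_X_pow, mul_ite, mul_one, mul_zero, Finset.sum_ite_eq,
    Finset.self_mem_range_succ, if_true] at h3
  refine Polynomial.leadingCoeff_ne_zero.2 h0 ?_
  rw [Polynomial.leadingCoeff, hc', h3, map_zero]

/-- Laurent series with coefficients in a field are quotients of power series. -/
theorem lser_subset_cl {κ : Set O} (hκ : cl k κ = κ) {f : LaurentSeries O}
    (h : ∀ i, f.coeff i ∈ κ) : f ∈ cl k (toL k O '' ser κ) := by
  have hX : (X : O⟦X⟧) ∈ ser κ := fun n => hκ ▸ X_mem_psub (clF k κ).toSubfield n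
  have h1 : (HahnSeries.single 1 1 : LaurentSeries O) ∈ clF k (toL k O '' ser κ) :=
    mem_cl ⟨X, hX, HahnSeries.ofPowerSeries_X⟩
  rw [← f.single_order_mul_powerSeriesPart, RatFunc.single_zpow]
  refine cl_mul (zpow_mem h1 _) (mem_cl ⟨_, fun n => ?_, rfl⟩)
  rw [LaurentSeries.powerSeriesPart_coeff]
  exact h _

variable [CharZero k]

/-- Series algebraic over series with coefficients in `κ` have coefficients in `κ`. -/
theorem coeff_mem_of_cl {κ : Set O} (hκ : cl k κ = κ) {S : Set (LaurentSeries O)}
    (hS : ∀ g ∈ S, ∀ i, g.coeff i ∈ κ) {f : LaurentSeries O} (h : f ∈ cl k S) (i : ℤ) :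
    f.coeff i ∈ κ := by
  by_contra hi
  rw [← hκ] at hi
  obtain ⟨δ, h0, h1⟩ := exists_der_one hi
  have h2 := der_cl_zero (PX.dcoef δ) (S := S) (fun g hg => by
    ext j
    exact h0 _ (mem_cl (hS g hg j))) f h
  have h3 := congrArg (fun g => HahnSeries.coeff g i) h2
  simp only [PX.coeff_dcoef, h1, HahnSeries.coeff_zero] at h3
  exact one_ne_zero h3

theorem ser_of_cl {κ : Set O} (hκ : cl k κ = κ) : cl k (ser κ) = ser κ := by
  refine Set.Subset.antisymm (fun f hf n => ?_) (subset_cl _)
  by_contra hi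
  rw [← hκ] at hi
  obtain ⟨δ, h0, h1⟩ := exists_der_one hi
  have h2 := der_cl_zero (pcoef δ) (S := ser κ) (fun g hg => by
    ext j
    rw [coeff_pcoef, map_zero]
    exact h0 _ (mem_cl (hg j))) f hf
  have h3 := congrArg (coeff n) h2
  rw [coeff_pcoef, h1, map_zero] at h3
  exact one_ne_zero h3

omit [CharZero k] in
/-- The valuation is trivial on the closure of two series with independent residues. -/
theorem triv {a b : O⟦X⟧} (i1 : constantCoeff a ∉ cl k (∅ : Set O))
    (i2 : constantCoeff b ∉ cl k {constantCoeff a}) {y : LaurentSeries O}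
    (hy : y ∈ cl k {toL k O a, toL k O b}) : ∃ g ∈ cl k {a, b}, y = toL k O g := by
  have key : ∀ z ∈ cl k {toL k O a, toL k O b}, (∀ i < 0, z.coeff i = 0) →
      (PowerSeries.mk fun n => z.coeff n) ∈ cl k {a, b} := fun z hz h => by
    rw [← cl_map_iff (toL k O) toL_injective, Set.image_pair, ← fix0_ex h]
    exact hz
  by_cases h : ∀ i < 0, y.coeff i = 0
  · exact ⟨_, key y hy h, fix0_ex h⟩
  push Not at h
  obtain ⟨i, hi, h0⟩ := h
  have hy0 : y ≠ 0 := fun h => h0 (by simp [h])
  have h1 := HahnSeries.order_le_of_coeff_ne_zero h0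
  have h2 := HahnSeries.order_mul hy0 (inv_ne_zero hy0)
  rw [mul_inv_cancel₀ hy0, HahnSeries.order_one] at h2
  have h3 : ∀ j ≤ 0, y⁻¹.coeff j = 0 := fun j hj =>
    HahnSeries.coeff_eq_zero_of_lt_order (by omega)
  have h4 : ∀ j < 0, y⁻¹.coeff j = 0 := fun j hj => h3 j hj.le
  have h5 := inj_of_pair (cc k O) i1 i2 _ (key _ (cl_inv hy) h4) (by
    rw [cc_apply, ← coeff_zero_eq_constantCoeff_apply, coeff_mk]
    exact h3 _ le_rfl)
  have h6 := fix0_ex (k := k) h4
  rw [h5, map_zero] at h6
  exact absurd h6 (inv_ne_zero hy0)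

end Ivrii.T
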