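import Pool.Agent.P.MP_7a8567_an.T.Sol

set_option autoImplicit false

/-!
The involution that exchanges the two points of a nearly tangent line.
-/

open PowerSeries

noncomputable section

namespace Ivrii.T.C4

variable {k O : Type*} [Field k] [CharZero k] [Field O] [Algebra k O]

lemma exists_flow1 {B : Type*} [CommRing B] [Algebra k B] (ρ : B →ₐ[k] O)
    (δ : Derivation k B B) (a : O⟦X⟧) :
    ∃ ψ : B →ₐ[k] O⟦X⟧, (∀ f, constantCoeff (ψ f) = ρ f) ∧
      ∀ f, d⁄dX O (ψ f) = a * ψ (δ f) := by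
  obtain ⟨ψ, h0, h⟩ := exists_flow' ρ ![δ] ![a]
  exact ⟨ψ, h0, fun f => by simpa using h f⟩

lemma exists_flow2 {B : Type*} [CommRing B] [Algebra k B] (ρ : B →ₐ[k] O)
    (δ ε : Derivation k B B) (a b : O⟦X⟧) :
    ∃ ψ : B →ₐ[k] O⟦X⟧, (∀ f, constantCoeff (ψ f) = ρ f) ∧
      ∀ f, d⁄dX O (ψ f) = a * ψ (δ f) + b * ψ (ε f) := by
  obtain ⟨ψ, h0, h⟩ := exists_flow' ρ ![δ, ε] ![a, b]
  exact ⟨ψ, h0, fun f => by simpa using h f⟩

lemma coeff_one_eq (f : O⟦X⟧) : coeff 1 f = constantCoeff (d⁄dX O f) := by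
  rw [← coeff_zero_eq_constantCoeff_apply, coeff_derivative]
  simp

variable [CharZero O]

lemma uniq1 {B : Type*} (s : Set B) (δ : B → B) (hs : ∀ f ∈ s, δ f ∈ s) (a : O⟦X⟧)
    (ψ φ : B → O⟦X⟧) (h0 : ∀ f ∈ s, constantCoeff (ψ f) = constantCoeff (φ f))
    (hψ : ∀ f ∈ s, d⁄dX O (ψ f) = a * ψ (δ f)) (hφ : ∀ f ∈ s, d⁄dX O (φ f) = a * φ (δ f)) :
    ∀ f ∈ s, ψ f = φ f :=
  sol_unique s (fun _ : Unit => δ) (fun _ => hs) (fun _ => a) ψ φ h0 (by simpa using hψ)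
    (by simpa using hφ)

lemma uniq2 {B : Type*} (s : Set B) (δ ε : B → B) (hs : ∀ f ∈ s, δ f ∈ s)
    (hs' : ∀ f ∈ s, ε f ∈ s) (a b : O⟦X⟧)
    (ψ φ : B → O⟦X⟧) (h0 : ∀ f ∈ s, constantCoeff (ψ f) = constantCoeff (φ f))
    (hψ : ∀ f ∈ s, d⁄dX O (ψ f) = a * ψ (δ f) + b * ψ (ε f))
    (hφ : ∀ f ∈ s, d⁄dX O (φ f) = a * φ (δ f) + b * φ (ε f)) : ∀ f ∈ s, ψ f = φ f :=
  sol_unique s ![δ, ε] (by simpa [Fin.forall_fin_two] using ⟨hs, hs'⟩) ![a, b] ψ φ h0
    (by simpa using hψ) (by simpa using hφ)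

lemma psub1 {B : Type*} {K : Subfield O} (s : Set B) (δ : B → B) (hs : ∀ f ∈ s, δ f ∈ s)
    {a : O⟦X⟧} (ha : a ∈ psub K) (ψ : B → O⟦X⟧) (h0 : ∀ f ∈ s, constantCoeff (ψ f) ∈ K)
    (hψ : ∀ f ∈ s, d⁄dX O (ψ f) = a * ψ (δ f)) : ∀ f ∈ s, ψ f ∈ psub K :=
  mem_psub_of_ode s (fun _ : Unit => δ) (fun _ => hs) (fun _ => a) (fun _ => ha) ψ h0
    (by simpa using hψ)

lemma psub2 {B : Type*} {K : Subfield O} (s : Set B) (δ ε : B → B) (hs : ∀ f ∈ s, δ f ∈ s)
    (hs' : ∀ f ∈ s, ε f ∈ s) {a b : O⟦X⟧} (ha : a ∈ psub K) (hb : b ∈ psub K)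
    (ψ : B → O⟦X⟧) (h0 : ∀ f ∈ s, constantCoeff (ψ f) ∈ K)
    (hψ : ∀ f ∈ s, d⁄dX O (ψ f) = a * ψ (δ f) + b * ψ (ε f)) : ∀ f ∈ s, ψ f ∈ psub K :=
  mem_psub_of_ode s ![δ, ε] (by simpa [Fin.forall_fin_two] using ⟨hs, hs'⟩) ![a, b]
    (by simpa [Fin.forall_fin_two] using ⟨ha, hb⟩) ψ h0 (by simpa using hψ)

/-- The second point of the curve on the line of direction `t'`. -/
theorem exists_second (Dd : Derivation k O O) (K : Subfield O) (hK : ∀ f ∈ K, Dd f ∈ K)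
    {z q c : O} (hz : z ∈ K) (hdz : Dd z = q) (hdq : Dd q = c) (hc : c ≠ 0)
    {v : O⟦X⟧} (hv : v ∈ psub K) (hv0 : constantCoeff v = q) :
    ∃ (τ : O →ₐ[k] O⟦X⟧) (u : O⟦X⟧), u ∈ psub K ∧ constantCoeff u = 0 ∧
      coeff 1 u * c = 2 * coeff 1 v ∧ (∀ f, constantCoeff (τ f) = f) ∧
      (∀ f, d⁄dX O (τ f) = d⁄dX O u * τ (Dd f)) ∧ τ z = C z + u * v := by
  obtain ⟨tay, t0, t1⟩ := exists_flow1 (AlgHom.id k O) Dd 1
  simp only [one_mul, AlgHom.id_apply] at t0 t1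
  have tK : ∀ f ∈ K, tay f ∈ psub K :=
    psub1 (K : Set O) Dd hK (psub K).one_mem tay (fun f hf => by rwa [t0])
      (fun f _ => by rw [one_mul, t1])
  obtain ⟨G, hG⟩ : (X : O⟦X⟧) ∣ tay z - C z := X_dvd_iff.2 (by simp [t0])
  have GK : G ∈ psub K := mem_psub_of_X_mul (hG ▸ (psub K).sub_mem (tK z hz) (C_mem_psub hz))
  have hG1 : G + X * d⁄dX O G = tay q := by
    have := congrArg (d⁄dX O) hG
    rw [map_sub, t1, hdz, derivative_C, sub_zero, Derivation.leibniz, derivative_X] at this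
    rw [this, smul_eq_mul, smul_eq_mul]
    ring
  have G0 : constantCoeff G = q := by simpa [t0] using congrArg constantCoeff hG1
  have G1 : 2 * constantCoeff (d⁄dX O G) = c := by
    have := congrArg (fun f => constantCoeff (d⁄dX O f)) hG1
    simp only [map_add, Derivation.leibniz, derivative_X, t1, hdq, t0, smul_eq_mul, map_mul,
      constantCoeff_X, zero_mul, mul_one, zero_add] at this
    linear_combination this
  have G1' : constantCoeff (d⁄dX O G) ≠ 0 := fun h => hc (by rw [← G1, h, mul_zero])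
  obtain ⟨ψ, p0, p1⟩ := exists_flow1 (cc k O) ((d⁄dX O G)⁻¹ • dX k O) (d⁄dX O v)
  replace p0 : ∀ f, constantCoeff (ψ f) = constantCoeff f := p0
  simp only [Derivation.smul_apply, smul_eq_mul, dX_apply] at p1
  have hi := inv_mem_psub (der_mem_psub GK) G1'
  have pK : ∀ f ∈ psub K, ψ f ∈ psub K :=
    psub1 (psub K : Set O⟦X⟧) (fun f => (d⁄dX O G)⁻¹ * d⁄dX O f)
      (fun f hf => (psub K).mul_mem hi (der_mem_psub hf)) (der_mem_psub hv) ψ
      (fun f hf => by rw [p0]; exact cc_mem hf) (fun f _ => p1 f)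
  have pC : ∀ a, ψ (C a) = C a := fun a => eq_of_der (by rw [p0]) (by simp [p1])
  have pG : ψ G = v := eq_of_der (by rw [p0, G0, hv0]) (by
    rw [p1, PowerSeries.inv_mul_cancel _ G1', map_one, mul_one])
  have pX : d⁄dX O (ψ X) = d⁄dX O v * ψ (d⁄dX O G)⁻¹ := by rw [p1, derivative_X, mul_one]
  refine ⟨ψ.comp tay, ψ X, pK _ (X_mem_psub K), by simp [p0], ?_, fun f => by simp [p0, t0],
    fun f => ?_, ?_⟩
  · rw [coeff_one_eq, coeff_one_eq, pX, map_mul, p0, constantCoeff_inv, ← G1]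
    field_simp
  · simp only [AlgHom.comp_apply]
    rw [p1, t1, map_mul, pX, mul_assoc]
  · simp only [AlgHom.comp_apply]
    rw [eq_add_of_sub_eq' hG, map_add, map_mul, pC, pG]

omit [CharZero O] in
lemma coeff_one_mul (f g : O⟦X⟧) :
    coeff 1 (f * g) = constantCoeff f * coeff 1 g + coeff 1 f * constantCoeff g := by
  simp only [coeff_one_eq, Derivation.leibniz, smul_eq_mul, map_add, map_mul]
  ring

/-- The involution. -/
theorem exists_inv (Dd : Derivation k O O) (K : Subfield O) (hK : ∀ f ∈ K, Dd f ∈ K)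
    {s z w q c : O} (hsK : s ∈ K) (hz : z ∈ K) (hs0 : s ≠ 0) (hs : s ^ 2 = q)
    (hdz : Dd z = q) (hdw : Dd w = 1) (hdq : Dd q = c) (hc : c ≠ 0) {t' P' : O⟦X⟧}
    (ht' : t' * (C s + X) = C q) (hP' : P' * t' = C z - C w * t' ^ 2) :
    ∃ (g : O⟦X⟧ →ₐ[k] O⟦X⟧) (u p : O⟦X⟧), (∀ f, constantCoeff (g f) = constantCoeff f) ∧
      (∀ f, d⁄dX O (g f) = d⁄dX O u * g (pcoef Dd f) + d⁄dX O p * g (d⁄dX O f)) ∧
      g t' = t' ∧ g P' = P' ∧ (∀ f ∈ psub K, g f ∈ psub K) ∧ coeff 1 (g X) = -1 ∧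
      (∀ f, coeff 1 (g (C f)) * Dd s = -2 * Dd f) ∧ Dd s ≠ 0 ∧ u ≠ 0 ∧
      g (C w) = C w + u ∧ g (C z) = C z + u * t' ^ 2 := by
  have hq : q ∈ K := hs ▸ K.pow_mem hsK 2
  have h0 : constantCoeff (C s + X : O⟦X⟧) ≠ 0 := by simpa using hs0
  have t'K : t' ∈ psub K := mem_psub_of_mul
    ((psub K).add_mem (C_mem_psub hsK) (X_mem_psub K)) h0 (by
      rw [mul_comm, ht']; exact C_mem_psub hq)
  have t0 : constantCoeff t' = s := by
    have := congrArg constantCoeff ht'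
    simp only [map_mul, map_add, constantCoeff_C, constantCoeff_X, add_zero] at this
    exact mul_right_cancel₀ hs0 (by rw [this, ← hs, sq])
  have t1 : coeff 1 t' = -1 := by
    have := congrArg (coeff 1) ht'
    rw [coeff_one_mul, t0] at this
    simp only [map_add, coeff_succ_C, coeff_one_X, constantCoeff_C, constantCoeff_X] at this
    exact mul_right_cancel₀ hs0 (by linear_combination this)
  have hds : 2 * s * Dd s = c := by
    rw [← hdq, ← hs, Derivation.leibniz_pow]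
    simp only [nsmul_eq_mul, smul_eq_mul]
    norm_num
    ring
  have hds0 : Dd s ≠ 0 := fun h => hc (by rw [← hds, h, mul_zero])
  obtain ⟨τ, u, uK, u0, u1, τ0, τ1, τz⟩ := exists_second Dd K hK hz hdz hdq hc
    ((psub K).pow_mem t'K 2) (by rw [map_pow, t0, hs])
  have u1' : coeff 1 u * Dd s = -2 := by
    rw [sq, coeff_one_mul, t0, t1, ← hds] at u1
    exact mul_left_cancel₀ (mul_ne_zero two_ne_zero hs0) (by linear_combination u1)
  have τK : ∀ f ∈ K, τ f ∈ psub K :=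
    psub1 (K : Set O) Dd hK (der_mem_psub uK) τ (fun f hf => by rwa [τ0]) fun f _ => τ1 f
  have τw : τ w = C w + u := eq_of_der (by simp [τ0, u0]) (by simp [τ1, hdw])
  have t0' : constantCoeff t' ≠ 0 := t0 ▸ hs0
  have hti : t' * t'⁻¹ = 1 := PowerSeries.mul_inv_cancel _ t0'
  set p := τ q * t'⁻¹ - τ s with hp
  have pK : p ∈ psub K :=
    (psub K).sub_mem ((psub K).mul_mem (τK q hq) (inv_mem_psub t'K t0')) (τK s hsK)
  have p0 : constantCoeff p = 0 := by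
    rw [hp, map_sub, map_mul, τ0, τ0, constantCoeff_inv, t0, ← hs]
    field_simp
    ring
  obtain ⟨g, g0, g1⟩ := exists_flow2 (cc k O) (pcoef Dd) (dX k O) (d⁄dX O u) (d⁄dX O p)
  replace g0 : ∀ f, constantCoeff (g f) = constantCoeff f := g0
  simp only [dX_apply] at g1
  have gC : ∀ f, g (C f) = τ f := fun f =>
    uniq1 Set.univ Dd (fun _ _ => trivial) (d⁄dX O u) (fun f => g (C f)) τ
      (fun f _ => by simp [g0, τ0]) (fun f _ => by simp [g1]) (fun f _ => τ1 f) f trivial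
  have gX : g X = p := eq_of_der (by simp [g0, p0]) (by simp [g1])
  have gt : g (C s + X) * t' = τ q := by
    rw [map_add, gC, gX, hp]
    linear_combination τ q * hti
  have hne : g (C s + X) ≠ 0 := fun h => h0 (by rw [← g0, h, map_zero])
  have gt' : g t' = t' := by
    have := congrArg g ht'
    rw [map_mul, gC, ← gt] at this
    exact mul_right_cancel₀ hne (by rw [this, mul_comm])
  have τ1' : ∀ f, coeff 1 (τ f) = coeff 1 u * Dd f := fun f => by
    rw [coeff_one_eq, coeff_one_eq, τ1, map_mul, τ0]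
  refine ⟨g, u, p, g0, g1, gt', ?_, ?_, ?_, fun f => ?_, hds0, fun h => ?_, by rw [gC, τw],
    by rw [gC, τz]⟩
  · have := congrArg g hP'
    rw [map_mul, map_sub, map_mul, map_pow, gt', gC, gC, τz, τw] at this
    have hne' : t' ≠ 0 := fun h => t0' (by rw [h, map_zero])
    exact mul_right_cancel₀ hne' (by rw [this, hP']; ring)
  · exact psub2 (psub K : Set O⟦X⟧) (pcoef Dd) (d⁄dX O) (fun f hf => pcoef_mem_psub hK hf)
      (fun f hf => der_mem_psub hf) (der_mem_psub uK) (der_mem_psub pK) g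
      (fun f hf => by rw [g0]; exact cc_mem hf) fun f _ => g1 f
  · have := congrArg (coeff 1) gt
    rw [coeff_one_mul, g0, t0, t1, map_add, map_add, map_add, gC, τ1', τ1', hdq, ← hds] at this
    simp only [constantCoeff_C, constantCoeff_X] at this
    exact mul_right_cancel₀ hs0 (by linear_combination this + s * u1')
  · rw [gC, τ1']
    linear_combination Dd f * u1'
  · rw [h] at u1'
    simp at u1'

end Ivrii.T.C4
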