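import Pool.Agent.P.MP_7a8567_an.T.Link0

/-! Links. -/

set_option autoImplicit false

noncomputable section

namespace Ivrii.T

namespace DF

variable {k Ω : Type*} [Field k] [CharZero k] [Field Ω] [Algebra k Ω] {𝔇 : DF k Ω}

omit [CharZero k] in
theorem link_span₁ : 𝔇.IsSpan 𝔇.D₁ := ⟨1, 0, fun _ => by ring⟩

omit [CharZero k] in
theorem link_span₂ : 𝔇.IsSpan 𝔇.D₂ := ⟨0, 1, fun _ => by ring⟩

/-- The constants of a derivation. -/
def linkKer (δ : Derivation k Ω Ω) : IntermediateField k Ω :=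
  Subalgebra.toIntermediateField
    { carrier := {f | δ f = 0}
      mul_mem' := fun {a b} ha hb => by
        simp only [Set.mem_ofPred_eq] at ha hb ⊢
        rw [Derivation.leibniz, ha, hb, smul_zero, smul_zero, add_zero]
      add_mem' := fun {a b} ha hb => by
        simp only [Set.mem_ofPred_eq] at ha hb ⊢
        rw [map_add, ha, hb, add_zero]
      algebraMap_mem' := fun c => δ.map_algebraMap c }
    fun a ha => by
      have ha' : δ a = 0 := ha
      show δ a⁻¹ = 0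
      rw [Derivation.leibniz_inv, ha', smul_zero]

namespace Link

variable {t P t' P' z w q c : Ω} (h : 𝔇.Link t P t' P' z w q c)
include h

omit [CharZero k] in
theorem symm : 𝔇.Link t' P' t P z w q c :=
  ⟨h.l₁, h.l₀, h.on₁, h.on₀, h.refl.trans (mul_comm _ _), h.dz₁, h.dz₂, h.dq₁, h.dq₂, h.c_ne⟩

omit [CharZero k] in
theorem link_z {δ : Derivation k Ω Ω} (hδ : 𝔇.IsSpan δ) : δ z = q * δ w := by
  obtain ⟨a, b, hab⟩ := hδ
  rw [hab z, hab w, h.dz₁, h.dz₂]
  ring

omit [CharZero k] in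
theorem link_Pt : P * t = z - w * (t * t) := by
  have ht := h.l₀.t_ne
  rw [h.on₀]
  field_simp

omit [CharZero k] in
theorem link_dP {δ : Derivation k Ω Ω} (hδ : 𝔇.IsSpan δ) :
    δ P = (t' - t) * δ w - (z / t ^ 2 + w) * δ t := by
  have ht := h.l₀.t_ne
  have e := congrArg δ h.link_Pt
  simp only [map_sub, Derivation.leibniz, smul_eq_mul] at e
  rw [h.link_z hδ, h.refl] at e
  have e1 : t * (z / t ^ 2) = P + w * t := by
    rw [h.on₀]
    field_simp
    ring
  refine mul_left_cancel₀ ht ?_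
  linear_combination e + δ t * e1

omit [CharZero k] in
theorem br_wt : (t' - t) * 𝔇.br w t = t := by
  have e := h.l₀.br
  rw [br, h.link_dP link_span₁, h.link_dP link_span₂] at e
  rw [br]
  linear_combination e

omit [CharZero k] in
theorem br_wt_ne : 𝔇.br w t ≠ 0 := by
  intro h0
  have e := h.br_wt
  rw [h0, mul_zero] at e
  exact h.l₀.t_ne e.symm

omit [CharZero k] in
theorem br_tw_ne : 𝔇.br t w ≠ 0 := by
  rw [br_swap]
  exact neg_ne_zero.2 h.br_wt_ne

omit [CharZero k] in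
theorem t_ne_t' : t ≠ t' := by
  intro h0
  have e := h.br_wt
  rw [← h0, sub_self, zero_mul] at e
  exact h.l₀.t_ne e.symm

omit [CharZero k] in
theorem q_ne : q ≠ 0 := by
  rw [h.refl]
  exact mul_ne_zero h.l₀.t_ne h.l₁.t_ne

omit [CharZero k] in
theorem span_z {δ : Derivation k Ω Ω} (hδ : 𝔇.IsSpan δ) : δ z = q * δ w := by
  exact h.link_z hδ

omit [CharZero k] in
theorem span_q {δ : Derivation k Ω Ω} (hδ : 𝔇.IsSpan δ) : δ q = c * δ w := by
  obtain ⟨a, b, hab⟩ := hδ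
  rw [hab q, hab w, h.dq₁, h.dq₂]
  ring

omit [CharZero k] in
theorem q_mem_jet : q ∈ 𝔇.jet z w := by
  exact jet_closed (z_mem_jet z w) h.dz₁ h.dz₂

omit [CharZero k] in
theorem c_mem_jet : c ∈ 𝔇.jet z w := by
  exact jet_closed h.q_mem_jet h.dq₁ h.dq₂

omit [CharZero k] in
theorem link_br_jet {f : Ω} (hf : f ∈ 𝔇.jet z w) : 𝔇.ham w f = 0 := by
  have hle : 𝔇.jet z w ≤ linkKer (𝔇.ham w) := by
    refine sInf_le ⟨?_, ?_, fun f _ g h1 h2 => ?_⟩
    · show 𝔇.ham w z = 0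
      rw [ham_apply, br, h.dz₁, h.dz₂]
      ring
    · show 𝔇.ham w w = 0
      rw [ham_apply, br_self]
    · show 𝔇.ham w g = 0
      have e := 𝔇.comm f
      rw [h1, h2, Derivation.leibniz, Derivation.leibniz, 𝔇.comm w] at e
      simp only [smul_eq_mul] at e
      rw [ham_apply, br]
      linear_combination -e
  exact hle hf

omit [CharZero k] in
theorem link_chain {f : Ω} (hf : 𝔇.ham w f = 0) {δ : Derivation k Ω Ω} (hδ : 𝔇.IsSpan δ) :
    δ f = 𝔇.dual w t f * δ w := by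
  rw [ham_apply] at hf
  rw [hδ.chain h.br_tw_ne f, dual_apply t w f, hf]
  ring

omit [CharZero k] in
theorem link_dual_jet {f : Ω} (hf : f ∈ 𝔇.jet z w) : 𝔇.dual w t f ∈ 𝔇.jet z w :=
  jet_closed hf (h.link_chain (h.link_br_jet hf) link_span₁)
    (h.link_chain (h.link_br_jet hf) link_span₂)

omit [CharZero k] in
/-- Every jet has a derivative with respect to `w`. -/
theorem jet_deriv {f : Ω} (hf : f ∈ 𝔇.jet z w) :
    ∃ g ∈ 𝔇.jet z w, ∀ δ : Derivation k Ω Ω, 𝔇.IsSpan δ → δ f = g * δ w := by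
  exact ⟨_, h.link_dual_jet hf, fun _ hδ => h.link_chain (h.link_br_jet hf) hδ⟩

theorem cl_jet_deriv {f : Ω} (hf : f ∈ cl k (𝔇.jet z w : Set Ω)) :
    ∃ g ∈ cl k (𝔇.jet z w : Set Ω), ∀ δ : Derivation k Ω Ω, 𝔇.IsSpan δ → δ f = g * δ w := by
  refine ⟨𝔇.dual w t f, der_cl_mem (𝔇.dual w t) (subset_cl _)
    (fun a ha => mem_cl (h.link_dual_jet ha)) f hf, fun _ hδ => h.link_chain ?_ hδ⟩
  exact der_cl_zero (𝔇.ham w) (fun a ha => h.link_br_jet ha) f hf

theorem t_notMem : t ∉ cl k (𝔇.jet z w : Set Ω) := by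
  intro ht
  have e := der_cl_zero (𝔇.ham w) (fun a ha => h.link_br_jet ha) t ht
  rw [ham_apply] at e
  exact h.br_wt_ne e

theorem w_notMem : w ∉ cl k (∅ : Set Ω) := by
  exact (indep_of_br h.br_tw_ne).1

omit [CharZero k] in
theorem z_mem_cl : z ∈ cl k {t, P, w} := by
  have e : z = P * t + w * (t * t) := by rw [h.link_Pt, sub_add_cancel]
  have ht : t ∈ cl k ({t, P, w} : Set Ω) := mem_cl (by simp)
  rw [e]
  exact cl_add (cl_mul (mem_cl (by simp)) ht) (cl_mul (mem_cl (by simp)) (cl_mul ht ht))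

theorem w_mem_cl : w ∈ cl k {t, P, z} := by
  have ht : t ∈ cl k ({t, P, z} : Set Ω) := mem_cl (by simp)
  have e : t * t * w = z - P * t := by linear_combination h.link_Pt
  refine cl_of_mul (cl_mul ht ht) (mul_ne_zero h.l₀.t_ne h.l₀.t_ne) ?_
  rw [e]
  exact cl_sub (mem_cl (by simp)) (cl_mul (mem_cl (by simp)) ht)

omit [CharZero k] in
theorem line_mem : P ∈ cl k (insert t (𝔇.jet z w : Set Ω)) ∧
    t' ∈ cl k (insert t (𝔇.jet z w : Set Ω)) ∧ P' ∈ cl k (insert t (𝔇.jet z w : Set Ω)) := by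
  have ht : t ∈ cl k (insert t (𝔇.jet z w : Set Ω)) := mem_cl (Set.mem_insert _ _)
  have hz : z ∈ cl k (insert t (𝔇.jet z w : Set Ω)) :=
    mem_cl (Set.mem_insert_of_mem _ (z_mem_jet z w))
  have hw : w ∈ cl k (insert t (𝔇.jet z w : Set Ω)) :=
    mem_cl (Set.mem_insert_of_mem _ (w_mem_jet z w))
  have hq : q ∈ cl k (insert t (𝔇.jet z w : Set Ω)) :=
    mem_cl (Set.mem_insert_of_mem _ h.q_mem_jet)
  have ht' : t' ∈ cl k (insert t (𝔇.jet z w : Set Ω)) :=
    cl_of_mul ht h.l₀.t_ne (h.refl ▸ hq)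
  refine ⟨?_, ht', ?_⟩
  · rw [h.on₀]
    exact cl_sub (cl_div hz ht) (cl_mul hw ht)
  · rw [h.on₁]
    exact cl_sub (cl_div hz ht') (cl_mul hw ht')

/-- A link is algebraic exactly when its point is algebraic over the line. -/
theorem alg_iff : z ∈ cl k {w} ↔ w ∈ cl k {t, P} := by
  have h0 : 𝔇.br P t ≠ 0 := by
    rw [h.l₀.br]
    exact h.l₀.t_ne
  constructor
  · intro hz
    have ht : t ∈ cl k (insert w ({t} : Set Ω)) := mem_cl (by simp)
    have hw : w ∈ cl k (insert w ({t} : Set Ω)) := mem_cl (by simp)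
    have hz' : z ∈ cl k (insert w ({t} : Set Ω)) := cl_mono (by simp) hz
    have hP : P ∈ cl k (insert w ({t} : Set Ω)) := by
      rw [h.on₀]
      exact cl_sub (cl_div hz' ht) (cl_mul hw ht)
    rw [Set.pair_comm]
    exact cl_exchange hP (indep_of_br h0).2
  · intro hw
    by_contra hz
    have h1 : P ∈ cl k (insert w ({t} : Set Ω)) :=
      cl_exchange (by rwa [Set.pair_comm] at hw) (indep_of_br h.br_wt_ne).2
    have h2 : z ∈ cl k (insert t ({w} : Set Ω)) := by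
      rw [Set.pair_comm]
      refine cl_subset_cl ?_ h.z_mem_cl
      rintro y (rfl | rfl | rfl)
      exacts [mem_cl (by simp), h1, mem_cl (by simp)]
    refine h.t_notMem (cl_mono ?_ (cl_exchange h2 hz))
    rintro y (rfl | rfl)
    exacts [z_mem_jet _ _, w_mem_jet _ _]

omit [CharZero k] in
theorem jet_subset {X : Set Ω} (hX : 𝔇.Closed X) (ht : t ∈ X) (hP : P ∈ X) (hw : w ∈ X) :
    (𝔇.jet z w : Set Ω) ⊆ X := by
  have hz : z ∈ cl k X := by
    refine cl_mono ?_ h.z_mem_cl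
    rintro y (rfl | rfl | rfl)
    exacts [ht, hP, hw]
  have hle := jet_le (clF k X) hz (mem_cl hw) (isSpan_dual (𝔇 := 𝔇) w t)
    (by rw [dual_left h.br_tw_ne]; exact one_ne_zero) fun f hf => by
      rw [mem_clF, hX.cl_eq] at hf ⊢
      exact hX.dual_mem hw ht hf
  intro y hy
  rw [← hX.cl_eq]
  exact hle hy

theorem closed_union {X : Set Ω} (hX : 𝔇.Closed X) (ht : t ∈ X) (hP : P ∈ X) :
    𝔇.Closed (cl k (X ∪ (𝔇.jet z w : Set Ω))) := by
  have h0 : 𝔇.br P t ≠ 0 := by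
    rw [h.l₀.br]
    exact h.l₀.t_ne
  have hL : ∀ y ∈ X, y ∈ cl k (X ∪ (𝔇.jet z w : Set Ω)) := fun y hy => mem_cl (Or.inl hy)
  have hR : ∀ y ∈ 𝔇.jet z w, y ∈ cl k (X ∪ (𝔇.jet z w : Set Ω)) := fun y hy => mem_cl (Or.inr hy)
  have ht' : t' ∈ cl k (X ∪ (𝔇.jet z w : Set Ω)) :=
    cl_of_mul (hL t ht) h.l₀.t_ne (h.refl ▸ hR q h.q_mem_jet)
  have key : ∀ δ : Derivation k Ω Ω, 𝔇.IsSpan δ → (∀ y ∈ X, δ y ∈ X) →
      ∀ y ∈ X ∪ (𝔇.jet z w : Set Ω), δ y ∈ cl k (X ∪ (𝔇.jet z w : Set Ω)) := by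
    rintro δ hδ hδX y (hy | hy)
    · exact hL _ (hδX y hy)
    · obtain ⟨g, hg, e⟩ := h.jet_deriv hy
      rw [e δ hδ]
      refine cl_mul (hR g hg) (cl_of_mul (cl_sub ht' (hL t ht)) (sub_ne_zero.2 h.t_ne_t'.symm) ?_)
      have e1 : (t' - t) * δ w = δ P + (z / t ^ 2 + w) * δ t := by
        rw [h.link_dP hδ, sub_add_cancel]
      rw [e1]
      exact cl_add (hL _ (hδX P hP)) (cl_mul (cl_add (cl_div (hR z (z_mem_jet z w))
        (cl_pow (hL t ht) 2)) (hR w (w_mem_jet z w))) (hL _ (hδX t ht)))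
  refine closed_cl h0 ?_ (key _ (isSpan_dual t P) fun y hy => hX.dual_mem ht hP hy)
    (key _ (isSpan_dual P t) fun y hy => hX.dual_mem hP ht hy)
  rw [h.l₀.br]
  exact hL t ht

theorem link_line_le (ha : z ∈ cl k {w}) : cl k {t', P'} ⊆ cl k {t, P} := by
  have ht : t ∈ cl k ({t, P} : Set Ω) := mem_cl (by simp)
  have hj := h.jet_subset h.l₀.closed ht (mem_cl (by simp)) (h.alg_iff.1 ha)
  have hs : cl k (insert t (𝔇.jet z w : Set Ω)) ⊆ cl k {t, P} :=
    cl_subset_cl (Set.insert_subset ht hj)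
  refine cl_subset_cl ?_
  rintro y (rfl | rfl)
  exacts [hs h.line_mem.2.1, hs h.line_mem.2.2]

/-- An algebraic link does not change the algebraic closure of the field of the line. -/
theorem cl_line_eq (ha : z ∈ cl k {w}) : cl k {t', P'} = cl k {t, P} := by
  exact (h.link_line_le ha).antisymm (h.symm.link_line_le ha)

/-- The tangent lines of a transcendental mirror, with all its jets varying, are generic. -/
theorem tangent_indep (hT : z ∉ cl k {w}) {s : Ω} (hs : s ^ 2 = q) :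
    s ∉ cl k (∅ : Set Ω) ∧ z / s - w * s ∉ cl k {s} := by
  have : CharZero Ω := charZero_of_injective_algebraMap (algebraMap k Ω).injective
  have hs0 : s ≠ 0 := by
    rintro rfl
    exact h.q_ne (by rw [← hs]; simp)
  have hw1 : 𝔇.dual w t w = 1 := dual_left h.br_tw_ne
  have hz1 := h.span_z (isSpan_dual w t)
  have hq1 := h.span_q (isSpan_dual w t)
  rw [hw1, mul_one] at hz1 hq1
  have hD : 𝔇.dual w t s ≠ 0 := by
    intro h0
    rw [← hs, sq, Derivation.leibniz, h0, smul_zero, add_zero] at hq1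
    exact h.c_ne hq1.symm
  refine ⟨fun h1 => hD (der_cl_zero _ (fun x hx => absurd hx (Set.notMem_empty x)) s h1),
    fun h1 => ?_⟩
  have hss : s ∈ cl k ({s} : Set Ω) := mem_cl rfl
  have h2 := der_cl_mem ((𝔇.dual w t s)⁻¹ • 𝔇.dual w t) (subset_cl {s}) (fun a ha => by
    rw [Set.mem_singleton_iff.1 ha, Derivation.smul_apply, smul_eq_mul, inv_mul_cancel₀ hD]
    exact cl_one _) _ h1
  have e0 : (z / s - w * s) * s = z - w * (s * s) := by field_simp
  have e1 := congrArg (𝔇.dual w t) e0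
  rw [Derivation.leibniz, map_sub (𝔇.dual w t) z, Derivation.leibniz, Derivation.leibniz, hz1,
    hw1, ← hs] at e1
  simp only [smul_eq_mul] at e1
  rw [Derivation.smul_apply, smul_eq_mul] at h2
  have e2 : 2 * s * w =
      -(s * ((𝔇.dual w t s)⁻¹ * 𝔇.dual w t (z / s - w * s))) - (z / s - w * s) := by
    refine mul_left_cancel₀ hD ?_
    have e3 : 𝔇.dual w t s * (𝔇.dual w t s)⁻¹ = 1 := mul_inv_cancel₀ hD
    linear_combination e1 + s * 𝔇.dual w t (z / s - w * s) * e3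
  have hw : w ∈ cl k ({s} : Set Ω) := by
    refine cl_of_mul (a := 2 * s) (cl_mul (by exact_mod_cast cl_natCast _ 2) hss)
      (mul_ne_zero two_ne_zero hs0) ?_
    rw [e2]
    exact cl_sub (cl_neg (cl_mul hss h2)) h1
  have hz : z ∈ cl k ({s} : Set Ω) := by
    have e4 : z = (z / s - w * s) * s + w * (s * s) := by rw [e0, sub_add_cancel]
    rw [e4]
    exact cl_add (cl_mul h1 hss) (cl_mul hw (cl_mul hss hss))
  exact not_two (N := ∅) (x := s) h.w_notMem (by simpa using hT) (by simpa using hw)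
    (by simpa using hz)

end Link

end DF

end Ivrii.T
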