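import Pool.Agent.P.MP_7a8567_an.T.Der

/-! Brackets, lines, links, jets. -/

set_option autoImplicit false

noncomputable section

namespace Ivrii.T

namespace DF

variable {k Ω : Type*} [Field k] [CharZero k] [Field Ω] [Algebra k Ω] {𝔇 : DF k Ω}

omit [CharZero k] in
theorem ham_apply (f g : Ω) : 𝔇.ham f g = 𝔇.br f g := by
  simp [ham, br]

omit [CharZero k] in
theorem dual_apply (f g h : Ω) : 𝔇.dual f g h = (𝔇.br g f)⁻¹ * 𝔇.br g h := by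
  simp [dual, ham_apply]

omit [CharZero k] in
theorem br_swap (f g : Ω) : 𝔇.br f g = -𝔇.br g f := by
  simp only [br]
  ring

omit [CharZero k] in
theorem br_self (f : Ω) : 𝔇.br f f = 0 := by
  simp only [br]
  ring

omit [CharZero k] in
theorem dual_left {f g : Ω} (h : 𝔇.br g f ≠ 0) : 𝔇.dual f g f = 1 := by
  rw [dual_apply, inv_mul_cancel₀ h]

omit [CharZero k] in
theorem dual_right (f g : Ω) : 𝔇.dual f g g = 0 := by
  rw [dual_apply, br_self, mul_zero]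

omit [CharZero k] in
theorem isSpan_dual (f g : Ω) : 𝔇.IsSpan (𝔇.dual f g) := by
  refine ⟨-((𝔇.br g f)⁻¹ * 𝔇.D₂ g), (𝔇.br g f)⁻¹ * 𝔇.D₁ g, fun h => ?_⟩
  rw [dual_apply, br, br]
  ring

omit [CharZero k] in
theorem IsSpan.add_smul {δ δ' : Derivation k Ω Ω} (h : 𝔇.IsSpan δ) (h' : 𝔇.IsSpan δ') (a : Ω) :
    𝔇.IsSpan (δ + a • δ') := by
  obtain ⟨u, v, huv⟩ := h
  obtain ⟨u', v', huv'⟩ := h'
  refine ⟨u + a * u', v + a * v', fun f => ?_⟩
  simp only [Derivation.add_apply, Derivation.smul_apply, smul_eq_mul, huv, huv']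
  ring

omit [CharZero k] in
/-- The chain rule in the coordinates `f, g`. -/
theorem IsSpan.chain {δ : Derivation k Ω Ω} (h : 𝔇.IsSpan δ) {f g : Ω} (h0 : 𝔇.br g f ≠ 0)
    (y : Ω) : δ y = δ f * 𝔇.dual f g y + δ g * 𝔇.dual g f y := by
  obtain ⟨u, v, huv⟩ := h
  rw [dual_apply, dual_apply, br_swap f g, huv y, huv f, huv g, inv_neg]
  refine mul_left_cancel₀ h0 ?_
  have e : 𝔇.br g f * (𝔇.br g f)⁻¹ = 1 := mul_inv_cancel₀ h0
  have e2 : 𝔇.br g f * (u * 𝔇.D₁ y + v * 𝔇.D₂ y) = (u * 𝔇.D₁ f + v * 𝔇.D₂ f) * 𝔇.br g y -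
      (u * 𝔇.D₁ g + v * 𝔇.D₂ g) * 𝔇.br f y := by
    simp only [br]
    ring
  rw [e2]
  linear_combination (-((u * 𝔇.D₁ f + v * 𝔇.D₂ f) * 𝔇.br g y) +
    (u * 𝔇.D₁ g + v * 𝔇.D₂ g) * 𝔇.br f y) * e

omit [CharZero k] in
/-- Two span derivations commute if their commutator kills two coordinates. -/
theorem IsSpan.comm {δ δ' : Derivation k Ω Ω} (h : 𝔇.IsSpan δ) (h' : 𝔇.IsSpan δ') {f g : Ω}
    (h0 : 𝔇.br g f ≠ 0) (hf : δ (δ' f) = δ' (δ f)) (hg : δ (δ' g) = δ' (δ g)) (y : Ω) :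
    δ (δ' y) = δ' (δ y) := by
  have hs : 𝔇.IsSpan ⁅δ, δ'⁆ := by
    obtain ⟨u, v, huv⟩ := h
    obtain ⟨u', v', huv'⟩ := h'
    refine ⟨δ u' - δ' u, δ v' - δ' v, fun x => ?_⟩
    rw [Derivation.commutator_apply, huv' x, huv x]
    simp only [map_add, Derivation.leibniz, smul_eq_mul]
    rw [huv (𝔇.D₁ x), huv (𝔇.D₂ x), huv' (𝔇.D₁ x), huv' (𝔇.D₂ x), 𝔇.comm x]
    ring
  have e := hs.chain h0 y
  rw [Derivation.commutator_apply, Derivation.commutator_apply, Derivation.commutator_apply, hf,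
    hg, sub_self, sub_self, zero_mul, zero_mul, add_zero] at e
  exact sub_eq_zero.1 e

omit [CharZero k] in
theorem dual_comm {f g : Ω} (h0 : 𝔇.br g f ≠ 0) (y : Ω) :
    𝔇.dual f g (𝔇.dual g f y) = 𝔇.dual g f (𝔇.dual f g y) := by
  have h1 : 𝔇.br f g ≠ 0 := by
    rw [br_swap]
    exact neg_ne_zero.2 h0
  refine (isSpan_dual f g).comm (isSpan_dual g f) h0 ?_ ?_ y
  · rw [dual_right, dual_left h0, map_zero, Derivation.map_one_eq_zero]
  · rw [dual_right, dual_left h1, map_zero, Derivation.map_one_eq_zero]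

omit [CharZero k] in
theorem const_of_dual {f g : Ω} (h0 : 𝔇.br g f ≠ 0) {y : Ω} (h1 : 𝔇.dual f g y = 0)
    (h2 : 𝔇.dual g f y = 0) : y ∈ cl k (∅ : Set Ω) := by
  have e1 := IsSpan.chain (𝔇 := 𝔇) (δ := 𝔇.D₁) ⟨1, 0, fun _ => by ring⟩ h0 y
  have e2 := IsSpan.chain (𝔇 := 𝔇) (δ := 𝔇.D₂) ⟨0, 1, fun _ => by ring⟩ h0 y
  rw [h1, h2, mul_zero, mul_zero, add_zero] at e1 e2
  obtain ⟨a, rfl⟩ := 𝔇.const y e1 e2
  exact cl_algebraMap _ a

omit [CharZero k] in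
/-- The bracket in the coordinates `f, g`. -/
theorem br_eq_dual {f g : Ω} (h0 : 𝔇.br g f ≠ 0) (a b : Ω) :
    𝔇.br a b =
      𝔇.br f g * (𝔇.dual f g a * 𝔇.dual g f b - 𝔇.dual g f a * 𝔇.dual f g b) := by
  have e1 := IsSpan.chain (𝔇 := 𝔇) (δ := 𝔇.D₁) ⟨1, 0, fun _ => by ring⟩ h0
  have e2 := IsSpan.chain (𝔇 := 𝔇) (δ := 𝔇.D₂) ⟨0, 1, fun _ => by ring⟩ h0
  rw [br, br, e1 a, e1 b, e2 a, e2 b]
  ring

theorem br_zero_of_mem_cl {a y : Ω} (h : y ∈ cl k {a}) : 𝔇.br a y = 0 := by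
  rw [← ham_apply]
  refine der_cl_zero (𝔇.ham a) (fun x hx => ?_) y h
  rw [Set.mem_singleton_iff.1 hx, ham_apply, br_self]

theorem indep_of_br {f g : Ω} (h0 : 𝔇.br g f ≠ 0) : f ∉ cl k (∅ : Set Ω) ∧ g ∉ cl k {f} := by
  refine ⟨fun h => h0 ?_, fun h => h0 ?_⟩
  · rw [← ham_apply]
    exact der_cl_zero (𝔇.ham g) (fun x hx => absurd hx (Set.notMem_empty x)) f h
  · rw [br_swap, br_zero_of_mem_cl h, neg_zero]

omit [CharZero k] in
theorem Closed.dual_mem {X : Set Ω} (h : 𝔇.Closed X) {f g y : Ω} (hf : f ∈ X) (hg : g ∈ X)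
    (hy : y ∈ X) : 𝔇.dual f g y ∈ X := by
  rw [dual_apply, ← h.cl_eq]
  exact cl_mul (cl_inv (mem_cl (h.br_mem g hg f hf))) (mem_cl (h.br_mem g hg y hy))

/-- A criterion for a closure to be closed under the bracket. -/
theorem closed_cl {S : Set Ω} {f g : Ω} (h0 : 𝔇.br g f ≠ 0) (hb : 𝔇.br g f ∈ cl k S)
    (h1 : ∀ y ∈ S, 𝔇.dual f g y ∈ cl k S) (h2 : ∀ y ∈ S, 𝔇.dual g f y ∈ cl k S) :
    𝔇.Closed (cl k S) := by
  have a1 := der_cl_mem (𝔇.dual f g) (subset_cl S) h1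
  have a2 := der_cl_mem (𝔇.dual g f) (subset_cl S) h2
  refine ⟨cl_cl S, fun a ha b hb' => ?_⟩
  rw [br_eq_dual h0, br_swap f g]
  exact cl_mul (cl_neg hb) (cl_sub (cl_mul (a1 a ha) (a2 b hb')) (cl_mul (a2 a ha) (a1 b hb')))

theorem Line.closed {t P : Ω} (h : 𝔇.Line t P) : 𝔇.Closed (cl k {t, P}) := by
  have h0 : 𝔇.br P t ≠ 0 := by
    rw [h.br]
    exact h.t_ne
  have h1 : 𝔇.br t P ≠ 0 := by
    rw [br_swap]
    exact neg_ne_zero.2 h0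
  refine closed_cl h0 ?_ ?_ ?_
  · rw [h.br]
    exact mem_cl (Set.mem_insert _ _)
  · rintro y (rfl | rfl)
    · rw [dual_left h0]
      exact cl_one _
    · rw [dual_right]
      exact cl_zero _
  · rintro y (rfl | rfl)
    · rw [dual_right]
      exact cl_zero _
    · rw [dual_left h1]
      exact cl_one _

omit [CharZero k] in
theorem z_mem_jet (z w : Ω) : z ∈ 𝔇.jet z w := by
  exact IntermediateField.mem_sInf.2 fun _ hK => hK.1

omit [CharZero k] in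
theorem w_mem_jet (z w : Ω) : w ∈ 𝔇.jet z w := by
  exact IntermediateField.mem_sInf.2 fun _ hK => hK.2.1

omit [CharZero k] in
theorem jet_closed {z w f g : Ω} (hf : f ∈ 𝔇.jet z w) (h1 : 𝔇.D₁ f = g * 𝔇.D₁ w)
    (h2 : 𝔇.D₂ f = g * 𝔇.D₂ w) : g ∈ 𝔇.jet z w := by
  exact IntermediateField.mem_sInf.2 fun K hK =>
    hK.2.2 f (IntermediateField.mem_sInf.1 hf K hK) g h1 h2

omit [CharZero k] in
/-- A field stable under a span derivation that does not kill `w` contains the jets. -/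
theorem jet_le {z w : Ω} (K : IntermediateField k Ω) (hz : z ∈ K) (hw : w ∈ K)
    {δ : Derivation k Ω Ω} (hδ : 𝔇.IsSpan δ) (h0 : δ w ≠ 0) (hK : ∀ f ∈ K, δ f ∈ K) :
    𝔇.jet z w ≤ K := by
  refine sInf_le ⟨hz, hw, fun f hf g h1 h2 => ?_⟩
  obtain ⟨u, v, huv⟩ := hδ
  have e : g = δ f / δ w := by
    rw [eq_div_iff h0, huv f, huv w, h1, h2]
    ring
  rw [e]
  exact K.div_mem (hK f hf) (hK w hw)

end DF

end Ivrii.T
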