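import Pool.Agent.P.MP_7a8567_an.T.Final
import Pool.Agent.P.MP_7a8567_an.T.Core

/-! The transcendental half. -/

set_option autoImplicit false

namespace Ivrii.T

theorem noClosed (H : NoAlg) : A0.NoClosed :=
  noClosed_of_core H fun _ _ _ _ _ _ _ _ _ h => core h

end Ivrii.T
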