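import Pool.Agent.P.MP_7a8567_an.T.FR

/-! A transcendental point is not algebraic over the rest of the chain. -/

set_option autoImplicit false

open PowerSeries Ivrii.PX

noncomputable section

namespace Ivrii.T

open DF DF.Hyp

section M

variable {k Ω : Type*} [Field k] [Field Ω] [Algebra k Ω] {𝔇 : DF k Ω} (γ : 𝔇.Ch)

/-- The jets at the point number `j`. -/
abbrev ptJ (j : ℤ) : Set Ω := (𝔇.jet (γ.z j) (γ.w j) : Set Ω)

theorem pt_lk (j : ℤ) : 𝔇.Link (γ.t j) (γ.P j) (γ.t (j + 1)) (γ.P (j + 1)) (γ.z (j + 1))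
    (γ.w (j + 1)) (γ.q (j + 1)) (γ.c (j + 1)) := by
  have := γ.lk (j + 1)
  rwa [add_sub_cancel_right] at this

theorem pt_cl (a b : ℤ) : cl k (γ.M a b) = γ.M a b := cl_cl _

theorem pt_sub {S : Set Ω} {a b : ℤ} (h : S ⊆ γ.M a b) : cl k S ⊆ γ.M a b := cl_subset_cl h

theorem pt_jet {a b j : ℤ} (h1 : a < j) (h2 : j ≤ b) : ptJ γ j ⊆ γ.M a b := fun _ hx =>
  mem_cl (Or.inr (Set.mem_biUnion (show j ∈ Set.Ioc a b from ⟨h1, h2⟩) hx))

theorem pt_le {a b : ℤ} {S : Set Ω} (ht : γ.t a ∈ cl k S) (hP : γ.P a ∈ cl k S)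
    (hj : ∀ j, a < j → j ≤ b → ptJ γ j ⊆ cl k S) : γ.M a b ⊆ cl k S := by
  refine cl_subset_cl (Set.union_subset ?_ (Set.iUnion₂_subset fun j h => hj j h.1 h.2))
  rintro x (rfl | rfl)
  exacts [ht, hP]

theorem pt_line {a b j : ℤ} (h1 : a ≤ j) (h2 : j ≤ b) : γ.t j ∈ γ.M a b ∧ γ.P j ∈ γ.M a b := by
  induction j, h1 using Int.le_induction with
  | base => exact ⟨mem_cl (Or.inl (Or.inl rfl)), mem_cl (Or.inl (Or.inr rfl))⟩
  | succ j h ih =>
    have h3 := pt_sub γ (Set.insert_subset (ih (by omega)).1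
      (pt_jet γ (show a < j + 1 by omega) h2))
    exact ⟨h3 (pt_lk γ j).line_mem.2.1, h3 (pt_lk γ j).line_mem.2.2⟩

theorem pt_mono {a b a' b' : ℤ} (h1 : a' ≤ a) (h2 : a ≤ b') (h3 : b ≤ b') :
    γ.M a b ⊆ γ.M a' b' :=
  pt_le γ (pt_line γ h1 h2).1 (pt_line γ h1 h2).2
    fun _ j1 j2 => pt_jet γ (by omega) (by omega)

theorem pt_succ {a b : ℤ} (h : a ≤ b) : γ.M a (b + 1) = cl k (γ.M a b ∪ ptJ γ (b + 1)) := by
  apply Set.Subset.antisymm
  · refine pt_le γ (mem_cl (Or.inl (pt_line γ le_rfl h).1))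
      (mem_cl (Or.inl (pt_line γ le_rfl h).2)) fun j j1 j2 x hx => ?_
    rcases j2.eq_or_lt with rfl | j3
    · exact mem_cl (Or.inr hx)
    · exact mem_cl (Or.inl (pt_jet γ j1 (by omega) hx))
  · exact pt_sub γ (Set.union_subset (pt_mono γ le_rfl (by omega) (by omega))
      (pt_jet γ (by omega) le_rfl))

theorem pt_pred {a b : ℤ} (h : a ≤ b) : γ.M (a - 1) b = cl k (γ.M a b ∪ ptJ γ a) := by
  apply Set.Subset.antisymm
  · have h3 : cl k (insert (γ.t a) (ptJ γ a)) ⊆ cl k (γ.M a b ∪ ptJ γ a) :=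
      cl_mono (Set.insert_subset (Or.inl (pt_line γ le_rfl h).1) Set.subset_union_right)
    refine pt_le γ (h3 (γ.lk a).symm.line_mem.2.1) (h3 (γ.lk a).symm.line_mem.2.2)
      fun j j1 j2 x hx => ?_
    rcases (show a ≤ j by omega).eq_or_lt with rfl | j3
    · exact mem_cl (Or.inr hx)
    · exact mem_cl (Or.inl (pt_jet γ j3 j2 hx))
  · exact pt_sub γ (Set.union_subset (pt_mono γ (by omega) h le_rfl)
      (pt_jet γ (by omega) h))

theorem pt_self (a : ℤ) : γ.M a a = cl k {γ.t a, γ.P a} := by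
  simp [Ch.M]

/-- The reversed chain. -/
def ptRev : 𝔇.Ch where
  t j := γ.t (-j)
  P j := γ.P (-j)
  z j := γ.z (1 - j)
  w j := γ.w (1 - j)
  q j := γ.q (1 - j)
  c j := γ.c (1 - j)
  lk j := by
    have := (γ.lk (1 - j)).symm
    rwa [show 1 - j - 1 = -j by ring, show γ.t (1 - j) = γ.t (-(j - 1)) by congr 1; ring,
      show γ.P (1 - j) = γ.P (-(j - 1)) by congr 1; ring] at this

theorem pt_rev_sub {a b : ℤ} (h : a ≤ b) : γ.M (-b) (-a) ⊆ (ptRev γ).M a b := by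
  refine pt_le γ (pt_line (ptRev γ) h le_rfl).1 (pt_line (ptRev γ) h le_rfl).2 fun j j1 j2 => ?_
  have := pt_jet (ptRev γ) (show a < 1 - j by omega) (show 1 - j ≤ b by omega)
  simp only [ptJ, ptRev, sub_sub_cancel] at this
  exact this

theorem pt_rev_NI (h : γ.NI) : (ptRev γ).NI := by
  intro a b hab ha hb hj
  have := h (1 - b) (1 - a) (by omega) hb ha fun j j1 j2 hT =>
    hj (1 - j) (by omega) (by omega) (by simpa [Ch.Tr, ptRev] using hT)
  rw [br_swap] at this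
  exact neg_ne_zero.1 this

variable [CharZero k]

theorem pt_closed {a b : ℤ} (h : a ≤ b) : 𝔇.Closed (γ.M a b) := by
  induction b, h using Int.le_induction with
  | base => rw [pt_self]; exact (γ.lk a).l₁.closed
  | succ b h ih =>
    rw [pt_succ γ h]
    exact (pt_lk γ b).closed_union ih (pt_line γ h le_rfl).1 (pt_line γ h le_rfl).2

theorem pt_alg {a b : ℤ} (h : a ≤ b) (hT : ¬ γ.Tr (b + 1)) : γ.M a (b + 1) = γ.M a b := by
  have h1 := pt_line γ h le_rfl
  have hw : γ.w (b + 1) ∈ γ.M a b :=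
    pt_sub γ (Set.insert_subset h1.1 (Set.singleton_subset_iff.2 h1.2))
      ((pt_lk γ b).alg_iff.1 (not_not.1 hT))
  rw [pt_succ γ h, Set.union_eq_left.2 ((pt_lk γ b).jet_subset (pt_closed γ h) h1.1 h1.2 hw),
    pt_cl]

theorem pt_run {a j b : ℤ} (h : a ≤ j) (h' : j ≤ b) (hT : ∀ i, j < i → i ≤ b → ¬ γ.Tr i) :
    γ.M a b = γ.M a j ∧ cl k {γ.t b, γ.P b} = cl k {γ.t j, γ.P j} := by
  induction b, h' using Int.le_induction with
  | base => exact ⟨rfl, rfl⟩
  | succ b h' ih =>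
    have h1 := ih fun i i1 i2 => hT i i1 (by omega)
    have h2 := hT (b + 1) (by omega) le_rfl
    exact ⟨(pt_alg γ (by omega) h2).trans h1.1,
      ((pt_lk γ b).cl_line_eq (not_not.1 h2)).trans h1.2⟩

end M

variable {k Ω : Type*} [Field k] [CharZero k] [IsAlgClosed k] [Field Ω] [IsAlgClosed Ω]
  [Algebra k Ω] {𝔇 : DF k Ω}

theorem pt (hcore : 𝔇.Hyp → False) (N : ℕ) :
    ∀ γ : 𝔇.Ch, γ.NI → ∀ a : ℤ, γ.Tr a → γ.w a ∉ γ.M a (a + N) := by
  induction N using Nat.strong_induction_on with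
  | _ N ih =>
  intro γ hNI a hTa hw
  rcases N with _ | N
  · rw [Nat.cast_zero, add_zero, pt_self] at hw
    exact hTa ((γ.lk a).symm.alg_iff.2 hw)
  have rev : ∀ b e : ℤ, b ≤ e - 1 → e - 1 ≤ b + N → γ.Tr e → γ.w e ∉ γ.M b (e - 1) := by
    intro b e h1 h2 hT hm
    obtain ⟨n, hn⟩ : ∃ n : ℕ, e - 1 = b + n := ⟨(e - 1 - b).toNat, by omega⟩
    refine ih n (by omega) (ptRev γ) (pt_rev_NI γ hNI) (1 - e)
      (by simpa [Ch.Tr, ptRev] using hT) ?_
    have := pt_rev_sub γ (show 1 - e ≤ 1 - e + n by omega)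
    rw [show -(1 - e + n) = b by omega, show -(1 - e) = e - 1 by ring] at this
    simpa [ptRev] using this hm
  obtain ⟨d, hd⟩ : ∃ d : ℤ, d = a + N := ⟨_, rfl⟩
  have had : a ≤ d := by omega
  rw [show a + ((N + 1 : ℕ) : ℤ) = d + 1 by omega] at hw
  have hwX : γ.w a ∉ γ.M a d := hd ▸ ih N (by omega) γ hNI a hTa
  have hTe : γ.Tr (d + 1) := by
    by_contra h
    exact hwX (pt_alg γ had h ▸ hw)
  have heX : γ.w (d + 1) ∉ γ.M a d := by
    have := rev a (d + 1) (by omega) (by omega) hTe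
    rwa [add_sub_cancel_right] at this
  have la := pt_line γ le_rfl (show a ≤ d + 1 by omega)
  by_cases hex : ∃ j, a < j ∧ j ≤ d ∧ γ.Tr j
  swap
  · have hno : ∀ i, a < i → i ≤ d → ¬ γ.Tr i := fun i i1 i2 h => hex ⟨i, i1, i2, h⟩
    obtain ⟨e1, e2⟩ := pt_run γ le_rfl had hno
    have hs : γ.M a (d + 1) ⊆ cl k (insert (γ.t d) (ptJ γ (d + 1))) := by
      rw [pt_succ γ had, e1, pt_self, ← e2]
      refine cl_subset_cl (Set.union_subset (cl_subset_cl (Set.insert_subset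
        (mem_cl (Or.inl rfl)) (Set.singleton_subset_iff.2 (pt_lk γ d).line_mem.1)))
        fun x hx => mem_cl (Or.inr hx))
    have hz : γ.z a ∈ γ.M a (d + 1) := pt_sub γ (Set.insert_subset la.1 (Set.insert_subset la.2
      (Set.singleton_subset_iff.2 hw))) (γ.lk a).symm.z_mem_cl
    exact ld_link (γ.lk a) hTa (pt_lk γ d)
      (hNI a (d + 1) (by omega) hTa hTe fun i i1 i2 => hno i i1 (by omega)) (hs hz) (hs hw)
  obtain ⟨j, ⟨j1, j2, hTj⟩, hmax⟩ := Int.exists_greatest_of_bdd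
    (P := fun j => a < j ∧ j ≤ d ∧ γ.Tr j) ⟨d, fun z hz => hz.2.1⟩ hex
  have hno : ∀ i, j < i → i ≤ d → ¬ γ.Tr i := fun i i1 i2 h =>
    absurd (hmax i ⟨by omega, i2, h⟩) (by omega)
  obtain ⟨i, rfl⟩ : ∃ i, j = i + 1 := ⟨j - 1, by ring⟩
  have hai : a ≤ i := by omega
  obtain ⟨e1, e2⟩ := pt_run γ (show a ≤ i + 1 by omega) j2 hno
  obtain ⟨e3, -⟩ := pt_run γ (show a - 1 ≤ i + 1 by omega) j2 hno
  have li := pt_line γ hai le_rfl
  have lai := pt_line γ le_rfl hai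
  have ja : ptJ γ a ⊆ γ.M (a - 1) i := pt_jet γ (by omega) hai
  refine hcore
    { t := γ.t i, P := γ.P i, t' := γ.t (i + 1), P' := γ.P (i + 1), z := γ.z (i + 1)
      w := γ.w (i + 1), q := γ.q (i + 1), c := γ.c (i + 1)
      LL := γ.M (a - 1) i, Mm := γ.M a i
      t1 := γ.t a, P1 := γ.P a, z1 := γ.z a, w1 := γ.w a
      te := γ.t d, Pe := γ.P d, tf := γ.t (d + 1), Pf := γ.P (d + 1), zC := γ.z (d + 1)
      wC := γ.w (d + 1), qC := γ.q (d + 1), cC := γ.c (d + 1)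
      lk := pt_lk γ i
      LLc := pt_closed γ (by omega)
      Mmc := pt_closed γ hai
      sub := pt_mono γ (by omega) hai le_rfl
      tM := li.1
      PM := li.2
      wL := ?_
      l1 := (γ.lk a).l₁
      t1M := lai.1
      P1M := lai.2
      z1L := ja (z_mem_jet _ _)
      w1L := ja (w_mem_jet _ _)
      on1 := (γ.lk a).on₁
      br1 := by rw [br, (γ.lk a).dz₁, (γ.lk a).dz₂]; ring
      i1 := (γ.lk a).w_notMem
      i2 := hTa
      w1M := fun h => hwX (pt_mono γ le_rfl had (by omega) h)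
      lkC := pt_lk γ d
      teF := e2 ▸ mem_cl (Or.inl rfl)
      PeF := e2 ▸ mem_cl (Or.inr rfl)
      wCK := fun h => heX (pt_sub γ (Set.insert_subset (pt_line γ hai (by omega)).1
        (pt_jet γ j1 j2)) h)
      rel1 := ?_
      rel2 := ?_ }
  · have := rev (a - 1) (i + 1) (by omega) (by omega) hTj
    rwa [add_sub_cancel_right] at this
  · rw [← pt_succ γ (show a - 1 ≤ i by omega), ← e3]
    by_contra hn
    have ld := pt_line γ (show a - 1 ≤ d by omega) le_rfl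
    have ld' := pt_line γ had le_rfl
    obtain ⟨I, -, hI, hJ⟩ := fr (pt_lk γ d) (pt_closed γ (show a - 1 ≤ d by omega)) ld.1 ld.2 hn
    have h1 : γ.M a (d + 1) ⊆ cl k (γ.M a d ∪ I) := by
      rw [pt_succ γ had]
      refine cl_subset_cl (Set.union_subset (fun x hx => mem_cl (Or.inl hx))
        (hJ.trans (cl_mono (Set.union_subset_union_left _ (Set.insert_subset ld'.1
          (Set.singleton_subset_iff.2 ld'.2))))))
    have h2 := hI.mem_cl (X := γ.M a d) (y := γ.w a)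
      ((pt_mono γ (by omega) had le_rfl).trans (subset_cl _))
      (mem_cl (pt_jet γ (by omega) had (w_mem_jet _ _))) (h1 hw)
    rw [pt_cl] at h2
    exact hwX h2
  · have h1 : γ.M a (d + 1) ⊆ cl k (γ.M a i ∪ ptJ γ (i + 1) ∪ ptJ γ (d + 1)) := by
      rw [pt_succ γ had, e1, pt_succ γ hai]
      exact cl_subset_cl (Set.union_subset (cl_mono Set.subset_union_left)
        fun x hx => mem_cl (Or.inr hx))
    refine Set.Subset.trans ?_ h1
    rw [pt_pred γ hai]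
    exact pt_sub γ (Set.union_subset (pt_mono γ le_rfl (by omega) (by omega))
      ((γ.lk a).symm.jet_subset (pt_closed γ (by omega)) la.1 la.2 hw))

end Ivrii.T
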