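import Mathlib
import Pool.Agent.P.MP_7a8567_an.T.Ber

set_option autoImplicit false

/-!
(LD2) and (REG): a regular extension is linearly disjoint from every field that is free from it.
-/

namespace Ivrii.T

open Finset AlgebraicIndependent Polynomial

variable {F Ω : Type*} [Field F] [Field Ω] [Algebra F Ω] [CharZero F]

theorem reg_fin (K E : IntermediateField F Ω) [FiniteDimensional F K]
    (hE : ∀ y ∈ E, IsAlgebraic F y → y ∈ Set.range (algebraMap F Ω)) : K.LinearDisjoint E := by
  let pb := Field.powerBasisOfFiniteOfSeparable F K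
  have hi : IsIntegral F (pb.gen : Ω) := pb.isIntegral_gen.map K.val
  have h1 : minpoly E (pb.gen : Ω) ∈ lifts (algebraMap F E) := by
    have h2 := integralClosure.mem_lifts_of_monic_of_dvd_map E (minpoly.monic hi)
      (minpoly.monic hi.tower_top) (minpoly.dvd_map_of_isScalarTower F E (pb.gen : Ω))
    rw [lifts_iff_coeff_lifts] at h2 ⊢
    intro n
    obtain ⟨y, hy⟩ := h2 n
    obtain ⟨a, ha⟩ := hE _ (y : E).2 (IsIntegral.map E.val y.2).isAlgebraic
    exact ⟨a, (Subtype.ext ha).trans hy⟩
  have h3 : (minpoly E (pb.gen : Ω)).natDegree = pb.dim := by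
    rw [← minpoly.map_algebraMap hi h1, natDegree_map, ← pb.natDegree_minpoly]
    exact congrArg natDegree (minpoly.algHom_eq K.val K.val.injective pb.gen)
  refine .of_basis_left pb.basis ?_
  have h4 := linearIndependent_pow (K := E) (pb.gen : Ω)
  rw [h3] at h4
  convert h4 using 1
  ext i
  simp

/-- Independent elements of a regular extension stay independent over the algebraic closure. -/
theorem reg_acl {ι : Type*} (E : IntermediateField F Ω)
    (hE : ∀ y ∈ E, IsAlgebraic F y → y ∈ Set.range (algebraMap F Ω)) {f : ι → Ω}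
    (hfE : ∀ i, f i ∈ E) (hf : LinearIndependent F f) :
    LinearIndependent (algebraicClosure F Ω) f := by
  classical
  rw [linearIndependent_iff']
  intro s c hc i hi
  let K := IntermediateField.adjoin F ((s.image fun i => (c i : Ω) : Finset Ω) : Set Ω)
  have : FiniteDimensional F K := IntermediateField.finiteDimensional_adjoin fun x hx => by
    obtain ⟨j, -, rfl⟩ := mem_image.1 (mem_coe.1 hx)
    exact (mem_algebraicClosure_iff.1 (c j).2).isIntegral
  have hK : ∀ j ∈ s, (c j : Ω) ∈ K := fun j hj =>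
    IntermediateField.subset_adjoin _ _ (mem_coe.2 (mem_image_of_mem _ hj))
  have h1 : LinearIndependent F fun i => (⟨f i, hfE i⟩ : E) :=
    LinearIndependent.of_comp E.val.toLinearMap hf
  have h2 := (reg_fin K E hE).symm.linearIndependent_left h1
  have h3 := linearIndependent_iff'.1 h2 s (fun j => if h : j ∈ s then ⟨c j, hK j h⟩ else 0) (by
    rw [← hc]
    refine sum_congr rfl fun j hj => ?_
    rw [dif_pos hj]
    rfl) i hi
  rw [dif_pos hi] at h3
  exact Subtype.ext (congrArg (fun y : K => (y : Ω)) h3)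

/-- (LD2) Here `F` is algebraically closed in `A`, `b` is independent over `A`, and `B` is
algebraic over `F (b)`. -/
theorem ld2 {ι J : Type*} (A : IntermediateField F Ω)
    (hA : ∀ y ∈ A, IsAlgebraic F y → y ∈ Set.range (algebraMap F Ω))
    (hA' : ∀ y, IsAlgebraic A y → y ∈ A)
    {b : J → Ω} (hb : AlgebraicIndependent A b) (B : Subfield Ω)
    (hB : ∀ y ∈ B, y ∈ (matroid F Ω).closure (Set.range b)) {f : ι → Ω}
    (hfA : ∀ i, f i ∈ A) (hf : LinearIndependent F f) : LinearIndependent B f := by
  have : CharZero Ω := charZero_of_injective_algebraMap (algebraMap F Ω).injective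
  refine ld_lin' {δ : Derivation F Ω Ω | (∀ y ∈ A, δ y ∈ A) ∧ ∀ j, δ (b j) = 0} A.toSubfield
    (fun δ hδ => hδ.1) (fun y hy h => hA y hy ?_) B
    (fun δ hδ c hc => der_zero_cl δ (by rintro _ ⟨j, rfl⟩; exact hδ.2 j) (hB c hc)) hfA hf
  have h1 : IsAlgebraic F (⟨y, hy⟩ : A) := isAlg_of_der (k := F) fun δ _ => by
    obtain ⟨Δ, h1, h2⟩ := ext_der' δ hb fun _ => 0
    have h3 : ∀ a : A, Δ a = δ a := h1
    exact Subtype.ext ((h3 ⟨y, hy⟩).symm.trans
      (h Δ ⟨fun a ha => (h3 ⟨a, ha⟩).symm ▸ (δ ⟨a, ha⟩).2, h2⟩))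
  exact h1.algHom A.val

end Ivrii.T
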