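import Pool.Agent.P.MP_7a8567_an.T.Cl

/-! Specialisations. -/

set_option autoImplicit false

noncomputable section

namespace Ivrii.T

variable {k Ω Ω' : Type*} [Field k] [Field Ω] [Algebra k Ω] [Field Ω'] [Algebra k Ω']

theorem spec_comm {S : Subalgebra k Ω} {T : Subalgebra S Ω} (ψ : T →ₐ[S] Ω) (b : S) (a : T)
    (e : (a : Ω) = b) : ψ a = b := by
  have e' : a = algebraMap S T b := Subtype.ext e
  rw [e', ψ.commutes]
  rfl

theorem spec_res {S U : Subalgebra k Ω} {T : Subalgebra S Ω} (ψ : T →ₐ[S] Ω)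
    (hle : ∀ a : U, (a : Ω) ∈ T) : ∃ φ : U →ₐ[k] Ω, ∀ a, φ a = ψ ⟨a, hle a⟩ :=
  ⟨{ toFun := fun a => ψ ⟨a, hle a⟩
     map_one' := map_one ψ
     map_mul' := fun a b => map_mul ψ ⟨a, hle a⟩ ⟨b, hle b⟩
     map_zero' := map_zero ψ
     map_add' := fun a b => map_add ψ ⟨a, hle a⟩ ⟨b, hle b⟩
     commutes' := fun c => spec_comm ψ (algebraMap k S c) _ rfl }, fun _ => rfl⟩

theorem spec_hom {A B : Type*} [CommRing A] [CommRing B] [Algebra A B] {I : Set B}
    (h : AlgebraicIndependent A ((↑) : I → B)) (v : B → B) :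
    ∃ ψ : Algebra.adjoin A I →ₐ[A] B, ∀ a : Algebra.adjoin A I, (a : B) ∈ I → ψ a = v a := by
  have e : Algebra.adjoin A I = Algebra.adjoin A (Set.range ((↑) : I → B)) := by
    rw [Subtype.range_coe]
  rw [e]
  refine ⟨(MvPolynomial.aeval fun i : I => v i).comp h.aevalEquiv.symm.toAlgHom, fun a ha => ?_⟩
  have e : a = h.aevalEquiv (MvPolynomial.X ⟨a, ha⟩) := by
    apply Subtype.ext
    have := h.algebraMap_aevalEquiv (MvPolynomial.X ⟨a, ha⟩)
    rw [MvPolynomial.aeval_X] at this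
    exact this.symm
  have e2 : h.aevalEquiv.symm a = MvPolynomial.X ⟨a, ha⟩ := by
    rw [AlgEquiv.symm_apply_eq]
    exact e
  rw [AlgHom.comp_apply]
  exact (congrArg _ e2).trans (MvPolynomial.aeval_X _ _)

/-- Independent elements can be sent anywhere. -/
theorem exists_hom_of_ind {N I : Set Ω} (hI : Ind k N I) (v : Ω → Ω) :
    ∃ φ : Algebra.adjoin k (N ∪ I) →ₐ[k] Ω,
      (∀ a : Algebra.adjoin k (N ∪ I), (a : Ω) ∈ N → φ a = a) ∧
      ∀ a : Algebra.adjoin k (N ∪ I), (a : Ω) ∈ I → φ a = v a := by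
  obtain ⟨ψ, hψ⟩ := spec_hom
    ((ind_iff (Algebra.adjoin k N) Algebra.subset_adjoin (adjoin_subset_cl N)).1 hI) v
  have hle : ∀ a : Algebra.adjoin k (N ∪ I),
      (a : Ω) ∈ Algebra.adjoin (Algebra.adjoin k N) I := by
    rintro ⟨a, h1⟩
    rw [Algebra.adjoin_union_eq_adjoin_adjoin k N I] at h1
    exact h1
  obtain ⟨φ, hφ⟩ := spec_res ψ hle
  exact ⟨φ, fun a ha => (hφ a).trans (spec_comm ψ ⟨a, Algebra.subset_adjoin ha⟩ _ rfl),
    fun a ha => (hφ a).trans (hψ ⟨a, hle a⟩ ha)⟩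

/-- A map to an algebraically closed field extends along an integral extension. -/
theorem spec_int [IsAlgClosed Ω'] {R C : Type*} [CommRing R] [CommRing C] [IsDomain C]
    [Algebra R C] [Algebra.IsIntegral R C] (j : R →+* Ω')
    (hj : RingHom.ker (algebraMap R C) ≤ RingHom.ker j) :
    ∃ ψ : C →+* Ω', ∀ r, ψ (algebraMap R C r) = j r := by
  have : (RingHom.ker j).IsPrime := RingHom.ker_isPrime j
  obtain ⟨Q, hQ, hQP⟩ := Ideal.exists_ideal_over_prime_of_isIntegral_of_isDomain (RingHom.ker j) hj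
  have : (Q.comap (algebraMap R C)).IsPrime := Ideal.comap_isPrime _ _
  let j' : R ⧸ Q.comap (algebraMap R C) →+* Ω' :=
    Ideal.Quotient.lift _ j fun a ha => by rw [hQP] at ha; exact ha
  have hj' : Function.Injective j' := by
    rw [injective_iff_map_eq_zero]
    intro a ha
    obtain ⟨a, rfl⟩ := Ideal.Quotient.mk_surjective a
    rw [Ideal.Quotient.eq_zero_iff_mem, hQP]
    exact ha
  let : Algebra (R ⧸ Q.comap (algebraMap R C)) Ω' := j'.toAlgebra
  let : Algebra (R ⧸ Q.comap (algebraMap R C)) (C ⧸ Q) := Ideal.quotientAlgebra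
  have : Algebra.IsIntegral (R ⧸ Q.comap (algebraMap R C)) (C ⧸ Q) := Algebra.IsIntegral.quotient
  have : Module.IsTorsionFree (R ⧸ Q.comap (algebraMap R C)) Ω' :=
    Module.isTorsionFree_iff_algebraMap_injective.2 hj'
  have : Module.IsTorsionFree (R ⧸ Q.comap (algebraMap R C)) (C ⧸ Q) :=
    Module.isTorsionFree_iff_algebraMap_injective.2 Ideal.algebraMap_quotient_injective
  let f : (C ⧸ Q) →ₐ[R ⧸ Q.comap (algebraMap R C)] Ω' := IsAlgClosed.lift
  refine ⟨f.toRingHom.comp (Ideal.Quotient.mk Q), fun r => ?_⟩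
  exact f.commutes (Ideal.Quotient.mk _ r)

/-- A specialisation extends to elements algebraic over a part on which it is injective. -/
theorem spec [IsAlgClosed Ω'] (A₀ : Subalgebra k Ω) (ρ₀ : A₀ →ₐ[k] Ω') {S : Set Ω} (hS : S ⊆ A₀)
    (hinj : ∀ a : A₀, (a : Ω) ∈ Algebra.adjoin k S → ρ₀ a = 0 → a = 0) :
    ∃ ρ : Algebra.adjoin k ((A₀ : Set Ω) ∪ cl k S) →ₐ[k] Ω',
      ∀ (a : Algebra.adjoin k ((A₀ : Set Ω) ∪ cl k S)) (a₀ : A₀), (a : Ω) = a₀ → ρ a = ρ₀ a₀ := by
  have hR : Algebra.adjoin k S ≤ A₀ := Algebra.adjoin_le hS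
  let M : Submonoid A₀ :=
    { carrier := {a | (a : Ω) ∈ Algebra.adjoin k S ∧ a ≠ 0}
      one_mem' := ⟨one_mem _, one_ne_zero⟩
      mul_mem' := fun ha hb => ⟨mul_mem ha.1 hb.1, mul_ne_zero ha.2 hb.2⟩ }
  have hu : ∀ y : M, IsUnit (A₀.val.toRingHom y) := fun y =>
    isUnit_iff_ne_zero.2 fun h => y.2.2 (Subtype.ext h)
  have hu' : ∀ y : M, IsUnit (ρ₀.toRingHom y) := fun y =>
    isUnit_iff_ne_zero.2 fun h => y.2.2 (hinj y y.2.1 h)
  let i : Localization M →+* Ω := IsLocalization.lift hu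
  let j : Localization M →+* Ω' := IsLocalization.lift hu'
  have hi : ∀ a : A₀, i (algebraMap A₀ (Localization M) a) = a := fun a =>
    IsLocalization.lift_eq hu a
  have hj : ∀ a : A₀, j (algebraMap A₀ (Localization M) a) = ρ₀ a := fun a =>
    IsLocalization.lift_eq hu' a
  have hii : ∀ x, i x = 0 → x = 0 := by
    intro x hx
    obtain ⟨⟨a, s⟩, rfl⟩ := IsLocalization.mk'_surjective M x
    have h1 := congrArg i (IsLocalization.mk'_spec (Localization M) a s)
    rw [map_mul, hi, hi] at h1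
    dsimp only at hx
    rw [hx, zero_mul] at h1
    have h2 : a = 0 := Subtype.ext h1.symm
    dsimp only
    rw [h2, IsLocalization.mk'_zero]
  let : Algebra (Localization M) Ω := i.toAlgebra
  obtain ⟨ψ, hψ⟩ := spec_int (C := integralClosure (Localization M) Ω) j (by
    intro x hx
    have h1 : i x = 0 := congrArg Subtype.val hx
    rw [hii x h1]
    exact zero_mem _)
  have hA : ∀ a : A₀, (a : Ω) ∈ integralClosure (Localization M) Ω := fun a => by
    rw [← hi a]
    exact Subalgebra.algebraMap_mem _ _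
  have hc : ∀ a ∈ cl k S, a ∈ integralClosure (Localization M) Ω := by
    intro a ha
    obtain ⟨r, hr, p, hp, hpa⟩ := IsAlgebraic.exists_integral_multiple ha
    let f : Algebra.adjoin k S →+* Localization M :=
      (algebraMap A₀ (Localization M)).comp (Subalgebra.inclusion hR).toRingHom
    have hf : i.comp f = algebraMap (Algebra.adjoin k S) Ω := RingHom.ext fun x => hi _
    have h1 : r • a ∈ integralClosure (Localization M) Ω := by
      refine ⟨p.map f, hp.map f, ?_⟩
      rw [Polynomial.eval₂_map]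
      show Polynomial.eval₂ (i.comp f) _ p = 0
      rw [hf]
      exact hpa
    have hrM : Subalgebra.inclusion hR r ∈ M :=
      ⟨r.2, fun h => hr (Subtype.ext (congrArg (fun x : A₀ => (x : Ω)) h))⟩
    have h2 := congrArg i (IsLocalization.mk'_spec (Localization M) (1 : A₀) ⟨_, hrM⟩)
    rw [map_mul, hi, hi] at h2
    have h3 : a = i (IsLocalization.mk' (Localization M) (1 : A₀) ⟨_, hrM⟩) * (r • a) := by
      have h4 : r • a = (Subalgebra.inclusion hR r : Ω) * a := rfl
      rw [h4, ← mul_assoc, h2]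
      simp
    rw [h3]
    exact mul_mem (Subalgebra.algebraMap_mem _ _) h1
  have hB : ∀ a ∈ Algebra.adjoin k ((A₀ : Set Ω) ∪ cl k S),
      a ∈ integralClosure (Localization M) Ω := by
    intro a ha
    induction ha using Algebra.adjoin_induction with
    | mem x hx =>
      rcases hx with hx | hx
      · exact hA ⟨x, hx⟩
      · exact hc x hx
    | algebraMap c => exact hA (algebraMap k A₀ c)
    | add x y _ _ hx hy => exact add_mem hx hy
    | mul x y _ _ hx hy => exact mul_mem hx hy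
  let ι : Algebra.adjoin k ((A₀ : Set Ω) ∪ cl k S) →+* integralClosure (Localization M) Ω :=
    { toFun := fun a => ⟨a, hB a a.2⟩
      map_one' := rfl
      map_mul' := fun _ _ => rfl
      map_zero' := rfl
      map_add' := fun _ _ => rfl }
  have key : ∀ (a : Algebra.adjoin k ((A₀ : Set Ω) ∪ cl k S)) (a₀ : A₀), (a : Ω) = a₀ →
      ψ (ι a) = ρ₀ a₀ := by
    intro a a₀ h
    rw [← hj, ← hψ]
    congr 1
    apply Subtype.ext
    exact h.trans (hi a₀).symm
  refine ⟨{ ψ.comp ι with commutes' := fun c => ?_ }, key⟩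
  exact (key _ (algebraMap k A₀ c) rfl).trans (ρ₀.commutes c)

end Ivrii.T
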