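import Pool.Agent.P.MP_7a8567_an.T.Defs2
import Pool.Agent.P.MP_7a8567_an.T.FR
import Pool.Agent.P.MP_7a8567_an.T.Spec

/-! Step 1a: the specialisation to a tangent line. -/

set_option autoImplicit false

open PowerSeries Ivrii.PX

noncomputable section

namespace Ivrii.T

open DF DF.Hyp

variable {k Ω : Type*} [Field k] [CharZero k] [IsAlgClosed k] [Field Ω] [IsAlgClosed Ω]
  [Algebra k Ω] {𝔇 : DF k Ω}

theorem exists_rho (H : 𝔇.Hyp) : Nonempty H.Rho := by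
  classical
  obtain ⟨s, hs⟩ := IsAlgClosed.exists_pow_nat_eq H.q two_pos
  have hjκ : (𝔇.jet H.z H.w : Set Ω) ⊆ H.κ := subset_cl _
  have hκ : cl k H.κ = H.κ := cl_cl _
  have sκ : s ∈ H.κ := cl_of_pow two_ne_zero (by rw [hs]; exact hjκ H.lk.q_mem_jet)
  have zκ : H.z ∈ H.κ := hjκ (z_mem_jet _ _)
  have wκ : H.w ∈ H.κ := hjκ (w_mem_jet _ _)
  have tL : H.t ∈ H.LL := H.sub H.tM
  have PL : H.P ∈ H.LL := H.sub H.PM
  have htP : ({H.t, H.P} : Set Ω) ⊆ cl k H.LL :=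
    Set.insert_subset (mem_cl tL) (Set.singleton_subset_iff.2 (mem_cl PL))
  have hT : H.z ∉ cl k {H.w} := fun h =>
    H.wL (H.LLc.cl_eq ▸ cl_subset_cl htP (H.lk.alg_iff.1 h))
  obtain ⟨is, iP⟩ := H.lk.tangent_indep hT hs
  obtain ⟨I, -, hI, hjI⟩ := fr H.lk H.LLc tL PL H.wL
  obtain ⟨b, -, bL, hb, span⟩ := exists_basis (k := k) (N := {H.t, H.P}) (S := H.LL) (I₀ := ∅)
    (Set.empty_subset _) (fun _ h => h.elim)
  have bind : Ind k (insert H.t H.κ) b :=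
    (hI.symm htP (bL.trans (subset_cl _)) hb).mono
      (Set.insert_subset (mem_cl (by simp)) (cl_subset_cl hjI)) le_rfl
  have hκt : H.κ ⊆ cl k (insert H.t H.κ) := (Set.subset_insert _ _).trans (subset_cl _)
  have bκ : Ind k H.κ b := bind.mono hκt le_rfl
  have tn : H.t ∉ cl k (H.κ ∪ b) := fun h =>
    H.lk.t_notMem (hκ ▸ bind.mem_cl hκt (mem_cl (Set.mem_insert _ _)) h :)
  have tb : ∀ y ∈ b, y ≠ H.t := fun y hy e => tn (mem_cl (Or.inr (e ▸ hy)))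
  let A₀ := Algebra.adjoin k (H.κ ∪ insert H.t b)
  obtain ⟨φ, φκ, φI⟩ : ∃ φ : A₀ →ₐ[k] Ω, (∀ a : A₀, (a : Ω) ∈ H.κ → φ a = a) ∧
      ∀ a : A₀, (a : Ω) ∈ insert H.t b → φ a = if (a : Ω) = H.t then s else a :=
    exists_hom_of_ind (bκ.insert tn) fun y => if y = H.t then s else y
  have κA : H.κ ⊆ A₀ := Set.subset_union_left.trans Algebra.subset_adjoin
  have tA : H.t ∈ A₀ := Algebra.subset_adjoin (Or.inr (Set.mem_insert _ _))
  have bA : b ⊆ A₀ := fun y hy => Algebra.subset_adjoin (Or.inr (Set.mem_insert_of_mem _ hy))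
  have φt : ∀ a : A₀, (a : Ω) = H.t → φ a = s := fun a e => by
    rw [φI a (Or.inl e), if_pos e]
  have φb : ∀ a : A₀, (a : Ω) ∈ b → φ a = a := fun a h => by
    rw [φI a (Or.inr h), if_neg (tb _ h)]
  have t0 : H.t ≠ 0 := H.lk.l₀.t_ne
  have s0 : s ≠ 0 := fun e => is (e ▸ cl_zero _)
  let t' : A₀ := ⟨H.t, tA⟩
  let u' : A₀ := ⟨H.z, κA zκ⟩ - ⟨H.w, κA wκ⟩ * t' ^ 2
  have hu : (u' : Ω) = H.z - H.w * H.t ^ 2 := rfl
  have φt' : φ t' = s := φt t' rfl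
  have φu : φ u' = H.z - H.w * s ^ 2 := by
    rw [map_sub, map_mul, map_pow, φt', φκ _ zκ, φκ _ wκ]
  have uκ : H.z - H.w * s ^ 2 ∈ H.κ := hκ ▸ cl_sub (mem_cl zκ) (cl_mul (mem_cl wκ)
    (cl_pow (mem_cl sκ) 2))
  have h2 := inj_of_pair φ (a := t') (b := u') (by rwa [φt']) (by
    rw [φt', φu]
    intro h
    refine iP ?_
    have : H.z / s - H.w * s = (H.z - H.w * s ^ 2) / s := by field_simp
    rw [this]
    exact cl_div h (mem_cl rfl))
  have h3 := inj_of_ind φ (N := {t', u'}) (I := Subtype.val ⁻¹' b)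
    (fun a ha => h2 a (adjoin_subset_cl _ ha)) (fun y hy h => by
      rw [φb y hy] at h
      refine bκ y hy (cl_mono ?_ h)
      rintro _ ⟨a, (rfl | rfl) | ⟨ha, hne⟩, rfl⟩
      · exact Or.inl (φt' ▸ sκ)
      · exact Or.inl (φu ▸ uκ)
      · rw [φb a ha]
        exact Or.inr ⟨ha, fun e => hne (Subtype.ext e)⟩)
  obtain ⟨ρ, hρ⟩ := spec A₀ φ (S := {H.t, (u' : Ω)} ∪ b)
    (Set.union_subset (Set.insert_subset tA (Set.singleton_subset_iff.2 u'.2)) bA)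
    (fun a ha => h3 a ((cl_map_iff A₀.val Subtype.val_injective _ a).1
      (cl_mono (by
        rintro y ((rfl | rfl) | hy)
        · exact ⟨t', Or.inl (Or.inl rfl), rfl⟩
        · exact ⟨u', Or.inl (Or.inr rfl), rfl⟩
        · exact ⟨⟨y, bA hy⟩, Or.inr hy, rfl⟩) (adjoin_subset_cl _ ha))))
  have hle : H.B ≤ Algebra.adjoin k ((A₀ : Set Ω) ∪ cl k ({H.t, (u' : Ω)} ∪ b)) := by
    refine Algebra.adjoin_mono (Set.union_subset ?_ (κA.trans Set.subset_union_left))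
    refine (span.trans (cl_subset_cl ?_)).trans Set.subset_union_right
    rintro y ((rfl | rfl) | hy)
    · exact mem_cl (Or.inl (Or.inl rfl))
    · have : H.P = (u' : Ω) / H.t := by rw [hu, H.lk.on₀]; field_simp
      rw [this]
      exact cl_div (mem_cl (Or.inl (Or.inr rfl))) (mem_cl (Or.inl (Or.inl rfl)))
    · exact mem_cl (Or.inr hy)
  have key : ∀ (y : H.B) (a : A₀), (y : Ω) = a → ρ.comp (Subalgebra.inclusion hle) y = φ a :=
    fun y a e => hρ ⟨y, hle y.2⟩ a e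
  refine ⟨⟨s, b, ρ.comp (Subalgebra.inclusion hle), hs, sκ, is, iP, bL, bind, span,
    fun y hy => ?_, fun y hy => ?_, fun y hy => ?_⟩⟩
  · rw [key y ⟨y, κA hy⟩ rfl]; exact φκ _ hy
  · rw [key y ⟨y, bA hy⟩ rfl]; exact φb _ hy
  · rw [key y t' hy]; exact φt'

end Ivrii.T
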